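import Pool.Agent.Lib.MP_f46d6a.Base3

/-!
# Radial kernels with explicit potentials
-/

set_option autoImplicit false

open MeasureTheory Set Filter Topology
open scoped ContDiff

namespace Pool.Agent.Lib.MP_f46d6a

open Pool.Agent.Lib.MP_dac83a

/-- squared Euclidean norm -/
noncomputable def r2 (z : P) : ℝ := z.1 ^ 2 + z.2 ^ 2

theorem r2_nonneg (z : P) : 0 ≤ r2 z := by unfold r2; positivity
theorem r2_contDiff {n : WithTop ℕ∞} : ContDiff ℝ n r2 := by unfold r2; fun_prop
theorem r2_cont : Continuous r2 := (r2_contDiff (n := 0)).continuous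
theorem r2_zero : r2 0 = 0 := by simp [r2]
theorem r2_pos {z : P} (hz : z ≠ 0) : 0 < r2 z := by
  unfold r2
  rcases eq_or_ne z.1 0 with h | h
  · have : z.2 ≠ 0 := fun h' => hz (Prod.ext h h')
    positivity
  · positivity
theorem r2_eq_zero {z : P} : r2 z = 0 ↔ z = 0 :=
  ⟨fun h => by_contra fun h' => (r2_pos h').ne' h, fun h => by rw [h, r2_zero]⟩
theorem r2_neg (z : P) : r2 (-z) = r2 z := by simp [r2]
theorem r2_smul (s : ℝ) (z : P) : r2 (s • z) = s ^ 2 * r2 z := by simp [r2]; ring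

theorem norm_sq_le_r2 (z : P) : ‖z‖ ^ 2 ≤ r2 z := by
  rw [Prod.norm_def]
  unfold r2
  rcases le_total ‖z.1‖ ‖z.2‖ with h | h
  · rw [max_eq_right h, Real.norm_eq_abs, sq_abs]; nlinarith [sq_nonneg z.1]
  · rw [max_eq_left h, Real.norm_eq_abs, sq_abs]; nlinarith [sq_nonneg z.2]

theorem r2_le_norm_sq (z : P) : r2 z ≤ 2 * ‖z‖ ^ 2 := by
  have h1 : |z.1| ≤ ‖z‖ := norm_fst_le z
  have h2 : |z.2| ≤ ‖z‖ := norm_snd_le z
  unfold r2
  rw [← sq_abs z.1, ← sq_abs z.2]
  nlinarith [abs_nonneg z.1, abs_nonneg z.2, pow_le_pow_left₀ (abs_nonneg z.1) h1 2,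
    pow_le_pow_left₀ (abs_nonneg z.2) h2 2]

theorem dd_r2 (v z : P) : dd v r2 z = 2 * (z.1 * v.1 + z.2 * v.2) := by
  have h1 : HasFDerivAt (fun z : P => z.1 ^ 2) ((2 * z.1) • ContinuousLinearMap.fst ℝ ℝ ℝ) z := by
    have := (hasFDerivAt_fst (𝕜 := ℝ) (E := ℝ) (F := ℝ) (p := z)).pow 2
    simpa using this
  have h2 : HasFDerivAt (fun z : P => z.2 ^ 2) ((2 * z.2) • ContinuousLinearMap.snd ℝ ℝ ℝ) z := by
    have := (hasFDerivAt_snd (𝕜 := ℝ) (E := ℝ) (F := ℝ) (p := z)).pow 2
    simpa using this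
  have h := (h1.add h2).fderiv
  have e : (fun z : P => z.1 ^ 2) + (fun z : P => z.2 ^ 2) = r2 := rfl
  rw [e] at h
  simp only [dd, h]
  simp
  ring

theorem dd_ex_r2 (z : P) : dd ex r2 z = 2 * z.1 := by rw [dd_r2]; simp
theorem dd_ey_r2 (z : P) : dd ey r2 z = 2 * z.2 := by rw [dd_r2]; simp

/-- the averaging kernel at scale `s` -/
noncomputable def mker (s : ℝ) (z : P) : ℝ := 4 * bb (2 * Real.log s - Real.log (r2 z)) / r2 z

/-- the potential of `mker ρ - mker R` -/
noncomputable def gk (ρ R : ℝ) (z : P) : ℝ :=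
  if r2 z = 0 then 2 * Real.log (R / ρ) else
    Lm (2 * Real.log R - Real.log (r2 z)) - Lm (2 * Real.log ρ - Real.log (r2 z))

theorem mk_nonneg (s : ℝ) (z : P) : 0 ≤ mker s z :=
  div_nonneg (mul_nonneg (by norm_num) (bb_nonneg _)) (r2_nonneg z)

theorem mk_neg (s : ℝ) (z : P) : mker s (-z) = mker s z := by simp [mker, r2_neg]
theorem gk_neg (ρ R : ℝ) (z : P) : gk ρ R (-z) = gk ρ R z := by simp [gk, r2_neg]

theorem log_le_aux {s : ℝ} (hs : 0 < s) {z : P} (hz : 0 < r2 z) :
    2 * Real.log s - Real.log (r2 z) ≤ 0 ↔ s ^ 2 ≤ r2 z := by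
  rw [sub_nonpos, show 2 * Real.log s = Real.log (s ^ 2) by rw [Real.log_pow]; norm_num,
    Real.log_le_log_iff (by positivity) hz]

/-- the kernel lives on an annulus -/
theorem mk_zero_out {s : ℝ} (hs : 0 < s) {z : P} (hz : s ^ 2 ≤ r2 z) : mker s z = 0 := by
  have hp : 0 < r2 z := lt_of_lt_of_le (by positivity) hz
  unfold mker
  rw [bb_of_nonpos ((log_le_aux hs hp).2 hz)]; simp

theorem mk_zero_in {s : ℝ} (hs : 0 < s) {z : P} (hz : r2 z ≤ Real.exp (-1) * s ^ 2) :
    mker s z = 0 := by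
  rcases eq_or_lt_of_le (r2_nonneg z) with h | h
  · simp [mker, ← h]
  · unfold mker
    rw [bb_of_one_le]
    · simp
    · have := Real.log_le_log h hz
      rw [Real.log_mul (Real.exp_pos _).ne' (by positivity), Real.log_exp, Real.log_pow] at this
      push_cast at this
      linarith

theorem exp_neg_one_gt : (1 : ℝ) / 3 < Real.exp (-1) := by
  rw [Real.exp_neg, one_div]
  apply inv_strictAnti₀ (Real.exp_pos 1)
  have := Real.exp_one_lt_d9; linarith

theorem mk_le {s : ℝ} (hs : 0 < s) (z : P) : mker s z ≤ 24 / s ^ 2 := by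
  rcases le_total (r2 z) (Real.exp (-1) * s ^ 2) with h | h
  · rw [mk_zero_in hs h]; positivity
  · have h1 : s ^ 2 / 3 < r2 z := by
      have := exp_neg_one_gt
      have h2 : 0 < s ^ 2 := by positivity
      nlinarith
    have hp : 0 < r2 z := lt_trans (by positivity) h1
    unfold mker
    rw [div_le_div_iff₀ hp (by positivity)]
    have h3 := bb_le (2 * Real.log s - Real.log (r2 z))
    have h4 : 0 < s ^ 2 := by positivity
    nlinarith [bb_nonneg (2 * Real.log s - Real.log (r2 z))]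

theorem bb_ge {t : ℝ} (h0 : 2 / 5 ≤ t) (h1 : t ≤ 3 / 5) : 3 / 4 ≤ bb t := by
  rw [bb_eq (by linarith) (by linarith)]
  have h2 : 6 / 25 ≤ t * (1 - t) := by nlinarith
  have : 30 * t ^ 2 * (1 - t) ^ 2 = 30 * (t * (1 - t)) ^ 2 := by ring
  rw [this]
  nlinarith

/-- lower bound of the kernel on a thinner annulus -/
theorem mk_ge {s : ℝ} (hs : 0 < s) {z : P} (h1 : Real.exp (-(3 / 5)) * s ^ 2 ≤ r2 z)
    (h2 : r2 z ≤ Real.exp (-(2 / 5)) * s ^ 2) : 3 / s ^ 2 ≤ mker s z := by
  have hp : 0 < r2 z := lt_of_lt_of_le (by positivity) h1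
  have l1 := Real.log_le_log (by positivity) h1
  have l2 := Real.log_le_log hp h2
  rw [Real.log_mul (Real.exp_pos _).ne' (by positivity), Real.log_exp, Real.log_pow] at l1 l2
  push_cast at l1 l2
  have hb := bb_ge (t := 2 * Real.log s - Real.log (r2 z)) (by linarith) (by linarith)
  have h3 : r2 z ≤ s ^ 2 := by
    have : Real.exp (-(2 / 5)) ≤ 1 := Real.exp_le_one_iff.2 (by norm_num)
    have h4 : 0 < s ^ 2 := by positivity
    nlinarith
  unfold mker
  rw [div_le_div_iff₀ (by positivity) hp]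
  have h4 : 0 < s ^ 2 := by positivity
  nlinarith

theorem mk_cont {s : ℝ} (hs : 0 < s) : Continuous (mker s) := by
  rw [continuous_iff_continuousAt]
  intro z
  by_cases hz : z = 0
  · have hev : mker s =ᶠ[𝓝 z] fun _ => 0 := by
      have : {z : P | r2 z < Real.exp (-1) * s ^ 2} ∈ 𝓝 z := by
        apply (isOpen_lt r2_cont continuous_const).mem_nhds
        simp only [mem_ofPred_eq, hz, r2_zero]
        positivity
      filter_upwards [this] with w hw
      exact mk_zero_in hs hw.le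
    exact continuousAt_const.congr hev.symm
  · have hp := r2_pos hz
    unfold mker
    apply ContinuousAt.div _ r2_cont.continuousAt hp.ne'
    apply ContinuousAt.mul continuousAt_const
    apply bb_cont.continuousAt.comp
    apply ContinuousAt.sub continuousAt_const
    exact (Real.continuousAt_log hp.ne').comp r2_cont.continuousAt

theorem mk_support {s : ℝ} (hs : 0 < s) : Function.support (mker s) ⊆ Metric.closedBall 0 s := by
  intro z hz
  by_contra h
  apply hz
  apply mk_zero_out hs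
  rw [Metric.mem_closedBall, dist_zero_right, not_le] at h
  have := norm_sq_le_r2 z
  nlinarith

theorem mk_cpt {s : ℝ} (hs : 0 < s) : HasCompactSupport (mker s) :=
  HasCompactSupport.intro (isCompact_closedBall 0 s) (fun z hz => by
    by_contra h; exact hz (mk_support hs h))

theorem mk_int {s : ℝ} (hs : 0 < s) : Integrable (mker s) :=
  (mk_cont hs).integrable_of_hasCompactSupport (mk_cpt hs)

theorem mk_memLp {s : ℝ} (hs : 0 < s) : MemLp (mker s) 2 volume :=
  (mk_cont hs).memLp_of_hasCompactSupport (mk_cpt hs)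

/-- total mass -/
noncomputable def mu0 : ℝ := ∫ z, mker 1 z

theorem mk_scale {s : ℝ} (hs : 0 < s) (z : P) : mker s z = (s ^ 2)⁻¹ * mker 1 (s⁻¹ • z) := by
  rcases eq_or_lt_of_le (r2_nonneg z) with h | h
  · simp [mker, ← h, r2_smul]
  · unfold mker
    rw [r2_smul]
    have hs2 : 0 < s ^ 2 := by positivity
    rw [Real.log_mul (by positivity) h.ne', inv_pow, Real.log_inv, Real.log_pow]
    push_cast
    rw [Real.log_one, show 2 * (0 : ℝ) - (-(2 * Real.log s) + Real.log (r2 z))
      = 2 * Real.log s - Real.log (r2 z) by ring]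
    field_simp

theorem mk_mass {s : ℝ} (hs : 0 < s) : ∫ z, mker s z = mu0 := by
  simp only [mk_scale hs]
  rw [integral_const_mul, Measure.integral_comp_inv_smul]
  have : Module.finrank ℝ P = 2 := by simp [P]
  rw [this, abs_of_pos (by positivity), smul_eq_mul, ← mul_assoc, inv_mul_cancel₀ (by positivity),
    one_mul]
  rfl

theorem mu0_pos : 0 < mu0 := by
  unfold mu0
  rw [integral_pos_iff_support_of_nonneg (fun z => mk_nonneg 1 z) (mk_int one_pos)]
  · apply (IsOpen.measure_pos volume)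
    · exact (mk_cont one_pos).isOpen_support
    · refine ⟨(Real.exp (-(1 / 4)), 0), ?_⟩
      have hr : r2 (Real.exp (-(1 / 4)), 0) = Real.exp (-(1 / 2)) := by
        simp only [r2]
        rw [← Real.exp_nat_mul]
        norm_num
      have := mk_ge one_pos (z := (Real.exp (-(1 / 4)), 0))
        (by rw [hr, one_pow, mul_one]; exact Real.exp_le_exp.2 (by norm_num))
        (by rw [hr, one_pow, mul_one]; exact Real.exp_le_exp.2 (by norm_num))
      simp only [Function.mem_support]
      have h3 : (0 : ℝ) < 3 / 1 ^ 2 := by norm_num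
      exact (lt_of_lt_of_le h3 this).ne'

end Pool.Agent.Lib.MP_f46d6a
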