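import Pool.Agent.Lib.MP_f46d6a.Defs

/-!
# Subsolutions: monotone dyadic averages, the upper semicontinuous representative, cutting along
level sets
-/

set_option autoImplicit false

open MeasureTheory Set Filter Topology
open scoped ContDiff

namespace Pool.Agent.Lib.MP_f46d6a

open Pool.Agent.Lib.MP_dac83a

/-- `u ≥ 0` in `H¹` of the plane with `-Δu ≤ C` weakly -/
structure SubC (C : ℝ) (u a b : P → ℝ) : Prop where
  mem : H0 univ u a b
  nonneg : ∀ᵐ z, 0 ≤ u z
  C0 : 0 ≤ C
  sub : ∀ η, IsTest1 univ η → (∀ z, 0 ≤ η z) →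
    ∫ z, (a z * dd ex η z + b z * dd ey η z) ≤ C * ∫ z, η z

theorem _root_.Pool.Agent.Lib.MP_dac83a.IsTest1.bdd {U : Set P} {η : P → ℝ} (h : IsTest1 U η) :
    ∃ C, 0 ≤ C ∧ (∀ z, |η z| ≤ C) ∧ (∀ z, |dd ex η z| ≤ C) ∧ (∀ z, |dd ey η z| ≤ C) := by
  have key : ∀ f : P → ℝ, Continuous f → HasCompactSupport f → ∃ C, ∀ z, |f z| ≤ C := by
    intro f hf hc
    obtain ⟨C, hC⟩ := hf.bounded_above_of_compact_support hc
    exact ⟨C, hC⟩
  obtain ⟨C1, h1⟩ := key η h.smooth.continuous h.cpt
  obtain ⟨C2, h2⟩ := key (dd ex η) (dd_contDiff (m := 0) h.smooth (by norm_num) ex).continuous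
    (dd_hasCompactSupport h.cpt ex)
  obtain ⟨C3, h3⟩ := key (dd ey η) (dd_contDiff (m := 0) h.smooth (by norm_num) ey).continuous
    (dd_hasCompactSupport h.cpt ey)
  refine ⟨|C1| + |C2| + |C3|, by positivity, fun z => ?_, fun z => ?_, fun z => ?_⟩
  · have := (h1 z).trans (le_abs_self C1)
    have := abs_nonneg C2; have := abs_nonneg C3; linarith
  · have := (h2 z).trans (le_abs_self C2)
    have := abs_nonneg C1; have := abs_nonneg C3; linarith
  · have := (h3 z).trans (le_abs_self C3)
    have := abs_nonneg C1; have := abs_nonneg C2; linarith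

/-- a nonnegative solution in `U` extended by zero is a subsolution in the plane -/
theorem H0.sub_sol {U : Set P} (hU : IsOpen U) {u a b f : P → ℝ} (h : H0 U u a b)
    (hu : ∀ᵐ z, 0 ≤ u z) (hf : MemLp f 2 volume) (hf0 : ∀ᵐ z, 0 ≤ f z)
    (eq : ∀ η ηx ηy, H0 U η ηx ηy → ∫ z, (a z * ηx z + b z * ηy z) = ∫ z, f z * η z)
    {η : P → ℝ} (hη : IsTest1 univ η) (h0 : ∀ z, 0 ≤ η z) :
    ∫ z, (a z * dd ex η z + b z * dd ey η z) ≤ ∫ z, f z * η z := by
  obtain ⟨C, hC0, hC1, hC2, hC3⟩ := hη.bdd
  have mη := IsTest1.memLp hη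
  have mηx := IsTest1.dd_memLp hη ex
  have mηy := IsTest1.dd_memLp hη ey
  have kz := kink_zero hU h
  set q : ℕ → ℝ := fun n => 1 / ((n : ℝ) + 1) with hq
  have qpos : ∀ n, 0 < q n := fun n => by positivity
  have qlim : Tendsto q atTop (𝓝 0) := tendsto_one_div_add_atTop_nhds_zero_nat
  -- the key inequality
  have key : ∀ n, ∫ z, (min (u z) (q n) / q n) * (a z * dd ex η z + b z * dd ey η z)
      ≤ ∫ z, f z * η z := by
    intro n
    have h1 := (minLevel hU h (qpos n).le).mul_C1 hU hη.smooth hC1 hC2 hC3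
    have h2 := eq _ _ _ h1
    have ia : Integrable (fun z => (min (u z) (q n)) * (a z * dd ex η z + b z * dd ey η z)) := by
      have i0 := ((integrable_mul2 h.ma mηx).add (integrable_mul2 h.mb mηy))
      refine (i0.norm.const_mul (q n)).mono' ?_ ?_
      · exact (minLevel hU h (qpos n).le).mu.aestronglyMeasurable.mul i0.aestronglyMeasurable
      · filter_upwards [hu] with z hz
        rw [norm_mul]
        apply mul_le_mul_of_nonneg_right _ (norm_nonneg _)
        rw [Real.norm_eq_abs, abs_of_nonneg (le_min hz (qpos n).le)]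
        exact min_le_right _ _
    have ib : Integrable (fun z => η z * ((if u z ≤ q n then a z else 0) * a z
        + (if u z ≤ q n then b z else 0) * b z)) := by
      have i0 := ((integrable_mul2 (minLevel hU h (qpos n).le).ma h.ma).add
        (integrable_mul2 (minLevel hU h (qpos n).le).mb h.mb))
      refine (i0.norm.const_mul C).mono' ?_ ?_
      · exact mη.aestronglyMeasurable.mul i0.aestronglyMeasurable
      · filter_upwards with z
        rw [norm_mul]
        apply mul_le_mul_of_nonneg_right _ (norm_nonneg _)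
        exact hC1 z
    have e1 : ∫ z, (a z * (η z * (if u z ≤ q n then a z else 0) + dd ex η z * min (u z) (q n))
        + b z * (η z * (if u z ≤ q n then b z else 0) + dd ey η z * min (u z) (q n)))
        = (∫ z, (min (u z) (q n)) * (a z * dd ex η z + b z * dd ey η z))
          + ∫ z, η z * ((if u z ≤ q n then a z else 0) * a z
            + (if u z ≤ q n then b z else 0) * b z) := by
      rw [← integral_add ia ib]
      congr 1; ext z; ring
    rw [e1] at h2
    have p1 : 0 ≤ ∫ z, η z * ((if u z ≤ q n then a z else 0) * a z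
            + (if u z ≤ q n then b z else 0) * b z) := by
      apply integral_nonneg
      intro z
      apply mul_nonneg (h0 z)
      split_ifs
      · exact add_nonneg (mul_self_nonneg _) (mul_self_nonneg _)
      · simp
    have p2 : ∫ z, f z * (η z * min (u z) (q n)) ≤ q n * ∫ z, f z * η z := by
      rw [← integral_const_mul]
      apply integral_mono_ae (integrable_mul2 hf h1.mu) ((integrable_mul2 hf mη).const_mul _)
      filter_upwards [hu, hf0] with z hz hz'
      have : f z * (η z * min (u z) (q n)) ≤ f z * (η z * q n) := by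
        apply mul_le_mul_of_nonneg_left _ hz'
        exact mul_le_mul_of_nonneg_left (min_le_right _ _) (h0 z)
      linarith
    have e2 : ∫ z, (min (u z) (q n) / q n) * (a z * dd ex η z + b z * dd ey η z)
        = (∫ z, (min (u z) (q n)) * (a z * dd ex η z + b z * dd ey η z)) / q n := by
      rw [← integral_div]
      congr 1; ext z; ring
    rw [e2, div_le_iff₀ (qpos n)]
    linarith
  -- limit
  have lim : Tendsto (fun n => ∫ z, (min (u z) (q n) / q n) *
      (a z * dd ex η z + b z * dd ey η z)) atTop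
      (𝓝 (∫ z, (a z * dd ex η z + b z * dd ey η z))) := by
    have i0 := ((integrable_mul2 h.ma mηx).add (integrable_mul2 h.mb mηy))
    apply tendsto_integral_of_dominated_convergence
      (fun z => ‖a z * dd ex η z + b z * dd ey η z‖)
    · intro n
      exact (((minLevel hU h (qpos n).le).mu.aestronglyMeasurable).div₀ (by fun_prop)).mul
        i0.aestronglyMeasurable
    · exact i0.norm
    · intro n
      filter_upwards [hu] with z hz
      rw [norm_mul]
      apply mul_le_of_le_one_left (norm_nonneg _)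
      rw [Real.norm_eq_abs, abs_of_nonneg (div_nonneg (le_min hz (qpos n).le) (qpos n).le),
        div_le_one (qpos n)]
      exact min_le_right _ _
    · filter_upwards [hu, kz] with z hz hk
      rcases hz.eq_or_lt with h' | h'
      · obtain ⟨e1, e2⟩ := hk h'.symm
        simp [e1, e2]
      · refine tendsto_const_nhds.congr' ?_
        have : ∀ᶠ n in atTop, q n < u z := qlim.eventually_lt_const h'
        filter_upwards [this] with n hn
        rw [min_eq_right hn.le, div_self (qpos n).ne', one_mul]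
  exact le_of_tendsto' lim key

theorem gk_int_le {r : ℝ} (hr : 0 < r) (x : P) : ∫ z, gk (r / 2) r (z - x) ≤ 8 * r ^ 2 := by
  have hle : r / 2 ≤ r := by linarith
  rw [integral_sub_right_eq_self (fun z => gk (r / 2) r z) x]
  have h2 : (r / (r / 2)) = 2 := by field_simp
  have hb : ∀ z, gk (r / 2) r z ≤ 2 * Real.log 2 := fun z => by
    have := gk_le (by positivity) hle z
    rwa [h2] at this
  have hs : ∀ z, z ∉ Metric.closedBall (0 : P) r → gk (r / 2) r z = 0 := by
    intro z hz
    by_contra h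
    exact hz (gk_support (by positivity) hle h)
  rw [← setIntegral_eq_integral_of_forall_compl_eq_zero hs]
  have hv : (volume (Metric.closedBall (0 : P) r)).toReal = 4 * r ^ 2 := by
    have : Metric.closedBall (0 : P) r = Metric.closedBall (0 : ℝ) r ×ˢ Metric.closedBall (0 : ℝ) r :=
      (closedBall_prod_same (0 : ℝ) (0 : ℝ) r).symm
    rw [this, Measure.volume_eq_prod, Measure.prod_prod, Real.volume_closedBall, ENNReal.toReal_mul,
      ENNReal.toReal_ofReal (by positivity)]
    ring
  have hfin : volume (Metric.closedBall (0 : P) r) ≠ ⊤ :=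
    (isCompact_closedBall (0 : P) r).measure_ne_top
  calc ∫ z in Metric.closedBall (0 : P) r, gk (r / 2) r z
      ≤ ∫ z in Metric.closedBall (0 : P) r, (2 * Real.log 2) := by
        apply setIntegral_mono_on _ (integrableOn_const hfin)
          (measurableSet_closedBall) (fun z _ => hb z)
        exact ((gk_contDiff (by positivity) hle).continuous.integrable_of_hasCompactSupport
          (gk_cpt (by positivity) hle)).integrableOn
    _ = 4 * r ^ 2 * (2 * Real.log 2) := by
        rw [setIntegral_const, smul_eq_mul]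
        unfold Measure.real
        rw [hv]
    _ ≤ 8 * r ^ 2 := by
        have := Real.log_two_lt_d9
        nlinarith [sq_nonneg r]

/-- a solution with bounded right-hand side is a subsolution -/
theorem H0.subC {U : Set P} (hU : IsOpen U) {u a b f : P → ℝ} (h : H0 U u a b)
    (hu : ∀ᵐ z, 0 ≤ u z) (hf : MemLp f 2 volume) (hf0 : ∀ᵐ z, 0 ≤ f z) {C : ℝ} (hC0 : 0 ≤ C)
    (hC : ∀ᵐ z, f z ≤ C)
    (eq : ∀ η ηx ηy, H0 U η ηx ηy → ∫ z, (a z * ηx z + b z * ηy z) = ∫ z, f z * η z) :
    SubC C u a b := by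
  refine ⟨h.mono (subset_univ _), hu, hC0, ?_⟩
  intro η hη h0
  refine (h.sub_sol hU hu hf hf0 eq hη h0).trans ?_
  rw [← integral_const_mul]
  apply integral_mono_ae (integrable_mul2 hf (IsTest1.memLp hη))
    ((hη.smooth.continuous.integrable_of_hasCompactSupport hη.cpt).const_mul _)
  filter_upwards [hC] with z hz
  exact mul_le_mul_of_nonneg_right hz (h0 z)

namespace SubC

variable {C : ℝ} {u a b : P → ℝ}

theorem av_mono (h : SubC C u a b) {ρ R : ℝ} (hρ : 0 < ρ) (hR : ρ ≤ R) (x : P) :
    av ρ u x ≤ av R u x + C * ∫ z, gk ρ R (z - x) := by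
  have h1 := h.mem.test_gk hρ hR x
  have h2 := h.sub _ (gkt_test hρ hR x) (fun z => gk_nonneg hρ hR _)
  simp only [dd_trans] at h2
  rw [h1] at h2
  unfold av
  linarith

theorem av_half (h : SubC C u a b) {r : ℝ} (hr : 0 < r) (x : P) :
    av (r / 2) u x ≤ av r u x + C * (8 * r ^ 2) := by
  have h1 := h.av_mono (half_pos hr) (by linarith : r / 2 ≤ r) x
  have h2 := mul_le_mul_of_nonneg_left (gk_int_le hr x) h.C0
  linarith

theorem av_nonneg (h : SubC C u a b) (s : ℝ) (x : P) : 0 ≤ av s u x := by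
  apply integral_nonneg_of_ae
  filter_upwards [h.nonneg] with z hz
  exact mul_nonneg hz (mk_nonneg _ _)

end SubC

/-- normalised dyadic averages, corrected so as to be decreasing for subsolutions -/
noncomputable def dy (C : ℝ) (u : P → ℝ) (k : ℕ) (x : P) : ℝ :=
  (av ((1 / 2 : ℝ) ^ k) u x + 11 * C * ((1 / 2 : ℝ) ^ k) ^ 2) / mu0

/-- the upper semicontinuous representative -/
noncomputable def star (C : ℝ) (u : P → ℝ) (x : P) : ℝ := ⨅ k, dy C u k x

namespace SubC

variable {C : ℝ} {u a b : P → ℝ}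

theorem dy_nonneg (h : SubC C u a b) (k : ℕ) (x : P) : 0 ≤ dy C u k x := by
  have h1 := h.av_nonneg ((1 / 2 : ℝ) ^ k) x
  have h2 := h.C0
  have h3 := mu0_pos
  unfold dy
  positivity

theorem dy_succ (h : SubC C u a b) (k : ℕ) (x : P) : dy C u (k + 1) x ≤ dy C u k x := by
  unfold dy
  apply div_le_div_of_nonneg_right _ mu0_pos.le
  have hp : (0 : ℝ) < (1 / 2 : ℝ) ^ k := by positivity
  have h1 := h.av_half hp x
  have e : (1 / 2 : ℝ) ^ (k + 1) = (1 / 2 : ℝ) ^ k / 2 := by rw [pow_succ]; ring
  rw [e]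
  have h2 : 0 ≤ C * ((1 / 2 : ℝ) ^ k) ^ 2 := mul_nonneg h.C0 (sq_nonneg _)
  nlinarith

theorem dy_anti (h : SubC C u a b) (x : P) : Antitone (fun k => dy C u k x) :=
  antitone_nat_of_succ_le fun k => h.dy_succ k x

theorem dy_contDiff (h : SubC C u a b) (k : ℕ) : ContDiff ℝ 1 (dy C u k) := by
  unfold dy
  exact ((av_contDiff (by positivity) (h.mem.mu.locallyIntegrable (by norm_num))).add
    contDiff_const).div_const _

theorem dd_dy_x (h : SubC C u a b) (k : ℕ) (x : P) :
    dd ex (dy C u k) x = av ((1 / 2 : ℝ) ^ k) a x / mu0 := by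
  have hp : (0 : ℝ) < (1 / 2 : ℝ) ^ k := by positivity
  rw [← h.mem.dd_av_x hp x]
  have hd : DifferentiableAt ℝ (av ((1 / 2 : ℝ) ^ k) u) x :=
    ((av_contDiff hp (h.mem.mu.locallyIntegrable (by norm_num))).differentiable (by norm_num)) x
  have : (dy C u k) = fun x => (1 / mu0) * (av ((1 / 2 : ℝ) ^ k) u x
      + 11 * C * ((1 / 2 : ℝ) ^ k) ^ 2) := by
    ext x; unfold dy; ring
  rw [this, dd_const_mul (hd.add_const _), dd_add hd (differentiableAt_const _)]
  have : dd ex (fun _ : P => 11 * C * ((1 / 2 : ℝ) ^ k) ^ 2) x = 0 := by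
    simp [dd]
  rw [this]; ring

theorem dd_dy_y (h : SubC C u a b) (k : ℕ) (x : P) :
    dd ey (dy C u k) x = av ((1 / 2 : ℝ) ^ k) b x / mu0 := by
  have hp : (0 : ℝ) < (1 / 2 : ℝ) ^ k := by positivity
  rw [← h.mem.dd_av_y hp x]
  have hd : DifferentiableAt ℝ (av ((1 / 2 : ℝ) ^ k) u) x :=
    ((av_contDiff hp (h.mem.mu.locallyIntegrable (by norm_num))).differentiable (by norm_num)) x
  have : (dy C u k) = fun x => (1 / mu0) * (av ((1 / 2 : ℝ) ^ k) u x
      + 11 * C * ((1 / 2 : ℝ) ^ k) ^ 2) := by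
    ext x; unfold dy; ring
  rw [this, dd_const_mul (hd.add_const _), dd_add hd (differentiableAt_const _)]
  have : dd ey (fun _ : P => 11 * C * ((1 / 2 : ℝ) ^ k) ^ 2) x = 0 := by
    simp [dd]
  rw [this]; ring

theorem conv (h : SubC C u a b) :
    Conv2 volume (fun n => fun x => av ((1 / 2 : ℝ) ^ n) u x / mu0) u ∧
    Conv2 volume (fun n => dd ex (dy C u n)) a ∧ Conv2 volume (fun n => dd ey (dy C u n)) b := by
  obtain ⟨c1, c2, c3⟩ := h.mem.av_lim
  have hm := mu0_pos.ne'
  refine ⟨(c1.const_mul (1 / mu0)).congr (fun n => ?_) ?_,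
    (c2.const_mul (1 / mu0)).congr (fun n => ?_) ?_, (c3.const_mul (1 / mu0)).congr (fun n => ?_) ?_⟩
  · filter_upwards with x; ring
  · filter_upwards with x; field_simp
  · filter_upwards with x; rw [h.dd_dy_x]; ring
  · filter_upwards with x; field_simp
  · filter_upwards with x; rw [h.dd_dy_y]; ring
  · filter_upwards with x; field_simp

theorem corr_lim : Tendsto (fun k : ℕ => 11 * C * ((1 / 2 : ℝ) ^ k) ^ 2 / mu0) atTop (𝓝 0) := by
  have h1 : Tendsto (fun k : ℕ => (1 / 2 : ℝ) ^ k) atTop (𝓝 0) :=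
    tendsto_pow_atTop_nhds_zero_of_lt_one (by norm_num) (by norm_num)
  have := ((h1.pow 2).const_mul (11 * C)).div_const mu0
  simpa using this

theorem dy_lim (h : SubC C u a b) (x : P) : Tendsto (fun k => dy C u k x) atTop (𝓝 (star C u x)) :=
  tendsto_atTop_ciInf (h.dy_anti x) ⟨0, by rintro _ ⟨k, rfl⟩; exact h.dy_nonneg k x⟩

theorem star_le (h : SubC C u a b) (k : ℕ) (x : P) : star C u x ≤ dy C u k x :=
  ciInf_le ⟨0, by rintro _ ⟨k, rfl⟩; exact h.dy_nonneg k x⟩ k

theorem star_nonneg (h : SubC C u a b) (x : P) : 0 ≤ star C u x :=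
  le_ciInf fun k => h.dy_nonneg k x

theorem star_lt_iff (h : SubC C u a b) {x : P} {t : ℝ} : star C u x < t ↔ ∃ k, dy C u k x < t := by
  constructor
  · intro hx
    exact exists_lt_of_ciInf_lt hx
  · rintro ⟨k, hk⟩
    exact (h.star_le k x).trans_lt hk

theorem isOpen_lt (h : SubC C u a b) (t : ℝ) : IsOpen {x | star C u x < t} := by
  have : {x | star C u x < t} = ⋃ k, {x | dy C u k x < t} := by
    ext x
    simp only [mem_ofPred_eq, mem_iUnion]
    exact h.star_lt_iff
  rw [this]
  exact isOpen_iUnion fun k => _root_.isOpen_lt (h.dy_contDiff k).continuous continuous_const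

theorem star_ae (h : SubC C u a b) : ∀ᵐ x, star C u x = u x := by
  obtain ⟨k, hk, hl⟩ := h.conv.1.exists_ae
  filter_upwards [hl] with x hx
  have h1 := (hx.add ((corr_lim (C := C)).comp hk.tendsto_atTop))
  have h2 := (h.dy_lim x).comp hk.tendsto_atTop
  rw [add_zero] at h1
  refine tendsto_nhds_unique h2 (h1.congr fun n => ?_)
  simp only [Function.comp, dy]
  ring

theorem le_dy (h : SubC C u a b) : ∀ᵐ x, ∀ k, u x ≤ dy C u k x := by
  filter_upwards [h.star_ae] with x hx k
  rw [← hx]
  exact h.star_le k x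

end SubC

end Pool.Agent.Lib.MP_f46d6a
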