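import Pool.Agent.Lib.MP_dac83a.Ground
import Pool.Agent.Lib.MP_dac83a.Rellich

/-!
# The Sobolev space `H¹₀(U)` of an open subset of the plane, in relational form
-/

set_option autoImplicit false

open MeasureTheory Set Filter Topology
open scoped ContDiff

namespace Pool.Agent.Lib.MP_f46d6a

open Pool.Agent.Lib.MP_dac83a

/-! ## Auxiliary facts on `L²` convergence -/

section conv

variable {α : Type} [MeasurableSpace α] {ν : Measure α}

theorem _root_.Pool.Agent.Lib.MP_dac83a.Conv2.sub_lim {f : ℕ → α → ℝ} {g : α → ℝ} (h : Conv2 ν f g) :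
    Conv2 ν (fun n z => f n z - g z) (fun _ => 0) := by
  have := h.comb (Conv2.const h.mem) 1 (-1)
  refine this.congr (fun n => ?_) ?_
  · filter_upwards with a; ring
  · filter_upwards with a; ring

theorem _root_.Pool.Agent.Lib.MP_dac83a.Conv2.add {f f' : ℕ → α → ℝ} {g g' : α → ℝ} (h : Conv2 ν f g) (h' : Conv2 ν f' g') :
    Conv2 ν (fun n z => f n z + f' n z) (fun z => g z + g' z) := by
  have := h.comb h' 1 1
  simpa using this

theorem _root_.Pool.Agent.Lib.MP_dac83a.Conv2.sub {f f' : ℕ → α → ℝ} {g g' : α → ℝ} (h : Conv2 ν f g) (h' : Conv2 ν f' g') :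
    Conv2 ν (fun n z => f n z - f' n z) (fun z => g z - g' z) := by
  have := h.comb h' 1 (-1)
  refine this.congr (fun n => ?_) ?_
  · filter_upwards with a; ring
  · filter_upwards with a; ring

theorem _root_.Pool.Agent.Lib.MP_dac83a.Conv2.const_mul {f : ℕ → α → ℝ} {g : α → ℝ} (h : Conv2 ν f g) (c : ℝ) :
    Conv2 ν (fun n z => c * f n z) (fun z => c * g z) := by
  have := h.comb h c 0
  simpa using this

/-- dominated convergence in `L²` -/
theorem conv2_of_dominated {f : ℕ → α → ℝ} {g : α → ℝ} {F : α → ℝ} (hf : ∀ n, AEStronglyMeasurable (f n) ν)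
    (hF : MemLp F 2 ν) (hb : ∀ n, ∀ᵐ a ∂ν, |f n a| ≤ F a)
    (hl : ∀ᵐ a ∂ν, Tendsto (fun n => f n a) atTop (𝓝 (g a))) : Conv2 ν f g := by
  have hgm : AEStronglyMeasurable g ν := aestronglyMeasurable_of_tendsto_ae atTop hf hl
  have hgb : ∀ᵐ a ∂ν, |g a| ≤ F a := by
    filter_upwards [hl, ae_all_iff.2 hb] with a h1 h2
    exact le_of_tendsto h1.abs (Eventually.of_forall h2)
  have mf : ∀ n, MemLp (f n) 2 ν := fun n => hF.of_le (hf n) (by
    filter_upwards [hb n] with a h1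
    rw [Real.norm_eq_abs, Real.norm_eq_abs]
    exact h1.trans (le_abs_self _))
  have mg : MemLp g 2 ν := hF.of_le hgm (by
    filter_upwards [hgb] with a h1
    rw [Real.norm_eq_abs, Real.norm_eq_abs]
    exact h1.trans (le_abs_self _))
  refine ⟨mf, mg, ?_⟩
  have : Tendsto (fun n => ∫ a, (f n a - g a) ^ 2 ∂ν) atTop (𝓝 (∫ a, (0 : ℝ) ∂ν)) := by
    apply tendsto_integral_of_dominated_convergence (fun a => 4 * F a ^ 2)
    · intro n
      exact ((mf n).sub mg).integrable_sq.aestronglyMeasurable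
    · exact hF.integrable_sq.const_mul 4
    · intro n
      filter_upwards [hb n, hgb] with a h1 h2
      rw [Real.norm_eq_abs, abs_of_nonneg (by positivity)]
      have h3 : |f n a - g a| ≤ 2 * F a := by
        calc |f n a - g a| ≤ |f n a| + |g a| := abs_sub _ _
          _ ≤ 2 * F a := by linarith
      calc (f n a - g a) ^ 2 = |f n a - g a| ^ 2 := (sq_abs _).symm
        _ ≤ (2 * F a) ^ 2 := by gcongr
        _ = 4 * F a ^ 2 := by ring
    · filter_upwards [hl] with a h1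
      have : Tendsto (fun n => (f n a - g a) ^ 2) atTop (𝓝 ((g a - g a) ^ 2)) :=
        (h1.sub_const _).pow 2
      simpa using this
  simpa using this

/-- product of an `L²`-convergent sequence with a bounded a.e.-convergent sequence -/
theorem _root_.Pool.Agent.Lib.MP_dac83a.Conv2.mul_bdd {f k : ℕ → α → ℝ} {g l : α → ℝ} (h : Conv2 ν f g)
    (hk : ∀ n, AEStronglyMeasurable (k n) ν) {C : ℝ} (hb : ∀ n, ∀ᵐ a ∂ν, |k n a| ≤ C)
    (hl : ∀ᵐ a ∂ν, Tendsto (fun n => k n a) atTop (𝓝 (l a))) :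
    Conv2 ν (fun n a => k n a * f n a) (fun a => l a * g a) := by
  have hlm : AEStronglyMeasurable l ν := aestronglyMeasurable_of_tendsto_ae atTop hk hl
  have c1 : Conv2 ν (fun n a => k n a * g a) (fun a => l a * g a) := by
    apply conv2_of_dominated (F := fun a => C * |g a|)
    · intro n
      exact (hk n).mul h.mem.aestronglyMeasurable
    · exact h.mem.abs.const_mul C
    · intro n
      filter_upwards [hb n] with a h1
      rw [abs_mul]; gcongr
    · filter_upwards [hl] with a h1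
      exact h1.mul_const _
  have mkf : ∀ n, MemLp (fun a => k n a * (f n a - g a)) 2 ν := fun n =>
    ((h.sub_mem n).const_mul C).of_le ((hk n).mul (h.sub_mem n).aestronglyMeasurable) (by
      filter_upwards [hb n] with a h1
      rw [norm_mul, norm_mul]
      gcongr
      rw [Real.norm_eq_abs, Real.norm_eq_abs]
      exact h1.trans (le_abs_self _))
  have c2 : Conv2 ν (fun n a => k n a * (f n a - g a)) (fun _ => 0) := by
    refine ⟨mkf, MemLp.zero, ?_⟩
    have t := h.lim.const_mul (C ^ 2)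
    rw [mul_zero] at t
    refine squeeze_zero (fun n => integral_nonneg fun z => by positivity) (fun n => ?_) t
    rw [← integral_const_mul]
    apply integral_mono_ae
    · simpa using (mkf n).integrable_sq
    · exact (h.sub_mem n).integrable_sq.const_mul _
    · filter_upwards [hb n] with a h1
      simp only [sub_zero]
      rw [mul_pow]
      gcongr ?_ * _
      rw [← sq_abs]
      gcongr
  have := Conv2.add c2 c1
  refine this.congr (fun n => ?_) ?_
  · filter_upwards with a; ring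
  · filter_upwards with a; ring

theorem _root_.Pool.Agent.Lib.MP_dac83a.Conv2.mul_fix {f : ℕ → α → ℝ} {g k : α → ℝ} (h : Conv2 ν f g)
    (hk : AEStronglyMeasurable k ν) {C : ℝ} (hb : ∀ᵐ a ∂ν, |k a| ≤ C) :
    Conv2 ν (fun n a => k a * f n a) (fun a => k a * g a) :=
  Conv2.mul_bdd h (fun _ => hk) (fun _ => hb) (by filter_upwards with a; exact tendsto_const_nhds)

/-- perturbation of an `L²`-convergent sequence -/
theorem _root_.Pool.Agent.Lib.MP_dac83a.Conv2.perturb {f f' : ℕ → α → ℝ} {g : α → ℝ} (h : Conv2 ν f g) (hf' : ∀ n, MemLp (f' n) 2 ν)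
    (hd : Tendsto (fun n => ∫ a, (f' n a - f n a) ^ 2 ∂ν) atTop (𝓝 0)) : Conv2 ν f' g := by
  have c : Conv2 ν (fun n a => f' n a - f n a) (fun _ => 0) :=
    ⟨fun n => (hf' n).sub (h.memn n), MemLp.zero, by simpa using hd⟩
  have := Conv2.add c h
  refine this.congr (fun n => ?_) ?_
  · filter_upwards with a; ring
  · filter_upwards with a; ring

theorem _root_.Pool.Agent.Lib.MP_dac83a.Conv2.unique {f : ℕ → α → ℝ} {g g' : α → ℝ} (h : Conv2 ν f g) (h' : Conv2 ν f g') :
    g =ᵐ[ν] g' := by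
  have c := Conv2.sub h h'
  have hi := c.integral_sq
  have h0 : ∫ a, (g a - g' a) ^ 2 ∂ν = 0 := by
    have e : (fun n => ∫ a, (f n a - f n a) ^ 2 ∂ν) = fun _ => (0 : ℝ) := by
      ext n; simp
    rw [e] at hi
    exact (tendsto_nhds_unique hi tendsto_const_nhds)
  have h1 : (fun a => (g a - g' a) ^ 2) =ᵐ[ν] 0 :=
    (integral_eq_zero_iff_of_nonneg (fun a => by positivity) c.mem.integrable_sq).1 h0
  filter_upwards [h1] with a h2
  have : (g a - g' a) ^ 2 = 0 := h2
  have := pow_eq_zero_iff (two_ne_zero) |>.1 this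
  linarith

end conv

/-! ## `H¹₀(U)` -/

/-- `u` lies in `H¹₀(U)` and has weak gradient `(a, b)`. -/
structure H0 (U : Set P) (u a b : P → ℝ) : Prop where
  app : ∃ φ : ℕ → P → ℝ, (∀ n, IsTest U (φ n)) ∧ Conv2 volume φ u ∧
    Conv2 volume (fun n => dd ex (φ n)) a ∧ Conv2 volume (fun n => dd ey (φ n)) b

namespace H0

variable {U V : Set P} {u a b v c d : P → ℝ}

theorem mu (h : H0 U u a b) : MemLp u 2 volume := by
  obtain ⟨φ, _, h1, _, _⟩ := h.app; exact h1.mem
theorem ma (h : H0 U u a b) : MemLp a 2 volume := by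
  obtain ⟨φ, _, _, h1, _⟩ := h.app; exact h1.mem
theorem mb (h : H0 U u a b) : MemLp b 2 volume := by
  obtain ⟨φ, _, _, _, h1⟩ := h.app; exact h1.mem

theorem congr (h : H0 U u a b) (h1 : u =ᵐ[volume] v) (h2 : a =ᵐ[volume] c) (h3 : b =ᵐ[volume] d) :
    H0 U v c d := by
  obtain ⟨φ, ht, c1, c2, c3⟩ := h.app
  exact ⟨φ, ht, c1.congr (fun n => EventuallyEq.rfl) h1, c2.congr (fun n => EventuallyEq.rfl) h2,
    c3.congr (fun n => EventuallyEq.rfl) h3⟩

theorem mono (h : H0 U u a b) (hUV : U ⊆ V) : H0 V u a b := by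
  obtain ⟨φ, ht, c⟩ := h.app
  exact ⟨φ, fun n => (ht n).mono hUV, c⟩

theorem of_test {φ : P → ℝ} (h : IsTest U φ) : H0 U φ (dd ex φ) (dd ey φ) :=
  ⟨fun _ => φ, fun _ => h, Conv2.const h.memLp, Conv2.const (h.dd ex).memLp,
    Conv2.const (h.dd ey).memLp⟩

theorem zero : H0 U (fun _ => 0) (fun _ => 0) (fun _ => 0) := by
  have : IsTest U (fun _ => (0 : ℝ)) := by
    refine ⟨contDiff_const, HasCompactSupport.zero, ?_⟩
    have : tsupport (fun _ : P => (0 : ℝ)) = ∅ := by
      rw [tsupport_eq_empty_iff]; rfl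
    rw [this]; exact empty_subset _
  have h := of_test this
  refine h.congr ?_ ?_ ?_ <;> filter_upwards with z <;> simp [dd]

theorem comb (h : H0 U u a b) (h' : H0 U v c d) (s t : ℝ) :
    H0 U (fun z => s * u z + t * v z) (fun z => s * a z + t * c z) (fun z => s * b z + t * d z) := by
  obtain ⟨φ, ht, c1, c2, c3⟩ := h.app
  obtain ⟨ψ, ht', c1', c2', c3'⟩ := h'.app
  refine ⟨fun n z => s * φ n z + t * ψ n z, fun n => (ht n).comb (ht' n) s t, c1.comb c1' s t, ?_, ?_⟩
  · refine (c2.comb c2' s t).congr (fun n => ?_) EventuallyEq.rfl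
    filter_upwards with z
    exact (dd_comb (ht n) (ht' n) s t ex z).symm
  · refine (c3.comb c3' s t).congr (fun n => ?_) EventuallyEq.rfl
    filter_upwards with z
    exact (dd_comb (ht n) (ht' n) s t ey z).symm

theorem add (h : H0 U u a b) (h' : H0 U v c d) :
    H0 U (fun z => u z + v z) (fun z => a z + c z) (fun z => b z + d z) := by
  simpa using h.comb h' 1 1

theorem sub (h : H0 U u a b) (h' : H0 U v c d) :
    H0 U (fun z => u z - v z) (fun z => a z - c z) (fun z => b z - d z) := by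
  refine (h.comb h' 1 (-1)).congr ?_ ?_ ?_ <;> filter_upwards with z <;> ring

theorem smul (h : H0 U u a b) (s : ℝ) :
    H0 U (fun z => s * u z) (fun z => s * a z) (fun z => s * b z) := by
  simpa using h.comb h s 0

/-- test functions arbitrarily close -/
theorem approx (h : H0 U u a b) {ε : ℝ} (hε : 0 < ε) :
    ∃ φ, IsTest U φ ∧ ∫ z, (φ z - u z) ^ 2 ≤ ε ∧ ∫ z, (dd ex φ z - a z) ^ 2 ≤ ε ∧
      ∫ z, (dd ey φ z - b z) ^ 2 ≤ ε := by
  obtain ⟨φ, ht, c1, c2, c3⟩ := h.app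
  have e1 := c1.lim.eventually (ge_mem_nhds hε)
  have e2 := c2.lim.eventually (ge_mem_nhds hε)
  have e3 := c3.lim.eventually (ge_mem_nhds hε)
  obtain ⟨n, h1, h2, h3⟩ := (e1.and (e2.and e3)).exists
  exact ⟨φ n, ht n, h1, h2, h3⟩

/-- `H¹₀(U)` is closed -/
theorem closed {un an bn : ℕ → P → ℝ} (h : ∀ n, H0 U (un n) (an n) (bn n))
    (h1 : Conv2 volume un u) (h2 : Conv2 volume an a) (h3 : Conv2 volume bn b) : H0 U u a b := by
  have key : ∀ n : ℕ, ∃ φ, IsTest U φ ∧ ∫ z, (φ z - un n z) ^ 2 ≤ 1 / ((n : ℝ) + 1) ∧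
      ∫ z, (dd ex φ z - an n z) ^ 2 ≤ 1 / ((n : ℝ) + 1) ∧
      ∫ z, (dd ey φ z - bn n z) ^ 2 ≤ 1 / ((n : ℝ) + 1) := fun n => (h n).approx (by positivity)
  choose φ ht g1 g2 g3 using key
  have t0 : Tendsto (fun n : ℕ => 1 / ((n : ℝ) + 1)) atTop (𝓝 0) := tendsto_one_div_add_atTop_nhds_zero_nat
  refine ⟨φ, ht, ?_, ?_, ?_⟩
  · exact Conv2.perturb h1 (fun n => (ht n).memLp)
      (squeeze_zero (fun n => integral_nonneg fun z => by positivity) g1 t0)
  · exact Conv2.perturb h2 (fun n => ((ht n).dd ex).memLp)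
      (squeeze_zero (fun n => integral_nonneg fun z => by positivity) g2 t0)
  · exact Conv2.perturb h3 (fun n => ((ht n).dd ey).memLp)
      (squeeze_zero (fun n => integral_nonneg fun z => by positivity) g3 t0)

/-- completeness -/
theorem complete {un an bn : ℕ → P → ℝ} (h : ∀ n, H0 U (un n) (an n) (bn n))
    (h1 : ∀ ε > 0, ∃ N, ∀ m ≥ N, ∀ n ≥ N, ∫ z, (un m z - un n z) ^ 2 ≤ ε)
    (h2 : ∀ ε > 0, ∃ N, ∀ m ≥ N, ∀ n ≥ N, ∫ z, (an m z - an n z) ^ 2 ≤ ε)
    (h3 : ∀ ε > 0, ∃ N, ∀ m ≥ N, ∀ n ≥ N, ∫ z, (bn m z - bn n z) ^ 2 ≤ ε) :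
    ∃ u a b, H0 U u a b ∧ Conv2 volume un u ∧ Conv2 volume an a ∧ Conv2 volume bn b := by
  obtain ⟨u, hu⟩ := cauchy_conv2 (fun n => (h n).mu) h1
  obtain ⟨a, ha⟩ := cauchy_conv2 (fun n => (h n).ma) h2
  obtain ⟨b, hb⟩ := cauchy_conv2 (fun n => (h n).mb) h3
  exact ⟨u, a, b, closed h hu ha hb, hu, ha, hb⟩

/-- elements vanish outside `U` -/
theorem zero_off (h : H0 U u a b) : ∀ᵐ z, z ∉ U → u z = 0 ∧ a z = 0 ∧ b z = 0 := by
  obtain ⟨φ, ht, c1, c2, c3⟩ := h.app
  obtain ⟨k1, hk1, l1⟩ := c1.exists_ae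
  obtain ⟨k2, hk2, l2⟩ := c2.exists_ae
  obtain ⟨k3, hk3, l3⟩ := c3.exists_ae
  filter_upwards [l1, l2, l3] with z z1 z2 z3 hz
  have hn : ∀ n, z ∉ tsupport (φ n) := fun n h => hz ((ht n).sub h)
  refine ⟨?_, ?_, ?_⟩
  · refine tendsto_nhds_unique z1 ?_
    simp [image_eq_zero_of_notMem_tsupport (hn _)]
  · refine tendsto_nhds_unique z2 ?_
    simp [dd_zero_of_notMem_tsupport (hn _)]
  · refine tendsto_nhds_unique z3 ?_
    simp [dd_zero_of_notMem_tsupport (hn _)]

end H0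

end Pool.Agent.Lib.MP_f46d6a
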