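import Pool.Agent.Lib.MP_f46d6a.Base

set_option autoImplicit false

open MeasureTheory Set Filter Topology
open scoped ContDiff

namespace Pool.Agent.Lib.MP_f46d6a

open Pool.Agent.Lib.MP_dac83a

/-- smooth uniform approximation of `C¹` functions of compact support, with control of supports -/
theorem smooth_approx {U : Set P} (hU : IsOpen U) {f : P → ℝ} (hf : IsTest1 U f) :
    ∃ K : Set P, IsCompact K ∧ ∀ ε > 0, ∃ φ : P → ℝ, IsTest U φ ∧ tsupport φ ⊆ K ∧ tsupport f ⊆ K ∧
      (∀ z, |φ z - f z| ≤ ε) ∧ (∀ z, |dd ex φ z - dd ex f z| ≤ ε) ∧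
      (∀ z, |dd ey φ z - dd ey f z| ≤ ε) := by
  obtain ⟨δ0, hδ0, hsub⟩ := hf.cpt.isCompact.exists_cthickening_subset_open hU hf.sub
  refine ⟨Metric.cthickening δ0 (tsupport f), hf.cpt.isCompact.cthickening, ?_⟩
  intro ε hε
  have hfc : Continuous f := hf.smooth.continuous
  have hdc : ∀ v, Continuous (dd v f) := fun v =>
    (dd_contDiff (m := 0) hf.smooth (by norm_num) v).continuous
  have huc : UniformContinuous f := hf.cpt.uniformContinuous_of_continuous hfc
  have huc' : ∀ v, UniformContinuous (dd v f) := fun v =>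
    (dd_hasCompactSupport hf.cpt v).uniformContinuous_of_continuous (hdc v)
  obtain ⟨d1, hd1, u1⟩ := Metric.uniformContinuous_iff.1 huc ε hε
  obtain ⟨d2, hd2, u2⟩ := Metric.uniformContinuous_iff.1 (huc' ex) ε hε
  obtain ⟨d3, hd3, u3⟩ := Metric.uniformContinuous_iff.1 (huc' ey) ε hε
  set δ := min δ0 (min d1 (min d2 d3)) with hδ
  have hδp : 0 < δ := by positivity
  let ρ : ContDiffBump (0 : P) := ⟨δ / 2, δ, by positivity, by linarith⟩
  have hr : ρ.rOut = δ := rfl
  set φ : P → ℝ := convolution (ρ.normed volume) f (ContinuousLinearMap.lsmul ℝ ℝ) volume with hφ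
  have hρc : HasCompactSupport (ρ.normed volume) := ρ.hasCompactSupport_normed
  have hsm : ContDiff ℝ ∞ φ :=
    hρc.contDiff_convolution_left _ (ρ.contDiff_normed (n := ⊤)) hfc.locallyIntegrable
  have hsupp : Function.support φ ⊆ Metric.cthickening δ0 (tsupport f) := by
    intro z hz
    have h1 := support_convolution_subset (ContinuousLinearMap.lsmul ℝ ℝ) (μ := volume)
      (f := ρ.normed volume) (g := f) hz
    obtain ⟨s, hs, t, ht, hst⟩ := h1
    rw [ρ.support_normed_eq, hr] at hs
    have ht' : t ∈ tsupport f := subset_tsupport f ht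
    refine Metric.mem_cthickening_of_dist_le z t _ _ ht' ?_
    have : dist z t = ‖s‖ := by
      rw [dist_eq_norm, ← hst]
      simp
    rw [this]
    have h2 : ‖s‖ < δ := by simpa using hs
    exact h2.le.trans (min_le_left _ _)
  have hts : tsupport φ ⊆ Metric.cthickening δ0 (tsupport f) :=
    closure_minimal hsupp Metric.isClosed_cthickening
  have hct : HasCompactSupport φ :=
    hf.cpt.isCompact.cthickening.of_isClosed_subset (isClosed_tsupport _) hts
  have hdist : ∀ (g : P → ℝ), Continuous g → (∀ {x y : P}, dist x y < δ → dist (g x) (g y) < ε) →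
      ∀ z, |convolution (ρ.normed volume) g (ContinuousLinearMap.lsmul ℝ ℝ) volume z - g z| ≤ ε := by
    intro g hg hu z
    have := ρ.dist_normed_convolution_le (μ := volume) (g := g) (x₀ := z) (ε := ε)
      hg.aestronglyMeasurable (fun x hx => (hu (by simpa [hr] using hx)).le)
    rwa [Real.dist_eq] at this
  have hder : ∀ v, dd v φ = convolution (ρ.normed volume) (dd v f)
      (ContinuousLinearMap.lsmul ℝ ℝ) volume := by
    intro v
    ext z
    have hli : LocallyIntegrable (ρ.normed volume) volume :=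
      (ρ.continuous_normed).locallyIntegrable
    have h := hf.cpt.hasFDerivAt_convolution_right (μ := volume) (ContinuousLinearMap.lsmul ℝ ℝ)
      hli hf.smooth z
    simp only [dd]
    rw [hφ, h.fderiv]
    have hc' : HasCompactSupport (fderiv ℝ f) := hf.cpt.fderiv (𝕜 := ℝ)
    have hex := (hc'.convolutionExists_right
      (ContinuousLinearMap.precompR P (ContinuousLinearMap.lsmul ℝ ℝ)) (μ := volume)
      hli (hf.smooth.continuous_fderiv (by norm_num))) z
    have e : (convolution (ρ.normed volume) (fderiv ℝ f)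
        (ContinuousLinearMap.precompR P (ContinuousLinearMap.lsmul ℝ ℝ)) volume z) v
        = ∫ t, ((ContinuousLinearMap.precompR P (ContinuousLinearMap.lsmul ℝ ℝ))
          (ρ.normed volume t) (fderiv ℝ f (z - t))) v := by
      rw [convolution_def]
      exact ContinuousLinearMap.integral_apply hex v
    rw [e, convolution_def]
    rfl
  refine ⟨φ, ⟨hsm, hct, hts.trans hsub⟩, hts, Metric.self_subset_cthickening _, ?_, ?_, ?_⟩
  · exact hdist f hfc (fun {x y} h => u1 (h.trans_le ((min_le_right _ _).trans (min_le_left _ _))))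
  · rw [hder]
    exact hdist _ (hdc ex) (fun {x y} h => u2 (h.trans_le
      (((min_le_right _ _).trans (min_le_right _ _)).trans (min_le_left _ _))))
  · rw [hder]
    exact hdist _ (hdc ey) (fun {x y} h => u3 (h.trans_le
      (((min_le_right _ _).trans (min_le_right _ _)).trans (min_le_right _ _))))

theorem _root_.Pool.Agent.Lib.MP_dac83a.IsTest1.memLp {U : Set P} {f : P → ℝ} (h : IsTest1 U f) : MemLp f 2 volume :=
  h.smooth.continuous.memLp_of_hasCompactSupport h.cpt

theorem _root_.Pool.Agent.Lib.MP_dac83a.IsTest1.dd_memLp {U : Set P} {f : P → ℝ} (h : IsTest1 U f) (v : P) :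
    MemLp (dd v f) 2 volume :=
  (dd_contDiff (m := 0) h.smooth (by norm_num) v).continuous.memLp_of_hasCompactSupport
    (dd_hasCompactSupport h.cpt v)

namespace H0

variable {U V : Set P} {u a b v c d : P → ℝ}

/-- `C¹` functions of compact support in `U` belong to `H¹₀(U)` -/
theorem of_C1 (hU : IsOpen U) {f : P → ℝ} (hf : IsTest1 U f) : H0 U f (dd ex f) (dd ey f) := by
  obtain ⟨K, hK, happ⟩ := smooth_approx hU hf
  have key : ∀ n : ℕ, ∃ φ : P → ℝ, IsTest U φ ∧ tsupport φ ⊆ K ∧ tsupport f ⊆ K ∧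
      (∀ z, |φ z - f z| ≤ 1 / ((n : ℝ) + 1)) ∧ (∀ z, |dd ex φ z - dd ex f z| ≤ 1 / ((n : ℝ) + 1)) ∧
      (∀ z, |dd ey φ z - dd ey f z| ≤ 1 / ((n : ℝ) + 1)) := fun n => happ _ (by positivity)
  choose φ h1 h2 h3 h4 h5 h6 using key
  have hKf : volume K ≠ ⊤ := hK.measure_ne_top
  have gen : ∀ (F : ℕ → P → ℝ) (G : P → ℝ), (∀ n, MemLp (F n) 2 volume) → MemLp G 2 volume →
      (∀ n z, z ∉ K → F n z = 0) → (∀ z, z ∉ K → G z = 0) →
      (∀ n z, |F n z - G z| ≤ 1 / ((n : ℝ) + 1)) → Conv2 volume F G := by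
    intro F G mF mG zF zG hb
    refine ⟨mF, mG, ?_⟩
    have t0 : Tendsto (fun n : ℕ => (1 / ((n : ℝ) + 1)) ^ 2 * (volume K).toReal) atTop (𝓝 0) := by
      have := (tendsto_one_div_add_atTop_nhds_zero_nat (𝕜 := ℝ)).pow 2 |>.mul_const
        (volume K).toReal
      simpa using this
    refine squeeze_zero (fun n => integral_nonneg fun z => by positivity) (fun n => ?_) t0
    have e : ∫ z, (F n z - G z) ^ 2 = ∫ z in K, (F n z - G z) ^ 2 := by
      rw [setIntegral_eq_integral_of_forall_compl_eq_zero]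
      intro z hz
      simp [zF n z hz, zG z hz]
    rw [e]
    calc ∫ z in K, (F n z - G z) ^ 2 ≤ ∫ z in K, (1 / ((n : ℝ) + 1)) ^ 2 := by
          apply setIntegral_mono_on ((mF n).sub mG).integrable_sq.integrableOn
            (integrableOn_const hKf) hK.measurableSet
          intro z _
          rw [← sq_abs]
          gcongr
          exact hb n z
      _ = (1 / ((n : ℝ) + 1)) ^ 2 * (volume K).toReal := by
          rw [setIntegral_const, smul_eq_mul, mul_comm]; rfl
  have z1 : ∀ n z, z ∉ K → φ n z = 0 := fun n z hz =>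
    image_eq_zero_of_notMem_tsupport (fun h => hz (h2 n h))
  have z1' : ∀ v n z, z ∉ K → dd v (φ n) z = 0 := fun v n z hz =>
    dd_zero_of_notMem_tsupport (fun h => hz (h2 n h)) v
  have z2 : ∀ z, z ∉ K → f z = 0 := fun z hz =>
    image_eq_zero_of_notMem_tsupport (fun h => hz (h3 0 h))
  have z2' : ∀ v z, z ∉ K → dd v f z = 0 := fun v z hz =>
    dd_zero_of_notMem_tsupport (fun h => hz (h3 0 h)) v
  exact ⟨φ, h1, gen _ _ (fun n => (h1 n).memLp) (IsTest1.memLp hf) z1 z2 h4,
    gen _ _ (fun n => ((h1 n).dd ex).memLp) (IsTest1.dd_memLp hf ex) (z1' ex) (z2' ex) h5,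
    gen _ _ (fun n => ((h1 n).dd ey).memLp) (IsTest1.dd_memLp hf ey) (z1' ey) (z2' ey) h6⟩

/-- weak derivative identities -/
theorem ibp_x (h : H0 U u a b) {η : P → ℝ} (hη : IsTest1 univ η) :
    ∫ z, u z * dd ex η z = - ∫ z, a z * η z := by
  obtain ⟨φ, ht, c1, c2, c3⟩ := h.app
  have t1 := c1.integral_mul (Conv2.const (IsTest1.dd_memLp hη ex))
  have t2 := (c2.integral_mul (Conv2.const (IsTest1.memLp hη))).neg
  have e : ∀ n, ∫ z, φ n z * dd ex η z = - ∫ z, dd ex (φ n) z * η z := by
    intro n
    exact ibp isOpen_univ ((ht n).mono (subset_univ _)).isTest1 hη.smooth.contDiffOn ex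
  simp only [e] at t1
  exact tendsto_nhds_unique t1 t2

theorem ibp_y (h : H0 U u a b) {η : P → ℝ} (hη : IsTest1 univ η) :
    ∫ z, u z * dd ey η z = - ∫ z, b z * η z := by
  obtain ⟨φ, ht, c1, c2, c3⟩ := h.app
  have t1 := c1.integral_mul (Conv2.const (IsTest1.dd_memLp hη ey))
  have t2 := (c3.integral_mul (Conv2.const (IsTest1.memLp hη))).neg
  have e : ∀ n, ∫ z, φ n z * dd ey η z = - ∫ z, dd ey (φ n) z * η z := by
    intro n
    exact ibp isOpen_univ ((ht n).mono (subset_univ _)).isTest1 hη.smooth.contDiffOn ey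
  simp only [e] at t1
  exact tendsto_nhds_unique t1 t2

theorem ae_zero_of_tests {f : P → ℝ} (hf : MemLp f 2 volume)
    (h : ∀ η, IsTest univ η → ∫ z, f z * η z = 0) : f =ᵐ[volume] (fun _ => (0:ℝ)) := by
  have hli : LocallyIntegrable f volume := hf.locallyIntegrable (by norm_num)
  apply ae_eq_zero_of_integral_contDiff_smul_eq_zero hli
  intro g hg hc
  have := h g ⟨hg, hc, subset_univ _⟩
  rw [← this]
  congr 1
  ext z
  simp [mul_comm]

/-- uniqueness of the weak gradient -/
theorem unique (h : H0 U u a b) (h' : H0 V v c d) (huv : u =ᵐ[volume] v) :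
    a =ᵐ[volume] c ∧ b =ᵐ[volume] d := by
  constructor
  · have : (fun z => a z - c z) =ᵐ[volume] (fun _ => (0:ℝ)) := by
      apply ae_zero_of_tests (f := fun z => a z - c z) (h.ma.sub h'.ma)
      intro η hη
      have e1 := h.ibp_x hη.isTest1
      have e2 := h'.ibp_x hη.isTest1
      have e3 : ∫ z, u z * dd ex η z = ∫ z, v z * dd ex η z := by
        apply integral_congr_ae
        filter_upwards [huv] with z hz
        rw [hz]
      have e4 : ∫ z, (a z - c z) * η z = (∫ z, a z * η z) - ∫ z, c z * η z := by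
        rw [← integral_sub (integrable_mul2 h.ma hη.memLp) (integrable_mul2 h'.ma hη.memLp)]
        congr 1; ext z; ring
      rw [e4]; linarith
    filter_upwards [this] with z hz
    have : a z - c z = 0 := hz
    linarith
  · have : (fun z => b z - d z) =ᵐ[volume] (fun _ => (0:ℝ)) := by
      apply ae_zero_of_tests (f := fun z => b z - d z) (h.mb.sub h'.mb)
      intro η hη
      have e1 := h.ibp_y hη.isTest1
      have e2 := h'.ibp_y hη.isTest1
      have e3 : ∫ z, u z * dd ey η z = ∫ z, v z * dd ey η z := by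
        apply integral_congr_ae
        filter_upwards [huv] with z hz
        rw [hz]
      have e4 : ∫ z, (b z - d z) * η z = (∫ z, b z * η z) - ∫ z, d z * η z := by
        rw [← integral_sub (integrable_mul2 h.mb hη.memLp) (integrable_mul2 h'.mb hη.memLp)]
        congr 1; ext z; ring
      rw [e4]; linarith
    filter_upwards [this] with z hz
    have : b z - d z = 0 := hz
    linarith

end H0

/-- chain rule for `dd` -/
theorem dd_comp {F : ℝ → ℝ} {f : P → ℝ} {z : P} (hF : DifferentiableAt ℝ F (f z))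
    (hf : DifferentiableAt ℝ f z) (v : P) : dd v (fun z => F (f z)) z = deriv F (f z) * dd v f z := by
  simp only [dd]
  have h := hF.hasDerivAt.comp_hasFDerivAt z hf.hasFDerivAt
  rw [show (fun z => F (f z)) = F ∘ f from rfl, h.fderiv]
  simp

theorem _root_.Pool.Agent.Lib.MP_dac83a.IsTest1.comp {U : Set P} {f : P → ℝ} (h : IsTest1 U f) {F : ℝ → ℝ} (hF : ContDiff ℝ 1 F)
    (h0 : F 0 = 0) : IsTest1 U (fun z => F (f z)) := by
  refine ⟨hF.comp h.smooth, ?_, ?_⟩
  · exact h.cpt.comp_left h0
  · refine (closure_mono ?_).trans h.sub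
    intro z hz
    simp only [Function.mem_support] at hz ⊢
    intro h'
    exact hz (by rw [h', h0])

theorem _root_.Pool.Agent.Lib.MP_dac83a.IsTest1.mul {U : Set P} {f g : P → ℝ} (h : IsTest1 U f) (hg : ContDiff ℝ 1 g) :
    IsTest1 U (fun z => f z * g z) := by
  refine ⟨h.smooth.mul hg, h.cpt.mul_right, ?_⟩
  exact (tsupport_mul_subset_left).trans h.sub

theorem lipschitz_of_deriv_bound {F : ℝ → ℝ} (hF : ContDiff ℝ 1 F) {C : ℝ} (hC : ∀ s, |deriv F s| ≤ C)
    (s t : ℝ) : |F s - F t| ≤ C * |s - t| := by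
  have h := Convex.norm_image_sub_le_of_norm_deriv_le (f := F) (s := univ) (x := t) (y := s) (C := C)
    (fun x _ => (hF.differentiable (by norm_num)) x) (fun x _ => hC x) convex_univ trivial trivial
  simpa [Real.norm_eq_abs] using h

namespace H0

variable {U V : Set P} {u a b v c d : P → ℝ}

/-- chain rule in `H¹₀` for `C¹` functions -/
theorem comp_C1 (hU : IsOpen U) (h : H0 U u a b) {F : ℝ → ℝ} (hF : ContDiff ℝ 1 F) (h0 : F 0 = 0)
    {C : ℝ} (hC : ∀ s, |deriv F s| ≤ C) :
    H0 U (fun z => F (u z)) (fun z => deriv F (u z) * a z) (fun z => deriv F (u z) * b z) := by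
  obtain ⟨φ, ht, c1, c2, c3⟩ := h.app
  obtain ⟨k, hk, hl⟩ := c1.exists_ae
  have cF : Continuous F := hF.continuous
  have cF' : Continuous (deriv F) := hF.continuous_deriv (by norm_num)
  have hlip := lipschitz_of_deriv_bound hF hC
  have hC0 : 0 ≤ C := (abs_nonneg _).trans (hC 0)
  have mF : MemLp (fun z => F (u z)) 2 volume := by
    refine (h.mu.const_mul C).of_le (cF.comp_aestronglyMeasurable h.mu.aestronglyMeasurable) ?_
    filter_upwards with z
    have := hlip (u z) 0
    rw [h0, sub_zero, sub_zero] at this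
    rw [Real.norm_eq_abs, Real.norm_eq_abs, abs_mul, abs_of_nonneg hC0]
    exact this
  have d1 : Conv2 volume (fun n z => F (φ (k n) z)) (fun z => F (u z)) := by
    refine ⟨fun n => IsTest1.memLp ((ht (k n)).isTest1.comp hF h0), mF, ?_⟩
    have t := (c1.subseq hk).lim.const_mul (C ^ 2)
    rw [mul_zero] at t
    refine squeeze_zero (fun n => integral_nonneg fun z => by positivity) (fun n => ?_) t
    rw [← integral_const_mul]
    apply integral_mono ((IsTest1.memLp ((ht (k n)).isTest1.comp hF h0)).sub mF).integrable_sq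
      (((c1.subseq hk).sub_mem n).integrable_sq.const_mul _)
    intro z
    simp only
    rw [← mul_pow, ← sq_abs, ← sq_abs (C * _)]
    have := hlip (φ (k n) z) (u z)
    rw [abs_mul C, abs_of_nonneg hC0]
    gcongr
    exact this
  have dk : ∀ v, ∀ {e : P → ℝ}, Conv2 volume (fun n => dd v (φ n)) e →
      Conv2 volume (fun n => dd v (fun z => F (φ (k n) z))) (fun z => deriv F (u z) * e z) := by
    intro v e ce
    have := (ce.subseq hk).mul_bdd (k := fun n z => deriv F (φ (k n) z))
      (l := fun z => deriv F (u z)) (C := C)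
      (fun n => (cF'.comp (ht (k n)).smooth.continuous).aestronglyMeasurable)
      (fun n => by filter_upwards with z; exact hC _)
      (by filter_upwards [hl] with z hz; exact (cF'.tendsto _).comp hz)
    refine this.congr (fun n => ?_) EventuallyEq.rfl
    filter_upwards with z
    exact (dd_comp ((hF.differentiable (by norm_num)) _) ((ht (k n)).diffAt z) v).symm
  exact closed (fun n => of_C1 hU ((ht (k n)).isTest1.comp hF h0)) d1 (dk ex c2) (dk ey c3)

end H0

end Pool.Agent.Lib.MP_f46d6a
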