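import Pool.Agent.Lib.MP_f46d6a.Step

set_option autoImplicit false

open MeasureTheory Set Filter Topology
open scoped ContDiff

namespace Pool.Agent.Lib.MP_f46d6a

open Pool.Agent.Lib.MP_dac83a

namespace H0

variable {U V : Set P} {u a b v c d : P → ℝ}

theorem neg (h : H0 U u a b) : H0 U (fun z => - u z) (fun z => - a z) (fun z => - b z) := by
  simpa using h.smul (-1)

theorem posPart_aux (hU : IsOpen U) (h : H0 U u a b) {l : ℝ} (e : ℝ) (N : ℕ)
    (hN : ∀ n : ℕ, Lm (((n : ℝ) + N + 1) * (0 - l) + e) = 0) (he : 0 ≤ e) (he1 : e ≤ 1)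
    (lim : ∀ s : ℝ, Tendsto (fun n : ℕ => Lm' (((n : ℝ) + N + 1) * (s - l) + e)) atTop
      (𝓝 (if l < s then 1 else if s < l then 0 else Lm' e))) :
    H0 U (fun z => max 0 (u z - l)) (fun z => (if l < u z then 1 else if u z < l then 0 else Lm' e) * a z)
      (fun z => (if l < u z then 1 else if u z < l then 0 else Lm' e) * b z) := by
  set F : ℕ → ℝ → ℝ := fun n s => Lm (((n : ℝ) + N + 1) * (s - l) + e) / ((n : ℝ) + N + 1) with hF
  have hpos : ∀ n : ℕ, (0 : ℝ) < (n : ℝ) + N + 1 := fun n => by positivity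
  have hder : ∀ n s, HasDerivAt (F n) (Lm' (((n : ℝ) + N + 1) * (s - l) + e)) s := by
    intro n s
    have h1 : HasDerivAt (fun s : ℝ => ((n : ℝ) + N + 1) * (s - l) + e) ((n : ℝ) + N + 1) s := by
      have := (((hasDerivAt_id s).sub_const l).const_mul ((n : ℝ) + N + 1)).add_const e
      simpa using this
    have h2 := ((Lm_hasDeriv _).comp s h1).div_const ((n : ℝ) + N + 1)
    have hne : (n : ℝ) + N + 1 ≠ 0 := (hpos n).ne'
    refine h2.congr_deriv ?_
    field_simp
  have hd : ∀ n, deriv (F n) = fun s => Lm' (((n : ℝ) + N + 1) * (s - l) + e) := fun n => by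
    ext s; exact (hder n s).deriv
  have hC1 : ∀ n, ContDiff ℝ 1 (F n) := by
    intro n
    rw [contDiff_one_iff_deriv]
    refine ⟨fun s => (hder n s).differentiableAt, ?_⟩
    rw [hd]
    exact Lm'_cont.comp (by fun_prop)
  have hF0 : ∀ n, F n 0 = 0 := by
    intro n
    simp only [hF]
    rw [hN n, zero_div]
  have hb1 : ∀ n s, |deriv (F n) s| ≤ 1 := by
    intro n s; rw [hd]; exact Lm'_abs_le _
  have hs := fun n => comp_C1 hU h (hC1 n) (hF0 n) (hb1 n)
  have hclose : ∀ n s, |F n s - max 0 (s - l)| ≤ 2 / ((n : ℝ) + N + 1) := by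
    intro n s
    have h1 := Lm_approx (((n : ℝ) + N + 1) * (s - l))
    have h2 := Lm_lip (((n : ℝ) + N + 1) * (s - l) + e) (((n : ℝ) + N + 1) * (s - l))
    have h3 : max 0 (s - l) = max 0 (((n : ℝ) + N + 1) * (s - l)) / ((n : ℝ) + N + 1) := by
      rw [eq_div_iff (hpos n).ne', max_mul_of_nonneg _ _ (hpos n).le, zero_mul, mul_comm]
    rw [h3]
    simp only [hF]
    rw [← sub_div, abs_div, abs_of_pos (hpos n)]
    apply div_le_div_of_nonneg_right _ (hpos n).le
    have h4 : |((n : ℝ) + N + 1) * (s - l) + e - ((n : ℝ) + N + 1) * (s - l)| ≤ 1 := by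
      rw [show ((n : ℝ) + N + 1) * (s - l) + e - ((n : ℝ) + N + 1) * (s - l) = e by ring,
        abs_of_nonneg he]
      exact he1
    calc |Lm (((n : ℝ) + N + 1) * (s - l) + e) - max 0 (((n : ℝ) + N + 1) * (s - l))|
        = |(Lm (((n : ℝ) + N + 1) * (s - l) + e) - Lm (((n : ℝ) + N + 1) * (s - l))) +
          (Lm (((n : ℝ) + N + 1) * (s - l)) - max 0 (((n : ℝ) + N + 1) * (s - l)))| := by
          congr 1; ring
      _ ≤ 1 + 1 := (abs_add_le _ _).trans (add_le_add (h2.trans h4) h1)
      _ = 2 := by norm_num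
  have t0 : Tendsto (fun n : ℕ => 2 / ((n : ℝ) + N + 1)) atTop (𝓝 0) := by
    apply Tendsto.div_atTop tendsto_const_nhds
    apply tendsto_atTop_mono (f := fun n : ℕ => (n : ℝ)) _ tendsto_natCast_atTop_atTop
    intro n
    have : (0 : ℝ) ≤ N := by positivity
    linarith
  refine closed hs ?_ ?_ ?_
  · refine conv2_of_dominated (F := fun z => |u z|) (fun n => (hs n).mu.aestronglyMeasurable)
      h.mu.abs (fun n => ?_) ?_
    · filter_upwards with z
      have := lipschitz_of_deriv_bound (hC1 n) (hb1 n) (u z) 0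
      rw [hF0 n] at this
      simpa using this
    · filter_upwards with z
      rw [tendsto_iff_norm_sub_tendsto_zero]
      exact squeeze_zero (fun n => norm_nonneg _) (fun n => hclose n (u z)) t0
  · refine conv2_of_dominated (F := fun z => |a z|) (fun n => (hs n).ma.aestronglyMeasurable)
      h.ma.abs (fun n => ?_) ?_
    · filter_upwards with z
      rw [abs_mul]
      have := hb1 n (u z)
      nlinarith [abs_nonneg (a z)]
    · filter_upwards with z
      simp only [hd]
      exact (lim (u z)).mul_const _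
  · refine conv2_of_dominated (F := fun z => |b z|) (fun n => (hs n).mb.aestronglyMeasurable)
      h.mb.abs (fun n => ?_) ?_
    · filter_upwards with z
      rw [abs_mul]
      have := hb1 n (u z)
      nlinarith [abs_nonneg (b z)]
    · filter_upwards with z
      simp only [hd]
      exact (lim (u z)).mul_const _

theorem lim_aux (l e : ℝ) (N : ℕ) (s : ℝ) :
    Tendsto (fun n : ℕ => Lm' (((n : ℝ) + N + 1) * (s - l) + e)) atTop
      (𝓝 (if l < s then 1 else if s < l then 0 else Lm' e)) := by
  have hN : Tendsto (fun n : ℕ => (n : ℝ) + N + 1) atTop atTop := by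
    apply tendsto_atTop_mono (f := fun n : ℕ => (n : ℝ)) _ tendsto_natCast_atTop_atTop
    intro n
    have : (0 : ℝ) ≤ N := by positivity
    linarith
  split_ifs with h1 h2
  · have : Tendsto (fun n : ℕ => ((n : ℝ) + N + 1) * (s - l) + e) atTop atTop :=
      tendsto_atTop_add_const_right _ _ (hN.atTop_mul_const (by linarith))
    refine tendsto_const_nhds.congr' ?_
    filter_upwards [this.eventually_ge_atTop 1] with n hn
    exact (Lm'_of_one_le hn).symm
  · have : Tendsto (fun n : ℕ => ((n : ℝ) + N + 1) * (s - l) + e) atTop atBot :=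
      tendsto_atBot_add_const_right _ _ (hN.atTop_mul_const_of_neg (by linarith))
    refine tendsto_const_nhds.congr' ?_
    filter_upwards [this.eventually_le_atBot 0] with n hn
    exact (Lm'_of_nonpos hn).symm
  · have : s = l := le_antisymm (not_lt.1 h1) (not_lt.1 h2)
    subst this
    simp

/-- positive part above a level -/
theorem posPart (hU : IsOpen U) (h : H0 U u a b) {l : ℝ} (hl : 0 ≤ l) :
    H0 U (fun z => max 0 (u z - l)) (fun z => if l < u z then a z else 0)
      (fun z => if l < u z then b z else 0) := by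
  have := posPart_aux hU h (l := l) 0 0 (fun n => Lm_of_nonpos (by
    have : (0 : ℝ) ≤ (n : ℝ) + (0 : ℕ) + 1 := by positivity
    nlinarith)) le_rfl zero_le_one (lim_aux l 0 0)
  refine this.congr EventuallyEq.rfl ?_ ?_
  · filter_upwards with z
    split_ifs <;> simp [Lm'_of_nonpos le_rfl]
  · filter_upwards with z
    split_ifs <;> simp [Lm'_of_nonpos le_rfl]

/-- the gradient vanishes a.e. on a level set (positive level) -/
theorem kink_pos (hU : IsOpen U) (h : H0 U u a b) {l : ℝ} (hl : 0 < l) :
    ∀ᵐ z, u z = l → a z = 0 ∧ b z = 0 := by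
  obtain ⟨N, hN⟩ := exists_nat_gt (1 / l)
  have h1 := posPart_aux hU h (l := l) 1 N (fun n => Lm_of_nonpos (by
    have h2 : (1 : ℝ) / l < (n : ℝ) + N + 1 := by
      have : (0 : ℝ) ≤ n := by positivity
      linarith
    rw [div_lt_iff₀ hl] at h2
    linarith)) zero_le_one le_rfl (lim_aux l 1 N)
  have h2 := posPart hU h hl.le
  obtain ⟨e1, e2⟩ := unique h1 h2 EventuallyEq.rfl
  filter_upwards [e1, e2] with z h3 h4 hz
  simp [hz, Lm'_of_one_le le_rfl] at h3 h4
  exact ⟨h3, h4⟩

theorem abs' (hU : IsOpen U) (h : H0 U u a b) :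
    H0 U (fun z => |u z|) (fun z => (if 0 < u z then a z else 0) - (if u z < 0 then a z else 0))
      (fun z => (if 0 < u z then b z else 0) - (if u z < 0 then b z else 0)) := by
  have h1 := posPart hU h le_rfl
  have h2 := posPart hU h.neg le_rfl
  refine (h1.add h2).congr ?_ ?_ ?_
  · filter_upwards with z
    simp only [sub_zero]
    rcases le_total 0 (u z) with h | h
    · rw [max_eq_right h, max_eq_left (by linarith), abs_of_nonneg h, add_zero]
    · rw [max_eq_left h, max_eq_right (by linarith), abs_of_nonpos h, zero_add]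
  · filter_upwards with z
    by_cases h : u z < 0
    · have h' : ¬ (0 < u z) := by linarith
      simp [h, h']
    · simp [h]
  · filter_upwards with z
    by_cases h : u z < 0
    · have h' : ¬ (0 < u z) := by linarith
      simp [h, h']
    · simp [h]

theorem kink_zero (hU : IsOpen U) (h : H0 U u a b) : ∀ᵐ z, u z = 0 → a z = 0 ∧ b z = 0 := by
  have h1 := posPart hU h le_rfl
  have h2 := posPart hU h.neg le_rfl
  obtain ⟨e1, e2⟩ := unique (h1.sub h2) h (by
    filter_upwards with z
    simp only [sub_zero]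
    rcases le_total 0 (u z) with h | h
    · rw [max_eq_right h, max_eq_left (by linarith), sub_zero]
    · rw [max_eq_left h, max_eq_right (by linarith)]; ring)
  filter_upwards [e1, e2] with z h3 h4 hz
  simp [hz] at h3 h4
  exact ⟨h3.symm, h4.symm⟩

/-- truncation at a positive level -/
theorem minLevel (hU : IsOpen U) (h : H0 U u a b) {l : ℝ} (hl : 0 ≤ l) :
    H0 U (fun z => min (u z) l) (fun z => if u z ≤ l then a z else 0)
      (fun z => if u z ≤ l then b z else 0) := by
  refine (h.sub (posPart hU h hl)).congr ?_ ?_ ?_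
  · filter_upwards with z
    rcases le_total (u z) l with h | h
    · rw [max_eq_left (by linarith), min_eq_left h, sub_zero]
    · rw [max_eq_right (by linarith), min_eq_right h]; ring
  · filter_upwards with z
    by_cases h : u z ≤ l
    · simp [h, not_lt.2 h]
    · simp [h, not_le.1 h]
  · filter_upwards with z
    by_cases h : u z ≤ l
    · simp [h, not_lt.2 h]
    · simp [h, not_le.1 h]

end H0

/-- `C¹` truncation -/
noncomputable def trunc (M : ℝ) (s : ℝ) : ℝ := s - Lm (s - M) + Lm (-s - M)

theorem trunc_hasDeriv (M s : ℝ) : HasDerivAt (trunc M) (1 - Lm' (s - M) - Lm' (-s - M)) s := by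
  have h1 : HasDerivAt (fun s : ℝ => Lm (s - M)) (Lm' (s - M)) s := by
    have := (Lm_hasDeriv (s - M)).comp s ((hasDerivAt_id s).sub_const M)
    exact this.congr_deriv (by simp)
  have h2 : HasDerivAt (fun s : ℝ => Lm (-s - M)) (- Lm' (-s - M)) s := by
    have := (Lm_hasDeriv (-s - M)).comp s ((hasDerivAt_id s).neg.sub_const M)
    exact this.congr_deriv (by simp)
  have := ((hasDerivAt_id s).sub h1).add h2
  refine this.congr_deriv ?_
  ring

theorem trunc_contDiff (M : ℝ) : ContDiff ℝ 1 (trunc M) := by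
  unfold trunc
  exact ((contDiff_id).sub (Lm_contDiff1.comp (by fun_prop))).add (Lm_contDiff1.comp (by fun_prop))

theorem trunc_deriv_bound {M : ℝ} (hM : 0 ≤ M) (s : ℝ) : |deriv (trunc M) s| ≤ 1 := by
  rw [(trunc_hasDeriv M s).deriv, abs_le]
  have h1 := Lm'_nonneg (s - M)
  have h2 := Lm'_nonneg (-s - M)
  have h3 := Lm'_le_one (s - M)
  have h4 := Lm'_le_one (-s - M)
  rcases le_total 0 s with h | h
  · have : Lm' (-s - M) = 0 := Lm'_of_nonpos (by linarith)
    constructor <;> linarith
  · have : Lm' (s - M) = 0 := Lm'_of_nonpos (by linarith)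
    constructor <;> linarith

theorem trunc_zero (M : ℝ) : trunc M 0 = 0 := by simp [trunc]

theorem trunc_eq {M s : ℝ} (h : |s| ≤ M) : trunc M s = s := by
  rw [abs_le] at h
  unfold trunc
  rw [Lm_of_nonpos (by linarith), Lm_of_nonpos (by linarith)]; ring

theorem trunc_bound {M : ℝ} (hM : 0 ≤ M) (s : ℝ) : |trunc M s| ≤ M + 1 := by
  unfold trunc
  have g1 := Lm_ge (s - M)
  have g2 := Lm_ge (-s - M)
  rw [abs_le]
  rcases le_total 0 s with h | h
  · rw [Lm_of_nonpos (show -s - M ≤ 0 by linarith)]
    rcases le_total 0 (s - M) with h' | h'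
    · have := Lm_le h'
      constructor <;> linarith
    · rw [Lm_of_nonpos h']
      constructor <;> linarith
  · rw [Lm_of_nonpos (show s - M ≤ 0 by linarith)]
    rcases le_total 0 (-s - M) with h' | h'
    · have := Lm_le h'
      constructor <;> linarith
    · rw [Lm_of_nonpos h']
      constructor <;> linarith

namespace H0

variable {U V : Set P} {u a b v c d : P → ℝ}

/-- approximation of a bounded element by uniformly bounded `C¹` functions -/
theorem bdd_approx (h : H0 U u a b) {M : ℝ} (hM : 0 ≤ M)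
    (hb : ∀ᵐ z, |u z| ≤ M) : ∃ f : ℕ → P → ℝ, (∀ n, IsTest1 U (f n)) ∧ (∀ n z, |f n z| ≤ M + 1) ∧
      Conv2 volume f u ∧ Conv2 volume (fun n => dd ex (f n)) a ∧ Conv2 volume (fun n => dd ey (f n)) b ∧
      ∀ᵐ z, Tendsto (fun n => f n z) atTop (𝓝 (u z)) := by
  obtain ⟨φ, ht, c1, c2, c3⟩ := h.app
  obtain ⟨k, hk, hl⟩ := c1.exists_ae
  have hF := trunc_contDiff M
  have h0 := trunc_zero M
  have hC := trunc_deriv_bound hM
  have cF : Continuous (trunc M) := hF.continuous
  have cF' : Continuous (deriv (trunc M)) := hF.continuous_deriv (by norm_num)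
  have hlip := lipschitz_of_deriv_bound hF hC
  have hu : ∀ᵐ z, trunc M (u z) = u z := by
    filter_upwards [hb] with z hz using trunc_eq hz
  have dk : ∀ v, ∀ {e : P → ℝ}, Conv2 volume (fun n => dd v (φ n)) e →
      (∀ᵐ z, deriv (trunc M) (u z) * e z = e z) →
      Conv2 volume (fun n => dd v (fun z => trunc M (φ (k n) z))) e := by
    intro v e ce he
    have := (ce.subseq hk).mul_bdd (k := fun n z => deriv (trunc M) (φ (k n) z))
      (l := fun z => deriv (trunc M) (u z)) (C := 1)
      (fun n => (cF'.comp (ht (k n)).smooth.continuous).aestronglyMeasurable)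
      (fun n => by filter_upwards with z; exact hC _)
      (by filter_upwards [hl] with z hz; exact (cF'.tendsto _).comp hz)
    refine this.congr (fun n => ?_) he
    filter_upwards with z
    exact (dd_comp ((hF.differentiable (by norm_num)) _) ((ht (k n)).diffAt z) v).symm
  have hder1 : ∀ᵐ z, deriv (trunc M) (u z) = 1 := by
    filter_upwards [hb] with z hz
    rw [(trunc_hasDeriv M (u z)).deriv]
    rw [abs_le] at hz
    rw [Lm'_of_nonpos (show u z - M ≤ 0 by linarith), Lm'_of_nonpos (show -u z - M ≤ 0 by linarith)]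
    ring
  refine ⟨fun n z => trunc M (φ (k n) z), fun n => (ht (k n)).isTest1.comp hF h0,
    fun n z => trunc_bound hM _, ?_, ?_, ?_, ?_⟩
  · refine ⟨fun n => IsTest1.memLp ((ht (k n)).isTest1.comp hF h0), h.mu, ?_⟩
    have t := (c1.subseq hk).lim
    refine squeeze_zero (fun n => integral_nonneg fun z => by positivity) (fun n => ?_) t
    apply integral_mono_ae
      ((IsTest1.memLp ((ht (k n)).isTest1.comp hF h0)).sub h.mu).integrable_sq
      (((c1.subseq hk).sub_mem n).integrable_sq)
    filter_upwards [hu] with z hz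
    simp only [Pi.sub_apply]
    rw [← sq_abs, ← sq_abs (φ (k n) z - u z)]
    have := hlip (φ (k n) z) (u z)
    rw [hz, one_mul] at this
    gcongr
  · exact dk ex c2 (by filter_upwards [hder1] with z hz; rw [hz, one_mul])
  · exact dk ey c3 (by filter_upwards [hder1] with z hz; rw [hz, one_mul])
  · filter_upwards [hl, hu] with z hz hz'
    have := (cF.tendsto (u z)).comp hz
    rw [hz'] at this
    exact this

theorem dd_mul' {f g : P → ℝ} {z : P} (hf : DifferentiableAt ℝ f z) (hg : DifferentiableAt ℝ g z)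
    (v : P) : dd v (fun z => f z * g z) z = dd v f z * g z + f z * dd v g z := by
  rw [dd_mul hf hg]; ring

/-- product of bounded elements -/
theorem mul (hU : IsOpen U) (hV : IsOpen V) (h : H0 U u a b) (h' : H0 V v c d) {M M' : ℝ}
    (hb : ∀ᵐ z, |u z| ≤ M) (hb' : ∀ᵐ z, |v z| ≤ M') :
    H0 (U ∩ V) (fun z => u z * v z) (fun z => a z * v z + u z * c z)
      (fun z => b z * v z + u z * d z) := by
  have hM : 0 ≤ max M 0 := le_max_right _ _
  have hM' : 0 ≤ max M' 0 := le_max_right _ _
  obtain ⟨f, f1, f2, f3, f4, f5, f6⟩ := h.bdd_approx hM (by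
    filter_upwards [hb] with z hz using hz.trans (le_max_left _ _))
  obtain ⟨g, g1, g2, g3, g4, g5, g6⟩ := h'.bdd_approx hM' (by
    filter_upwards [hb'] with z hz using hz.trans (le_max_left _ _))
  have ht : ∀ n, IsTest1 (U ∩ V) (fun z => f n z * g n z) := by
    intro n
    refine ⟨(f1 n).smooth.mul (g1 n).smooth, (f1 n).cpt.mul_right, ?_⟩
    exact subset_inter ((tsupport_mul_subset_left).trans (f1 n).sub)
      ((tsupport_mul_subset_right).trans (g1 n).sub)
  have meas : ∀ {k : ℕ → P → ℝ} {W : Set P}, (∀ n, IsTest1 W (k n)) → ∀ n,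
      AEStronglyMeasurable (k n) volume := fun hk n => (hk n).smooth.continuous.aestronglyMeasurable
  have p1 : Conv2 volume (fun n z => f n z * g n z) (fun z => u z * v z) :=
    g3.mul_bdd (meas f1) (fun n => by filter_upwards with z; exact f2 n z) f6
  have pd : ∀ w, ∀ {s t : P → ℝ}, Conv2 volume (fun n => dd w (f n)) s →
      Conv2 volume (fun n => dd w (g n)) t →
      Conv2 volume (fun n => dd w (fun z => f n z * g n z)) (fun z => s z * v z + u z * t z) := by
    intro w s t cs ct
    have q1 : Conv2 volume (fun n z => g n z * dd w (f n) z) (fun z => v z * s z) :=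
      cs.mul_bdd (meas g1) (fun n => by filter_upwards with z; exact g2 n z) g6
    have q2 : Conv2 volume (fun n z => f n z * dd w (g n) z) (fun z => u z * t z) :=
      ct.mul_bdd (meas f1) (fun n => by filter_upwards with z; exact f2 n z) f6
    refine (q1.add q2).congr (fun n => ?_) ?_
    · filter_upwards with z
      rw [dd_mul' ((f1 n).smooth.differentiable (by norm_num) z)
        ((g1 n).smooth.differentiable (by norm_num) z)]
      ring
    · filter_upwards with z; ring
  exact closed (fun n => of_C1 (hU.inter hV) (ht n)) p1 (pd ex f4 g4) (pd ey f5 g5)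

/-- product with a bounded `C¹` function with bounded derivatives -/
theorem mul_C1 (hU : IsOpen U) (h : H0 U u a b) {f : P → ℝ} (hf : ContDiff ℝ 1 f) {C : ℝ}
    (h0 : ∀ z, |f z| ≤ C) (h1 : ∀ z, |dd ex f z| ≤ C) (h2 : ∀ z, |dd ey f z| ≤ C) :
    H0 U (fun z => f z * u z) (fun z => f z * a z + dd ex f z * u z)
      (fun z => f z * b z + dd ey f z * u z) := by
  obtain ⟨φ, ht, c1, c2, c3⟩ := h.app
  have hfm : AEStronglyMeasurable f volume := hf.continuous.aestronglyMeasurable
  have hdm : ∀ v, AEStronglyMeasurable (dd v f) volume := fun v =>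
    (dd_contDiff (m := 0) hf (by norm_num) v).continuous.aestronglyMeasurable
  have p1 : Conv2 volume (fun n z => f z * φ n z) (fun z => f z * u z) :=
    c1.mul_fix hfm (by filter_upwards with z; exact h0 z)
  have hdf : Differentiable ℝ f := hf.differentiable (by norm_num)
  have pd : ∀ v, (∀ z, |dd v f z| ≤ C) → ∀ {e : P → ℝ}, Conv2 volume (fun n => dd v (φ n)) e →
      Conv2 volume (fun n => dd v (fun z => f z * φ n z)) (fun z => f z * e z + dd v f z * u z) := by
    intro v hv e ce
    have q1 := ce.mul_fix hfm (by filter_upwards with z; exact h0 z)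
    have q2 := c1.mul_fix (hdm v) (by filter_upwards with z; exact hv z)
    refine (q1.add q2).congr (fun n => ?_) EventuallyEq.rfl
    filter_upwards with z
    rw [dd_mul' (hdf z) ((ht n).diffAt z)]
    ring
  have ht' : ∀ n, IsTest1 U (fun z => f z * φ n z) := by
    intro n
    have := (ht n).isTest1.mul hf
    refine ⟨hf.mul (ht n).isTest1.smooth, (ht n).cpt.mul_left, ?_⟩
    exact (tsupport_mul_subset_right).trans (ht n).sub
  exact closed (fun n => of_C1 hU (ht' n)) p1 (pd ex h1 c2) (pd ey h2 c3)

end H0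

end Pool.Agent.Lib.MP_f46d6a
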