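import Pool.Agent.Lib.MP_f46d6a.Local2

/-!
# Estimates on the components of the sublevel sets
-/

set_option autoImplicit false

open MeasureTheory Set Filter Topology
open scoped ContDiff

namespace Pool.Agent.Lib.MP_f46d6a

open Pool.Agent.Lib.MP_dac83a

/-- an open bounded set `S` with `p ≥ T` on its frontier -/
structure Cell (p : P → ℝ) (T : ℝ) (S : Set P) : Prop where
  isOpen : IsOpen S
  bdd : Bornology.IsBounded S
  fr : ∀ x ∈ frontier S, T ≤ p x

theorem Cell.finite {p : P → ℝ} {T : ℝ} {S : Set P} (h : Cell p T S) : volume S ≠ ⊤ :=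
  ((measure_mono subset_closure).trans_lt h.bdd.isCompact_closure.measure_lt_top).ne

/-- critical configuration with the precise representative of `p` -/
structure Crit' (δ α : ℝ) (Ω : Set P) (w wx wy p px py : P → ℝ) : Prop
    extends Crit δ α Ω w wx wy p px py where
  rep : ∀ x, p x = star C0 p x

theorem star_congr {C : ℝ} {u v : P → ℝ} (h : u =ᵐ[volume] v) (x : P) : star C u x = star C v x := by
  unfold star
  congr 1
  ext k
  unfold dy av
  congr 2
  apply integral_congr_ae
  filter_upwards [h] with z hz
  rw [hz]

/-- passing to the precise representative -/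
theorem Crit.exists_rep {δ α : ℝ} {Ω : Set P} {w wx wy p px py : P → ℝ}
    (h : Crit δ α Ω w wx wy p px py) : Crit' δ α Ω w wx wy (star C0 p) px py := by
  have e : p =ᵐ[volume] star C0 p := by
    filter_upwards [h.p_sub.star_ae] with x hx using hx.symm
  have er : ∀ f : P → ℝ, f =ᵐ[volume] f := fun f => EventuallyEq.rfl
  refine { h with eig := ?_, norm := ?_, le := ?_, stress := ?_, rep := ?_ }
  · refine ⟨h.eig.mem.congr e (er _) (er _), ?_, ?_⟩
    · intro η ηx ηy hη
      rw [h.eig.eq _ _ _ hη]
      congr 1
      apply integral_congr_ae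
      filter_upwards [e] with z hz
      rw [hz]
    · filter_upwards with z using h.p_sub.star_nonneg z
  · rw [← h.norm]
    apply integral_congr_ae
    filter_upwards [e] with z hz
    rw [hz]
  · filter_upwards [e, h.le] with z hz h2
    rwa [← hz]
  · intro X Y hX hY
    rw [← h.stress X Y hX hY]
    apply integral_congr_ae
    filter_upwards [e] with z hz
    simp only [hz]
  · intro x
    exact star_congr e x

namespace Crit'

variable {δ α : ℝ} {Ω : Set P} {w wx wy p px py : P → ℝ}

theorem p_nonneg (h : Crit' δ α Ω w wx wy p px py) (x : P) : 0 ≤ p x := by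
  rw [h.rep]; exact h.p_sub.star_nonneg x

theorem open_lt (h : Crit' δ α Ω w wx wy p px py) (t : ℝ) : IsOpen {x | p x < t} := by
  have := h.p_sub.isOpen_lt t
  simpa only [← h.rep] using this

theorem meas (h : Crit' δ α Ω w wx wy p px py) : Measurable p :=
  measurable_of_Iio fun t => (h.open_lt t).measurableSet

variable {T : ℝ} {S : Set P}

theorem cut (h : Crit' δ α Ω w wx wy p px py) (hS : Cell p T S) {τ : ℝ} (hτ : τ ≤ T) :
    H0 S (fun z => S.indicator (fun z => max 0 (τ - p z)) z)
      (fun z => - (S.indicator (fun z => if p z < τ then px z else 0) z))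
      (fun z => - (S.indicator (fun z => if p z < τ then py z else 0) z)) :=
  h.p_sub.cut hS.isOpen hS.bdd (fun x hx => by rw [← h.rep]; exact hS.fr x hx) hτ

end Crit'

/-- the profile of the transition between the levels `s` and `t` -/
noncomputable def tr (s t y : ℝ) : ℝ := (max 0 (t - y) - max 0 (s - y)) / (t - s)

theorem tr_one {s t y : ℝ} (hst : s < t) (hy : y ≤ s) : tr s t y = 1 := by
  unfold tr
  rw [max_eq_right (by linarith), max_eq_right (by linarith), div_eq_one_iff_eq (by linarith)]
  ring

theorem tr_zero {s t y : ℝ} (hst : s < t) (hy : t ≤ y) : tr s t y = 0 := by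
  unfold tr
  rw [max_eq_left (by linarith), max_eq_left (by linarith)]; simp

theorem tr_mid {s t y : ℝ} (hs : s ≤ y) (ht : y ≤ t) : tr s t y = (t - y) / (t - s) := by
  unfold tr
  rw [max_eq_right (by linarith), max_eq_left (by linarith), sub_zero]

theorem tr_nonneg {s t : ℝ} (hst : s < t) (y : ℝ) : 0 ≤ tr s t y := by
  rcases le_total y s with h | h
  · rw [tr_one hst h]; norm_num
  · rcases le_total y t with h' | h'
    · rw [tr_mid h h']; exact div_nonneg (by linarith) (by linarith)
    · rw [tr_zero hst h']

theorem tr_le {s t : ℝ} (hst : s < t) (y : ℝ) : tr s t y ≤ 1 := by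
  rcases le_total y s with h | h
  · rw [tr_one hst h]
  · rcases le_total y t with h' | h'
    · rw [tr_mid h h', div_le_one (by linarith)]; linarith
    · rw [tr_zero hst h']; norm_num

/-- the band -/
def band (p : P → ℝ) (S : Set P) (s t : ℝ) : Set P := S ∩ {z | s ≤ p z ∧ p z < t}

/-- the sublevel part -/
def subl (p : P → ℝ) (S : Set P) (t : ℝ) : Set P := S ∩ {z | p z < t}

namespace Crit'

variable {δ α : ℝ} {Ω : Set P} {w wx wy p px py : P → ℝ} {T : ℝ} {S : Set P}

theorem band_meas (h : Crit' δ α Ω w wx wy p px py) (hS : IsOpen S) (s t : ℝ) :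
    MeasurableSet (band p S s t) :=
  hS.measurableSet.inter ((measurableSet_le measurable_const h.meas).inter
    (measurableSet_lt h.meas measurable_const))

theorem subl_open (h : Crit' δ α Ω w wx wy p px py) (hS : IsOpen S) (t : ℝ) :
    IsOpen (subl p S t) := hS.inter (h.open_lt t)

theorem band_fin (hS : Cell p T S) (s t : ℝ) : volume (band p S s t) ≠ ⊤ :=
  ((measure_mono inter_subset_left).trans_lt (lt_top_iff_ne_top.2 hS.finite)).ne

theorem subl_fin (hS : Cell p T S) (t : ℝ) : volume (subl p S t) ≠ ⊤ :=
  ((measure_mono inter_subset_left).trans_lt (lt_top_iff_ne_top.2 hS.finite)).ne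

/-- the transition function in `S` -/
theorem trans (h : Crit' δ α Ω w wx wy p px py) (hS : Cell p T S) {s t : ℝ} (hst : s < t)
    (ht : t ≤ T) :
    H0 S (fun z => S.indicator (fun z => tr s t (p z)) z)
      (fun z => - (1 / (t - s)) * ((band p S s t).indicator px z))
      (fun z => - (1 / (t - s)) * ((band p S s t).indicator py z)) := by
  classical
  have h1 := (h.cut hS ht).comb (h.cut hS (hst.le.trans ht)) (1 / (t - s)) (- (1 / (t - s)))
  have key : ∀ (q : P → ℝ) (z : P), 1 / (t - s) * - (S.indicator (fun z => if p z < t then q z else 0) z)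
      + - (1 / (t - s)) * - (S.indicator (fun z => if p z < s then q z else 0) z)
      = - (1 / (t - s)) * ((band p S s t).indicator q z) := by
    intro q z
    by_cases hz : z ∈ S
    · simp only [indicator_of_mem hz]
      by_cases h2 : p z < t
      · by_cases h3 : p z < s
        · have : z ∉ band p S s t := fun h' => by
            have := h'.2.1
            linarith
          rw [indicator_of_notMem this, if_pos h2, if_pos h3]; ring
        · have : z ∈ band p S s t := ⟨hz, not_lt.1 h3, h2⟩
          rw [indicator_of_mem this, if_pos h2, if_neg h3]; ring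
      · have h3 : ¬ p z < s := fun h' => h2 (by linarith)
        have : z ∉ band p S s t := fun h' => h2 h'.2.2
        rw [indicator_of_notMem this, if_neg h2, if_neg h3]; ring
    · have : z ∉ band p S s t := fun h' => hz h'.1
      simp only [indicator_of_notMem hz, indicator_of_notMem this]; ring
  refine h1.congr ?_ ?_ ?_
  · filter_upwards with z
    by_cases hz : z ∈ S
    · simp only [indicator_of_mem hz, tr]; ring
    · simp only [indicator_of_notMem hz]; ring
  · filter_upwards with z using key px z
  · filter_upwards with z using key py z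

theorem trans_bdd {s t : ℝ} (hst : s < t) (z : P) :
    |S.indicator (fun z => tr s t (p z)) z| ≤ 1 := by
  by_cases hz : z ∈ S
  · rw [indicator_of_mem hz, abs_of_nonneg (tr_nonneg hst _)]; exact tr_le hst _
  · rw [indicator_of_notMem hz]; simp

/-- Dirichlet integral of `p` on a measurable set -/
theorem en_int (h : Crit' δ α Ω w wx wy p px py) (B : Set P) :
    IntegrableOn (fun z => px z ^ 2 + py z ^ 2) B := h.eig.mem.int_en.integrableOn

/-- (7a) -/
theorem band_energy (h : Crit' δ α Ω w wx wy p px py) (hS : Cell p T S) {t0 s t : ℝ} (h0 : 0 < t0)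
    (hs : t0 ≤ s) (hst : s < t) (ht : t ≤ T) :
    t0 * ∫ z in band p S s t, (px z ^ 2 + py z ^ 2)
      ≤ (t - s) * ∫ z in subl p S t0, (px z ^ 2 + py z ^ 2) := by
  have k1 := h.trans hS hst ht
  have k2 := H0.minLevel h.isOpen h.eig.mem h0.le
  have k3 := (k2.mul h.isOpen hS.isOpen k1 (M := t0) (M' := 1) (by
    filter_upwards with z
    rw [abs_of_nonneg (le_min (h.p_nonneg z) h0.le)]; exact min_le_right _ _)
    (Eventually.of_forall fun z => trans_bdd hst z)).mono inter_subset_left
  have e := h.eig.eq' _ _ _ k3
  have hts : 0 < t - s := by linarith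
  have rhs : 0 ≤ ∫ z, p z * (min (p z) t0 * S.indicator (fun z => tr s t (p z)) z) := by
    apply integral_nonneg
    intro z
    apply mul_nonneg (h.p_nonneg z)
    apply mul_nonneg (le_min (h.p_nonneg z) h0.le)
    exact indicator_nonneg (fun z _ => tr_nonneg hst _) z
  rw [← e] at rhs
  have mb := h.band_meas hS.isOpen s t
  have ms := (h.subl_open hS.isOpen t0).measurableSet
  have e2 : ∫ z, (px z * ((if p z ≤ t0 then px z else 0) * S.indicator (fun z => tr s t (p z)) z
        + min (p z) t0 * (- (1 / (t - s)) * ((band p S s t).indicator px z)))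
      + py z * ((if p z ≤ t0 then py z else 0) * S.indicator (fun z => tr s t (p z)) z
        + min (p z) t0 * (- (1 / (t - s)) * ((band p S s t).indicator py z))))
      = 1 * (∫ z, (subl p S t0).indicator (fun z => px z ^ 2 + py z ^ 2) z)
        + (- (t0 / (t - s))) * ∫ z, (band p S s t).indicator (fun z => px z ^ 2 + py z ^ 2) z := by
    rw [← int_cadd _ _ (iind ms h.eig.mem.int_en) (iind mb h.eig.mem.int_en)]
    apply integral_congr_ae
    filter_upwards [H0.kink_pos h.isOpen h.eig.mem h0] with z hk
    by_cases hz : z ∈ S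
    · rw [indicator_of_mem hz]
      rcases lt_trichotomy (p z) t0 with h1 | h1 | h1
      · have n1 : z ∈ subl p S t0 := ⟨hz, h1⟩
        have n2 : z ∉ band p S s t := fun h' => by have := h'.2.1; linarith
        rw [indicator_of_mem n1, indicator_of_notMem n2, indicator_of_notMem n2,
          indicator_of_notMem n2, if_pos h1.le, if_pos h1.le, tr_one hst (by linarith)]
        ring
      · obtain ⟨q1, q2⟩ := hk h1
        have n1 : z ∉ subl p S t0 := fun h' => by have := h'.2; simp only [mem_ofPred_eq] at this; linarith
        have n3 : (band p S s t).indicator (fun z => px z ^ 2 + py z ^ 2) z = 0 := by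
          by_cases hb : z ∈ band p S s t
          · rw [indicator_of_mem hb, q1, q2]; ring
          · rw [indicator_of_notMem hb]
        rw [indicator_of_notMem n1, n3, q1, q2]; ring
      · have n1 : z ∉ subl p S t0 := fun h' => by have := h'.2; simp only [mem_ofPred_eq] at this; linarith
        rw [indicator_of_notMem n1, if_neg (not_le.2 h1), if_neg (not_le.2 h1), min_eq_right h1.le]
        by_cases hb : z ∈ band p S s t
        · rw [indicator_of_mem hb, indicator_of_mem hb, indicator_of_mem hb]; ring
        · rw [indicator_of_notMem hb, indicator_of_notMem hb, indicator_of_notMem hb]; ring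
    · have n1 : z ∉ subl p S t0 := fun h' => hz h'.1
      have n2 : z ∉ band p S s t := fun h' => hz h'.1
      rw [indicator_of_notMem hz, indicator_of_notMem n1, indicator_of_notMem n2,
        indicator_of_notMem n2, indicator_of_notMem n2]
      ring
  rw [e2, integral_indicator ms, integral_indicator mb] at rhs
  have e3 : 1 * (∫ z in subl p S t0, (px z ^ 2 + py z ^ 2)) + (- (t0 / (t - s)))
      * (∫ z in band p S s t, (px z ^ 2 + py z ^ 2))
      = ((t - s) * (∫ z in subl p S t0, (px z ^ 2 + py z ^ 2))
        - t0 * ∫ z in band p S s t, (px z ^ 2 + py z ^ 2)) / (t - s) := by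
    field_simp; ring
  rw [e3] at rhs
  have := (div_nonneg_iff.1 rhs).resolve_right (by rintro ⟨-, h'⟩; linarith)
  linarith [this.1]

end Crit'

end Pool.Agent.Lib.MP_f46d6a
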