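import Pool.Agent.Lib.MP_f46d6a.Comp

/-!
# Growth, slicing, flux on the components
-/

set_option autoImplicit false

open MeasureTheory Set Filter Topology
open scoped ContDiff

namespace Pool.Agent.Lib.MP_f46d6a

open Pool.Agent.Lib.MP_dac83a

/-- Cauchy-Schwarz on a set of finite measure -/
theorem cs_set {q : P → ℝ} (hq : MemLp q 2 volume) {B : Set P} (hB : MeasurableSet B)
    (hf : volume B ≠ ⊤) : (∫ z, |B.indicator q z|) ^ 2 ≤ vol B * ∫ z in B, q z ^ 2 := by
  have m1 : MemLp (B.indicator fun _ : P => (1 : ℝ)) 2 volume :=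
    memLp_indicator_const 2 hB 1 (Or.inr hf)
  have m2 : MemLp (fun z => B.indicator q z) 2 volume := hq.indicator hB
  have h := cs_sq m1 m2
  have e1 : ∫ z, |(B.indicator fun _ : P => (1 : ℝ)) z * B.indicator q z| = ∫ z, |B.indicator q z| := by
    congr 1; ext z
    by_cases hz : z ∈ B <;> simp [hz]
  have e2 : ∫ z, ((B.indicator fun _ : P => (1 : ℝ)) z) ^ 2 = vol B := by
    have : ∀ z, ((B.indicator fun _ : P => (1 : ℝ)) z) ^ 2 = (B.indicator fun _ : P => (1 : ℝ)) z := by
      intro z
      by_cases hz : z ∈ B <;> simp [hz]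
    simp only [this]
    rw [integral_indicator hB, setIntegral_const, smul_eq_mul, mul_one]
    rfl
  have e3 : ∫ z, (B.indicator q z) ^ 2 = ∫ z in B, q z ^ 2 := by
    rw [← integral_indicator hB]
    congr 1; ext z
    by_cases hz : z ∈ B <;> simp [hz]
  rwa [e1, e2, e3] at h

namespace Crit'

variable {δ α : ℝ} {Ω : Set P} {w wx wy p px py : P → ℝ} {T : ℝ} {S : Set P}

theorem band_energy' (h : Crit' δ α Ω w wx wy p px py) (hS : Cell p T S) {t0 s t f : ℝ} (h0 : 0 < t0)
    (hs : t0 ≤ s) (hst : s < t) (ht : t ≤ T)
    (hf : ∫ z in subl p S t0, (px z ^ 2 + py z ^ 2) ≤ t0 * f) :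
    ∫ z in band p S s t, (px z ^ 2 + py z ^ 2) ≤ (t - s) * f := by
  have h1 := h.band_energy hS h0 hs hst ht
  have h2 : 0 < t - s := by linarith
  have h3 := mul_le_mul_of_nonneg_left hf h2.le
  have h4 : t0 * ∫ z in band p S s t, (px z ^ 2 + py z ^ 2) ≤ t0 * ((t - s) * f) := by linarith
  exact le_of_mul_le_mul_left h4 h0

theorem band_split (h : Crit' δ α Ω w wx wy p px py) (B : Set P) :
    ∫ z in B, (px z ^ 2 + py z ^ 2) = (∫ z in B, px z ^ 2) + ∫ z in B, py z ^ 2 :=
  int_add h.eig.mem.ma.integrable_sq.integrableOn h.eig.mem.mb.integrable_sq.integrableOn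

theorem l1_band (c : ℝ) (hc : 0 ≤ c) (B : Set P) (q : P → ℝ) :
    ∫ z, |-c * B.indicator q z| = c * ∫ z, |B.indicator q z| := by
  rw [← integral_const_mul]
  congr 1; ext z
  rw [abs_mul, abs_neg, abs_of_nonneg hc]

/-- (7b) growth of sublevel sets -/
theorem growth (h : Crit' δ α Ω w wx wy p px py) (hS : Cell p T S) {t0 s t f : ℝ} (h0 : 0 < t0)
    (hs : t0 ≤ s) (hst : s < t) (ht : t ≤ T)
    (hf : ∫ z in subl p S t0, (px z ^ 2 + py z ^ 2) ≤ t0 * f) :
    2 * (t - s) * vol (subl p S s) ≤ f * vol (band p S s t) := by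
  have k := h.trans hS hst ht
  have g := k.gagliardo hS.isOpen hS.finite
  have hts : 0 < t - s := by linarith
  have hc : 0 ≤ 1 / (t - s) := by positivity
  have mb := h.band_meas hS.isOpen s t
  have ms := (h.subl_open hS.isOpen s).measurableSet
  have fb := band_fin (p := p) hS s t
  rw [l1_band _ hc, l1_band _ hc] at g
  have hV : 0 ≤ vol (band p S s t) := ENNReal.toReal_nonneg
  -- lower bound
  have low : vol (subl p S s) ≤ ∫ z, (S.indicator (fun z => tr s t (p z)) z) ^ 2 := by
    have e : vol (subl p S s) = ∫ z, (subl p S s).indicator (fun _ => (1 : ℝ)) z := by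
      rw [integral_indicator ms, setIntegral_const, smul_eq_mul, mul_one]; rfl
    rw [e]
    apply int_mono _ k.mu.integrable_sq
    · intro z
      by_cases hz : z ∈ subl p S s
      · rw [indicator_of_mem hz, indicator_of_mem hz.1, tr_one hst (le_of_lt hz.2)]; norm_num
      · rw [indicator_of_notMem hz]; positivity
    · exact (integrable_indicator_iff ms).2 (integrableOn_const (subl_fin hS s))
  have cx := cs_set h.eig.mem.ma mb fb
  have cy := cs_set h.eig.mem.mb mb fb
  have be := h.band_energy' hS h0 hs hst ht hf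
  rw [h.band_split] at be
  set Ix := ∫ z, |(band p S s t).indicator px z|
  set Iy := ∫ z, |(band p S s t).indicator py z|
  set Jx := ∫ z in band p S s t, px z ^ 2
  set Jy := ∫ z in band p S s t, py z ^ 2
  have nx : 0 ≤ Ix := integral_nonneg fun z => abs_nonneg _
  have ny : 0 ≤ Iy := integral_nonneg fun z => abs_nonneg _
  have h1 : 2 * (Ix * Iy) ≤ vol (band p S s t) * ((t - s) * f) := by
    have h2 : 2 * (Ix * Iy) ≤ Ix ^ 2 + Iy ^ 2 := by nlinarith [sq_nonneg (Ix - Iy)]
    have h3 := mul_le_mul_of_nonneg_left be hV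
    nlinarith
  have h5 : vol (subl p S s) ≤ (1 / (t - s) * Ix) * (1 / (t - s) * Iy) := low.trans g
  have h6 : (1 / (t - s) * Ix) * (1 / (t - s) * Iy) = (Ix * Iy) / (t - s) ^ 2 := by
    field_simp
  rw [h6, le_div_iff₀ (by positivity)] at h5
  have h7 : (t - s) * (2 * (t - s) * vol (subl p S s)) ≤ (t - s) * (f * vol (band p S s t)) := by
    nlinarith
  exact le_of_mul_le_mul_left h7 hts

/-- (7e) slicing -/
theorem diam_sq (h : Crit' δ α Ω w wx wy p px py) (hS : Cell p T S) {t0 s t f : ℝ} (h0 : 0 < t0)
    (hs : t0 ≤ s) (hst : s < t) (ht : t ≤ T)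
    (hf : ∫ z in subl p S t0, (px z ^ 2 + py z ^ 2) ≤ t0 * f)
    {W : Set P} (hW : IsOpen W) (hWc : IsPreconnected W) (hWs : W ⊆ subl p S s) {x y : P}
    (hx : x ∈ W) (hy : y ∈ W) :
    (t - s) * dist x y ^ 2 ≤ 2 * f * vol (band p S s t) := by
  have k := h.trans hS hst ht
  have hts : 0 < t - s := by linarith
  have hc : 0 ≤ 1 / (t - s) := by positivity
  have g := k.slicing hS.isOpen hS.finite hW hWc (by
    filter_upwards with z hz
    have := hWs hz
    rw [indicator_of_mem this.1, tr_one hst (le_of_lt this.2)]) hx hy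
  have mb := h.band_meas hS.isOpen s t
  have fb := band_fin (p := p) hS s t
  rw [l1_band _ hc, l1_band _ hc] at g
  have hV : 0 ≤ vol (band p S s t) := ENNReal.toReal_nonneg
  have cx := cs_set h.eig.mem.ma mb fb
  have cy := cs_set h.eig.mem.mb mb fb
  have be := h.band_energy' hS h0 hs hst ht hf
  rw [h.band_split] at be
  set Ix := ∫ z, |(band p S s t).indicator px z|
  set Iy := ∫ z, |(band p S s t).indicator py z|
  set Jx := ∫ z in band p S s t, px z ^ 2
  set Jy := ∫ z in band p S s t, py z ^ 2
  have nx : 0 ≤ Ix := integral_nonneg fun z => abs_nonneg _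
  have ny : 0 ≤ Iy := integral_nonneg fun z => abs_nonneg _
  have g2 : (t - s) * dist x y ≤ Ix + Iy := by
    have e : 1 / (t - s) * Ix + 1 / (t - s) * Iy = (Ix + Iy) / (t - s) := by ring
    rw [e, le_div_iff₀ hts] at g
    linarith
  have g3 : ((t - s) * dist x y) ^ 2 ≤ (Ix + Iy) ^ 2 :=
    pow_le_pow_left₀ (by positivity) g2 2
  have h2 : (Ix + Iy) ^ 2 ≤ 2 * (Ix ^ 2 + Iy ^ 2) := by nlinarith [sq_nonneg (Ix - Iy)]
  have h3 := mul_le_mul_of_nonneg_left be hV
  have h7 : (t - s) * ((t - s) * dist x y ^ 2) ≤ (t - s) * (2 * f * vol (band p S s t)) := by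
    nlinarith
  exact le_of_mul_le_mul_left h7 hts

/-! ### flux -/

/-- the flux density `∇(w-p)·∇p` -/
noncomputable def fl (wx wy px py : P → ℝ) (z : P) : ℝ :=
  px z * (wx z - px z) + py z * (wy z - py z)

theorem fl_int (h : Crit' δ α Ω w wx wy p px py) : Integrable (fl wx wy px py) := by
  unfold fl
  exact iadd (integrable_mul2 h.eig.mem.ma (msub h.tor.mem.ma h.eig.mem.ma))
    (integrable_mul2 h.eig.mem.mb (msub h.tor.mem.mb h.eig.mem.mb))

/-- `w - p` -/
theorem diff_mem (h : Crit' δ α Ω w wx wy p px py) :
    H0 Ω (fun z => w z - p z) (fun z => wx z - px z) (fun z => wy z - py z) :=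
  h.tor.mem.sub h.eig.mem

theorem diff_bdd (h : Crit' δ α Ω w wx wy p px py) : ∀ᵐ z, |w z - p z| ≤ C0 := by
  filter_upwards [h.le, h.w_le] with z h1 h2
  have := h.p_nonneg z
  rw [abs_of_nonneg (by linarith)]
  linarith

theorem diff_eq (h : Crit' δ α Ω w wx wy p px py) {η ηx ηy : P → ℝ} (hη : H0 Ω η ηx ηy) :
    ∫ z, ((wx z - px z) * ηx z + (wy z - py z) * ηy z)
      = ∫ z, (Ω.indicator (fun _ => (1 : ℝ)) z - p z) * η z := by
  have h1 := h.tor.eq' _ _ _ hη
  have h2 := h.eig.eq' _ _ _ hη
  have e1 : ∫ z, ((wx z - px z) * ηx z + (wy z - py z) * ηy z)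
      = (∫ z, (wx z * ηx z + wy z * ηy z)) - ∫ z, (px z * ηx z + py z * ηy z) := by
    rw [← int_sub (iadd (integrable_mul2 h.tor.mem.ma hη.ma) (integrable_mul2 h.tor.mem.mb hη.mb))
      (iadd (integrable_mul2 h.eig.mem.ma hη.ma) (integrable_mul2 h.eig.mem.mb hη.mb))]
    congr 1; ext z; ring
  have e2 : ∫ z, (Ω.indicator (fun _ => (1 : ℝ)) z - p z) * η z
      = (∫ z, (Ω.indicator (fun _ => (1 : ℝ)) z) * η z) - ∫ z, p z * η z := by
    rw [← int_sub (integrable_mul2 h.one_memLp hη.mu) (integrable_mul2 h.eig.mem.mu hη.mu)]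
    congr 1; ext z; ring
  rw [e1, e2, h1, h2]

/-- (7c) nonnegativity of the flux -/
theorem flux_nonneg (h : Crit' δ α Ω w wx wy p px py) (hS : Cell p T S) {t : ℝ} (ht : t ≤ T) :
    0 ≤ ∫ z in subl p S t, fl wx wy px py z := by
  classical
  set q : ℕ → ℝ := fun n => 1 / ((n : ℝ) + 1) with hq
  have qpos : ∀ n, 0 < q n := fun n => by positivity
  have qlim : Tendsto q atTop (𝓝 0) := tendsto_one_div_add_atTop_nhds_zero_nat
  have hfl := h.fl_int
  have key : ∀ n, 0 ≤ ∫ z, (S.indicator (fun z => tr (t - q n) t (p z)) z) * fl wx wy px py z := by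
    intro n
    have hlt : t - q n < t := by linarith [qpos n]
    have k1 := h.trans hS hlt ht
    have k3 := (h.diff_mem.mul h.isOpen hS.isOpen k1 h.diff_bdd
      (Eventually.of_forall fun z => trans_bdd hlt z)).mono inter_subset_left
    have e := h.eig.eq' _ _ _ k3
    have rhs : 0 ≤ ∫ z, p z * ((w z - p z) * S.indicator (fun z => tr (t - q n) t (p z)) z) := by
      apply int_nonneg_ae
      filter_upwards [h.le] with z hz
      apply mul_nonneg (h.p_nonneg z)
      apply mul_nonneg (by linarith)
      exact indicator_nonneg (fun z _ => tr_nonneg hlt _) z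
    rw [← e] at rhs
    have hc : 0 ≤ 1 / (t - (t - q n)) := by
      have := qpos n
      apply div_nonneg zero_le_one; linarith
    have mS : AEStronglyMeasurable (fun z => S.indicator (fun z => tr (t - q n) t (p z)) z) volume :=
      k1.mu.aestronglyMeasurable
    refine rhs.trans ?_
    have iL : Integrable (fun z => px z * ((wx z - px z) * S.indicator (fun z => tr (t - q n) t (p z)) z
        + (w z - p z) * (-(1 / (t - (t - q n))) * ((band p S (t - q n) t).indicator px z)))
      + py z * ((wy z - py z) * S.indicator (fun z => tr (t - q n) t (p z)) z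
        + (w z - p z) * (-(1 / (t - (t - q n))) * ((band p S (t - q n) t).indicator py z)))) :=
      iadd (integrable_mul2 h.eig.mem.ma k3.ma) (integrable_mul2 h.eig.mem.mb k3.mb)
    have iR : Integrable (fun z => (S.indicator (fun z => tr (t - q n) t (p z)) z) * fl wx wy px py z) :=
      ibmul mS (Eventually.of_forall fun z => trans_bdd hlt z) hfl
    apply int_mono_ae iL iR
    filter_upwards [h.le] with z hz
    unfold fl
    by_cases hb : z ∈ band p S (t - q n) t
    · rw [indicator_of_mem hb, indicator_of_mem hb]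
      have : 0 ≤ (w z - p z) * (1 / (t - (t - q n))) * (px z ^ 2 + py z ^ 2) := by
        apply mul_nonneg (mul_nonneg (by linarith) hc) (by positivity)
      nlinarith
    · rw [indicator_of_notMem hb, indicator_of_notMem hb]
      apply le_of_eq; ring
  have lim : Tendsto (fun n => ∫ z, (S.indicator (fun z => tr (t - q n) t (p z)) z) * fl wx wy px py z)
      atTop (𝓝 (∫ z, (subl p S t).indicator (fl wx wy px py) z)) := by
    apply tendsto_integral_of_dominated_convergence (fun z => ‖fl wx wy px py z‖)
    · intro n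
      have hlt : t - q n < t := by linarith [qpos n]
      exact ((h.trans hS hlt ht).mu.aestronglyMeasurable).mul hfl.aestronglyMeasurable
    · exact hfl.norm
    · intro n
      have hlt : t - q n < t := by linarith [qpos n]
      filter_upwards with z
      rw [norm_mul]
      exact mul_le_of_le_one_left (norm_nonneg _) (trans_bdd hlt z)
    · filter_upwards with z
      by_cases hz : z ∈ S
      · by_cases hp : p z < t
        · have hm : z ∈ subl p S t := ⟨hz, hp⟩
          rw [indicator_of_mem hm]
          refine tendsto_const_nhds.congr' ?_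
          have : ∀ᶠ n in atTop, q n < t - p z := qlim.eventually_lt_const (by linarith)
          filter_upwards [this] with n hn
          rw [indicator_of_mem hz, tr_one (by linarith [qpos n]) (by linarith), one_mul]
        · have hm : z ∉ subl p S t := fun h' => hp h'.2
          rw [indicator_of_notMem hm]
          refine tendsto_const_nhds.congr fun n => ?_
          rw [indicator_of_mem hz, tr_zero (by linarith [qpos n]) (not_lt.1 hp), zero_mul]
      · have hm : z ∉ subl p S t := fun h' => hz h'.1
        rw [indicator_of_notMem hm]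
        refine tendsto_const_nhds.congr fun n => ?_
        rw [indicator_of_notMem hz, zero_mul]
  rw [← integral_indicator (h.subl_open hS.isOpen t).measurableSet]
  exact ge_of_tendsto' lim key

/-- (7c) lower bound of the flux at level `t0` -/
theorem flux_lower (h : Crit' δ α Ω w wx wy p px py) (hS : Cell p T S) {t0 a s t : ℝ} (h0 : 0 < t0)
    (ha : t0 ≤ a) (hst : s < t) (h0t : t0 < t) (ht : t ≤ T) (ht1 : t ≤ 1) :
    (1 - t) * t0 * (t - s) * vol (band p S a s) ≤ t * ∫ z in subl p S t0, fl wx wy px py z := by
  have k1 := h.trans hS h0t ht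
  have k2 := H0.minLevel h.isOpen h.eig.mem h0.le
  have k3 := (k2.mul h.isOpen hS.isOpen k1 (M := t0) (M' := 1) (by
    filter_upwards with z
    rw [abs_of_nonneg (le_min (h.p_nonneg z) h0.le)]; exact min_le_right _ _)
    (Eventually.of_forall fun z => trans_bdd h0t z)).mono inter_subset_left
  have e := h.diff_eq k3
  have hfl := h.fl_int
  have mb := h.band_meas hS.isOpen t0 t
  have ms := (h.subl_open hS.isOpen t0).measurableSet
  have mst := (h.subl_open hS.isOpen t).measurableSet
  have htt : 0 < t - t0 := by linarith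
  -- left side
  have e2 : ∫ z, ((wx z - px z) * ((if p z ≤ t0 then px z else 0) * S.indicator (fun z => tr t0 t (p z)) z
        + min (p z) t0 * (- (1 / (t - t0)) * ((band p S t0 t).indicator px z)))
      + (wy z - py z) * ((if p z ≤ t0 then py z else 0) * S.indicator (fun z => tr t0 t (p z)) z
        + min (p z) t0 * (- (1 / (t - t0)) * ((band p S t0 t).indicator py z))))
      = (t / (t - t0)) * (∫ z, (subl p S t0).indicator (fl wx wy px py) z)
        + (- (t0 / (t - t0))) * ∫ z, (subl p S t).indicator (fl wx wy px py) z := by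
    rw [← int_cadd _ _ (iind ms hfl) (iind mst hfl)]
    apply integral_congr_ae
    filter_upwards [H0.kink_pos h.isOpen h.eig.mem h0] with z hk
    by_cases hz : z ∈ S
    · rw [indicator_of_mem hz]
      rcases lt_trichotomy (p z) t0 with h1 | h1 | h1
      · have n1 : z ∈ subl p S t0 := ⟨hz, h1⟩
        have n3 : z ∈ subl p S t := ⟨hz, by simp only [mem_ofPred_eq]; linarith⟩
        have n2 : z ∉ band p S t0 t := fun h' => by have := h'.2.1; linarith
        rw [indicator_of_mem n1, indicator_of_notMem n2, indicator_of_notMem n2,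
          indicator_of_mem n3, if_pos h1.le, if_pos h1.le, tr_one h0t (by linarith)]
        unfold fl
        field_simp
        ring
      · obtain ⟨q1, q2⟩ := hk h1
        have n3 : ∀ B : Set P, B.indicator (fl wx wy px py) z = 0 := by
          intro B
          by_cases hb : z ∈ B
          · rw [indicator_of_mem hb]; unfold fl; rw [q1, q2]; ring
          · rw [indicator_of_notMem hb]
        have n4 : (band p S t0 t).indicator px z = 0 := by
          by_cases hb : z ∈ band p S t0 t
          · rw [indicator_of_mem hb, q1]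
          · rw [indicator_of_notMem hb]
        have n5 : (band p S t0 t).indicator py z = 0 := by
          by_cases hb : z ∈ band p S t0 t
          · rw [indicator_of_mem hb, q2]
          · rw [indicator_of_notMem hb]
        rw [n3, n3, n4, n5, q1, q2]
        simp
      · have n1 : z ∉ subl p S t0 := fun h' => by have := h'.2; simp only [mem_ofPred_eq] at this; linarith
        rw [indicator_of_notMem n1, if_neg (not_le.2 h1), if_neg (not_le.2 h1), min_eq_right h1.le]
        by_cases hb : z ∈ band p S t0 t
        · have n3 : z ∈ subl p S t := ⟨hz, hb.2.2⟩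
          rw [indicator_of_mem hb, indicator_of_mem hb, indicator_of_mem n3]
          unfold fl
          ring
        · have n3 : z ∉ subl p S t := fun h' => hb ⟨hz, h1.le, h'.2⟩
          rw [indicator_of_notMem hb, indicator_of_notMem hb, indicator_of_notMem n3]; ring
    · have n1 : z ∉ subl p S t0 := fun h' => hz h'.1
      have n2 : z ∉ band p S t0 t := fun h' => hz h'.1
      have n3 : z ∉ subl p S t := fun h' => hz h'.1
      rw [indicator_of_notMem hz, indicator_of_notMem n1, indicator_of_notMem n2,
        indicator_of_notMem n2, indicator_of_notMem n3]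
      ring
  rw [e2, integral_indicator ms, integral_indicator mst] at e
  have hD := h.flux_nonneg hS ht
  -- right side
  have rhs : (1 - t) * t0 * (t - s) / (t - t0) * vol (band p S a s)
      ≤ ∫ z, (Ω.indicator (fun _ => (1 : ℝ)) z - p z) *
        (min (p z) t0 * S.indicator (fun z => tr t0 t (p z)) z) := by
    have mas := h.band_meas hS.isOpen a s
    have e3 : (1 - t) * t0 * (t - s) / (t - t0) * vol (band p S a s)
        = ∫ z, (band p S a s).indicator (fun _ => (1 - t) * t0 * (t - s) / (t - t0)) z := by
      rw [integral_indicator mas, setIntegral_const, smul_eq_mul, mul_comm]; rfl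
    rw [e3]
    apply int_mono_ae
    · exact (integrable_indicator_iff mas).2 (integrableOn_const (band_fin hS a s))
    · exact integrable_mul2 (msub h.one_memLp h.eig.mem.mu) k3.mu
    · filter_upwards [h.off] with z hoff
      by_cases hz : z ∈ band p S a s
      · rw [indicator_of_mem hz, indicator_of_mem hz.1]
        have p1 : a ≤ p z := hz.2.1
        have p2 : p z < s := hz.2.2
        have hΩ : z ∈ Ω := by
          by_contra hn
          have := (hoff hn).2
          linarith
        rw [indicator_of_mem hΩ, min_eq_right (by linarith), tr_mid (by linarith) (by linarith)]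
        have q1 : (1 - t) ≤ 1 - p z := by linarith
        have q2 : (t - s) / (t - t0) ≤ (t - p z) / (t - t0) :=
          div_le_div_of_nonneg_right (by linarith) htt.le
        have q3 : 0 ≤ (t - s) / (t - t0) := div_nonneg (by linarith) htt.le
        have q4 : (1 - t) * ((t - s) / (t - t0)) ≤ (1 - p z) * ((t - p z) / (t - t0)) :=
          mul_le_mul q1 q2 q3 (by linarith)
        have q5 := mul_le_mul_of_nonneg_left q4 h0.le
        calc (1 - t) * t0 * (t - s) / (t - t0) = t0 * ((1 - t) * ((t - s) / (t - t0))) := by ring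
          _ ≤ t0 * ((1 - p z) * ((t - p z) / (t - t0))) := q5
          _ = _ := by ring
      · rw [indicator_of_notMem hz]
        have hp := h.p_nonneg z
        rcases hp.eq_or_lt with h1 | h1
        · rw [← h1, min_eq_left h0.le]; simp
        · have hΩ : z ∈ Ω := by
            by_contra hn
            have := (hoff hn).2
            linarith
          rw [indicator_of_mem hΩ]
          by_cases hzS : z ∈ S
          · rw [indicator_of_mem hzS]
            by_cases hpt : p z < t
            · apply mul_nonneg (by linarith)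
              exact mul_nonneg (le_min hp h0.le) (tr_nonneg h0t _)
            · rw [tr_zero h0t (not_lt.1 hpt)]; simp
          · rw [indicator_of_notMem hzS]; simp
  rw [← e] at rhs
  have r2 : (1 - t) * t0 * (t - s) / (t - t0) * vol (band p S a s)
      = ((1 - t) * t0 * (t - s) * vol (band p S a s)) / (t - t0) := by ring
  have r3 : (t / (t - t0)) * (∫ z in subl p S t0, fl wx wy px py z)
        + (- (t0 / (t - t0))) * (∫ z in subl p S t, fl wx wy px py z)
      = (t * (∫ z in subl p S t0, fl wx wy px py z)
        - t0 * (∫ z in subl p S t, fl wx wy px py z)) / (t - t0) := by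
    field_simp
    try ring
  rw [r2, r3, div_le_div_iff_of_pos_right htt] at rhs
  have := mul_nonneg h0.le hD
  linarith

end Crit'

end Pool.Agent.Lib.MP_f46d6a
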