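import Pool.Agent.Lib.MP_f46d6a.Comp2

/-!
# Flux upper bound, capacity bound, iterated growth
-/

set_option autoImplicit false

open MeasureTheory Set Filter Topology
open scoped ContDiff

namespace Pool.Agent.Lib.MP_f46d6a

open Pool.Agent.Lib.MP_dac83a

/-- stress components -/
noncomputable def sA (wx wy px py : P → ℝ) (z : P) : ℝ :=
  (wx z ^ 2 - wy z ^ 2) - (px z ^ 2 - py z ^ 2)
noncomputable def sB (wx wy px py : P → ℝ) (z : P) : ℝ :=
  2 * (wx z * wy z - px z * py z)

theorem fl_sq_le (wx wy px py : P → ℝ) (z : P) :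
    2 * Crit'.fl wx wy px py z ≤ √(sA wx wy px py z ^ 2 + sB wx wy px py z ^ 2) := by
  rcases le_total (Crit'.fl wx wy px py z) 0 with hn | hs
  · have := Real.sqrt_nonneg (sA wx wy px py z ^ 2 + sB wx wy px py z ^ 2)
    linarith
  unfold Crit'.fl at hs ⊢
  unfold sA sB
  set u := wx z - px z with hu
  set v := wy z - py z with hv
  have e1 : wx z = u + px z := by rw [hu]; ring
  have e2 : wy z = v + py z := by rw [hv]; ring
  rw [e1, e2]
  have e3 : (((u + px z) ^ 2 - (v + py z) ^ 2) - (px z ^ 2 - py z ^ 2)) ^ 2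
      + (2 * ((u + px z) * (v + py z) - px z * py z)) ^ 2
      = (u ^ 2 + v ^ 2) * ((u + 2 * px z) ^ 2 + (v + 2 * py z) ^ 2) := by ring
  rw [e3]
  refine (le_abs_self _).trans (Real.abs_le_sqrt ?_)
  have e4 : (2 * (px z * u + py z * v)) ^ 2 ≤ (u ^ 2 + v ^ 2) * (4 * (px z ^ 2 + py z ^ 2)) := by
    nlinarith [sq_nonneg (px z * v - py z * u)]
  have e5 : (u ^ 2 + v ^ 2) * (4 * (px z ^ 2 + py z ^ 2))
      ≤ (u ^ 2 + v ^ 2) * ((u + 2 * px z) ^ 2 + (v + 2 * py z) ^ 2) := by
    apply mul_le_mul_of_nonneg_left _ (by positivity)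
    nlinarith [sq_nonneg u, sq_nonneg v]
  exact e4.trans e5

/-- capacity constant -/
noncomputable def KC : ℝ := 2 * (C0 * (4 * √(8 * mu0)) + 2 * √(C1 * mu0))

theorem KC_nonneg : 0 ≤ KC := by
  have := C0_pos
  unfold KC
  positivity

theorem gG_test {ρ : ℝ} (hρ : 0 < ρ) (h1 : ρ ≤ 1) (x : P) :
    IsTest1 (Metric.ball x 2) (fun z => gk ρ 1 (z - x)) := by
  have ht := gkt_test hρ h1 x
  refine ⟨ht.smooth, ht.cpt, ?_⟩
  have : tsupport (fun z => gk ρ 1 (z - x)) ⊆ Metric.closedBall x 1 := by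
    apply closure_minimal _ Metric.isClosed_closedBall
    intro z hz
    have := gk_support hρ h1 hz
    rw [Metric.mem_closedBall, dist_zero_right] at this
    rwa [Metric.mem_closedBall, dist_eq_norm]
  exact this.trans (Metric.closedBall_subset_ball (by norm_num))

theorem gG_bounds {ρ : ℝ} (hρ : 0 < ρ) (h1 : ρ ≤ 1) (x : P) :
    (∫ z, (dd ex (fun z => gk ρ 1 (z - x)) z ^ 2 + dd ey (fun z => gk ρ 1 (z - x)) z ^ 2)
      ≤ 2 * Real.log (1 / ρ) * mu0) ∧
    (∫ z, gk ρ 1 (z - x) ≤ 4 * √(8 * mu0) * √(2 * Real.log (1 / ρ))) := by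
  have hL : 0 ≤ 2 * Real.log (1 / ρ) := log_ratio_nonneg hρ h1
  have e : ∫ z, (dd ex (fun z => gk ρ 1 (z - x)) z ^ 2 + dd ey (fun z => gk ρ 1 (z - x)) z ^ 2)
      = ∫ z, (dd ex (gk ρ 1) z ^ 2 + dd ey (gk ρ 1) z ^ 2) := by
    simp only [dd_trans]
    exact integral_sub_right_eq_self (fun z => dd ex (gk ρ 1) z ^ 2 + dd ey (gk ρ 1) z ^ 2) x
  have hE := gk_energy hρ h1
  rw [← e] at hE
  refine ⟨hE, ?_⟩
  have hg := H0.of_C1 Metric.isOpen_ball (gG_test hρ h1 x)
  have hvol : vol (Metric.ball x 2) ≤ 16 := by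
    have h2 : volume (Metric.ball x 2) ≤ volume (Metric.closedBall x 2) :=
      measure_mono Metric.ball_subset_closedBall
    have h3 := ENNReal.toReal_mono (vol_ball_ne x 2) h2
    rw [vol_ball x (by norm_num)] at h3
    unfold vol; linarith
  have hfin : volume (Metric.ball x (2 : ℝ)) ≠ ⊤ :=
    ((measure_mono Metric.ball_subset_closedBall).trans_lt
      (lt_top_iff_ne_top.2 (vol_ball_ne x 2))).ne
  have hp := hg.poinc Metric.isOpen_ball hfin
  have hi := hg.int_le Metric.isOpen_ball hfin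
  have hv0 : 0 ≤ vol (Metric.ball x 2) := ENNReal.toReal_nonneg
  have hsq : ∫ z, (gk ρ 1 (z - x)) ^ 2 ≤ 8 * mu0 * (2 * Real.log (1 / ρ)) := by
    have hm := mu0_pos
    have h4 : vol (Metric.ball x 2) *
        ∫ z, (dd ex (fun z => gk ρ 1 (z - x)) z ^ 2 + dd ey (fun z => gk ρ 1 (z - x)) z ^ 2)
        ≤ 16 * (2 * Real.log (1 / ρ) * mu0) :=
      mul_le_mul hvol hE (integral_nonneg fun z => by positivity) (by norm_num)
    linarith
  refine hi.trans ?_
  have s1 : √(vol (Metric.ball x 2)) ≤ 4 := by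
    rw [Real.sqrt_le_left (by norm_num)]
    linarith
  have s2 : √(∫ z, (gk ρ 1 (z - x)) ^ 2) ≤ √(8 * mu0) * √(2 * Real.log (1 / ρ)) := by
    rw [← Real.sqrt_mul (by have := mu0_pos; positivity)]
    exact Real.sqrt_le_sqrt hsq
  calc √(vol (Metric.ball x 2)) * √(∫ z, (gk ρ 1 (z - x)) ^ 2)
      ≤ 4 * (√(8 * mu0) * √(2 * Real.log (1 / ρ))) :=
        mul_le_mul s1 s2 (Real.sqrt_nonneg _) (by norm_num)
    _ = _ := by ring

namespace Crit'

variable {δ α : ℝ} {Ω : Set P} {w wx wy p px py : P → ℝ} {T : ℝ} {S : Set P}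

/-- (7d) -/
theorem flux_upper (h : Crit' δ α Ω w wx wy p px py) (hS : Cell p T S) {t0 : ℝ} (ht : t0 ≤ T)
    (hA : MemLp (sA wx wy px py) 2 volume) (hB : MemLp (sB wx wy px py) 2 volume) :
    4 * (∫ z in subl p S t0, fl wx wy px py z) ^ 2 ≤ vol (subl p S t0) *
      ∫ z in subl p S t0, (sA wx wy px py z ^ 2 + sB wx wy px py z ^ 2) := by
  have ms := (h.subl_open hS.isOpen t0).measurableSet
  have hq : MemLp (fun z => √(sA wx wy px py z ^ 2 + sB wx wy px py z ^ 2)) 2 volume := by
    have hm : AEStronglyMeasurable (fun z => √(sA wx wy px py z ^ 2 + sB wx wy px py z ^ 2)) volume :=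
      (Real.continuous_sqrt.comp_aestronglyMeasurable
        (hA.integrable_sq.aestronglyMeasurable.add hB.integrable_sq.aestronglyMeasurable))
    rw [memLp_two_iff_integrable_sq hm]
    refine (iadd hA.integrable_sq hB.integrable_sq).congr ?_
    filter_upwards with z
    rw [Real.sq_sqrt (by positivity)]
  have cs := cs_set hq ms (subl_fin hS t0)
  have e1 : ∀ z, √(sA wx wy px py z ^ 2 + sB wx wy px py z ^ 2) ^ 2
      = sA wx wy px py z ^ 2 + sB wx wy px py z ^ 2 := fun z => Real.sq_sqrt (by positivity)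
  simp only [e1] at cs
  have hD := h.flux_nonneg hS ht
  have h2 : 2 * (∫ z in subl p S t0, fl wx wy px py z)
      ≤ ∫ z, |(subl p S t0).indicator (fun z => √(sA wx wy px py z ^ 2 + sB wx wy px py z ^ 2)) z| := by
    rw [← integral_const_mul, ← integral_indicator ms]
    apply int_mono ((h.fl_int.const_mul 2).indicator ms)
    · have : Integrable (fun z => (subl p S t0).indicator
          (fun z => √(sA wx wy px py z ^ 2 + sB wx wy px py z ^ 2)) z) := by
        refine l1_integrable ms (subl_fin hS t0) (hq.indicator ms) ?_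
        filter_upwards with z hz
        rw [indicator_of_notMem hz]
      exact this.abs
    · intro z
      by_cases hz : z ∈ subl p S t0
      · rw [indicator_of_mem hz, indicator_of_mem hz]
        exact (fl_sq_le wx wy px py z).trans (le_abs_self _)
      · rw [indicator_of_notMem hz, indicator_of_notMem hz]; simp
  have h3 := pow_le_pow_left₀ (by linarith) h2 2
  calc 4 * (∫ z in subl p S t0, fl wx wy px py z) ^ 2
      = (2 * (∫ z in subl p S t0, fl wx wy px py z)) ^ 2 := by ring
    _ ≤ _ := h3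
    _ ≤ _ := cs

/-- (7f) capacity bound for the energy of small cells -/
theorem cap (h : Crit' δ α Ω w wx wy p px py) (hS : Cell p T S) {t0 : ℝ} (h0 : 0 < t0)
    {x : P} {ρ : ℝ} (hρ : 0 < ρ) (hsub : ∀ z ∈ S, r2 (z - x) ≤ ρ ^ 2) (hρ1 : ρ ≤ 1)
    (hL : 2 ≤ 2 * Real.log (1 / ρ)) :
    ∫ z in subl p S t0, (px z ^ 2 + py z ^ 2) ≤ t0 * (KC / √(2 * Real.log (1 / ρ))) := by
  set L := 2 * Real.log (1 / ρ) with hLdef
  set G : P → ℝ := fun z => gk ρ 1 (z - x) with hG
  have hGt := gG_test hρ hρ1 x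
  obtain ⟨gE, gI⟩ := gG_bounds hρ hρ1 x
  rw [← hLdef] at gE gI
  have hGt' : IsTest1 univ G := ⟨hGt.smooth, hGt.cpt, subset_univ _⟩
  obtain ⟨CG, -, hC1, hC2, hC3⟩ := hGt'.bdd
  have k2 := H0.minLevel h.isOpen h.eig.mem h0.le
  have k3 := k2.mul_C1 h.isOpen hGt'.smooth hC1 hC2 hC3
  have e := h.eig.eq' _ _ _ k3
  have hGn : ∀ z, 0 ≤ G z := fun z => gk_nonneg hρ hρ1 _
  have hGi : Integrable G := hGt'.smooth.continuous.integrable_of_hasCompactSupport hGt'.cpt
  have mGx : MemLp (dd ex G) 2 volume := IsTest1.dd_memLp hGt' ex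
  have mGy : MemLp (dd ey G) 2 volume := IsTest1.dd_memLp hGt' ey
  have hC0 := C0_pos
  have hm := mu0_pos
  have hL0 : 0 < L := by linarith
  -- the two pieces
  have i1 : Integrable (fun z => G z * ((if p z ≤ t0 then px z else 0) * px z
      + (if p z ≤ t0 then py z else 0) * py z)) :=
    ibmul hGt'.smooth.continuous.aestronglyMeasurable (Eventually.of_forall hC1)
      (iadd (integrable_mul2 k2.ma h.eig.mem.ma) (integrable_mul2 k2.mb h.eig.mem.mb))
  have i20 : Integrable (fun z => px z * dd ex G z + py z * dd ey G z) :=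
    iadd (integrable_mul2 h.eig.mem.ma mGx) (integrable_mul2 h.eig.mem.mb mGy)
  have i2 : Integrable (fun z => min (p z) t0 * (px z * dd ex G z + py z * dd ey G z)) :=
    ibmul (C := t0) k2.mu.aestronglyMeasurable (by
      filter_upwards with z
      rw [abs_of_nonneg (le_min (h.p_nonneg z) h0.le)]; exact min_le_right _ _) i20
  have e2 : ∫ z, (px z * (G z * (if p z ≤ t0 then px z else 0) + dd ex G z * min (p z) t0)
      + py z * (G z * (if p z ≤ t0 then py z else 0) + dd ey G z * min (p z) t0))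
      = (∫ z, G z * ((if p z ≤ t0 then px z else 0) * px z + (if p z ≤ t0 then py z else 0) * py z))
        + ∫ z, min (p z) t0 * (px z * dd ex G z + py z * dd ey G z) := by
    rw [← int_add i1 i2]
    congr 1; ext z; ring
  rw [e2] at e
  -- first piece
  have ms := (h.subl_open hS.isOpen t0).measurableSet
  have p1 : (L - 1) * (∫ z in subl p S t0, (px z ^ 2 + py z ^ 2))
      ≤ ∫ z, G z * ((if p z ≤ t0 then px z else 0) * px z + (if p z ≤ t0 then py z else 0) * py z) := by
    rw [← integral_const_mul, ← integral_indicator ms]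
    apply int_mono ((h.eig.mem.int_en.const_mul (L - 1)).indicator ms) i1
    intro z
    by_cases hz : z ∈ subl p S t0
    · rw [indicator_of_mem hz, if_pos (le_of_lt hz.2), if_pos (le_of_lt hz.2)]
      have g1 : L - 1 ≤ G z := gk_lower hρ hρ1 (hsub z hz.1)
      nlinarith [sq_nonneg (px z), sq_nonneg (py z)]
    · rw [indicator_of_notMem hz]
      apply mul_nonneg (hGn z)
      split_ifs
      · exact add_nonneg (mul_self_nonneg _) (mul_self_nonneg _)
      · simp
  -- second piece
  have hB : MeasurableSet (Metric.closedBall x (1 : ℝ)) := measurableSet_closedBall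
  have offB : ∀ z, z ∉ Metric.closedBall x (1 : ℝ) → ∀ v, dd v G z = 0 := by
    intro z hz v
    apply dd_zero_of_notMem_tsupport
    intro h'
    have : tsupport G ⊆ Metric.closedBall x 1 := by
      apply closure_minimal _ Metric.isClosed_closedBall
      intro z hz
      have := gk_support hρ hρ1 hz
      rw [Metric.mem_closedBall, dist_zero_right] at this
      rwa [Metric.mem_closedBall, dist_eq_norm]
    exact hz (this h')
  have hEp := h.local_p x (r := 1) (by norm_num)
  rw [h.band_split] at hEp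
  have hEG : (∫ z, dd ex G z ^ 2) + ∫ z, dd ey G z ^ 2 ≤ L * mu0 := by
    rw [← int_add mGx.integrable_sq mGy.integrable_sq]; exact gE
  have csq : ∀ (q : P → ℝ) (v : P), MemLp q 2 volume → MemLp (dd v G) 2 volume →
      ∫ z in Metric.closedBall x (1 : ℝ), q z ^ 2 ≤ C1 → ∫ z, dd v G z ^ 2 ≤ L * mu0 →
      ∫ z, |q z * dd v G z| ≤ √(C1 * mu0) * √L := by
    intro q v mq mv h1 h2
    have hc := cs_sq (mq.indicator hB) mv
    have e3 : ∫ z, |(Metric.closedBall x (1 : ℝ)).indicator q z * dd v G z|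
        = ∫ z, |q z * dd v G z| := by
      congr 1; ext z
      by_cases hz : z ∈ Metric.closedBall x (1 : ℝ)
      · rw [indicator_of_mem hz]
      · rw [offB z hz v]; simp
    have e4 : ∫ z, ((Metric.closedBall x (1 : ℝ)).indicator q z) ^ 2
        = ∫ z in Metric.closedBall x (1 : ℝ), q z ^ 2 := by
      rw [← integral_indicator hB]
      congr 1; ext z
      by_cases hz : z ∈ Metric.closedBall x (1 : ℝ)
      · rw [indicator_of_mem hz, indicator_of_mem hz]
      · rw [indicator_of_notMem hz, indicator_of_notMem hz]; ring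
    rw [e3, e4] at hc
    have h5 : (∫ z, |q z * dd v G z|) ^ 2 ≤ (C1 * mu0) * L := by
      refine hc.trans ?_
      have hv : 0 ≤ ∫ z, dd v G z ^ 2 := integral_nonneg fun z => sq_nonneg _
      have := mul_le_mul h1 h2 hv (by have := C1_pos; linarith)
      linarith
    have h6 := Real.abs_le_sqrt h5
    rw [Real.sqrt_mul (by have := C1_pos; positivity)] at h6
    exact (le_abs_self _).trans h6
  have nn1 : 0 ≤ ∫ z in Metric.closedBall x (1:ℝ), px z ^ 2 := integral_nonneg fun z => sq_nonneg _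
  have nn2 : 0 ≤ ∫ z in Metric.closedBall x (1:ℝ), py z ^ 2 := integral_nonneg fun z => sq_nonneg _
  have nn3 : 0 ≤ ∫ z, dd ex G z ^ 2 := integral_nonneg fun z => sq_nonneg _
  have nn4 : 0 ≤ ∫ z, dd ey G z ^ 2 := integral_nonneg fun z => sq_nonneg _
  have q1 := csq px ex h.eig.mem.ma mGx (by linarith) (by linarith)
  have q2 := csq py ey h.eig.mem.mb mGy (by linarith) (by linarith)
  have p2 : - (t0 * (2 * (√(C1 * mu0) * √L)))
      ≤ ∫ z, min (p z) t0 * (px z * dd ex G z + py z * dd ey G z) := by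
    have j1 : Integrable (fun z => |px z * dd ex G z|) := (integrable_mul2 h.eig.mem.ma mGx).abs
    have j2 : Integrable (fun z => |py z * dd ey G z|) := (integrable_mul2 h.eig.mem.mb mGy).abs
    have : ∫ z, ((-t0) * |px z * dd ex G z| + (-t0) * |py z * dd ey G z|)
        ≤ ∫ z, min (p z) t0 * (px z * dd ex G z + py z * dd ey G z) := by
      apply int_mono (iadd (icm _ j1) (icm _ j2)) i2
      intro z
      have m1 : 0 ≤ min (p z) t0 := le_min (h.p_nonneg z) h0.le
      have m2 : min (p z) t0 ≤ t0 := min_le_right _ _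
      have a1 : -|px z * dd ex G z| ≤ px z * dd ex G z := neg_abs_le _
      have a2 : -|py z * dd ey G z| ≤ py z * dd ey G z := neg_abs_le _
      have b1 := abs_nonneg (px z * dd ex G z)
      have b2 := abs_nonneg (py z * dd ey G z)
      nlinarith [mul_le_mul_of_nonneg_right m2 b1, mul_le_mul_of_nonneg_right m2 b2,
        mul_le_mul_of_nonneg_left a1 m1, mul_le_mul_of_nonneg_left a2 m1]
    rw [int_cadd _ _ j1 j2] at this
    nlinarith
  -- right side
  have p3 : ∫ z, p z * (G z * min (p z) t0) ≤ C0 * t0 * ∫ z, G z := by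
    rw [← integral_const_mul]
    apply int_mono_ae (integrable_mul2 h.eig.mem.mu k3.mu) (icm _ hGi)
    filter_upwards [h.p_le] with z hz
    have m1 : 0 ≤ min (p z) t0 := le_min (h.p_nonneg z) h0.le
    have m2 : min (p z) t0 ≤ t0 := min_le_right _ _
    have m3 : p z * min (p z) t0 ≤ C0 * t0 := mul_le_mul hz m2 m1 (by linarith)
    have := mul_le_mul_of_nonneg_right m3 (hGn z)
    linarith
  have p4 : C0 * t0 * (∫ z, G z) ≤ t0 * (C0 * (4 * √(8 * mu0)) * √L) := by
    have := mul_le_mul_of_nonneg_left gI (show 0 ≤ C0 * t0 by positivity)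
    calc C0 * t0 * (∫ z, G z) ≤ C0 * t0 * (4 * √(8 * mu0) * √L) := this
      _ = _ := by ring
  have fin : (L - 1) * (∫ z in subl p S t0, (px z ^ 2 + py z ^ 2))
      ≤ t0 * (C0 * (4 * √(8 * mu0)) + 2 * √(C1 * mu0)) * √L := by
    nlinarith
  have hE0 : 0 ≤ ∫ z in subl p S t0, (px z ^ 2 + py z ^ 2) := integral_nonneg fun z => by positivity
  have fin2 : L / 2 * (∫ z in subl p S t0, (px z ^ 2 + py z ^ 2))
      ≤ t0 * (C0 * (4 * √(8 * mu0)) + 2 * √(C1 * mu0)) * √L := by
    refine le_trans ?_ fin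
    apply mul_le_mul_of_nonneg_right _ hE0
    linarith
  have hs : 0 < √L := Real.sqrt_pos.2 hL0
  have hss : √L * √L = L := Real.mul_self_sqrt hL0.le
  rw [mul_div_assoc', le_div_iff₀ hs]
  have : √L * ((∫ z in subl p S t0, (px z ^ 2 + py z ^ 2)) * √L) ≤ √L * (t0 * KC) := by
    unfold KC
    have : √L * ((∫ z in subl p S t0, (px z ^ 2 + py z ^ 2)) * √L)
        = L * (∫ z in subl p S t0, (px z ^ 2 + py z ^ 2)) := by
      calc _ = (√L * √L) * (∫ z in subl p S t0, (px z ^ 2 + py z ^ 2)) := by ring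
        _ = _ := by rw [hss]
    rw [this]
    nlinarith
  exact le_of_mul_le_mul_left this hs

/-- additivity of the area of sublevel parts -/
theorem vol_subl_add (h : Crit' δ α Ω w wx wy p px py) (hS : Cell p T S) {s t : ℝ} (hst : s ≤ t) :
    vol (subl p S t) = vol (subl p S s) + vol (band p S s t) := by
  have hd : Disjoint (subl p S s) (band p S s t) := by
    rw [Set.disjoint_left]
    rintro z ⟨_, h1⟩ ⟨_, h2, _⟩
    simp only [mem_ofPred_eq] at h1
    linarith
  have hu : subl p S t = subl p S s ∪ band p S s t := by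
    ext z
    simp only [subl, band, mem_inter_iff, mem_ofPred_eq, mem_union]
    constructor
    · rintro ⟨h1, h2⟩
      by_cases h3 : p z < s
      · exact Or.inl ⟨h1, h3⟩
      · exact Or.inr ⟨h1, not_lt.1 h3, h2⟩
    · rintro (⟨h1, h2⟩ | ⟨h1, h2, h3⟩)
      · exact ⟨h1, by linarith⟩
      · exact ⟨h1, h3⟩
  unfold vol
  rw [hu, measure_union hd (h.band_meas hS.isOpen s t), ENNReal.toReal_add (subl_fin hS s)
    (band_fin hS s t)]

/-- iterated growth -/
theorem decay (h : Crit' δ α Ω w wx wy p px py) (hS : Cell p T S) {t0 f : ℝ} (h0 : 0 < t0)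
    (hf0 : 0 < f) (hf : ∫ z in subl p S t0, (px z ^ 2 + py z ^ 2) ≤ t0 * f) (n : ℕ)
    (hn : t0 + n * (f / 2) ≤ T) :
    2 ^ n * vol (subl p S t0) ≤ vol S := by
  have key : ∀ m : ℕ, m ≤ n → 2 ^ m * vol (subl p S t0) ≤ vol (subl p S (t0 + m * (f / 2))) := by
    intro m
    induction m with
    | zero => intro _; simp
    | succ m ih =>
      intro hm
      have ih := ih (by omega)
      have hmn : ((m : ℝ) + 1) ≤ n := by exact_mod_cast hm
      set s := t0 + m * (f / 2) with hs
      have ht : s + f / 2 ≤ T := by nlinarith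
      have hs0 : t0 ≤ s := by rw [hs]; have : (0 : ℝ) ≤ m * (f / 2) := by positivity
                              linarith
      have g := h.growth hS h0 hs0 (show s < s + f / 2 by linarith) ht hf
      have a := h.vol_subl_add hS (show s ≤ s + f / 2 by linarith)
      have e : t0 + ((m + 1 : ℕ) : ℝ) * (f / 2) = s + f / 2 := by push_cast; rw [hs]; ring
      rw [e, a, pow_succ]
      have g2 : vol (subl p S s) ≤ vol (band p S s (s + f / 2)) := by
        have : f * vol (subl p S s) ≤ f * vol (band p S s (s + f / 2)) := by nlinarith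
        exact le_of_mul_le_mul_left this hf0
      linarith
  refine (key n le_rfl).trans ?_
  exact ENNReal.toReal_mono hS.finite (measure_mono inter_subset_left)

end Crit'

end Pool.Agent.Lib.MP_f46d6a
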