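import Pool.Agent.Lib.MP_f46d6a.Dyadic

/-!
# Cutting along level sets, and the slicing inequality
-/

set_option autoImplicit false

open MeasureTheory Set Filter Topology
open scoped ContDiff

namespace Pool.Agent.Lib.MP_f46d6a

open Pool.Agent.Lib.MP_dac83a

theorem Lm_le_max (t : ℝ) : Lm t ≤ max 0 t := by
  rcases le_total t 0 with h | h
  · rw [Lm_of_nonpos h]; exact le_max_left _ _
  · exact (Lm_le h).trans (le_max_right _ _)

/-- the approximating profile `Lm ((n+1) s - 1)/(n+1)` of `max 0 s` -/
noncomputable def pf (n : ℕ) (s : ℝ) : ℝ := Lm (((n : ℝ) + 1) * s - 1) / ((n : ℝ) + 1)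

theorem pf_contDiff (n : ℕ) : ContDiff ℝ 1 (pf n) := by
  unfold pf
  exact (Lm_contDiff1.comp (by fun_prop)).div_const _

theorem pf_hasDeriv (n : ℕ) (s : ℝ) : HasDerivAt (pf n) (Lm' (((n : ℝ) + 1) * s - 1)) s := by
  have hn : ((n : ℝ) + 1) ≠ 0 := by positivity
  have h1 : HasDerivAt (fun s : ℝ => ((n : ℝ) + 1) * s - 1) ((n : ℝ) + 1) s := by
    simpa using ((hasDerivAt_id s).const_mul ((n : ℝ) + 1)).sub_const 1
  have h2 := ((Lm_hasDeriv (((n : ℝ) + 1) * s - 1)).comp s h1).div_const ((n : ℝ) + 1)
  refine h2.congr_deriv ?_
  field_simp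

theorem pf_nonneg (n : ℕ) (s : ℝ) : 0 ≤ pf n s := div_nonneg (Lm_nonneg _) (by positivity)

theorem pf_zero {n : ℕ} {s : ℝ} (h : s ≤ 1 / ((n : ℝ) + 1)) : pf n s = 0 := by
  unfold pf
  have hn : (0 : ℝ) < (n : ℝ) + 1 := by positivity
  rw [le_div_iff₀ hn] at h
  rw [Lm_of_nonpos (by linarith), zero_div]

theorem pf_le (n : ℕ) (s : ℝ) : pf n s ≤ max 0 s := by
  unfold pf
  have hn : (0 : ℝ) < (n : ℝ) + 1 := by positivity
  rw [div_le_iff₀ hn]
  refine (Lm_le_max _).trans ?_
  apply max_le
  · have := le_max_left 0 s; positivity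
  · have := le_max_right 0 s
    nlinarith

theorem pf_ge (n : ℕ) (s : ℝ) : max 0 s - 2 / ((n : ℝ) + 1) ≤ pf n s := by
  have hn : (0 : ℝ) < (n : ℝ) + 1 := by positivity
  have h1 := pf_nonneg n s
  have h2 : (((n : ℝ) + 1) * s - 1 - 1) / ((n : ℝ) + 1) ≤ pf n s := by
    unfold pf
    apply div_le_div_of_nonneg_right (Lm_ge _) hn.le
  have h3 : (((n : ℝ) + 1) * s - 1 - 1) / ((n : ℝ) + 1) = s - 2 / ((n : ℝ) + 1) := by
    field_simp; ring
  rw [h3] at h2
  have h4 : (0 : ℝ) < 2 / ((n : ℝ) + 1) := by positivity
  rcases le_total 0 s with h | h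
  · rw [max_eq_right h]; exact h2
  · rw [max_eq_left h]; linarith

theorem pf_tendsto {k : ℕ → ℕ} (hk : StrictMono k) {s : ℕ → ℝ} {s0 : ℝ}
    (hs : Tendsto s atTop (𝓝 s0)) : Tendsto (fun n => pf (k n) (s n)) atTop (𝓝 (max 0 s0)) := by
  have h1 : Tendsto (fun n => max 0 (s n)) atTop (𝓝 (max 0 s0)) := tendsto_const_nhds.max hs
  have h2 : Tendsto (fun n => 2 / (((k n : ℕ) : ℝ) + 1)) atTop (𝓝 0) := by
    have := (tendsto_one_div_add_atTop_nhds_zero_nat (𝕜 := ℝ)).comp hk.tendsto_atTop
    have := this.const_mul 2
    simp only [mul_zero, Function.comp, mul_one_div] at this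
    exact this
  have h3 := h1.sub h2
  rw [sub_zero] at h3
  exact tendsto_of_tendsto_of_tendsto_of_le_of_le h3 h1 (fun n => pf_ge _ _) (fun n => pf_le _ _)

namespace SubC

variable {C : ℝ} {u a b : P → ℝ}

/-- cutting a subsolution along a level set -/
theorem cut (h : SubC C u a b) {S : Set P} (hS : IsOpen S) (hb : Bornology.IsBounded S) {t : ℝ}
    (hfr : ∀ x ∈ frontier S, t ≤ star C u x) {τ : ℝ} (hτ : τ ≤ t) :
    H0 S (fun z => S.indicator (fun z => max 0 (τ - u z)) z)
      (fun z => - (S.indicator (fun z => if u z < τ then a z else 0) z))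
      (fun z => - (S.indicator (fun z => if u z < τ then b z else 0) z)) := by
  classical
  obtain ⟨c1, c2, c3⟩ := h.conv
  obtain ⟨k, hk, hl⟩ := c1.exists_ae
  have hcS : IsCompact (closure S) := hb.isCompact_closure
  have hvS : volume S ≠ ⊤ := ((measure_mono subset_closure).trans_lt hcS.measure_lt_top).ne
  set f : ℕ → P → ℝ := fun n => S.indicator (fun z => pf n (τ - dy C u n z)) with hf
  -- smoothness
  have ht : ∀ n, IsTest1 S (f n) := by
    intro n
    have hn : (0 : ℝ) < 1 / ((n : ℝ) + 1) := by positivity
    set K : Set P := closure S ∩ {z | dy C u n z ≤ τ - 1 / ((n : ℝ) + 1)} with hK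
    have hKc : IsCompact K :=
      hcS.inter_right (isClosed_le (h.dy_contDiff n).continuous continuous_const)
    have hKS : K ⊆ S := by
      rintro z ⟨h1, h2⟩
      by_contra hz
      have : z ∈ frontier S := by
        rw [frontier, hS.interior_eq]; exact ⟨h1, hz⟩
      have h3 := hfr z this
      have h4 := h.star_le n z
      simp only [mem_ofPred_eq] at h2
      linarith
    have := contDiff_of_vanish (n := 1) hS hKc hKS (f := f n) (by
      have e : ContDiffOn ℝ 1 (fun z => pf n (τ - dy C u n z)) S :=
        ((pf_contDiff n).comp (contDiff_const.sub (h.dy_contDiff n))).contDiffOn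
      exact e.congr (fun z hz => indicator_of_mem hz _)) (by
      intro z hz
      by_cases hzS : z ∈ S
      · simp only [hf, indicator_of_mem hzS]
        apply pf_zero
        have : ¬ (dy C u n z ≤ τ - 1 / ((n : ℝ) + 1)) := fun h' => hz ⟨subset_closure hzS, h'⟩
        linarith
      · simp only [hf, indicator_of_notMem hzS])
    exact ⟨this.1, this.2.1, this.2.2.trans hKS⟩
  -- derivatives
  have hder : ∀ n v z, dd v (f n) z
      = (- S.indicator (fun z => Lm' (((n : ℝ) + 1) * (τ - dy C u n z) - 1)) z)
        * dd v (dy C u n) z := by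
    intro n v z
    by_cases hz : z ∈ S
    · rw [indicator_of_mem hz]
      have e1 : dd v (f n) z = dd v (fun z => pf n (τ - dy C u n z)) z :=
        dd_congr hS (fun w hw => indicator_of_mem hw _) v z hz
      have hd : DifferentiableAt ℝ (dy C u n) z := (h.dy_contDiff n).differentiable (by norm_num) z
      rw [e1, dd_comp (F := pf n) (f := fun z => τ - dy C u n z)
        ((pf_contDiff n).differentiable (by norm_num) _)
        ((differentiableAt_const _).sub hd), (pf_hasDeriv n _).deriv,
        dd_sub (differentiableAt_const _) hd]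
      have : dd v (fun _ : P => τ) z = 0 := by simp [dd]
      rw [this]; ring
    · rw [indicator_of_notMem hz]
      have : z ∉ tsupport (f n) := fun h' => hz ((ht n).sub h')
      rw [dd_zero_of_notMem_tsupport this]; ring
  -- pointwise limits
  have hdy : ∀ᵐ z, Tendsto (fun n => dy C u (k n) z) atTop (𝓝 (u z)) := by
    filter_upwards [hl] with z hz
    have h1 := hz.add ((corr_lim (C := C)).comp hk.tendsto_atTop)
    rw [add_zero] at h1
    refine h1.congr fun n => ?_
    simp only [Function.comp, dy]; ring
  have conv_dd : ∀ v, ∀ {e : P → ℝ}, Conv2 volume (fun n => dd v (dy C u n)) e →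
      Conv2 volume (fun n => dd v (f (k n)))
        (fun z => - (S.indicator (fun z => if u z < τ then e z else 0) z)) := by
    intro v e ce
    have := (ce.subseq hk).mul_bdd
      (k := fun n z => - S.indicator (fun z => Lm' ((((k n : ℕ) : ℝ) + 1) * (τ - dy C u (k n) z) - 1)) z)
      (l := fun z => - S.indicator (fun z => if u z < τ then (1 : ℝ) else 0) z) (C := 1)
      (fun n => by
        have : Continuous (fun z => Lm' ((((k n : ℕ) : ℝ) + 1) * (τ - dy C u (k n) z) - 1)) :=
          Lm'_cont.comp (((continuous_const.mul (continuous_const.sub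
            (h.dy_contDiff (k n)).continuous))).sub continuous_const)
        exact (this.aestronglyMeasurable.indicator hS.measurableSet).neg)
      (fun n => by
        filter_upwards with z
        rw [abs_neg]
        by_cases hz : z ∈ S
        · rw [indicator_of_mem hz]; exact Lm'_abs_le _
        · rw [indicator_of_notMem hz]; simp)
      (by
        filter_upwards [hdy, h.le_dy] with z hz hz2
        by_cases hzS : z ∈ S
        · simp only [indicator_of_mem hzS]
          apply Tendsto.neg
          split_ifs with hlt
          · refine tendsto_const_nhds.congr' ?_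
            have h1 : Tendsto (fun n => (((k n : ℕ) : ℝ) + 1) * (τ - dy C u (k n) z) - 1) atTop
                atTop := by
              apply tendsto_atTop_add_const_right
              apply Tendsto.atTop_mul_pos (C := τ - u z) (by linarith)
              · exact tendsto_atTop_add_const_right _ _
                  (tendsto_natCast_atTop_atTop.comp hk.tendsto_atTop)
              · exact tendsto_const_nhds.sub hz
            filter_upwards [h1.eventually_ge_atTop 1] with n hn
            exact (Lm'_of_one_le hn).symm
          · refine tendsto_const_nhds.congr fun n => ?_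
            rw [Lm'_of_nonpos]
            have h1 := hz2 (k n)
            have h2 : (0 : ℝ) ≤ ((k n : ℕ) : ℝ) + 1 := by positivity
            have h3 : τ - dy C u (k n) z ≤ 0 := by linarith
            nlinarith
        · simp only [indicator_of_notMem hzS]
          exact tendsto_const_nhds)
    refine this.congr (fun n => ?_) ?_
    · filter_upwards with z
      rw [hder]
    · filter_upwards with z
      by_cases hz : z ∈ S
      · simp only [indicator_of_mem hz]
        split_ifs <;> ring
      · simp only [indicator_of_notMem hz]; ring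
  have conv_f : Conv2 volume (fun n => f (k n))
      (fun z => S.indicator (fun z => max 0 (τ - u z)) z) := by
    have mF : MemLp (S.indicator (fun _ => |τ|)) 2 volume :=
      memLp_indicator_const 2 hS.measurableSet _ (Or.inr hvS)
    refine conv2_of_dominated (fun n => (ht (k n)).smooth.continuous.aestronglyMeasurable) mF
      (fun n => ?_) ?_
    · filter_upwards with z
      by_cases hz : z ∈ S
      · simp only [hf, indicator_of_mem hz]
        rw [abs_of_nonneg (pf_nonneg _ _)]
        refine (pf_le _ _).trans ?_
        apply max_le (abs_nonneg _)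
        have := h.dy_nonneg (k n) z
        have := le_abs_self τ
        linarith
      · simp only [hf, indicator_of_notMem hz]; simp
    · filter_upwards [hdy] with z hz
      by_cases hzS : z ∈ S
      · simp only [hf, indicator_of_mem hzS]
        exact pf_tendsto hk (tendsto_const_nhds.sub hz)
      · simp only [hf, indicator_of_notMem hzS]
        exact tendsto_const_nhds
  exact H0.closed (fun n => H0.of_C1 hS (ht (k n))) conv_f (conv_dd ex c2) (conv_dd ey c3)

end SubC

end Pool.Agent.Lib.MP_f46d6a
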