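import Pool.Agent.Lib.MP_f46d6a.Mean

/-!
# First eigenvalue, torsional rigidity, torsion function, eigenfunctions
-/

set_option autoImplicit false

open MeasureTheory Set Filter Topology
open scoped ContDiff

namespace Pool.Agent.Lib.MP_f46d6a

open Pool.Agent.Lib.MP_dac83a

/-- weak form of the stress-energy identity -/
def StressId (A B Θ : P → ℝ) : Prop := ∀ X Y : P → ℝ, IsTest univ X → IsTest univ Y →
  ∫ z, (A z * (dd ex X z - dd ey Y z) + B z * (dd ey X z + dd ex Y z)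
    + Θ z * (dd ex X z + dd ey Y z)) = 0

/-- first Dirichlet eigenvalue of `U` -/
noncomputable def lamP (U : Set P) : ℝ :=
  sInf {q | ∃ φ, IsTest U φ ∧ 0 < Nm φ ∧ q = En φ / Nm φ}

/-- torsional rigidity of `U` -/
noncomputable def torP (U : Set P) : ℝ :=
  sSup {q | ∃ φ, IsTest U φ ∧ q = 2 * (∫ z, φ z) - En φ}

/-- area -/
noncomputable def vol (U : Set P) : ℝ := (volume U).toReal

/-- `w` is the torsion function of `U` -/
structure Tor (U : Set P) (w wx wy : P → ℝ) : Prop where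
  mem : H0 U w wx wy
  eq : ∀ η ηx ηy, H0 U η ηx ηy → ∫ z, (wx z * ηx z + wy z * ηy z) = ∫ z, η z
  nonneg : ∀ᵐ z, 0 ≤ w z

/-- `φ` is a nonnegative weak solution of `-Δφ = l φ` in `U` -/
structure Eigf (U : Set P) (l : ℝ) (φ φx φy : P → ℝ) : Prop where
  mem : H0 U φ φx φy
  eq : ∀ η ηx ηy, H0 U η ηx ηy → ∫ z, (φx z * ηx z + φy z * ηy z) = l * ∫ z, φ z * η z
  nonneg : ∀ᵐ z, 0 ≤ φ z

/-- optimality of `Ω` for the scale invariant functional `λ^α T / |.|^(2-α)` -/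
def Opt (α : ℝ) (Ω : Set P) : Prop := ∀ U : Set P, IsOpen U → U.Nonempty → volume U ≠ ⊤ →
  lamP U ^ α * torP U * vol Ω ^ (2 - α) ≤ lamP Ω ^ α * torP Ω * vol U ^ (2 - α)

/-- a nonnegative nonzero test function -/
theorem exists_test {U : Set P} (hU : IsOpen U) (hne : U.Nonempty) :
    ∃ φ, IsTest U φ ∧ 0 < Nm φ ∧ 0 < ∫ z, φ z := by
  obtain ⟨x, hx⟩ := hne
  obtain ⟨f, h1, h2, h3, h4, h5⟩ := exists_contDiff_tsupport_subset (E := P) (n := ⊤)
    (hU.mem_nhds hx)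
  have ht : IsTest U f := ⟨h3, h2, h1⟩
  have hnn : ∀ z, 0 ≤ f z := fun z => (h4 ⟨z, rfl⟩).1
  refine ⟨f, ht, ?_, ?_⟩
  · unfold Nm
    rw [integral_pos_iff_support_of_nonneg (fun z => sq_nonneg _) ht.int_sq]
    have : IsOpen (Function.support fun z => f z ^ 2) :=
      ((h3.continuous.pow 2)).isOpen_support
    exact this.measure_pos _ ⟨x, by simp [h5]⟩
  · rw [integral_pos_iff_support_of_nonneg hnn ht.integrable]
    have : IsOpen (Function.support f) := h3.continuous.isOpen_support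
    exact this.measure_pos _ ⟨x, by simp [h5]⟩

section basic

variable {U : Set P}

theorem vol_pos (hU : IsOpen U) (hne : U.Nonempty) (hf : volume U ≠ ⊤) : 0 < vol U :=
  ENNReal.toReal_pos (hU.measure_pos _ hne).ne' hf

theorem H0.int_en {u a b : P → ℝ} (h : H0 U u a b) :
    Integrable (fun z => a z ^ 2 + b z ^ 2) := h.ma.integrable_sq.add h.mb.integrable_sq

/-- Faber–Krahn type inequality from Gagliardo's inequality -/
theorem H0.poinc {u a b : P → ℝ} (h : H0 U u a b) (hU : IsOpen U) (hf : volume U ≠ ⊤) :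
    2 * ∫ z, u z ^ 2 ≤ vol U * ∫ z, (a z ^ 2 + b z ^ 2) := by
  have hz := h.zero_off
  have ga := h.gagliardo hU hf
  have la := l1_le hU.measurableSet hf h.ma (by filter_upwards [hz] with z hz h' using (hz h').2.1)
  have lb := l1_le hU.measurableSet hf h.mb (by filter_upwards [hz] with z hz h' using (hz h').2.2)
  have e : ∫ z, (a z ^ 2 + b z ^ 2) = (∫ z, a z ^ 2) + ∫ z, b z ^ 2 :=
    integral_add h.ma.integrable_sq h.mb.integrable_sq
  rw [e]
  have na : 0 ≤ ∫ z, a z ^ 2 := integral_nonneg fun z => sq_nonneg _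
  have nb : 0 ≤ ∫ z, b z ^ 2 := integral_nonneg fun z => sq_nonneg _
  have nV : 0 ≤ vol U := ENNReal.toReal_nonneg
  have n1 : 0 ≤ ∫ z, |b z| := integral_nonneg fun z => abs_nonneg _
  have h1 : (∫ z, |a z|) * ∫ z, |b z| ≤ (√(vol U) * √(∫ z, a z ^ 2)) * (√(vol U) * √(∫ z, b z ^ 2)) :=
    mul_le_mul la lb n1 (by positivity)
  have h2 : (√(vol U) * √(∫ z, a z ^ 2)) * (√(vol U) * √(∫ z, b z ^ 2))
      = vol U * (√(∫ z, a z ^ 2) * √(∫ z, b z ^ 2)) := by
    have := Real.mul_self_sqrt nV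
    calc _ = (√(vol U) * √(vol U)) * (√(∫ z, a z ^ 2) * √(∫ z, b z ^ 2)) := by ring
      _ = _ := by rw [this]
  have h3 : 2 * (√(∫ z, a z ^ 2) * √(∫ z, b z ^ 2)) ≤ (∫ z, a z ^ 2) + ∫ z, b z ^ 2 := by
    have e1 := Real.sq_sqrt na
    have e2 := Real.sq_sqrt nb
    nlinarith [sq_nonneg (√(∫ z, a z ^ 2) - √(∫ z, b z ^ 2))]
  have h4 := mul_le_mul_of_nonneg_left h3 nV
  nlinarith

theorem H0.int_le {u a b : P → ℝ} (h : H0 U u a b) (hU : IsOpen U) (hf : volume U ≠ ⊤) :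
    ∫ z, u z ≤ √(vol U) * √(∫ z, u z ^ 2) := by
  have hz := h.zero_off
  have lu := l1_le hU.measurableSet hf h.mu (by filter_upwards [hz] with z hz h' using (hz h').1)
  refine le_trans ?_ lu
  exact integral_mono (h.integrable_all hU hf).1 (h.integrable_all hU hf).1.abs
    (fun z => le_abs_self _)

theorem H0.int_le' {u a b : P → ℝ} (h : H0 U u a b) (hU : IsOpen U) (hf : volume U ≠ ⊤) {l : ℝ}
    (hl : 0 < l) : 2 * ∫ z, u z ≤ vol U / l + l * ∫ z, u z ^ 2 := by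
  have h1 := h.int_le hU hf
  have nV : 0 ≤ vol U := ENNReal.toReal_nonneg
  have nu : 0 ≤ ∫ z, u z ^ 2 := integral_nonneg fun z => sq_nonneg _
  have e1 := Real.sq_sqrt nV
  have e2 := Real.sq_sqrt nu
  have h2 : 2 * (√(vol U) * √(∫ z, u z ^ 2)) ≤ vol U / l + l * ∫ z, u z ^ 2 := by
    rw [div_add' _ _ _ hl.ne', le_div_iff₀ hl]
    have h3 : 0 ≤ (√(vol U) - l * √(∫ z, u z ^ 2)) ^ 2 := sq_nonneg _
    have h4 : (√(vol U) - l * √(∫ z, u z ^ 2)) ^ 2
      = √(vol U) ^ 2 - 2 * (√(vol U) * √(∫ z, u z ^ 2)) * l + l * l * √(∫ z, u z ^ 2) ^ 2 := by ring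
    rw [e1, e2] at h4
    linarith
  linarith

theorem rayleigh_bdd : BddBelow {q | ∃ φ, IsTest U φ ∧ 0 < Nm φ ∧ q = En φ / Nm φ} := by
  refine ⟨0, ?_⟩
  rintro q ⟨φ, -, h, rfl⟩
  exact div_nonneg (En_nonneg _) h.le

theorem lamP_ge (hU : IsOpen U) (hne : U.Nonempty) {κ : ℝ}
    (h : ∀ φ, IsTest U φ → κ * Nm φ ≤ En φ) : κ ≤ lamP U := by
  obtain ⟨φ, h1, h2, -⟩ := exists_test hU hne
  refine le_csInf ⟨_, φ, h1, h2, rfl⟩ ?_
  rintro q ⟨ψ, h3, h4, rfl⟩
  rw [le_div_iff₀ h4]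
  exact h ψ h3

theorem lamP_mul_le {φ : P → ℝ} (h : IsTest U φ) : lamP U * Nm φ ≤ En φ := by
  by_cases h0 : 0 < Nm φ
  · rw [← le_div_iff₀ h0]
    exact csInf_le rayleigh_bdd ⟨φ, h, h0, rfl⟩
  · have : Nm φ = 0 := le_antisymm (not_lt.1 h0) (Nm_nonneg _)
    rw [this, mul_zero]
    exact En_nonneg _

theorem H0.lam_le {u a b : P → ℝ} (h : H0 U u a b) :
    lamP U * ∫ z, u z ^ 2 ≤ ∫ z, (a z ^ 2 + b z ^ 2) := by
  obtain ⟨φ, ht, c1, c2, c3⟩ := h.app
  have l1 := (c1.integral_sq).const_mul (lamP U)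
  have l2 := (c2.integral_sq).add (c3.integral_sq)
  rw [integral_add h.ma.integrable_sq h.mb.integrable_sq]
  refine le_of_tendsto_of_tendsto' l1 l2 (fun n => ?_)
  have := lamP_mul_le (ht n)
  unfold Nm En at this
  rwa [integral_add ((ht n).dd ex).int_sq ((ht n).dd ey).int_sq] at this

theorem lamP_lower (hU : IsOpen U) (hne : U.Nonempty) (hf : volume U ≠ ⊤) :
    2 ≤ lamP U * vol U := by
  have hV := vol_pos hU hne hf
  rw [← div_le_iff₀ hV]
  apply lamP_ge hU hne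
  intro φ hφ
  have := (H0.of_test hφ).poinc hU hf
  unfold Nm En
  rw [div_mul_eq_mul_div, div_le_iff₀ hV]
  linarith

theorem lamP_pos (hU : IsOpen U) (hne : U.Nonempty) (hf : volume U ≠ ⊤) : 0 < lamP U := by
  have h1 := lamP_lower hU hne hf
  have h2 := vol_pos hU hne hf
  by_contra h
  nlinarith

theorem torP_upper_aux (hU : IsOpen U) (hne : U.Nonempty) (hf : volume U ≠ ⊤) {u a b : P → ℝ}
    (h : H0 U u a b) :
    2 * (∫ z, u z) - ∫ z, (a z ^ 2 + b z ^ 2) ≤ vol U / lamP U := by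
  have h1 := h.int_le' hU hf (lamP_pos hU hne hf)
  have h2 := h.lam_le
  linarith

theorem torP_bdd (hU : IsOpen U) (hf : volume U ≠ ⊤) :
    BddAbove {q | ∃ φ, IsTest U φ ∧ q = 2 * (∫ z, φ z) - En φ} := by
  rcases U.eq_empty_or_nonempty with h | hne
  · refine ⟨0, ?_⟩
    rintro q ⟨φ, hφ, rfl⟩
    have : φ = fun _ => 0 := by
      ext z
      by_contra hz
      have := hφ.sub (subset_tsupport _ hz)
      rw [h] at this
      exact this
    rw [this]
    simp only [integral_zero, mul_zero, zero_sub, Left.neg_nonpos_iff]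
    exact En_nonneg _
  · refine ⟨vol U / lamP U, ?_⟩
    rintro q ⟨φ, hφ, rfl⟩
    exact torP_upper_aux hU hne hf (H0.of_test hφ)

theorem torP_ge_test (hU : IsOpen U) (hf : volume U ≠ ⊤) {φ : P → ℝ} (h : IsTest U φ) :
    2 * (∫ z, φ z) - En φ ≤ torP U := le_csSup (torP_bdd hU hf) ⟨φ, h, rfl⟩

theorem H0.le_torP {u a b : P → ℝ} (h : H0 U u a b) (hU : IsOpen U) (hf : volume U ≠ ⊤) :
    2 * (∫ z, u z) - ∫ z, (a z ^ 2 + b z ^ 2) ≤ torP U := by
  have hz := h.zero_off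
  obtain ⟨φ, ht, c1, c2, c3⟩ := h.app
  have l0 := (c1.l1 hU.measurableSet hf (fun n => (off_of_test (ht n)).1)
    (by filter_upwards [hz] with z hz h' using (hz h').1)).2
  have l2 := (l0.const_mul 2).sub ((c2.integral_sq).add (c3.integral_sq))
  rw [integral_add h.ma.integrable_sq h.mb.integrable_sq]
  refine le_of_tendsto' l2 (fun n => ?_)
  have := torP_ge_test hU hf (ht n)
  unfold En at this
  rwa [integral_add ((ht n).dd ex).int_sq ((ht n).dd ey).int_sq] at this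

theorem torP_le {C : ℝ} (h : ∀ φ, IsTest U φ → 2 * (∫ z, φ z) - En φ ≤ C) : torP U ≤ C := by
  refine csSup_le ⟨_, fun _ => 0, ?_, rfl⟩ ?_
  · refine ⟨contDiff_const, HasCompactSupport.zero, ?_⟩
    rw [show (fun _ : P => (0 : ℝ)) = 0 from rfl, tsupport_eq_empty_iff.2 rfl]
    exact empty_subset _
  · rintro q ⟨φ, hφ, rfl⟩
    exact h φ hφ

theorem lam_tor_le (hU : IsOpen U) (hne : U.Nonempty) (hf : volume U ≠ ⊤) :
    lamP U * torP U ≤ vol U := by
  have hl := lamP_pos hU hne hf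
  rw [mul_comm, ← le_div_iff₀ hl]
  exact torP_le fun φ hφ => torP_upper_aux hU hne hf (H0.of_test hφ)

theorem torP_pos (hU : IsOpen U) (hne : U.Nonempty) (hf : volume U ≠ ⊤) : 0 < torP U := by
  obtain ⟨φ, h1, h2, h3⟩ := exists_test hU hne
  have hE : 0 < En φ := lt_of_lt_of_le (mul_pos (lamP_pos hU hne hf) h2) (lamP_mul_le h1)
  set t := (∫ z, φ z) / En φ with ht
  have h4 := torP_ge_test hU hf (h1.const_mul t)
  have e1 : ∫ z, t * φ z = t * ∫ z, φ z := integral_const_mul _ _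
  have e2 : En (fun z => t * φ z) = t ^ 2 * En φ := by
    have := En_comb h1 h1 t 0
    simp only [zero_mul, add_zero, mul_zero] at this
    rw [this]; ring
  rw [e1, e2] at h4
  have e3 : 2 * (t * ∫ z, φ z) - t ^ 2 * En φ = (∫ z, φ z) ^ 2 / En φ := by
    rw [ht]; field_simp; ring
  rw [e3] at h4
  have : 0 < (∫ z, φ z) ^ 2 / En φ := by positivity
  linarith

end basic

end Pool.Agent.Lib.MP_f46d6a
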