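import Pool.Agent.Lib.MP_f46d6a.Comp3

/-!
# The contradiction at a good point
-/

set_option autoImplicit false

open MeasureTheory Set Filter Topology
open scoped ContDiff

namespace Pool.Agent.Lib.MP_f46d6a

open Pool.Agent.Lib.MP_dac83a

/-- component of the sublevel set containing `q` -/
def Kc (p : P → ℝ) (q : P) (s : ℝ) : Set P := connectedComponentIn {x | p x < s} q

theorem diam_le_sq {W : Set P} {c : ℝ} (hc : 0 ≤ c) (h : ∀ x ∈ W, ∀ y ∈ W, dist x y ^ 2 ≤ c) :
    Metric.diam W ^ 2 ≤ c := by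
  have h1 : Metric.diam W ≤ √c := by
    apply Metric.diam_le_of_forall_dist_le (Real.sqrt_nonneg _)
    intro x hx y hy
    exact Real.le_sqrt_of_sq_le (h x hx y hy)
  calc Metric.diam W ^ 2 ≤ √c ^ 2 := pow_le_pow_left₀ Metric.diam_nonneg h1 2
    _ = c := Real.sq_sqrt hc

namespace Crit'

variable {δ α : ℝ} {Ω : Set P} {w wx wy p px py : P → ℝ}

theorem Kc_open (h : Crit' δ α Ω w wx wy p px py) (q : P) (s : ℝ) : IsOpen (Kc p q s) :=
  (h.open_lt s).connectedComponentIn

theorem Kc_pre (q : P) (s : ℝ) : IsPreconnected (Kc p q s) := isPreconnected_connectedComponentIn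

theorem Kc_sub (q : P) (s : ℝ) : Kc p q s ⊆ {x | p x < s} := connectedComponentIn_subset _ _

theorem Kc_mem {q : P} {s : ℝ} (hq : p q < s) : q ∈ Kc p q s := mem_connectedComponentIn hq

theorem Kc_mono {q : P} {s t : ℝ} (hq : p q < s) (hst : s ≤ t) : Kc p q s ⊆ Kc p q t := by
  apply (Kc_pre q s).subset_connectedComponentIn (Kc_mem hq)
  exact (Kc_sub q s).trans (fun x hx => lt_of_lt_of_le hx hst)

theorem Kc_fr (h : Crit' δ α Ω w wx wy p px py) {q : P} {s : ℝ} (hq : p q < s) :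
    ∀ x ∈ frontier (Kc p q s), s ≤ p x := by
  intro x hx
  by_contra hlt
  rw [not_le] at hlt
  have ho := h.Kc_open q s
  rw [frontier, ho.interior_eq] at hx
  have h1 : IsPreconnected (insert x (Kc p q s)) :=
    (Kc_pre q s).subset_closure (subset_insert _ _) (insert_subset hx.1 subset_closure)
  have h2 : insert x (Kc p q s) ⊆ Kc p q s := by
    apply h1.subset_connectedComponentIn (mem_insert_of_mem _ (Kc_mem hq))
    exact insert_subset hlt (Kc_sub q s)
  exact hx.2 (h2 (mem_insert _ _))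

theorem Kc_cell (h : Crit' δ α Ω w wx wy p px py) {q : P} {s : ℝ} (hq : p q < s)
    (hb : Bornology.IsBounded (Kc p q s)) : Cell p s (Kc p q s) :=
  ⟨h.Kc_open q s, hb, h.Kc_fr hq⟩

theorem one_scale (h : Crit' δ α Ω w wx wy p px py) {q : P} {s T f H : ℝ}
    (hA : MemLp (sA wx wy px py) 2 volume) (hB : MemLp (sB wx wy px py) 2 volume)
    (hq : p q < 1 / 32) (hs : 1 / 32 ≤ s) (hsT : s < T) (hT : T ≤ 1 / 8)
    (hb : Bornology.IsBounded (Kc p q T)) (hf0 : 0 < f)
    (hf : ∫ z in subl p (Kc p q T) (1 / 32), (px z ^ 2 + py z ^ 2) ≤ (1 / 32) * f)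
    {D' : ℝ} (hD'0 : 0 < D') (hD' : Metric.diam (Kc p q T) ≤ D')
    (hH : ∫ z in Metric.closedBall q D', (sA wx wy px py z ^ 2 + sB wx wy px py z ^ 2) ≤ H)
    (n : ℕ) (hn : 1 / 32 + n * (f / 2) ≤ T) :
    ((T - s) ^ 2 * Metric.diam (Kc p q s) ^ 2 / (64 * f)) ^ 2 * 2 ^ n ≤ D' ^ 2 * H := by
  have hqT : p q < T := by linarith
  have hqs : p q < s := by linarith
  have hS := h.Kc_cell hqT hb
  set S := Kc p q T with hSdef
  set b := (s + T) / 2 with hbdef
  have hsb : s < b := by rw [hbdef]; linarith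
  have hbT : b < T := by rw [hbdef]; linarith
  have h0 : (0 : ℝ) < 1 / 32 := by norm_num
  have hV : 0 ≤ vol (band p S s b) := ENNReal.toReal_nonneg
  -- diameter
  have i1 : Metric.diam (Kc p q s) ^ 2 ≤ 2 * f * vol (band p S s b) / (b - s) := by
    apply diam_le_sq
    · apply div_nonneg (by positivity) (by linarith)
    · intro x hx y hy
      rw [le_div_iff₀ (by linarith)]
      have := h.diam_sq hS h0 hs hsb hbT.le hf (h.Kc_open q s) (Kc_pre q s)
        (fun z hz => ⟨Kc_mono hqs hsT.le hz, Kc_sub q s hz⟩) hx hy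
      linarith
  rw [le_div_iff₀ (by linarith)] at i1
  -- flux lower bound
  have i2 := h.flux_lower hS h0 hs hbT (by linarith : (1:ℝ)/32 < T) le_rfl (by linarith)
  set F := ∫ z in subl p S (1 / 32), fl wx wy px py z with hF
  have hF0 : 0 ≤ F := h.flux_nonneg hS (by linarith)
  have eb1 : T - b = (T - s) / 2 := by rw [hbdef]; ring
  have eb2 : b - s = (T - s) / 2 := by rw [hbdef]; ring
  rw [eb1] at i2
  rw [eb2] at i1
  have hTs : 0 < T - s := by linarith
  have i3 : (T - s) ^ 2 * Metric.diam (Kc p q s) ^ 2 / (64 * f) ≤ F := by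
    rw [div_le_iff₀ (by positivity)]
    -- (7/8)(1/32)((T-s)/2) vol ≤ (1/8) F
    have j1 : (7 / 8) * (1 / 32) * ((T - s) / 2) * vol (band p S s b) ≤ (1 / 8) * F := by
      have a1 : (7 / 8) * (1 / 32) * ((T - s) / 2) * vol (band p S s b)
          ≤ (1 - T) * (1 / 32) * ((T - s) / 2) * vol (band p S s b) := by
        apply mul_le_mul_of_nonneg_right _ hV
        apply mul_le_mul_of_nonneg_right _ (by linarith)
        linarith
      have a2 : T * F ≤ (1 / 8) * F := mul_le_mul_of_nonneg_right hT hF0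
      linarith
    have j2 := mul_le_mul_of_nonneg_left i1 hTs.le
    have j3 : (T - s) * vol (band p S s b) ≤ (64 / 7) * F := by linarith
    have j4 := mul_le_mul_of_nonneg_left j3 hf0.le
    nlinarith
  -- flux upper bound
  have i4 := h.flux_upper hS (t0 := 1 / 32) (by linarith) hA hB
  rw [← hF] at i4
  have hdec := h.decay hS h0 hf0 hf n hn
  have hSsub : S ⊆ Metric.closedBall q D' := by
    intro z hz
    rw [Metric.mem_closedBall]
    exact (Metric.dist_le_diam_of_mem hb hz (Kc_mem hqT)).trans hD'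
  have hvS : vol S ≤ 4 * D' ^ 2 := by
    have h2 := ENNReal.toReal_mono (vol_ball_ne q D') (measure_mono hSsub)
    rw [vol_ball q hD'0.le] at h2
    exact h2
  have iAB : Integrable (fun z => sA wx wy px py z ^ 2 + sB wx wy px py z ^ 2) :=
    iadd hA.integrable_sq hB.integrable_sq
  have i5 : ∫ z in subl p S (1 / 32), (sA wx wy px py z ^ 2 + sB wx wy px py z ^ 2) ≤ H := by
    refine le_trans ?_ hH
    apply setIntegral_mono_set iAB.integrableOn (Eventually.of_forall fun z => by positivity)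
    exact (inter_subset_left.trans hSsub).eventuallyLE
  have hvs0 : 0 ≤ vol (subl p S (1 / 32)) := ENNReal.toReal_nonneg
  have hH0 : 0 ≤ H := le_trans (integral_nonneg fun z => by positivity) i5
  have i6 : 4 * F ^ 2 ≤ vol (subl p S (1 / 32)) * H :=
    i4.trans (mul_le_mul_of_nonneg_left i5 hvs0)
  have i7 : (2 : ℝ) ^ n * (4 * F ^ 2) ≤ 4 * D' ^ 2 * H := by
    calc (2 : ℝ) ^ n * (4 * F ^ 2) ≤ 2 ^ n * (vol (subl p S (1 / 32)) * H) :=
          mul_le_mul_of_nonneg_left i6 (by positivity)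
      _ = (2 ^ n * vol (subl p S (1 / 32))) * H := by ring
      _ ≤ (4 * D' ^ 2) * H := mul_le_mul_of_nonneg_right (hdec.trans hvS) hH0
  have i8 : ((T - s) ^ 2 * Metric.diam (Kc p q s) ^ 2 / (64 * f)) ^ 2 ≤ F ^ 2 :=
    pow_le_pow_left₀ (by positivity) i3 2
  have h2n : (0 : ℝ) ≤ 2 ^ n := by positivity
  nlinarith [mul_le_mul_of_nonneg_right i8 h2n]

end Crit'

end Pool.Agent.Lib.MP_f46d6a
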