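import Pool.Agent.Lib.MP_f46d6a.Final

/-!
# The contradiction at a good point: choice of levels
-/

set_option autoImplicit false

open MeasureTheory Set Filter Topology
open scoped ContDiff

namespace Pool.Agent.Lib.MP_f46d6a

open Pool.Agent.Lib.MP_dac83a

theorem numeric (K : ℝ) : ∃ fb : ℝ, 0 < fb ∧ fb ≤ 1 ∧ ∀ f, 0 < f → f ≤ fb → ∀ n : ℕ,
    1 / (16 * f) < (n : ℝ) + 1 → K < 2 ^ n * f ^ 14 := by
  set c : ℝ := (1 / 2) * ((1 / 32) ^ 15 / (Nat.factorial 15 : ℝ)) with hc
  have hfac : (0 : ℝ) < (Nat.factorial 15 : ℝ) := by positivity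
  have hcp : 0 < c := by positivity
  refine ⟨min 1 (c / (|K| + 1)), by positivity, min_le_left _ _, ?_⟩
  intro f hf hfb n hn
  have h1 : f ≤ c / (|K| + 1) := hfb.trans (min_le_right _ _)
  have hK : 0 < |K| + 1 := by positivity
  rw [le_div_iff₀ hK] at h1
  -- exp bound
  have h2 : Real.exp (1 / (32 * f)) ≤ 2 ^ (n + 1) := by
    have e1 : (2 : ℝ) ^ (n + 1) = Real.exp (((n : ℝ) + 1) * Real.log 2) := by
      rw [mul_comm, Real.exp_mul, Real.exp_log (by norm_num)]
      norm_cast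
    rw [e1]
    apply Real.exp_le_exp.2
    have hl : (1 : ℝ) / 2 ≤ Real.log 2 := by have := Real.log_two_gt_d9; linarith
    have e2 : 1 / (32 * f) = (1 / (16 * f)) * (1 / 2) := by field_simp; norm_num
    rw [e2]
    apply mul_le_mul hn.le hl (by norm_num) (by positivity)
  have h3 : (1 / (32 * f)) ^ 15 / (Nat.factorial 15 : ℝ) ≤ Real.exp (1 / (32 * f)) :=
    Real.pow_div_factorial_le_exp _ (by positivity) 15
  have h4 : (1 / (32 * f)) ^ 15 / (Nat.factorial 15 : ℝ) ≤ 2 * 2 ^ n := by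
    rw [← pow_succ']; exact h3.trans h2
  have h5 : c / f ≤ 2 ^ n * f ^ 14 := by
    have e3 : c / f = ((1 / (32 * f)) ^ 15 / (Nat.factorial 15 : ℝ)) / 2 * f ^ 14 := by
      rw [hc]
      field_simp
    rw [e3]
    apply mul_le_mul_of_nonneg_right _ (by positivity)
    linarith
  refine lt_of_lt_of_le ?_ h5
  rw [lt_div_iff₀ hf]
  have := le_abs_self K
  nlinarith

theorem pigeon {m : ℕ} (D : ℕ → ℝ) (_h0 : 0 < D 0) (h : Real.exp m * D 0 ≥ D m) (hm : 0 < m) :
    ∃ j < m, D (j + 1) ≤ Real.exp 1 * D j := by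
  by_contra hcon
  push Not at hcon
  have key : ∀ j ≤ m, 0 < j → Real.exp j * D 0 < D j := by
    intro j
    induction j with
    | zero => intro _ h; exact absurd h (lt_irrefl _)
    | succ j ih =>
      intro hj _
      have h1 := hcon j (by omega)
      rcases Nat.eq_zero_or_pos j with h2 | h2
      · subst h2
        simpa using h1
      · have h3 := ih (by omega) h2
        have e : Real.exp ((j + 1 : ℕ) : ℝ) = Real.exp 1 * Real.exp j := by
          rw [← Real.exp_add]; push_cast; ring_nf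
        rw [e]
        have := Real.exp_pos 1
        nlinarith
  have := key m le_rfl hm
  linarith

theorem stable_level (F : ℕ → ℝ) {c : ℝ} (hc : 0 < c) (hF : ∀ k, c ≤ F k) :
    ∃ k, F k / 2 ≤ F (k + 1) ∧ F k ≤ (1 / 2) ^ k * F 0 := by
  classical
  have ex : ∃ k, F k / 2 ≤ F (k + 1) := by
    by_contra hcon
    push Not at hcon
    have key : ∀ k, F k ≤ (1 / 2) ^ k * F 0 := by
      intro k
      induction k with
      | zero => simp
      | succ k ih =>
        have := hcon k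
        rw [pow_succ]
        linarith
    have h1 : Tendsto (fun k : ℕ => (1 / 2 : ℝ) ^ k * F 0) atTop (𝓝 (0 * F 0)) :=
      (tendsto_pow_atTop_nhds_zero_of_lt_one (by norm_num) (by norm_num)).mul_const _
    rw [zero_mul] at h1
    have h2 : ∀ k : ℕ, c ≤ (1 / 2 : ℝ) ^ k * F 0 := fun k => (hF k).trans (key k)
    have := ge_of_tendsto' h1 h2
    linarith
  refine ⟨Nat.find ex, Nat.find_spec ex, ?_⟩
  have key : ∀ k, k ≤ Nat.find ex → F k ≤ (1 / 2) ^ k * F 0 := by
    intro k
    induction k with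
    | zero => intro _; simp
    | succ k ih =>
      intro hk
      have h1 := ih (by omega)
      have h2 := Nat.find_min ex (show k < Nat.find ex by omega)
      push Not at h2
      rw [pow_succ]
      linarith
  exact key _ le_rfl

theorem final (K0 : ℝ) (hK0 : 0 < K0) : ∃ ε > 0, ∀ (δ α : ℝ) (Ω : Set P) (w wx wy p px py : P → ℝ),
    Crit' δ α Ω w wx wy p px py → MemLp (sA wx wy px py) 2 volume →
    MemLp (sB wx wy px py) 2 volume → ∀ q : P, p q < 1 / 32 →
    (∀ U : Set P, IsOpen U → q ∈ U → 0 < ∫ z in U ∩ {z | p z < 1 / 32}, (px z ^ 2 + py z ^ 2)) →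
    Bornology.IsBounded (Kc p q (1 / 8)) → Metric.diam (Kc p q (1 / 8)) ≤ ε →
    (∀ r, 0 < r → r ≤ 1 / 2 → ∫ z in Metric.closedBall q r,
      (sA wx wy px py z ^ 2 + sB wx wy px py z ^ 2) ≤ K0 * r ^ 2 * (1 + Real.log (1 / r)) ^ 2) →
    False := by
  have hKC := KC_nonneg
  set K1 : ℝ := 2 * KC ^ 2 + 2 with hK1
  have hK1p : 2 ≤ K1 := by rw [hK1]; nlinarith [sq_nonneg KC]
  set K2 : ℝ := K0 * 3 ^ 4 * K1 ^ 2 * (32 * K1) ^ 4 * 4096 with hK2
  obtain ⟨fb, hfb0, hfb1, hnum⟩ := numeric K2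
  set y : ℝ := max 2 ((KC / fb) ^ 2) with hy
  have hy2 : 2 ≤ y := le_max_left _ _
  refine ⟨(1 / 2) * Real.exp (-(y / 2)), by positivity, ?_⟩
  intro δ α Ω w wx wy p px py h hA hB q hq hpos hbd hdiam hloc
  set ε : ℝ := (1 / 2) * Real.exp (-(y / 2)) with hε
  have hεp : 0 < ε := by positivity
  -- basic facts on cells
  set e : ℝ → ℝ := fun s => ∫ z in subl p (Kc p q s) (1 / 32), (px z ^ 2 + py z ^ 2) with he
  set D : ℝ → ℝ := fun s => Metric.diam (Kc p q s) with hD
  have bd : ∀ s, p q < s → s ≤ 1 / 8 → Bornology.IsBounded (Kc p q s) :=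
    fun s hs hs8 => hbd.subset (Crit'.Kc_mono hs hs8)
  have Dmono : ∀ s t, p q < s → s ≤ t → t ≤ 1 / 8 → D s ≤ D t := fun s t hs hst ht =>
    Metric.diam_mono (Crit'.Kc_mono hs hst) (bd t (lt_of_lt_of_le hs hst) ht)
  have emono : ∀ s t, p q < s → s ≤ t → e s ≤ e t := by
    intro s t hs hst
    apply setIntegral_mono_set h.eig.mem.int_en.integrableOn
      (Eventually.of_forall fun z => by positivity)
    exact (inter_subset_inter_left _ (Crit'.Kc_mono hs hst)).eventuallyLE
  have epos : ∀ s, p q < s → 0 < e s := fun s hs => hpos _ (h.Kc_open q s) (Crit'.Kc_mem hs)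
  have Dpos : ∀ s, p q < s → s ≤ 1 / 8 → 0 < D s := by
    intro s hs hs8
    obtain ⟨r, hr, hrs⟩ := Metric.isOpen_iff.1 (h.Kc_open q s) q (Crit'.Kc_mem hs)
    have hmem : q + ((r / 2, 0) : P) ∈ Kc p q s := by
      apply hrs
      rw [Metric.mem_ball, dist_eq_norm, add_sub_cancel_left, Prod.norm_def]
      simp only [Real.norm_eq_abs, abs_zero]
      rw [abs_of_pos (by linarith), max_eq_left (by linarith)]
      linarith
    have h1 := Metric.dist_le_diam_of_mem (bd s hs hs8) hmem (Crit'.Kc_mem hs)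
    rw [dist_eq_norm, add_sub_cancel_left, Prod.norm_def] at h1
    simp only [Real.norm_eq_abs, abs_zero] at h1
    rw [abs_of_pos (by linarith), max_eq_left (by linarith)] at h1
    have : (0 : ℝ) < r / 2 := by linarith
    linarith
  have Dle : ∀ s, p q < s → s ≤ 1 / 8 → D s ≤ ε := fun s hs hs8 =>
    (Dmono s (1 / 8) hs hs8 le_rfl).trans hdiam
  have hεlog : 2 * Real.log (1 / (2 * ε)) = y := by
    have : 1 / (2 * ε) = Real.exp (y / 2) := by
      rw [hε, Real.exp_neg]
      field_simp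
    rw [this, Real.log_exp]; ring
  have Llow : ∀ s, p q < s → s ≤ 1 / 8 → y ≤ 2 * Real.log (1 / (2 * D s)) := by
    intro s hs hs8
    rw [← hεlog]
    have h1 := Dpos s hs hs8
    have h2 := Dle s hs hs8
    have : Real.log (1 / (2 * ε)) ≤ Real.log (1 / (2 * D s)) := by
      apply Real.log_le_log (by positivity)
      apply one_div_le_one_div_of_le (by positivity)
      linarith
    linarith
  have hε1 : 2 * ε ≤ 1 := by
    have : Real.exp (-(y / 2)) ≤ 1 := by
      rw [Real.exp_le_one_iff]; linarith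
    rw [hε]; linarith
  -- capacity
  have capac : ∀ s, p q < s → s ≤ 1 / 8 →
      32 * e s * √(2 * Real.log (1 / (2 * D s))) ≤ KC := by
    intro s hs hs8
    have h1 := Dpos s hs hs8
    have h2 := Dle s hs hs8
    have h3 := Llow s hs hs8
    have hL : 0 < 2 * Real.log (1 / (2 * D s)) := by linarith
    have := h.cap (h.Kc_cell hs (bd s hs hs8)) (t0 := 1 / 32) (by norm_num) (x := q)
      (ρ := 2 * D s) (by positivity) (by
        intro z hz
        have h4 := Metric.dist_le_diam_of_mem (bd s hs hs8) hz (Crit'.Kc_mem hs)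
        rw [dist_eq_norm] at h4
        have h5 := r2_le_norm_sq (z - q)
        have h6 : ‖z - q‖ ^ 2 ≤ D s ^ 2 := pow_le_pow_left₀ (norm_nonneg _) h4 2
        have h7 : (2 * D s) ^ 2 = 4 * D s ^ 2 := by ring
        have h8 := sq_nonneg (D s)
        rw [h7]; linarith) (by linarith) (by linarith)
    have hs0 : 0 < √(2 * Real.log (1 / (2 * D s))) := Real.sqrt_pos.2 hL
    rw [mul_div_assoc', le_div_iff₀ hs0] at this
    simp only [he]
    linarith
  -- energies are small
  have hf8 : 32 * e (1 / 8) ≤ fb := by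
    have h1 := capac (1 / 8) (by linarith) le_rfl
    have h2 := Llow (1 / 8) (by linarith) le_rfl
    have h3 : (KC / fb) ^ 2 ≤ 2 * Real.log (1 / (2 * D (1 / 8))) := (le_max_right _ _).trans h2
    have h4 : KC / fb ≤ √(2 * Real.log (1 / (2 * D (1 / 8)))) := Real.le_sqrt_of_sq_le h3
    have he0 := epos (1 / 8) (by linarith)
    rcases hKC.eq_or_lt with h5 | h5
    · exfalso
      rw [← h5] at h1
      have h6 : 0 < √(2 * Real.log (1 / (2 * D (1 / 8)))) := Real.sqrt_pos.2 (by linarith)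
      have : 0 < 32 * e (1 / 8) * √(2 * Real.log (1 / (2 * D (1 / 8)))) := by positivity
      linarith
    · have h6 : 32 * e (1 / 8) * (KC / fb) ≤ KC :=
        (mul_le_mul_of_nonneg_left h4 (by positivity)).trans h1
      rw [mul_div_assoc', div_le_iff₀ hfb0] at h6
      have : KC * (32 * e (1 / 8)) ≤ KC * fb := by linarith
      exact le_of_mul_le_mul_left this h5
  -- levels
  set sl : ℕ → ℝ := fun k => 1 / 16 + (1 / 16) * (1 / 2) ^ k with hsl
  have sl_low : ∀ k, 1 / 16 ≤ sl k := fun k => by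
    have : (0 : ℝ) < (1 / 2) ^ k := by positivity
    simp only [hsl]; linarith
  have sl_high : ∀ k, sl k ≤ 1 / 8 := fun k => by
    have : (1 / 2 : ℝ) ^ k ≤ 1 := pow_le_one₀ (by norm_num) (by norm_num)
    simp only [hsl]; linarith
  obtain ⟨k, hk1, hk2⟩ := stable_level (fun k => 32 * e (sl k)) (c := 32 * e (1 / 16))
    (by have := epos (1 / 16) (by linarith); linarith)
    (fun k => by
      have := emono (1 / 16) (sl k) (by linarith) (sl_low k)
      linarith)
  set f : ℝ := 32 * e (sl k) with hf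
  have hqk : p q < sl k := by have := sl_low k; linarith
  have hqk1 : p q < sl (k + 1) := by have := sl_low (k + 1); linarith
  have hfpos : 0 < f := by have := epos (sl k) hqk; rw [hf]; linarith
  have hffb : f ≤ fb := by
    have := emono (sl k) (1 / 8) hqk (sl_high k)
    rw [hf]; linarith
  have hf1 : f ≤ 1 := hffb.trans hfb1
  have hgap : f / 32 ≤ sl k - sl (k + 1) := by
    have e0 : sl 0 = 1 / 8 := by simp only [hsl, pow_zero]; norm_num
    have h1 : f ≤ (1 / 2) ^ k * (32 * e (sl 0)) := hk2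
    rw [e0] at h1
    have h2 : f ≤ (1 / 2) ^ k := by
      refine h1.trans ?_
      exact mul_le_of_le_one_right (by positivity) (hf8.trans hfb1)
    have h3 : sl k - sl (k + 1) = (1 / 32) * (1 / 2) ^ k := by
      simp only [hsl, pow_succ]; ring
    rw [h3]; linarith
  -- subdivision
  set X : ℝ := 2 * KC ^ 2 / f ^ 2 with hX
  have hX0 : 0 ≤ X := by positivity
  set m : ℕ := ⌈X⌉₊ + 1 with hm
  have hmX : X ≤ m := by
    rw [hm]; push_cast
    have := Nat.le_ceil X
    linarith
  have hm2 : (m : ℝ) ≤ X + 2 := by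
    rw [hm]; push_cast
    have := Nat.ceil_lt_add_one hX0
    linarith
  have hXK : X + 2 ≤ K1 / f ^ 2 := by
    rw [le_div_iff₀ (by positivity), hX, hK1]
    have e1 : (2 * KC ^ 2 / f ^ 2 + 2) * f ^ 2 = 2 * KC ^ 2 + 2 * f ^ 2 := by field_simp
    rw [e1]
    have : f ^ 2 ≤ 1 := pow_le_one₀ hfpos.le hf1
    linarith
  have hmp : 0 < m := by rw [hm]; omega
  have hmpR : (0 : ℝ) < m := by exact_mod_cast hmp
  set τ : ℝ := (sl k - sl (k + 1)) / m with hτ
  have hτpos : 0 < τ := div_pos (by linarith) hmpR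
  have hτlow : f ^ 3 / (32 * K1) ≤ τ := by
    rw [hτ, div_le_div_iff₀ (by positivity) hmpR]
    have h1 : (m : ℝ) ≤ K1 / f ^ 2 := hm2.trans hXK
    have h2 : f ^ 3 * m ≤ f ^ 3 * (K1 / f ^ 2) := mul_le_mul_of_nonneg_left h1 (by positivity)
    have h3 : f ^ 3 * (K1 / f ^ 2) = f * K1 := by field_simp
    have h4 := mul_le_mul_of_nonneg_right hgap (show 0 ≤ 32 * K1 by linarith)
    have h5 : f / 32 * (32 * K1) = f * K1 := by ring
    linarith
  set tl : ℕ → ℝ := fun j => sl (k + 1) + j * τ with htl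
  have tl_low : ∀ j, 1 / 16 ≤ tl j := fun j => by
    have := sl_low (k + 1)
    have : (0 : ℝ) ≤ j * τ := by positivity
    simp only [htl]; linarith
  have tl_m : tl m = sl k := by
    simp only [htl, hτ]
    field_simp
    ring
  have tl_high : ∀ j ≤ m, tl j ≤ sl k := by
    intro j hj
    rw [← tl_m]
    simp only [htl]
    have : (j : ℝ) ≤ m := by exact_mod_cast hj
    have := mul_le_mul_of_nonneg_right this hτpos.le
    linarith
  -- lower bound for the diameter at level `sl (k+1)`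
  have hD0 : (1 / 2) * Real.exp (-X) ≤ D (tl 0) := by
    have e0 : tl 0 = sl (k + 1) := by simp [htl]
    rw [e0]
    have h1 := capac (sl (k + 1)) hqk1 (sl_high _)
    have h2 : f / 2 ≤ 32 * e (sl (k + 1)) := hk1
    set L := 2 * Real.log (1 / (2 * D (sl (k + 1)))) with hL
    have hLy : y ≤ L := Llow _ hqk1 (sl_high _)
    have h3 : f / 2 * √L ≤ KC := (mul_le_mul_of_nonneg_right h2 (Real.sqrt_nonneg _)).trans h1
    have h4 : (f / 2 * √L) ^ 2 ≤ KC ^ 2 := pow_le_pow_left₀ (by positivity) h3 2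
    rw [mul_pow, Real.sq_sqrt (by linarith)] at h4
    have h5 : L / 2 ≤ X := by
      rw [hX, le_div_iff₀ (by positivity)]
      calc L / 2 * f ^ 2 = 2 * ((f / 2) ^ 2 * L) := by ring
        _ ≤ 2 * KC ^ 2 := by linarith
    have hDp := Dpos _ hqk1 (sl_high _)
    have h6 : Real.log (1 / (2 * D (sl (k + 1)))) ≤ X := by
      have : L / 2 = Real.log (1 / (2 * D (sl (k + 1)))) := by rw [hL]; ring
      linarith
    have h7 : 1 / (2 * D (sl (k + 1))) ≤ Real.exp X := by
      rw [← Real.log_le_iff_le_exp (by positivity)]; exact h6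
    rw [Real.exp_neg]
    rw [div_le_iff₀ (by positivity)] at h7
    have hE := Real.exp_pos X
    have h8 : 1 / 2 * (Real.exp X)⁻¹ * Real.exp X ≤ D (sl (k + 1)) * Real.exp X := by
      rw [mul_assoc, inv_mul_cancel₀ hE.ne']
      linarith
    exact le_of_mul_le_mul_right h8 hE
  have hD0p : 0 < D (tl 0) := lt_of_lt_of_le (by positivity) hD0
  have tlq : ∀ j, p q < tl j := fun j => by have := tl_low j; linarith
  obtain ⟨j, hjm, hj⟩ := pigeon (m := m) (fun j => D (tl j)) hD0p (by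
    have h1 : D (tl m) ≤ 1 / 2 := by
      rw [tl_m]
      have := Dle (sl k) hqk (sl_high k)
      linarith
    have h2 : Real.exp m * ((1 / 2) * Real.exp (-X)) ≤ Real.exp m * D (tl 0) :=
      mul_le_mul_of_nonneg_left hD0 (Real.exp_pos _).le
    have h3 : 1 ≤ Real.exp m * Real.exp (-X) := by
      rw [← Real.exp_add]
      apply Real.one_le_exp
      linarith
    have h4 : Real.exp m * ((1 / 2) * Real.exp (-X)) = (1 / 2) * (Real.exp m * Real.exp (-X)) := by
      ring
    show D (tl m) ≤ Real.exp m * D (tl 0)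
    linarith) hmp
  -- apply the one-scale inequality
  set s := tl j with hs
  set T := tl (j + 1) with hT
  have hTs : T - s = τ := by rw [hT, hs]; simp only [htl]; push_cast; ring
  have hT8 : T ≤ 1 / 8 := (tl_high (j + 1) hjm).trans (sl_high k)
  have hs8 : s ≤ 1 / 8 := by linarith
  have hDT := Dpos T (tlq _) hT8
  have hDs := Dpos s (tlq _) hs8
  have hDT2 : D T ≤ 1 / 2 := by have := Dle T (tlq _) hT8; linarith
  have heT : e T ≤ (1 / 32) * f := by
    have := emono T (sl k) (tlq _) (tl_high (j + 1) hjm)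
    rw [hf]; linarith
  set n : ℕ := ⌊1 / (16 * f)⌋₊ with hn
  have hn1 : (n : ℝ) ≤ 1 / (16 * f) := Nat.floor_le (by positivity)
  have hn2 : 1 / (16 * f) < (n : ℝ) + 1 := Nat.lt_floor_add_one _
  have key := h.one_scale (s := s) (T := T) (f := f)
    (H := K0 * (D T) ^ 2 * (1 + Real.log (1 / D T)) ^ 2) hA hB hq
    (by have := tl_low j; linarith) (by linarith) hT8 (bd T (tlq _) hT8) hfpos heT hDT le_rfl
    (hloc (D T) hDT hDT2) n (by
      have h1 : (n : ℝ) * (f / 2) ≤ 1 / (16 * f) * (f / 2) :=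
        mul_le_mul_of_nonneg_right hn1 (by positivity)
      have h2 : 1 / (16 * f) * (f / 2) = 1 / 32 := by field_simp; norm_num
      have := tl_low (j + 1)
      rw [h2] at h1
      linarith)
  -- bound of the logarithm
  have hlog : 1 + Real.log (1 / D T) ≤ K1 / f ^ 2 := by
    have h1 : D (tl 0) ≤ D T := Dmono _ _ (tlq 0) (by
      rw [hT]; simp only [htl]
      have : ((0 : ℕ) : ℝ) * τ ≤ ((j + 1 : ℕ) : ℝ) * τ :=
        mul_le_mul_of_nonneg_right (Nat.cast_le.2 (Nat.zero_le _)) hτpos.le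
      linarith) hT8
    have h2 : (1 / 2) * Real.exp (-X) ≤ D T := hD0.trans h1
    have h3 : Real.log (1 / D T) ≤ Real.log 2 + X := by
      have : 1 / D T ≤ 2 * Real.exp X := by
        rw [div_le_iff₀ hDT]
        have h4 := mul_le_mul_of_nonneg_left h2 (show 0 ≤ 2 * Real.exp X by positivity)
        have h5 : 2 * Real.exp X * (1 / 2 * Real.exp (-X)) = 1 := by
          have : Real.exp X * Real.exp (-X) = 1 := by rw [← Real.exp_add]; simp
          linarith
        linarith
      have h6 := Real.log_le_log (by positivity) this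
      rw [Real.log_mul (by norm_num) (Real.exp_pos X).ne', Real.log_exp] at h6
      exact h6
    have h7 := Real.log_two_lt_d9
    linarith
  have hlog0 : 0 ≤ 1 + Real.log (1 / D T) := by
    have : 0 ≤ Real.log (1 / D T) := Real.log_nonneg (by rw [le_div_iff₀ hDT]; linarith)
    linarith
  have hDj : D T ≤ 3 * D s := by
    have h1 : D T ≤ Real.exp 1 * D s := hj
    have h2 : Real.exp 1 ≤ 3 := by have := Real.exp_one_lt_d9; linarith
    exact h1.trans (mul_le_mul_of_nonneg_right h2 hDs.le)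
  rw [hTs] at key
  -- final estimate
  have g1 : (D T) ^ 2 * (K0 * (D T) ^ 2 * (1 + Real.log (1 / D T)) ^ 2)
      ≤ K0 * (3 * D s) ^ 4 * (K1 / f ^ 2) ^ 2 := by
    have a1 : (D T) ^ 4 ≤ (3 * D s) ^ 4 := pow_le_pow_left₀ hDT.le hDj 4
    have a2 : (1 + Real.log (1 / D T)) ^ 2 ≤ (K1 / f ^ 2) ^ 2 := pow_le_pow_left₀ hlog0 hlog 2
    calc (D T) ^ 2 * (K0 * (D T) ^ 2 * (1 + Real.log (1 / D T)) ^ 2)
        = K0 * ((D T) ^ 4 * (1 + Real.log (1 / D T)) ^ 2) := by ring
      _ ≤ K0 * ((3 * D s) ^ 4 * (K1 / f ^ 2) ^ 2) := by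
          apply mul_le_mul_of_nonneg_left _ hK0.le
          exact mul_le_mul a1 a2 (sq_nonneg _) (by positivity)
      _ = _ := by ring
  have g2 := key.trans g1
  have g3 : ((f ^ 3 / (32 * K1)) ^ 2 * D s ^ 2 / (64 * f)) ^ 2 ≤ (τ ^ 2 * D s ^ 2 / (64 * f)) ^ 2 := by
    gcongr
  have g4 : ((f ^ 3 / (32 * K1)) ^ 2 * D s ^ 2 / (64 * f)) ^ 2 * 2 ^ n
      ≤ K0 * (3 * D s) ^ 4 * (K1 / f ^ 2) ^ 2 :=
    (mul_le_mul_of_nonneg_right g3 (by positivity)).trans g2
  have hK1pos : 0 < K1 := by linarith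
  have e5 : ((f ^ 3 / (32 * K1)) ^ 2 * D s ^ 2 / (64 * f)) ^ 2 * 2 ^ n
      = (2 ^ n * f ^ 14) * (D s ^ 4 / ((32 * K1) ^ 4 * 4096 * f ^ 4)) := by
    field_simp
    try ring
  have e6 : K0 * (3 * D s) ^ 4 * (K1 / f ^ 2) ^ 2
      = K2 * (D s ^ 4 / ((32 * K1) ^ 4 * 4096 * f ^ 4)) := by
    rw [hK2]
    field_simp
    try ring
  rw [e5, e6] at g4
  have g5 : 2 ^ n * f ^ 14 ≤ K2 := le_of_mul_le_mul_right g4 (by positivity)
  have := hnum f hfpos hffb n hn2
  linarith

end Pool.Agent.Lib.MP_f46d6a
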