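import Pool.Agent.Lib.MP_f46d6a.Small
import Pool.Agent.Lib.MP_f46d6a.Final2
import Pool.Agent.Lib.MP_f46d6a_h93.Hopf
import Pool.Agent.Lib.MP_f46d6a_h93.L1Poinc
import Pool.Agent.Lib.MP_f46d6a_h23.IntBall
import Pool.Agent.Lib.MP_f46d6a_h64.Sparse

/-!
# Choice of a good point; there is no critical configuration with small deficit
-/

set_option autoImplicit false

open MeasureTheory Set Filter Topology
open scoped ContDiff

namespace Pool.Agent.Lib.MP_f46d6a

open Pool.Agent.Lib.MP_dac83a

theorem sqrt_small {K c : ℝ} (hK : 0 ≤ K) (hc : 0 < c) :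
    ∃ η0 : ℝ, 0 < η0 ∧ η0 ≤ 1 ∧ ∀ η, 0 ≤ η → η ≤ η0 → √(η * K) ≤ c := by
  refine ⟨min 1 (c ^ 2 / (K + 1)), by positivity, min_le_left _ _, ?_⟩
  intro η h0 h1
  have h2 : η ≤ c ^ 2 / (K + 1) := h1.trans (min_le_right _ _)
  rw [le_div_iff₀ (by positivity)] at h2
  rw [Real.sqrt_le_left hc.le]
  nlinarith

/-- Markov inequality on a set -/
theorem markov {k : P → ℝ} {Q B : Set P} (hk : IntegrableOn k Q) (h0 : ∀ z ∈ Q, 0 ≤ k z)
    (hQ : MeasurableSet Q)
    (hB : MeasurableSet B) (hBQ : B ⊆ Q) (hf : volume B ≠ ⊤) {c : ℝ} (hc : ∀ z ∈ B, c ≤ k z) :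
    c * vol B ≤ ∫ z in Q, k z := by
  have e : c * vol B = ∫ z in B, c := by
    rw [setIntegral_const, smul_eq_mul, mul_comm]; rfl
  rw [e]
  calc ∫ z in B, c ≤ ∫ z in B, k z :=
        setIntegral_mono_on (integrableOn_const hf) (hk.mono_set hBQ) hB hc
    _ ≤ ∫ z in Q, k z := by
        apply setIntegral_mono_set hk _ hBQ.eventuallyLE
        rw [EventuallyLE, ae_restrict_iff' hQ]
        exact Eventually.of_forall h0

namespace Crit'

variable {δ α : ℝ} {Ω : Set P} {w wx wy p px py : P → ℝ}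

theorem low_small (h : Crit' δ α Ω w wx wy p px py) (x : P) {η0 η2 : ℝ}
    (hb : ∫ z in Metric.closedBall x 6, (Ω.indicator (fun _ => (1 : ℝ)) z - p z) ^ 2 ≤ η0)
    (hv : η2 < vol (Ω ∩ Metric.closedBall x 6)) (hη0 : 0 ≤ η0)
    (hη : 16 * η0 + 192 * √(η0 * C1) ≤ η2) :
    vol (Metric.closedBall x 6 ∩ {z | p z ≤ 1 / 4}) ≤ 192 * √(η0 * C1) := by
  set Q := Metric.closedBall x (6 : ℝ) with hQ
  have mQ : MeasurableSet Q := measurableSet_closedBall
  have fQ : volume Q ≠ ⊤ := vol_ball_ne x 6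
  have fsub : ∀ B : Set P, B ⊆ Q → volume B ≠ ⊤ := fun B hB =>
    ((measure_mono hB).trans_lt (lt_top_iff_ne_top.2 fQ)).ne
  set G0 : Set P := Q ∩ {z | p z ≤ 1 / 4} with hG0
  set G1 : Set P := Q ∩ {z | 3 / 4 ≤ p z} with hG1
  set M : Set P := Q ∩ {z | 1 / 4 < p z ∧ p z ≤ 3 / 4} with hM
  have m0 : MeasurableSet G0 := mQ.inter (measurableSet_le h.meas measurable_const)
  have m1 : MeasurableSet G1 := mQ.inter (measurableSet_le measurable_const h.meas)
  have mM : MeasurableSet M := mQ.inter ((measurableSet_lt measurable_const h.meas).inter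
    (measurableSet_le h.meas measurable_const))
  set k : P → ℝ := fun z => (Ω.indicator (fun _ => (1 : ℝ)) z - p z) ^ 2 with hk
  have ik : Integrable k := (msub h.one_memLp h.eig.mem.mu).integrable_sq
  -- the middle part is small
  have vM : vol M ≤ 16 * η0 := by
    have := markov (k := k) (c := 1 / 16) ik.integrableOn (fun z _ => sq_nonneg _) mQ mM
      inter_subset_left (fsub _ inter_subset_left) (by
        rintro z ⟨_, h1, h2⟩
        simp only [hk]
        by_cases hz : z ∈ Ω
        · rw [indicator_of_mem hz]; nlinarith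
        · rw [indicator_of_notMem hz]; nlinarith)
    linarith
  have vG1 : η2 - 16 * η0 < vol G1 := by
    have h1 := markov (k := k) (c := 1 / 16) (B := Ω ∩ Q ∩ {z | p z < 3 / 4}) ik.integrableOn
      (fun z _ => sq_nonneg _) mQ
      ((h.isOpen.measurableSet.inter mQ).inter (measurableSet_lt h.meas measurable_const))
      (fun z hz => hz.1.2) (fsub _ (fun z hz => hz.1.2)) (by
        rintro z ⟨⟨hz, _⟩, h2⟩
        simp only [mem_ofPred_eq] at h2
        simp only [hk]
        rw [indicator_of_mem hz]; nlinarith)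
    have h2 : vol (Ω ∩ Q) ≤ vol (Ω ∩ Q ∩ {z | p z < 3 / 4}) + vol G1 := by
      have hsub : Ω ∩ Q ⊆ (Ω ∩ Q ∩ {z | p z < 3 / 4}) ∪ G1 := by
        intro z hz
        by_cases h3 : p z < 3 / 4
        · exact Or.inl ⟨hz, h3⟩
        · exact Or.inr ⟨hz.2, not_lt.1 h3⟩
      unfold vol
      rw [← ENNReal.toReal_add (fsub _ (fun z hz => hz.1.2)) (fsub _ inter_subset_left)]
      exact ENNReal.toReal_mono (ENNReal.add_ne_top.2 ⟨fsub _ (fun z hz => hz.1.2),
        fsub _ inter_subset_left⟩) ((measure_mono hsub).trans (measure_union_le _ _))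
    linarith
  -- dichotomy
  have kc := h.clamp (s := 1 / 4) (t := 3 / 4) (by norm_num) (by norm_num)
  have dich := l1_dichotomy h.isOpen kc
    (Eventually.of_forall fun z => clamp_nonneg (by norm_num) z)
    (Eventually.of_forall fun z => clamp_le (by norm_num) z) x (r := 6) (by norm_num) m0 m1
    inter_subset_left inter_subset_left
    (Eventually.of_forall fun z hz => clamp_zero (by norm_num) hz.2)
    (Eventually.of_forall fun z hz => clamp_one (by norm_num) hz.2)
  have grad : ∀ q : P → ℝ, MemLp q 2 volume → ∫ z in M, q z ^ 2 ≤ C1 →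
      ∫ z in Q, |(1 / (3 / 4 - 1 / 4 : ℝ)) * (({z | 1 / 4 < p z ∧ p z ≤ 3 / 4} : Set P).indicator q z)|
      ≤ 8 * √(η0 * C1) := by
    intro q hq hE
    have e1 : ∫ z in Q, |(1 / (3 / 4 - 1 / 4 : ℝ)) *
        (({z | 1 / 4 < p z ∧ p z ≤ 3 / 4} : Set P).indicator q z)| = 2 * ∫ z, |M.indicator q z| := by
      rw [← integral_indicator mQ, ← integral_const_mul]
      congr 1
      ext z
      by_cases hz : z ∈ Q
      · rw [indicator_of_mem hz]
        by_cases hz2 : z ∈ ({z | 1 / 4 < p z ∧ p z ≤ 3 / 4} : Set P)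
        · have : z ∈ M := ⟨hz, hz2⟩
          rw [indicator_of_mem hz2, indicator_of_mem this, abs_mul]
          norm_num
        · have : z ∉ M := fun h' => hz2 h'.2
          rw [indicator_of_notMem hz2, indicator_of_notMem this]; simp
      · have : z ∉ M := fun h' => hz h'.1
        rw [indicator_of_notMem hz, indicator_of_notMem this]; simp
    rw [e1]
    have h1 := l1_sub hq mM (fsub _ inter_subset_left) vM hE (by positivity)
    have h2 : √(16 * η0 * C1) = 4 * √(η0 * C1) := by
      rw [mul_assoc, Real.sqrt_mul (by norm_num)]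
      congr 1
      rw [show (16 : ℝ) = 4 ^ 2 by norm_num, Real.sqrt_sq (by norm_num)]
    rw [h2] at h1
    linarith
  obtain ⟨lx, ly⟩ := h.local_px x (B := M) inter_subset_left
  have gx := grad px h.eig.mem.ma lx
  have gy := grad py h.eig.mem.mb ly
  have hmin : min (vol G0) (vol G1) ≤ 192 * √(η0 * C1) := by
    refine dich.trans ?_
    linarith
  rcases min_le_iff.1 hmin with h1 | h1
  · exact h1
  · linarith

/-- lower bound for the energy of the low part -/
theorem low_energy (h : Crit' δ α Ω w wx wy p px py) (hδ : δ ≤ 1 / 8) :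
    vol Ω / 2048 ≤ ∫ z in {z | p z < 1 / 32}, (px z ^ 2 + py z ^ 2) := by
  have k := H0.minLevel h.isOpen h.eig.mem (l := 1 / 32) (by norm_num)
  have hp := h.poinc _ _ _ k
  have mS : MeasurableSet {z | p z < 1 / 32} := measurableSet_lt h.meas measurable_const
  have e1 : ∫ z, ((if p z ≤ 1 / 32 then px z else 0) ^ 2 + (if p z ≤ 1 / 32 then py z else 0) ^ 2)
      = ∫ z in {z | p z < 1 / 32}, (px z ^ 2 + py z ^ 2) := by
    rw [← integral_indicator mS]
    apply integral_congr_ae
    filter_upwards [H0.kink_pos h.isOpen h.eig.mem (l := 1 / 32) (by norm_num)] with z hk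
    rcases lt_trichotomy (p z) (1 / 32) with h1 | h1 | h1
    · have : z ∈ {z | p z < 1 / 32} := h1
      rw [indicator_of_mem this, if_pos h1.le, if_pos h1.le]
    · obtain ⟨q1, q2⟩ := hk h1
      have : z ∉ {z | p z < 1 / 32} := fun h' => by simp only [mem_ofPred_eq] at h'; linarith
      rw [indicator_of_notMem this, if_pos h1.le, if_pos h1.le, q1, q2]; norm_num
    · have : z ∉ {z | p z < 1 / 32} := fun h' => by simp only [mem_ofPred_eq] at h'; linarith
      rw [indicator_of_notMem this, if_neg (not_le.2 h1), if_neg (not_le.2 h1)]; norm_num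
  rw [e1] at hp
  refine le_trans ?_ hp
  -- lower bound of the L² norm
  have hV := h.volpos
  have fsub : ∀ B : Set P, B ⊆ Ω → volume B ≠ ⊤ := fun B hB =>
    ((measure_mono hB).trans_lt (lt_top_iff_ne_top.2 h.finite)).ne
  have i1 : Integrable (fun z => (Ω.indicator (fun _ => (1 : ℝ)) z - p z) ^ 2) :=
    (msub h.one_memLp h.eig.mem.mu).integrable_sq
  have a1 : (31 / 32) ^ 2 * vol (Ω ∩ {z | p z < 1 / 32}) ≤ 2 * δ * vol Ω := by
    refine le_trans ?_ h.p_deficit
    rw [← setIntegral_univ (f := fun z => (Ω.indicator (fun _ => (1 : ℝ)) z - p z) ^ 2)]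
    apply markov i1.integrableOn (fun z _ => sq_nonneg _) MeasurableSet.univ
      (h.isOpen.measurableSet.inter mS) (subset_univ _) (fsub _ inter_subset_left)
    rintro z ⟨hz, h2⟩
    simp only [mem_ofPred_eq] at h2
    rw [indicator_of_mem hz]
    apply pow_le_pow_left₀ (by norm_num)
    linarith
  have a2 : vol Ω ≤ vol (Ω ∩ {z | p z < 1 / 32}) + vol (Ω ∩ {z | 1 / 32 ≤ p z}) := by
    have hsub : Ω ⊆ (Ω ∩ {z | p z < 1 / 32}) ∪ (Ω ∩ {z | 1 / 32 ≤ p z}) := by
      intro z hz
      by_cases h3 : p z < 1 / 32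
      · exact Or.inl ⟨hz, h3⟩
      · exact Or.inr ⟨hz, not_lt.1 h3⟩
    unfold vol
    rw [← ENNReal.toReal_add (fsub _ inter_subset_left) (fsub _ inter_subset_left)]
    exact ENNReal.toReal_mono (ENNReal.add_ne_top.2 ⟨fsub _ inter_subset_left,
      fsub _ inter_subset_left⟩) ((measure_mono hsub).trans (measure_union_le _ _))
  have a3 : (1 / 32) ^ 2 * vol (Ω ∩ {z | 1 / 32 ≤ p z}) ≤ ∫ z, (min (p z) (1 / 32)) ^ 2 := by
    rw [← setIntegral_univ (f := fun z => (min (p z) (1 / 32)) ^ 2)]
    apply markov k.mu.integrable_sq.integrableOn (fun z _ => sq_nonneg _) MeasurableSet.univ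
      (h.isOpen.measurableSet.inter (measurableSet_le measurable_const h.meas)) (subset_univ _)
      (fsub _ inter_subset_left)
    rintro z ⟨hz, h2⟩
    simp only [mem_ofPred_eq] at h2
    rw [min_eq_right h2]
  have a4 : δ * vol Ω ≤ (1 / 8) * vol Ω := mul_le_mul_of_nonneg_right hδ hV.le
  norm_num at a1 a3
  linarith

/-- from positive energy to a point of the support -/
theorem support_point (h : Crit' δ α Ω w wx wy p px py) {x : P}
    (he : 0 < ∫ z in Metric.closedBall x 1 ∩ {z | p z < 1 / 32}, (px z ^ 2 + py z ^ 2)) :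
    ∃ q ∈ Metric.closedBall x 1, p q < 1 / 32 ∧ ∀ U : Set P, IsOpen U → q ∈ U →
      0 < ∫ z in U ∩ {z | p z < 1 / 32}, (px z ^ 2 + py z ^ 2) := by
  by_contra hcon
  push Not at hcon
  set ν : Measure P := volume.withDensity (fun z => ENNReal.ofReal (px z ^ 2 + py z ^ 2)) with hν
  have hν0 : ∀ B : Set P, MeasurableSet B → ν B = ENNReal.ofReal (∫ z in B, (px z ^ 2 + py z ^ 2)) := by
    intro B hB
    rw [hν, withDensity_apply _ hB, ofReal_integral_eq_lintegral_ofReal h.eig.mem.int_en.integrableOn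
      (Eventually.of_forall fun z => by positivity)]
  have mS : MeasurableSet {z | p z < 1 / 32} := measurableSet_lt h.meas measurable_const
  have hnull : ν (Metric.closedBall x 1 ∩ {z | p z < 1 / 32}) = 0 := by
    apply measure_null_of_locally_null
    rintro q ⟨hq1, hq2⟩
    obtain ⟨U, hU, hqU, hz⟩ := hcon q hq1 hq2
    refine ⟨U ∩ {z | p z < 1 / 32}, ?_, ?_⟩
    · exact mem_nhdsWithin_of_mem_nhds ((hU.inter (h.open_lt _)).mem_nhds ⟨hqU, hq2⟩)
    · rw [hν0 _ (hU.measurableSet.inter mS), ENNReal.ofReal_eq_zero]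
      exact hz
  rw [hν0 _ (measurableSet_closedBall.inter mS), ENNReal.ofReal_eq_zero] at hnull
  linarith

end Crit'

/-- there is no critical configuration with small deficit -/
theorem no_crit : ∃ δ > 0, δ ≤ 1 ∧ ∀ (α : ℝ) (Ω : Set P) (w wx wy p px py : P → ℝ),
    ¬ Crit δ α Ω w wx wy p px py := by
  obtain ⟨CH, hCH, hloc⟩ := hopf_local
  have hMT := MT_pos
  obtain ⟨ε, hε, hfin⟩ := final (CH * (1 + MT) ^ 2) (by positivity)
  obtain ⟨CS, hCS, hsp⟩ := sparse
  have hC1 := C1_pos
  have hKT := KT_pos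
  set ε' : ℝ := min ε (1 / 2) with hε'
  have hε'0 : 0 < ε' := by positivity
  obtain ⟨κ1, hκ10, hκ11, hκ12⟩ := sqrt_small (K := C1) (c := ε' / 32) (by linarith) (by positivity)
  set κ : ℝ := min κ1 (ε' / 16) with hκ
  have hκ0 : 0 < κ := by positivity
  set η2 : ℝ := 1 / (144 * CS * 2048) with hη2
  have hη20 : 0 < η2 := by positivity
  obtain ⟨η1, hη10, hη11, hη12⟩ := sqrt_small (K := C1) (c := min κ (η2 / 2) / 192) (by linarith)
    (by positivity)
  set η0 : ℝ := min η1 (η2 / 32) with hη0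
  have hη00 : 0 < η0 := by positivity
  have s1 : 192 * √(η0 * C1) ≤ min κ (η2 / 2) := by
    have := hη12 η0 hη00.le (min_le_left _ _)
    linarith
  have s2 : 192 * √(η0 * C1) ≤ κ := s1.trans (min_le_left _ _)
  have s3 : 16 * η0 + 192 * √(η0 * C1) ≤ η2 := by
    have a := s1.trans (min_le_right _ _)
    have b : η0 ≤ η2 / 32 := min_le_right _ _
    linarith
  set δ : ℝ := min (1 / 8) (min (η0 / (288 * 2048 * C1)) (1 / (144 * 2048 * C1 * KT))) with hδ
  have hδ0 : 0 < δ := by positivity
  have hδ8 : δ ≤ 1 / 8 := min_le_left _ _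
  have hδ1 : δ ≤ η0 / (288 * 2048 * C1) := (min_le_right _ _).trans (min_le_left _ _)
  have hδ2 : δ ≤ 1 / (144 * 2048 * C1 * KT) := (min_le_right _ _).trans (min_le_right _ _)
  refine ⟨δ, hδ0, by linarith, ?_⟩
  intro α Ω w wx wy p0 px py hcrit0
  -- precise representative
  have h := hcrit0.exists_rep
  set p := star C0 p0 with hp
  have hV := h.volpos
  -- stress
  obtain ⟨mA, mB, hAB⟩ := hopf_global h.sA_int h.sB_int h.sT_memLp h.stress'
  have hABs := hAB.trans h.sT_sq
  -- local functions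
  set k1 : P → ℝ := fun z => ({z | p z < 1 / 32} : Set P).indicator (fun z => px z ^ 2 + py z ^ 2) z
    with hk1
  have mS : MeasurableSet {z | p z < 1 / 32} := measurableSet_lt h.meas measurable_const
  have ik1 : Integrable k1 := iind mS h.eig.mem.int_en
  set k2 : P → ℝ := fun z => (Ω.indicator (fun _ => (1 : ℝ)) z - p z) ^ 2 with hk2
  have ik2 : Integrable k2 := (msub h.one_memLp h.eig.mem.mu).integrable_sq
  set k3 : P → ℝ := fun z => sA wx wy px py z ^ 2 + sB wx wy px py z ^ 2 with hk3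
  have ik3 : Integrable k3 := iadd mA.integrable_sq mB.integrable_sq
  set k4 : P → ℝ := fun z => Ω.indicator (fun _ => (1 : ℝ)) z with hk4
  have ik4 : Integrable k4 := h.one_int
  obtain ⟨j1, e1⟩ := int_ball ik1 (r := 1) (by norm_num)
  obtain ⟨j2, e2⟩ := int_ball ik2 (r := 6) (by norm_num)
  obtain ⟨j3, e3⟩ := int_ball ik3 (r := 6) (by norm_num)
  obtain ⟨j4, e4⟩ := int_ball ik4 (r := 6) (by norm_num)
  have n1 : ∀ x, 0 ≤ ∫ z in Metric.closedBall x 1, k1 z := fun x =>
    integral_nonneg fun z => indicator_nonneg (fun _ _ => by positivity) _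
  have n2 : ∀ x, 0 ≤ ∫ z in Metric.closedBall x 6, k2 z := fun x =>
    integral_nonneg fun z => sq_nonneg _
  have n3 : ∀ x, 0 ≤ ∫ z in Metric.closedBall x 6, k3 z := fun x =>
    integral_nonneg fun z => by simp only [hk3]; positivity
  have n4 : ∀ x, 0 ≤ ∫ z in Metric.closedBall x 6, k4 z := fun x =>
    integral_nonneg fun z => indicator_nonneg (fun _ _ => zero_le_one) _
  have v4 : ∀ x, ∫ z in Metric.closedBall x 6, k4 z = vol (Ω ∩ Metric.closedBall x 6) := by
    intro x
    simp only [hk4]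
    rw [integral_indicator h.isOpen.measurableSet, setIntegral_const, smul_eq_mul, mul_one,
      Measure.real, Measure.restrict_apply h.isOpen.measurableSet]
    rfl
  have le1 : ∀ x, ∫ z in Metric.closedBall x 1, k1 z
      ≤ ∫ z in Metric.closedBall x 1, (px z ^ 2 + py z ^ 2) := by
    intro x
    apply int_mono ik1.integrableOn h.eig.mem.int_en.integrableOn
    intro z
    simp only [hk1]
    by_cases hz : z ∈ ({z | p z < 1 / 32} : Set P)
    · rw [indicator_of_mem hz]
    · rw [indicator_of_notMem hz]; positivity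
  -- good point
  have good : ∃ x, 0 < (∫ z in Metric.closedBall x 1, k1 z) ∧
      (∫ z in Metric.closedBall x 6, k2 z) ≤ η0 ∧ (∫ z in Metric.closedBall x 6, k3 z) ≤ 1 ∧
      η2 < ∫ z in Metric.closedBall x 6, k4 z := by
    by_contra hcon
    push Not at hcon
    have key : ∀ x, ∫ z in Metric.closedBall x 1, k1 z ≤
        ((C1 / η0) * (∫ z in Metric.closedBall x 6, k2 z) + C1 * ∫ z in Metric.closedBall x 6, k3 z)
        + (CS * η2) * ∫ z in Metric.closedBall x 6, k4 z := by
      intro x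
      have hn2 := n2 x
      have hn3 := n3 x
      have hn4 := n4 x
      have hE : ∫ z in Metric.closedBall x 1, k1 z ≤ C1 :=
        (le1 x).trans (h.local_p x (by norm_num))
      have p2 : 0 ≤ (C1 / η0) * (∫ z in Metric.closedBall x 6, k2 z) := by positivity
      have p3 : 0 ≤ C1 * ∫ z in Metric.closedBall x 6, k3 z := by positivity
      have p4 : 0 ≤ (CS * η2) * ∫ z in Metric.closedBall x 6, k4 z := by positivity
      rcases le_or_gt (∫ z in Metric.closedBall x 1, k1 z) 0 with q1 | q1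
      · linarith
      rcases le_or_gt (∫ z in Metric.closedBall x 6, k2 z) η0 with q2 | q2
      · rcases le_or_gt (∫ z in Metric.closedBall x 6, k3 z) 1 with q3 | q3
        · have q4 := hcon x q1 q2 q3
          rw [v4 x] at q4 hn4 p4 ⊢
          have := hsp h.toCrit x η2 q4
          have := (le1 x).trans this
          linarith
        · have : C1 * 1 ≤ C1 * ∫ z in Metric.closedBall x 6, k3 z :=
            mul_le_mul_of_nonneg_left q3.le (by linarith)
          linarith
      · have : C1 ≤ (C1 / η0) * (∫ z in Metric.closedBall x 6, k2 z) := by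
          rw [div_mul_eq_mul_div, le_div_iff₀ hη00]
          exact mul_le_mul_of_nonneg_left q2.le (by linarith)
        linarith
    have hint := int_mono j1 (iadd (iadd (icm (C1 / η0) j2) (icm C1 j3)) (icm (CS * η2) j4)) key
    rw [int_add (iadd (icm (C1 / η0) j2) (icm C1 j3)) (icm (CS * η2) j4),
      int_add (icm (C1 / η0) j2) (icm C1 j3), int_cm, int_cm, int_cm, e1, e2, e3, e4] at hint
    have t1 : vol Ω / 2048 ≤ ∫ z, k1 z := by
      simp only [hk1]
      rw [integral_indicator mS]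
      exact h.low_energy hδ8
    have t2 : ∫ z, k2 z ≤ 2 * δ * vol Ω := h.p_deficit
    have t3 : ∫ z, k3 z ≤ KT * δ * vol Ω := hABs
    have t4 : ∫ z, k4 z = vol Ω := h.int_one
    rw [t4] at hint
    -- numbers
    have u2 : (C1 / η0) * (4 * 6 ^ 2 * ∫ z, k2 z) ≤ vol Ω / 2048 := by
      have : (C1 / η0) * (4 * 6 ^ 2 * ∫ z, k2 z) ≤ (C1 / η0) * (4 * 6 ^ 2 * (2 * δ * vol Ω)) := by
        apply mul_le_mul_of_nonneg_left _ (by positivity)
        linarith
      refine this.trans ?_
      have h3 : (C1 / η0) * (4 * 6 ^ 2 * (2 * δ * vol Ω)) = (δ * (288 * 2048 * C1) / η0) * (vol Ω / 2048) := by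
        field_simp
        try norm_num
      rw [h3]
      have h4 : δ * (288 * 2048 * C1) / η0 ≤ 1 := by
        rw [div_le_one hη00]
        rw [le_div_iff₀ (by positivity)] at hδ1
        exact hδ1
      calc _ ≤ 1 * (vol Ω / 2048) := mul_le_mul_of_nonneg_right h4 (by positivity)
        _ = _ := one_mul _
    have u3 : C1 * (4 * 6 ^ 2 * ∫ z, k3 z) ≤ vol Ω / 2048 := by
      have : C1 * (4 * 6 ^ 2 * ∫ z, k3 z) ≤ C1 * (4 * 6 ^ 2 * (KT * δ * vol Ω)) := by
        apply mul_le_mul_of_nonneg_left _ (by positivity)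
        linarith
      refine this.trans ?_
      have h3 : C1 * (4 * 6 ^ 2 * (KT * δ * vol Ω)) = (δ * (144 * 2048 * C1 * KT)) * (vol Ω / 2048) := by
        ring
      rw [h3]
      have h4 : δ * (144 * 2048 * C1 * KT) ≤ 1 := by
        rw [le_div_iff₀ (by positivity)] at hδ2
        exact hδ2
      calc _ ≤ 1 * (vol Ω / 2048) := mul_le_mul_of_nonneg_right h4 (by positivity)
        _ = _ := one_mul _
    have u4 : (CS * η2) * (4 * 6 ^ 2 * vol Ω) = vol Ω / 2048 := by
      rw [hη2]
      field_simp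
      try norm_num
    nlinarith
  obtain ⟨x, g1, g2, g3, g4⟩ := good
  rw [v4 x] at g4
  -- support point
  have g1' : 0 < ∫ z in Metric.closedBall x 1 ∩ {z | p z < 1 / 32}, (px z ^ 2 + py z ^ 2) := by
    have : ∫ z in Metric.closedBall x 1, k1 z
        = ∫ z in Metric.closedBall x 1 ∩ {z | p z < 1 / 32}, (px z ^ 2 + py z ^ 2) := by
      simp only [hk1]
      rw [integral_indicator mS, Measure.restrict_restrict mS, inter_comm]
    rwa [← this]
  obtain ⟨q, hq1, hq2, hq3⟩ := h.support_point g1'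
  -- small component
  have low := h.low_small x g2 g4 hη00.le s3
  have hκε : 8 * κ + 16 * √(κ * C1) ≤ ε' := by
    have a1 := hκ12 κ hκ0.le (min_le_left _ _)
    have a2 : κ ≤ ε' / 16 := min_le_right _ _
    linarith
  obtain ⟨bd, dm⟩ := h.small_comp hq1 (by linarith) (low.trans s2) hκε (min_le_right _ _)
  -- local growth of the stress
  have hball : ∫ z in Metric.closedBall q 2, (sA wx wy px py z ^ 2 + sB wx wy px py z ^ 2) ≤ 1 := by
    refine le_trans ?_ g3
    apply setIntegral_mono_set ik3.integrableOn (Eventually.of_forall fun z => by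
      simp only [hk3]; positivity)
    apply LE.le.eventuallyLE
    apply Metric.closedBall_subset_closedBall'
    rw [Metric.mem_closedBall] at hq1
    linarith
  have hl := hloc (sA wx wy px py) (sB wx wy px py) (sT α Ω w p) mA mB h.sT_memLp h.stress' MT
    hMT.le h.sT_bdd q hball
  exact hfin δ α Ω w wx wy p px py h mA mB q hq2 hq3 bd (dm.trans (min_le_left _ _)) hl

end Pool.Agent.Lib.MP_f46d6a
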