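import Pool.Agent.Lib.MP_f46d6a.Kernel

set_option autoImplicit false

open MeasureTheory Set Filter Topology
open scoped ContDiff

namespace Pool.Agent.Lib.MP_f46d6a

open Pool.Agent.Lib.MP_dac83a

theorem log_ratio {ρ R : ℝ} (hρ : 0 < ρ) (hR : 0 < R) :
    2 * Real.log (R / ρ) = 2 * Real.log R - 2 * Real.log ρ := by
  rw [Real.log_div hR.ne' hρ.ne']; ring

theorem log_ratio_nonneg {ρ R : ℝ} (hρ : 0 < ρ) (h : ρ ≤ R) : 0 ≤ 2 * Real.log (R / ρ) := by
  have : 1 ≤ R / ρ := by rwa [le_div_iff₀ hρ, one_mul]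
  have := Real.log_nonneg this
  linarith

theorem gk_inner {ρ R : ℝ} (hρ : 0 < ρ) (h : ρ ≤ R) {z : P} (hz : r2 z ≤ Real.exp (-1) * ρ ^ 2) :
    gk ρ R z = 2 * Real.log (R / ρ) := by
  unfold gk
  split_ifs with h0
  · rfl
  · have hp : 0 < r2 z := lt_of_le_of_ne (r2_nonneg z) (Ne.symm h0)
    have h1 := Real.log_le_log hp hz
    rw [Real.log_mul (Real.exp_pos _).ne' (by positivity), Real.log_exp, Real.log_pow] at h1
    push_cast at h1
    have h2 := Real.log_le_log hρ h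
    rw [Lm_eq_of_one_le (by linarith) (by linarith), log_ratio hρ (hρ.trans_le h)]
    ring

theorem gk_outer {ρ R : ℝ} (hρ : 0 < ρ) (h : ρ ≤ R) {z : P} (hz : R ^ 2 ≤ r2 z) :
    gk ρ R z = 0 := by
  have hR : 0 < R := hρ.trans_le h
  have hp : 0 < r2 z := lt_of_lt_of_le (by positivity) hz
  unfold gk
  rw [if_neg hp.ne', Lm_of_nonpos ((log_le_aux hR hp).2 hz),
    Lm_of_nonpos ((log_le_aux hρ hp).2 (le_trans (by gcongr) hz)), sub_zero]

theorem gk_nonneg {ρ R : ℝ} (hρ : 0 < ρ) (h : ρ ≤ R) (z : P) : 0 ≤ gk ρ R z := by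
  unfold gk
  split_ifs with h0
  · exact log_ratio_nonneg hρ h
  · have h2 := Real.log_le_log hρ h
    have := Lm_mono (show 2 * Real.log ρ - Real.log (r2 z) ≤ 2 * Real.log R - Real.log (r2 z) by
      linarith)
    linarith

theorem gk_le {ρ R : ℝ} (hρ : 0 < ρ) (h : ρ ≤ R) (z : P) : gk ρ R z ≤ 2 * Real.log (R / ρ) := by
  unfold gk
  split_ifs with h0
  · exact le_rfl
  · have h2 := Real.log_le_log hρ h
    have := Lm_sub_le (show 2 * Real.log ρ - Real.log (r2 z) ≤ 2 * Real.log R - Real.log (r2 z) by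
      linarith)
    rw [log_ratio hρ (hρ.trans_le h)]
    linarith

theorem gk_lower {ρ R : ℝ} (hρ : 0 < ρ) (h : ρ ≤ R) {z : P} (hz : r2 z ≤ ρ ^ 2) :
    2 * Real.log (R / ρ) - 1 ≤ gk ρ R z := by
  unfold gk
  split_ifs with h0
  · linarith
  · have hp : 0 < r2 z := lt_of_le_of_ne (r2_nonneg z) (Ne.symm h0)
    have h1 := Real.log_le_log hp hz
    rw [Real.log_pow] at h1
    push_cast at h1
    have h2 := Lm_le (show 0 ≤ 2 * Real.log ρ - Real.log (r2 z) by linarith)
    have h3 := Lm_ge (2 * Real.log R - Real.log (r2 z))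
    rw [log_ratio hρ (hρ.trans_le h)]
    linarith

/-- radial `C²` profile -/
noncomputable def Fc (c : ℝ) (z : P) : ℝ := Lm (c - Real.log (r2 z))

theorem nz_open : IsOpen {z : P | z ≠ 0} := isOpen_ne

theorem dd_log_r2 {z : P} (hz : z ≠ 0) (v : P) :
    dd v (fun z => Real.log (r2 z)) z = dd v r2 z / r2 z := by
  have hp := r2_pos hz
  have h := (r2_contDiff (n := 1)).differentiable (by norm_num) z
  rw [dd_comp (Real.differentiableAt_log hp.ne') h, Real.deriv_log]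
  field_simp

theorem diffAt_log_r2 {z : P} (hz : z ≠ 0) : DifferentiableAt ℝ (fun z => Real.log (r2 z)) z := by
  have hp := r2_pos hz
  have h := (r2_contDiff (n := 1)).differentiable (by norm_num) z
  exact h.log hp.ne'

theorem dd_Fc (c : ℝ) {z : P} (hz : z ≠ 0) (v : P) :
    dd v (Fc c) z = - (Lm' (c - Real.log (r2 z)) * (dd v r2 z / r2 z)) := by
  have h1 : DifferentiableAt ℝ (fun z : P => c - Real.log (r2 z)) z :=
    (diffAt_log_r2 hz).const_sub c
  have := dd_comp (F := Lm) (f := fun z : P => c - Real.log (r2 z)) (z := z)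
    (Lm_hasDeriv _).differentiableAt h1 v
  have e : dd v (fun z : P => c - Real.log (r2 z)) z = - (dd v r2 z / r2 z) := by
    rw [← dd_log_r2 hz]
    simp only [dd]
    rw [fderiv_const_sub]
    rfl
  rw [show Fc c = fun z => Lm (c - Real.log (r2 z)) from rfl, this, (Lm_hasDeriv _).deriv, e]
  ring

theorem dd_dd_Fc (c : ℝ) {z : P} (hz : z ≠ 0) (v : P) :
    dd v (dd v (Fc c)) z = bb (c - Real.log (r2 z)) * (dd v r2 z / r2 z) ^ 2
      - Lm' (c - Real.log (r2 z)) * (dd v (dd v r2) z / r2 z - (dd v r2 z / r2 z) ^ 2) := by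
  have hp := r2_pos hz
  rw [dd_congr nz_open (f := dd v (Fc c))
    (g := fun z => (-1) * (Lm' (c - Real.log (r2 z)) * (dd v r2 z * (r2 z)⁻¹)))
    (fun w hw => by rw [dd_Fc c hw v]; ring) v z hz]
  have h1 : DifferentiableAt ℝ (fun z : P => c - Real.log (r2 z)) z :=
    (diffAt_log_r2 hz).const_sub c
  have hL : DifferentiableAt ℝ (fun z : P => Lm' (c - Real.log (r2 z))) z :=
    (Lm'_hasDeriv _).differentiableAt.comp z h1
  have hr : DifferentiableAt ℝ r2 z := (r2_contDiff (n := 1)).differentiable (by norm_num) z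
  have hri : DifferentiableAt ℝ (fun z : P => (r2 z)⁻¹) z := hr.inv hp.ne'
  have hd : DifferentiableAt ℝ (dd v r2) z :=
    (dd_contDiff (m := 1) (r2_contDiff (n := 2)) (by norm_num) v).differentiable (by norm_num) z
  rw [dd_const_mul (hL.fun_mul (hd.fun_mul hri)), H0.dd_mul' hL (hd.fun_mul hri), H0.dd_mul' hd hri]
  have e1 : dd v (fun z : P => Lm' (c - Real.log (r2 z))) z
      = bb (c - Real.log (r2 z)) * - (dd v r2 z / r2 z) := by
    have := dd_comp (F := Lm') (f := fun z : P => c - Real.log (r2 z)) (z := z)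
      (Lm'_hasDeriv _).differentiableAt h1 v
    rw [this, (Lm'_hasDeriv _).deriv]
    congr 1
    rw [← dd_log_r2 hz]
    simp only [dd]
    rw [fderiv_const_sub]
    rfl
  have e2 : dd v (fun z : P => (r2 z)⁻¹) z = - dd v r2 z / (r2 z) ^ 2 := by
    have := dd_comp (F := fun x : ℝ => x⁻¹) (f := r2) (z := z) (differentiableAt_inv hp.ne') hr v
    rw [this, deriv_inv]
    field_simp
  rw [e1, e2]
  field_simp
  ring

theorem dd_dd_r2_x (z : P) : dd ex (dd ex r2) z = 2 := by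
  have : dd ex r2 = fun z : P => 2 * z.1 := by ext w; exact dd_ex_r2 w
  rw [this]
  simp only [dd]
  have h1 : HasFDerivAt (fun z : P => 2 * z.1) ((2 : ℝ) • ContinuousLinearMap.fst ℝ ℝ ℝ) z :=
    (hasFDerivAt_fst (𝕜 := ℝ) (E := ℝ) (F := ℝ) (p := z)).const_mul 2
  rw [h1.fderiv]; simp

theorem dd_dd_r2_y (z : P) : dd ey (dd ey r2) z = 2 := by
  have : dd ey r2 = fun z : P => 2 * z.2 := by ext w; exact dd_ey_r2 w
  rw [this]
  simp only [dd]
  have h1 : HasFDerivAt (fun z : P => 2 * z.2) ((2 : ℝ) • ContinuousLinearMap.snd ℝ ℝ ℝ) z :=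
    (hasFDerivAt_snd (𝕜 := ℝ) (E := ℝ) (F := ℝ) (p := z)).const_mul 2
  rw [h1.fderiv]; simp

theorem lap_Fc (c : ℝ) {z : P} (hz : z ≠ 0) :
    lap (Fc c) z = 4 * bb (c - Real.log (r2 z)) / r2 z := by
  have hp := r2_pos hz
  simp only [lap]
  rw [dd_dd_Fc c hz, dd_dd_Fc c hz, dd_dd_r2_x, dd_dd_r2_y, dd_ex_r2, dd_ey_r2]
  have : r2 z = z.1 ^ 2 + z.2 ^ 2 := rfl
  field_simp
  rw [this]
  ring

theorem Fc_contDiffAt (c : ℝ) {z : P} (hz : z ≠ 0) : ContDiffAt ℝ 2 (Fc c) z := by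
  unfold Fc
  apply Lm_contDiff.contDiffAt.comp
  apply ContDiffAt.sub contDiffAt_const
  exact (r2_contDiff.contDiffAt).log (r2_pos hz).ne'

theorem gk_eq_Fc {ρ R : ℝ} {z : P} (hz : z ≠ 0) :
    gk ρ R z = 1 * Fc (2 * Real.log R) z + (-1) * Fc (2 * Real.log ρ) z := by
  unfold gk Fc
  rw [if_neg (r2_pos hz).ne']; ring

theorem inner_nhds {ρ : ℝ} (hρ : 0 < ρ) : {z : P | r2 z < Real.exp (-1) * ρ ^ 2} ∈ 𝓝 (0 : P) := by
  apply (isOpen_lt r2_cont continuous_const).mem_nhds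
  simp only [mem_ofPred_eq, r2_zero]
  positivity

theorem gk_contDiff {ρ R : ℝ} (hρ : 0 < ρ) (h : ρ ≤ R) : ContDiff ℝ 2 (gk ρ R) := by
  rw [contDiff_iff_contDiffAt]
  intro z
  by_cases hz : z = 0
  · subst hz
    have : gk ρ R =ᶠ[𝓝 0] fun _ => 2 * Real.log (R / ρ) := by
      filter_upwards [inner_nhds hρ] with w hw using gk_inner hρ h hw.le
    exact contDiffAt_const.congr_of_eventuallyEq this
  · have : gk ρ R =ᶠ[𝓝 z] fun z => 1 * Fc (2 * Real.log R) z + (-1) * Fc (2 * Real.log ρ) z := by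
      filter_upwards [nz_open.mem_nhds hz] with w hw using gk_eq_Fc hw
    refine ContDiffAt.congr_of_eventuallyEq ?_ this
    exact (contDiffAt_const.mul (Fc_contDiffAt _ hz)).add (contDiffAt_const.mul (Fc_contDiffAt _ hz))

theorem lap_gk {ρ R : ℝ} (hρ : 0 < ρ) (h : ρ ≤ R) (z : P) :
    lap (gk ρ R) z = mker R z - mker ρ z := by
  by_cases hz : z = 0
  · subst hz
    have h1 : ∀ z ∈ {z : P | r2 z < Real.exp (-1) * ρ ^ 2}, gk ρ R z = 2 * Real.log (R / ρ) :=
      fun w hw => gk_inner hρ h (le_of_lt hw)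
    rw [lap_congr (isOpen_lt r2_cont continuous_const) h1 0 (mem_of_mem_nhds (inner_nhds hρ))]
    have : ∀ v, dd v (fun _ : P => 2 * Real.log (R / ρ)) = fun _ => 0 := by
      intro v; ext w; simp [dd]
    simp only [lap]
    rw [this, this]
    have e1 : dd ex (fun _ : P => (0 : ℝ)) 0 = 0 := by simp [dd]
    have e2 : dd ey (fun _ : P => (0 : ℝ)) 0 = 0 := by simp [dd]
    rw [e1, e2]
    simp [mker, r2_zero]
  · rw [lap_congr nz_open (fun w hw => gk_eq_Fc hw) z hz,
      lap_comb nz_open (fun w hw => (Fc_contDiffAt _ hw).contDiffWithinAt)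
        (fun w hw => (Fc_contDiffAt _ hw).contDiffWithinAt) 1 (-1) z hz, lap_Fc _ hz, lap_Fc _ hz]
    simp only [mker]
    ring

theorem gk_support {ρ R : ℝ} (hρ : 0 < ρ) (h : ρ ≤ R) :
    Function.support (gk ρ R) ⊆ Metric.closedBall 0 R := by
  intro z hz
  by_contra hc
  apply hz
  apply gk_outer hρ h
  rw [Metric.mem_closedBall, dist_zero_right, not_le] at hc
  have := norm_sq_le_r2 z
  have hR : 0 < R := hρ.trans_le h
  nlinarith

theorem gk_cpt {ρ R : ℝ} (hρ : 0 < ρ) (h : ρ ≤ R) : HasCompactSupport (gk ρ R) :=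
  HasCompactSupport.intro (isCompact_closedBall 0 R) (fun z hz => by
    by_contra h'; exact hz (gk_support hρ h h'))

theorem gk_test {ρ R : ℝ} (hρ : 0 < ρ) (h : ρ ≤ R) : IsTest1 univ (gk ρ R) :=
  ⟨(gk_contDiff hρ h).of_le (by norm_num), gk_cpt hρ h, subset_univ _⟩

/-! ## Translations -/

theorem dd_trans (f : P → ℝ) (x v z : P) : dd v (fun z => f (z - x)) z = dd v f (z - x) := by
  simp only [dd]
  rw [fderiv_comp_sub]

theorem lap_trans (f : P → ℝ) (x z : P) : lap (fun z => f (z - x)) z = lap f (z - x) := by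
  simp only [lap]
  have : ∀ v, dd v (fun z => f (z - x)) = fun z => dd v f (z - x) := by
    intro v; ext w; exact dd_trans f x v w
  rw [this, this, dd_trans, dd_trans]

/-- `C²` functions of compact support tested against `H¹` functions -/
theorem H0.test_C2 {U : Set P} {u a b : P → ℝ} (h : H0 U u a b) {η : P → ℝ} (h2 : ContDiff ℝ 2 η)
    (hc : HasCompactSupport η) :
    ∫ z, (a z * dd ex η z + b z * dd ey η z) = - ∫ z, u z * lap η z := by
  have t1 : ∀ v, IsTest1 univ (dd v η) := fun v =>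
    ⟨dd_contDiff (m := 1) h2 (by norm_num) v, dd_hasCompactSupport hc v, subset_univ _⟩
  have e1 := h.ibp_x (t1 ex)
  have e2 := h.ibp_y (t1 ey)
  have i1 : Integrable (fun z => a z * dd ex η z) := integrable_mul2 h.ma (IsTest1.memLp (t1 ex))
  have i2 : Integrable (fun z => b z * dd ey η z) := integrable_mul2 h.mb (IsTest1.memLp (t1 ey))
  have j1 : Integrable (fun z => u z * dd ex (dd ex η) z) :=
    integrable_mul2 h.mu (IsTest1.dd_memLp (t1 ex) ex)
  have j2 : Integrable (fun z => u z * dd ey (dd ey η) z) :=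
    integrable_mul2 h.mu (IsTest1.dd_memLp (t1 ey) ey)
  rw [integral_add i1 i2]
  simp only [lap, mul_add]
  rw [integral_add j1 j2, e1, e2]
  ring

/-- the translated kernels -/
theorem gkt_contDiff {ρ R : ℝ} (hρ : 0 < ρ) (h : ρ ≤ R) (x : P) :
    ContDiff ℝ 2 (fun z => gk ρ R (z - x)) :=
  (gk_contDiff hρ h).comp (contDiff_id.sub contDiff_const)

theorem cpt_trans {f : P → ℝ} (hf : HasCompactSupport f) (x : P) :
    HasCompactSupport (fun z => f (z - x)) := by
  have := hf.comp_homeomorph (Homeomorph.subRight x)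
  exact this

theorem gkt_test {ρ R : ℝ} (hρ : 0 < ρ) (h : ρ ≤ R) (x : P) :
    IsTest1 univ (fun z => gk ρ R (z - x)) :=
  ⟨(gkt_contDiff hρ h x).of_le (by norm_num), cpt_trans (gk_cpt hρ h) x, subset_univ _⟩

/-- testing an `H¹` function with the kernel -/
theorem H0.test_gk {U : Set P} {u a b : P → ℝ} (h : H0 U u a b) {ρ R : ℝ} (hρ : 0 < ρ) (hR : ρ ≤ R)
    (x : P) :
    ∫ z, (a z * dd ex (gk ρ R) (z - x) + b z * dd ey (gk ρ R) (z - x)) =
      (∫ z, u z * mker ρ (z - x)) - ∫ z, u z * mker R (z - x) := by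
  have hR' : 0 < R := hρ.trans_le hR
  have := h.test_C2 (gkt_contDiff hρ hR x) (cpt_trans (gk_cpt hρ hR) x)
  simp only [dd_trans, lap_trans, lap_gk hρ hR] at this
  rw [this]
  have m1 : MemLp (fun z => mker ρ (z - x)) 2 volume :=
    ((mk_cont hρ).comp (by fun_prop : Continuous fun z : P => z - x)).memLp_of_hasCompactSupport
      (cpt_trans (mk_cpt hρ) x)
  have m2 : MemLp (fun z => mker R (z - x)) 2 volume :=
    ((mk_cont hR').comp (by fun_prop : Continuous fun z : P => z - x)).memLp_of_hasCompactSupport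
      (cpt_trans (mk_cpt hR') x)
  rw [← integral_sub (integrable_mul2 h.mu m1) (integrable_mul2 h.mu m2), ← integral_neg]
  congr 1
  ext z
  ring

/-- Dirichlet energy of the kernel -/
theorem gk_energy {ρ R : ℝ} (hρ : 0 < ρ) (h : ρ ≤ R) :
    ∫ z, (dd ex (gk ρ R) z ^ 2 + dd ey (gk ρ R) z ^ 2) ≤ 2 * Real.log (R / ρ) * mu0 := by
  have hR : 0 < R := hρ.trans_le h
  have hg := H0.of_C1 isOpen_univ (gk_test hρ h)
  have e := hg.test_gk hρ h 0
  simp only [sub_zero] at e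
  have e' : ∫ z, (dd ex (gk ρ R) z ^ 2 + dd ey (gk ρ R) z ^ 2) =
      ∫ z, (dd ex (gk ρ R) z * dd ex (gk ρ R) z + dd ey (gk ρ R) z * dd ey (gk ρ R) z) := by
    congr 1; ext z; ring
  rw [e', e]
  have h1 : ∫ z, gk ρ R z * mker ρ z ≤ 2 * Real.log (R / ρ) * mu0 := by
    rw [← mk_mass hρ, ← integral_const_mul]
    apply integral_mono (integrable_mul2 hg.mu (mk_memLp hρ)) ((mk_int hρ).const_mul _)
    intro z
    exact mul_le_mul_of_nonneg_right (gk_le hρ h z) (mk_nonneg _ _)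
  have h2 : 0 ≤ ∫ z, gk ρ R z * mker R z :=
    integral_nonneg fun z => mul_nonneg (gk_nonneg hρ h z) (mk_nonneg _ _)
  linarith

end Pool.Agent.Lib.MP_f46d6a
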