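import Pool.Agent.Lib.MP_f46d6a.Util

/-!
# The critical configuration and its local bounds
-/

set_option autoImplicit false

open MeasureTheory Set Filter Topology
open scoped ContDiff

namespace Pool.Agent.Lib.MP_f46d6a

open Pool.Agent.Lib.MP_dac83a

/-- the data produced by a (scaled) optimal domain -/
structure Crit (δ α : ℝ) (Ω : Set P) (w wx wy p px py : P → ℝ) : Prop where
  isOpen : IsOpen Ω
  ne : Ω.Nonempty
  finite : volume Ω ≠ ⊤
  δ0 : 0 < δ
  δ1 : δ ≤ 1
  α0 : 1 - δ < α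
  α1 : α < 1
  tor : Tor Ω w wx wy
  eig : Eigf Ω 1 p px py
  poinc : ∀ v a b, H0 Ω v a b → ∫ z, v z ^ 2 ≤ ∫ z, (a z ^ 2 + b z ^ 2)
  norm : ∫ z, p z ^ 2 = α * ∫ z, w z
  deficit : (1 - δ) * vol Ω ≤ ∫ z, w z
  le : ∀ᵐ z, p z ≤ w z
  stress : StressId (fun z => (wx z ^ 2 - wy z ^ 2) - (px z ^ 2 - py z ^ 2))
    (fun z => 2 * (wx z * wy z - px z * py z))
    (fun z => 2 * w z - p z ^ 2 - Ω.indicator (fun _ => (2 - α) * (∫ z, w z) / vol Ω) z)

/-- Caccioppoli identity -/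
theorem H0.weighted {U : Set P} (hU : IsOpen U) {u a b f : P → ℝ} (h : H0 U u a b)
    (eq : ∀ η ηx ηy, H0 U η ηx ηy → ∫ z, (a z * ηx z + b z * ηy z) = ∫ z, f z * η z)
    {ζ : P → ℝ} (hζ : ContDiff ℝ 1 ζ) {C : ℝ} (h0 : ∀ z, |ζ z| ≤ C)
    (h1 : ∀ z, |dd ex ζ z| ≤ C) (h2 : ∀ z, |dd ey ζ z| ≤ C) :
    H0 U (fun z => ζ z * u z) (fun z => ζ z * a z + dd ex ζ z * u z)
      (fun z => ζ z * b z + dd ey ζ z * u z) ∧
    ∫ z, ((ζ z * a z + dd ex ζ z * u z) ^ 2 + (ζ z * b z + dd ey ζ z * u z) ^ 2)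
      = (∫ z, f z * (ζ z ^ 2 * u z)) + ∫ z, u z ^ 2 * (dd ex ζ z ^ 2 + dd ey ζ z ^ 2) := by
  have k1 := h.mul_C1 hU hζ h0 h1 h2
  have k2 := k1.mul_C1 hU hζ h0 h1 h2
  refine ⟨k1, ?_⟩
  have e := eq _ _ _ k2
  have cdx : Continuous (dd ex ζ) := (dd_contDiff (m := 0) hζ (by norm_num) ex).continuous
  have cdy : Continuous (dd ey ζ) := (dd_contDiff (m := 0) hζ (by norm_num) ey).continuous
  have e1 : ∫ z, f z * (ζ z ^ 2 * u z) = ∫ z, f z * (ζ z * (ζ z * u z)) := by
    congr 1; ext z; ring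
  rw [e1, ← e]
  have C0 : 0 ≤ C := (abs_nonneg _).trans (h0 0)
  have i2 : Integrable (fun z => u z ^ 2 * (dd ex ζ z ^ 2 + dd ey ζ z ^ 2)) := by
    refine (h.mu.integrable_sq.const_mul (2 * C ^ 2)).mono'
      (h.mu.integrable_sq.aestronglyMeasurable.mul ((cdx.pow 2).add (cdy.pow 2)).aestronglyMeasurable)
      ?_
    filter_upwards with z
    rw [Real.norm_eq_abs, abs_of_nonneg (by positivity)]
    have g1 : dd ex ζ z ^ 2 ≤ C ^ 2 := by rw [← sq_abs]; exact pow_le_pow_left₀ (abs_nonneg _) (h1 z) 2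
    have g2 : dd ey ζ z ^ 2 ≤ C ^ 2 := by rw [← sq_abs]; exact pow_le_pow_left₀ (abs_nonneg _) (h2 z) 2
    nlinarith [sq_nonneg (u z)]
  rw [← int_add (iadd (integrable_mul2 h.ma k2.ma) (integrable_mul2 h.mb k2.mb)) i2]
  congr 1
  ext z
  ring

theorem Tor.eq' {U : Set P} {w wx wy : P → ℝ} (h : Tor U w wx wy) :
    ∀ η ηx ηy, H0 U η ηx ηy →
      ∫ z, (wx z * ηx z + wy z * ηy z) = ∫ z, (U.indicator (fun _ => (1 : ℝ)) z) * η z := by
  intro η ηx ηy hη
  rw [h.eq _ _ _ hη]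
  apply integral_congr_ae
  filter_upwards [hη.zero_off] with z hz
  by_cases hzU : z ∈ U
  · simp [hzU]
  · simp [hzU, (hz hzU).1]

theorem Eigf.eq' {U : Set P} {p px py : P → ℝ} (h : Eigf U 1 p px py) :
    ∀ η ηx ηy, H0 U η ηx ηy → ∫ z, (px z * ηx z + py z * ηy z) = ∫ z, p z * η z := by
  intro η ηx ηy hη
  rw [h.eq _ _ _ hη, one_mul]

/-- the weight -/
noncomputable def wt (x z : P) : ℝ := (1 + r2 (z - x) / 4)⁻¹

theorem wt_pos (x z : P) : 0 < wt x z := by
  have := r2_nonneg (z - x)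
  unfold wt; positivity

theorem wt_le (x z : P) : wt x z ≤ 1 := by
  have := r2_nonneg (z - x)
  unfold wt
  apply inv_le_one_of_one_le₀
  linarith

theorem wt_contDiff (x : P) : ContDiff ℝ 1 (wt x) := by
  unfold wt
  apply ContDiff.inv
  · exact contDiff_const.add ((r2_contDiff.comp (contDiff_id.sub contDiff_const)).div_const _)
  · intro z
    have := r2_nonneg (z - x)
    positivity

theorem dd_wt (v x z : P) : dd v (wt x) z = - (wt x z) ^ 2 * (dd v r2 (z - x) / 4) := by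
  have hr := r2_nonneg (z - x)
  have hd : DifferentiableAt ℝ (fun z => r2 (z - x)) z :=
    ((r2_contDiff (n := 1)).comp (contDiff_id.sub contDiff_const)).differentiable (by norm_num) z
  have hg : DifferentiableAt ℝ (fun z => 1 + r2 (z - x) / 4) z := by
    have : (fun z => 1 + r2 (z - x) / 4) = fun z => (1 : ℝ) + (1 / 4) * r2 (z - x) := by
      ext z; ring
    rw [this]
    exact (differentiableAt_const _).add (hd.const_mul _)
  have hF : HasDerivAt (fun s : ℝ => s⁻¹) (-((1 + r2 (z - x) / 4) ^ 2)⁻¹) (1 + r2 (z - x) / 4) :=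
    hasDerivAt_inv (by positivity)
  have e := dd_comp (F := fun s : ℝ => s⁻¹) (f := fun z => 1 + r2 (z - x) / 4) (z := z)
    hF.differentiableAt hg v
  have e2 : dd v (fun z => 1 + r2 (z - x) / 4) z = dd v r2 (z - x) / 4 := by
    have : (fun z => 1 + r2 (z - x) / 4) = fun z => (1 : ℝ) + (1 / 4) * r2 (z - x) := by
      ext z; ring
    rw [this, dd_add (differentiableAt_const _) (hd.const_mul _), dd_const_mul hd, dd_trans]
    have : dd v (fun _ : P => (1 : ℝ)) z = 0 := by simp [dd]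
    rw [this]; ring
  rw [hF.deriv, e2] at e
  have : wt x = fun z => (1 + r2 (z - x) / 4)⁻¹ := rfl
  rw [this, e]
  simp only [inv_pow]

theorem wt_grad (x z : P) : dd ex (wt x) z ^ 2 + dd ey (wt x) z ^ 2 ≤ wt x z ^ 2 / 4 := by
  rw [dd_wt, dd_wt, dd_ex_r2, dd_ey_r2]
  set y := z - x with hy
  have hr : 0 ≤ r2 y := r2_nonneg _
  have e : r2 y = y.1 ^ 2 + y.2 ^ 2 := by rw [r2]
  have hw : wt x z * (1 + r2 y / 4) = 1 := by
    unfold wt
    rw [← hy]
    exact inv_mul_cancel₀ (by positivity)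
  have hp := wt_pos x z
  have h1 : (-wt x z ^ 2 * (2 * y.1 / 4)) ^ 2 + (-wt x z ^ 2 * (2 * y.2 / 4)) ^ 2
      = wt x z ^ 2 * (wt x z ^ 2 * (r2 y / 4)) := by rw [e]; ring
  rw [h1]
  have h2 : wt x z ^ 2 * (r2 y / 4) ≤ 1 / 4 := by
    have : (1 : ℝ) = (wt x z * (1 + r2 y / 4)) ^ 2 := by rw [hw]; ring
    nlinarith [sq_nonneg (wt x z * (1 - r2 y / 4))]
  have h3 : 0 ≤ wt x z ^ 2 := sq_nonneg _
  nlinarith

theorem wt_dd_le (x z : P) : |dd ex (wt x) z| ≤ 1 ∧ |dd ey (wt x) z| ≤ 1 := by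
  have h1 := wt_grad x z
  have h2 := wt_le x z
  have h3 := wt_pos x z
  constructor
  · rw [abs_le]; constructor <;> nlinarith [sq_nonneg (dd ey (wt x) z)]
  · rw [abs_le]; constructor <;> nlinarith [sq_nonneg (dd ex (wt x) z)]

theorem wt_int (x : P) : Integrable (fun z => wt x z ^ 2) ∧
    ∫ z, wt x z ^ 2 = ∫ z, wt 0 z ^ 2 := by
  have h0 : Integrable (fun z => wt 0 z ^ 2) := by
    have h1 : Integrable (fun z : P => (1 + ‖z‖) ^ (-(4 : ℝ))) := by
      apply integrable_one_add_norm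
      have : Module.finrank ℝ P = 2 := by simp [P]
      rw [this]; norm_num
    refine (h1.const_mul 64).mono' ((wt_contDiff 0).continuous.pow 2).aestronglyMeasurable ?_
    filter_upwards with z
    rw [Real.norm_eq_abs, abs_of_nonneg (sq_nonneg _)]
    have hn := norm_nonneg z
    have e1 : (1 + ‖z‖) ^ (-(4 : ℝ)) = ((1 + ‖z‖) ^ 4)⁻¹ := by
      rw [Real.rpow_neg (by positivity)]
      norm_cast
    rw [e1]
    unfold wt
    rw [sub_zero, inv_pow, ← div_eq_mul_inv, inv_le_comm₀ (by have := r2_nonneg z; positivity)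
      (by positivity), inv_div]
    rw [div_le_iff₀ (by norm_num)]
    have h2 := norm_sq_le_r2 z
    have h3 : (1 + ‖z‖) ^ 2 ≤ 8 * (1 + r2 z / 4) := by nlinarith [sq_nonneg (1 - ‖z‖)]
    calc (1 + ‖z‖) ^ 4 = ((1 + ‖z‖) ^ 2) ^ 2 := by ring
      _ ≤ (8 * (1 + r2 z / 4)) ^ 2 := by gcongr
      _ = (1 + r2 z / 4) ^ 2 * 64 := by ring
  have e : ∀ z, wt x z = wt 0 (z - x) := by intro z; simp [wt]
  constructor
  · have := h0.comp_sub_right x
    simpa only [e] using this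
  · simp only [e]
    exact integral_sub_right_eq_self (fun z => wt 0 z ^ 2) x

/-- integral of the squared weight -/
noncomputable def Zc : ℝ := ∫ z, wt 0 z ^ 2

theorem Zc_nonneg : 0 ≤ Zc := integral_nonneg fun z => sq_nonneg _

theorem sq_le_of_wt {U : Set P} {u a b : P → ℝ} (h : H0 U u a b) (x : P) :
    Integrable (fun z => wt x z ^ 2 * u z ^ 2) ∧ Integrable (fun z => wt x z ^ 2 * (a z ^ 2 + b z ^ 2)) ∧
    Integrable (fun z => u z ^ 2 * (dd ex (wt x) z ^ 2 + dd ey (wt x) z ^ 2)) ∧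
    ∫ z, u z ^ 2 * (dd ex (wt x) z ^ 2 + dd ey (wt x) z ^ 2) ≤ (1 / 4) * ∫ z, wt x z ^ 2 * u z ^ 2 ∧
    ∫ z, wt x z ^ 2 * (a z ^ 2 + b z ^ 2) ≤
      2 * (∫ z, ((wt x z * a z + dd ex (wt x) z * u z) ^ 2 + (wt x z * b z + dd ey (wt x) z * u z) ^ 2))
      + (1 / 2) * ∫ z, wt x z ^ 2 * u z ^ 2 := by
  have hw := (wt_contDiff x)
  have cdx : Continuous (dd ex (wt x)) := (dd_contDiff (m := 0) hw (by norm_num) ex).continuous
  have cdy : Continuous (dd ey (wt x)) := (dd_contDiff (m := 0) hw (by norm_num) ey).continuous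
  have gen : ∀ k : P → ℝ, Integrable k → ∀ c : P → ℝ, Continuous c → (∀ z, |c z| ≤ 1) →
      Integrable (fun z => c z * k z) := by
    intro k hk c hc hb
    refine hk.norm.mono' (hc.aestronglyMeasurable.mul hk.aestronglyMeasurable) ?_
    filter_upwards with z
    rw [norm_mul]
    exact mul_le_of_le_one_left (norm_nonneg _) (hb z)
  have b1 : ∀ z, |wt x z ^ 2| ≤ 1 := by
    intro z
    rw [abs_of_nonneg (sq_nonneg _)]
    exact pow_le_one₀ (wt_pos x z).le (wt_le x z)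
  have b2 : ∀ z, |dd ex (wt x) z ^ 2 + dd ey (wt x) z ^ 2| ≤ 1 := by
    intro z
    rw [abs_of_nonneg (by positivity)]
    have := wt_grad x z
    have h2 := b1 z
    rw [abs_of_nonneg (sq_nonneg _)] at h2
    linarith
  have i1 : Integrable (fun z => wt x z ^ 2 * u z ^ 2) :=
    gen _ h.mu.integrable_sq (fun z => wt x z ^ 2) (hw.continuous.pow 2) b1
  have i2 : Integrable (fun z => wt x z ^ 2 * (a z ^ 2 + b z ^ 2)) :=
    gen _ h.int_en (fun z => wt x z ^ 2) (hw.continuous.pow 2) b1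
  have i3 : Integrable (fun z => u z ^ 2 * (dd ex (wt x) z ^ 2 + dd ey (wt x) z ^ 2)) := by
    have := gen _ h.mu.integrable_sq (fun z => dd ex (wt x) z ^ 2 + dd ey (wt x) z ^ 2)
      ((cdx.pow 2).add (cdy.pow 2)) b2
    refine this.congr ?_
    filter_upwards with z; ring
  have le1 : ∫ z, u z ^ 2 * (dd ex (wt x) z ^ 2 + dd ey (wt x) z ^ 2)
      ≤ (1 / 4) * ∫ z, wt x z ^ 2 * u z ^ 2 := by
    rw [← integral_const_mul]
    apply int_mono i3 (icm _ i1)
    intro z
    have := wt_grad x z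
    nlinarith [sq_nonneg (u z)]
  refine ⟨i1, i2, i3, le1, ?_⟩
  have k1 : MemLp (fun z => wt x z * a z + dd ex (wt x) z * u z) 2 volume := by
    have m1 : MemLp (fun z => wt x z * a z) 2 volume := by
      refine h.ma.of_le (hw.continuous.aestronglyMeasurable.mul h.ma.aestronglyMeasurable) ?_
      filter_upwards with z
      rw [norm_mul]
      apply mul_le_of_le_one_left (norm_nonneg _)
      rw [Real.norm_eq_abs, abs_of_pos (wt_pos x z)]; exact wt_le x z
    have m2 : MemLp (fun z => dd ex (wt x) z * u z) 2 volume := by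
      refine h.mu.of_le (cdx.aestronglyMeasurable.mul h.mu.aestronglyMeasurable) ?_
      filter_upwards with z
      rw [norm_mul]
      exact mul_le_of_le_one_left (norm_nonneg _) (wt_dd_le x z).1
    exact m1.add m2
  have k2 : MemLp (fun z => wt x z * b z + dd ey (wt x) z * u z) 2 volume := by
    have m1 : MemLp (fun z => wt x z * b z) 2 volume := by
      refine h.mb.of_le (hw.continuous.aestronglyMeasurable.mul h.mb.aestronglyMeasurable) ?_
      filter_upwards with z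
      rw [norm_mul]
      apply mul_le_of_le_one_left (norm_nonneg _)
      rw [Real.norm_eq_abs, abs_of_pos (wt_pos x z)]; exact wt_le x z
    have m2 : MemLp (fun z => dd ey (wt x) z * u z) 2 volume := by
      refine h.mu.of_le (cdy.aestronglyMeasurable.mul h.mu.aestronglyMeasurable) ?_
      filter_upwards with z
      rw [norm_mul]
      exact mul_le_of_le_one_left (norm_nonneg _) (wt_dd_le x z).2
    exact m1.add m2
  have i4 := iadd k1.integrable_sq k2.integrable_sq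
  have step : ∫ z, wt x z ^ 2 * (a z ^ 2 + b z ^ 2) ≤
      ∫ z, (2 * ((wt x z * a z + dd ex (wt x) z * u z) ^ 2 + (wt x z * b z + dd ey (wt x) z * u z) ^ 2)
        + 2 * (u z ^ 2 * (dd ex (wt x) z ^ 2 + dd ey (wt x) z ^ 2))) := by
    apply int_mono i2 (iadd (icm 2 i4) (icm 2 i3))
    intro z
    nlinarith [sq_nonneg (wt x z * a z + 2 * (dd ex (wt x) z * u z)),
      sq_nonneg (wt x z * b z + 2 * (dd ey (wt x) z * u z))]
  rw [int_cadd 2 2 i4 i3] at step
  linarith

theorem ball6_le {x z : P} (hz : z ∈ Metric.closedBall x 6) : 1 ≤ 361 * wt x z ^ 2 := by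
  rw [Metric.mem_closedBall, dist_eq_norm] at hz
  have h1 := r2_le_norm_sq (z - x)
  have h2 : r2 (z - x) ≤ 72 := by nlinarith [norm_nonneg (z - x)]
  have h3 := r2_nonneg (z - x)
  have h4 : 1 / 19 ≤ wt x z := by
    unfold wt
    rw [← one_div]
    apply one_div_le_one_div_of_le (by positivity)
    linarith
  nlinarith

theorem setInt_le_wt {k : P → ℝ} (hk : Integrable k) (h0 : ∀ z, 0 ≤ k z) (x : P)
    (hi : Integrable (fun z => wt x z ^ 2 * k z)) :
    ∫ z in Metric.closedBall x 6, k z ≤ 361 * ∫ z, wt x z ^ 2 * k z := by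
  rw [← integral_const_mul]
  refine le_trans ?_ (setIntegral_le_integral (s := Metric.closedBall x 6) (hi.const_mul 361)
    (Eventually.of_forall fun z => by have := h0 z; positivity))
  apply setIntegral_mono_on hk.integrableOn (hi.const_mul 361).integrableOn measurableSet_closedBall
  intro z hz
  have := ball6_le hz
  nlinarith [h0 z]

end Pool.Agent.Lib.MP_f46d6a
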