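import Pool.Agent.Lib.MP_f46d6a.Local

/-!
# Local bounds and deficits for a critical configuration
-/

set_option autoImplicit false

open MeasureTheory Set Filter Topology
open scoped ContDiff

namespace Pool.Agent.Lib.MP_f46d6a

open Pool.Agent.Lib.MP_dac83a

/-- local energy constant -/
noncomputable def C1 : ℝ := 361 * 15 * Zc + 1

/-- sup bound constant -/
noncomputable def C0 : ℝ := (24 * (4 + C1) + 11) / mu0 + 1

theorem C1_pos : 1 ≤ C1 := by
  have := Zc_nonneg
  unfold C1; linarith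

theorem C0_pos : 1 ≤ C0 := by
  have := C1_pos
  have h := mu0_pos
  unfold C0
  have : 0 < (24 * (4 + C1) + 11) / mu0 := by positivity
  linarith

theorem vol_ball (x : P) {r : ℝ} (hr : 0 ≤ r) :
    (volume (Metric.closedBall x r)).toReal = 4 * r ^ 2 := by
  have : Metric.closedBall x r = Metric.closedBall x.1 r ×ˢ Metric.closedBall x.2 r :=
    (closedBall_prod_same x.1 x.2 r).symm
  rw [this, Measure.volume_eq_prod, Measure.prod_prod, Real.volume_closedBall, Real.volume_closedBall,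
    ENNReal.toReal_mul, ENNReal.toReal_ofReal (by positivity)]
  ring

theorem vol_ball_ne (x : P) (r : ℝ) : volume (Metric.closedBall x r) ≠ ⊤ :=
  (isCompact_closedBall x r).measure_ne_top

/-- averages are controlled by integrals on squares -/
theorem av_le_int {s : ℝ} (hs : 0 < s) {u : P → ℝ} (hu : Integrable u) (h0 : ∀ᵐ z, 0 ≤ u z) (x : P) :
    av s u x ≤ 24 / s ^ 2 * ∫ z in Metric.closedBall x s, u z := by
  unfold av
  have e : ∫ z, u z * mker s (z - x) = ∫ z in Metric.closedBall x s, u z * mker s (z - x) := by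
    rw [setIntegral_eq_integral_of_forall_compl_eq_zero]
    intro z hz
    have : mker s (z - x) = 0 := by
      by_contra h
      have h2 := mk_support hs h
      rw [Metric.mem_closedBall, dist_zero_right] at h2
      exact hz (by rwa [Metric.mem_closedBall, dist_eq_norm])
    rw [this, mul_zero]
  rw [e, ← integral_const_mul]
  have hc : Continuous fun z => mker s (z - x) := (mk_cont hs).comp (by fun_prop)
  have hi : Integrable (fun z => u z * mker s (z - x)) := by
    have := ibmul (c := fun z => mker s (z - x)) (C := 24 / s ^ 2) hc.aestronglyMeasurable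
      (Eventually.of_forall fun z => by
        rw [abs_of_nonneg (mk_nonneg _ _)]; exact mk_le hs _) hu
    refine this.congr ?_
    filter_upwards with z; ring
  apply int_mono_ae hi.integrableOn (icm _ hu.integrableOn)
  filter_upwards [ae_restrict_of_ae h0] with z hz
  have := mk_le hs (z - x)
  nlinarith

namespace Crit

variable {δ α : ℝ} {Ω : Set P} {w wx wy p px py : P → ℝ}

theorem one_memLp (h : Crit δ α Ω w wx wy p px py) :
    MemLp (Ω.indicator fun _ : P => (1 : ℝ)) 2 volume :=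
  memLp_indicator_const 2 h.isOpen.measurableSet 1 (Or.inr h.finite)

theorem w_sub (h : Crit δ α Ω w wx wy p px py) : SubC 1 w wx wy := by
  refine h.tor.mem.subC h.isOpen h.tor.nonneg h.one_memLp ?_ zero_le_one ?_ h.tor.eq'
  · filter_upwards with z
    exact indicator_nonneg (fun _ _ => zero_le_one) z
  · filter_upwards with z
    by_cases hz : z ∈ Ω <;> simp [hz]

theorem w_weight (h : Crit δ α Ω w wx wy p px py) (x : P) :
    (∫ z, wt x z ^ 2 * w z ^ 2 ≤ 2 * Zc) ∧ (∫ z, wt x z ^ 2 * (wx z ^ 2 + wy z ^ 2) ≤ 5 * Zc) := by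
  have hb0 : ∀ z, |wt x z| ≤ 1 := fun z => by rw [abs_of_pos (wt_pos x z)]; exact wt_le x z
  obtain ⟨m, e⟩ := h.tor.mem.weighted h.isOpen h.tor.eq' (wt_contDiff x) hb0
    (fun z => (wt_dd_le x z).1) (fun z => (wt_dd_le x z).2)
  obtain ⟨i1, i2, i3, l1, l2⟩ := sq_le_of_wt h.tor.mem x
  have hp := h.poinc _ _ _ m
  have ep : ∫ z, (wt x z * w z) ^ 2 = ∫ z, wt x z ^ 2 * w z ^ 2 := by
    congr 1; ext z; ring
  rw [ep, e] at hp
  obtain ⟨iz, ez⟩ := wt_int x
  have hf : (∫ z, (Ω.indicator (fun _ => (1 : ℝ)) z) * (wt x z ^ 2 * w z))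
      ≤ (1 / 4) * (∫ z, wt x z ^ 2 * w z ^ 2) + 1 * ∫ z, wt x z ^ 2 := by
    rw [← int_cadd _ _ i1 iz]
    apply int_mono_ae _ (iadd (icm _ i1) (icm _ iz))
    · filter_upwards [h.tor.nonneg] with z hz
      have h1 : Ω.indicator (fun _ => (1 : ℝ)) z ≤ 1 := by
        by_cases hz : z ∈ Ω <;> simp [hz]
      have h3 : 0 ≤ wt x z ^ 2 * w z := by positivity
      have h4 := mul_le_mul_of_nonneg_right h1 h3
      have h5 : wt x z ^ 2 * w z ≤ 1 / 4 * (wt x z ^ 2 * w z ^ 2) + 1 * wt x z ^ 2 := by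
        nlinarith [mul_nonneg (sq_nonneg (wt x z)) (sq_nonneg (w z / 2 - 1))]
      linarith
    · apply integrable_mul2 h.one_memLp
      have := mbmul (c := fun z => wt x z ^ 2) (C := 1) ((wt_contDiff x).continuous.pow 2).aestronglyMeasurable
        (Eventually.of_forall fun z => by
          rw [abs_of_nonneg (sq_nonneg _)]; exact pow_le_one₀ (wt_pos x z).le (wt_le x z))
        h.tor.mem.mu
      exact this
  rw [ez] at hf
  have hZ : (∫ z, wt 0 z ^ 2) = Zc := rfl
  rw [hZ] at hf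
  rw [e] at l2
  constructor <;> linarith

theorem p_weight (h : Crit δ α Ω w wx wy p px py) (x : P) :
    (∫ z, wt x z ^ 2 * p z ^ 2 ≤ 2 * Zc) ∧ (∫ z, wt x z ^ 2 * (px z ^ 2 + py z ^ 2) ≤ 6 * Zc) := by
  have hb0 : ∀ z, |wt x z| ≤ 1 := fun z => by rw [abs_of_pos (wt_pos x z)]; exact wt_le x z
  obtain ⟨m, e⟩ := h.eig.mem.weighted h.isOpen h.eig.eq' (wt_contDiff x) hb0
    (fun z => (wt_dd_le x z).1) (fun z => (wt_dd_le x z).2)
  obtain ⟨i1, i2, i3, l1, l2⟩ := sq_le_of_wt h.eig.mem x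
  obtain ⟨j1, j2, j3, k1, k2⟩ := sq_le_of_wt h.tor.mem x
  have hw := (h.w_weight x).1
  have hpw : ∫ z, wt x z ^ 2 * p z ^ 2 ≤ ∫ z, wt x z ^ 2 * w z ^ 2 := by
    apply int_mono_ae i1 j1
    filter_upwards [h.le, h.eig.nonneg] with z h1 h2
    apply mul_le_mul_of_nonneg_left _ (sq_nonneg _)
    exact pow_le_pow_left₀ h2 h1 2
  have e2 : ∫ z, p z * (wt x z ^ 2 * p z) = ∫ z, wt x z ^ 2 * p z ^ 2 := by
    congr 1; ext z; ring
  rw [e, e2] at l2
  have hZ := Zc_nonneg
  constructor <;> linarith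

theorem local_energy (h : Crit δ α Ω w wx wy p px py) (x : P) :
    ∫ z in Metric.closedBall x 6, (w z ^ 2 + (wx z ^ 2 + wy z ^ 2) + p z ^ 2 + (px z ^ 2 + py z ^ 2)) ≤ C1 := by
  obtain ⟨a1, a2⟩ := h.w_weight x
  obtain ⟨b1, b2⟩ := h.p_weight x
  obtain ⟨i1, i2, -, -, -⟩ := sq_le_of_wt h.tor.mem x
  obtain ⟨j1, j2, -, -, -⟩ := sq_le_of_wt h.eig.mem x
  have g1 := iadd (iadd (iadd h.tor.mem.mu.integrable_sq h.tor.mem.int_en)
    h.eig.mem.mu.integrable_sq) h.eig.mem.int_en
  have g2 : Integrable (fun z => wt x z ^ 2 *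
      (w z ^ 2 + (wx z ^ 2 + wy z ^ 2) + p z ^ 2 + (px z ^ 2 + py z ^ 2))) := by
    refine (iadd (iadd (iadd i1 i2) j1) j2).congr ?_
    filter_upwards with z; ring
  have e : ∫ z, wt x z ^ 2 * (w z ^ 2 + (wx z ^ 2 + wy z ^ 2) + p z ^ 2 + (px z ^ 2 + py z ^ 2))
      = (∫ z, wt x z ^ 2 * w z ^ 2) + (∫ z, wt x z ^ 2 * (wx z ^ 2 + wy z ^ 2))
        + (∫ z, wt x z ^ 2 * p z ^ 2) + ∫ z, wt x z ^ 2 * (px z ^ 2 + py z ^ 2) := by
    rw [← int_add i1 i2, ← int_add (iadd i1 i2) j1, ← int_add (iadd (iadd i1 i2) j1) j2]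
    congr 1; ext z; ring
  refine (setInt_le_wt g1 (fun z => by positivity) x g2).trans ?_
  rw [e]
  unfold C1
  linarith

theorem local_w (h : Crit δ α Ω w wx wy p px py) (x : P) {r : ℝ} (hr : r ≤ 6) :
    ∫ z in Metric.closedBall x r, w z ^ 2 ≤ C1 := by
  refine le_trans ?_ (h.local_energy x)
  have g1 := iadd (iadd (iadd h.tor.mem.mu.integrable_sq h.tor.mem.int_en)
    h.eig.mem.mu.integrable_sq) h.eig.mem.int_en
  calc ∫ z in Metric.closedBall x r, w z ^ 2
      ≤ ∫ z in Metric.closedBall x 6, w z ^ 2 :=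
        setIntegral_mono_set h.tor.mem.mu.integrable_sq.integrableOn
          (Eventually.of_forall fun z => sq_nonneg _)
          (Metric.closedBall_subset_closedBall hr).eventuallyLE
    _ ≤ _ := by
        apply int_mono h.tor.mem.mu.integrable_sq.integrableOn g1.integrableOn
        intro z
        nlinarith [sq_nonneg (wx z), sq_nonneg (wy z), sq_nonneg (p z), sq_nonneg (px z),
          sq_nonneg (py z)]

theorem local_p (h : Crit δ α Ω w wx wy p px py) (x : P) {r : ℝ} (hr : r ≤ 6) :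
    ∫ z in Metric.closedBall x r, (px z ^ 2 + py z ^ 2) ≤ C1 := by
  refine le_trans ?_ (h.local_energy x)
  have g1 := iadd (iadd (iadd h.tor.mem.mu.integrable_sq h.tor.mem.int_en)
    h.eig.mem.mu.integrable_sq) h.eig.mem.int_en
  calc ∫ z in Metric.closedBall x r, (px z ^ 2 + py z ^ 2)
      ≤ ∫ z in Metric.closedBall x 6, (px z ^ 2 + py z ^ 2) :=
        setIntegral_mono_set h.eig.mem.int_en.integrableOn
          (Eventually.of_forall fun z => by positivity)
          (Metric.closedBall_subset_closedBall hr).eventuallyLE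
    _ ≤ _ := by
        apply int_mono h.eig.mem.int_en.integrableOn g1.integrableOn
        intro z
        nlinarith [sq_nonneg (wx z), sq_nonneg (wy z), sq_nonneg (p z), sq_nonneg (w z)]

theorem w_int (h : Crit δ α Ω w wx wy p px py) : Integrable w :=
  (h.tor.mem.integrable_all h.isOpen h.finite).1

theorem p_int (h : Crit δ α Ω w wx wy p px py) : Integrable p :=
  (h.eig.mem.integrable_all h.isOpen h.finite).1

theorem w_le (h : Crit δ α Ω w wx wy p px py) : ∀ᵐ z, w z ≤ C0 := by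
  filter_upwards [h.w_sub.le_dy] with x hx
  refine (hx 0).trans ?_
  unfold dy C0
  have h1 := av_le_int (s := 1) one_pos h.w_int h.tor.nonneg x
  have h2 : ∫ z in Metric.closedBall x 1, w z ≤ (1 / 2) * (4 + C1) := by
    have h3 := h.local_w x (r := 1) (by norm_num)
    have h4 : ∫ z in Metric.closedBall x 1, w z
        ≤ ∫ z in Metric.closedBall x 1, ((1 / 2) * (1 : ℝ) + (1 / 2) * w z ^ 2) := by
      apply int_mono h.w_int.integrableOn
        (iadd (icm _ (integrableOn_const (vol_ball_ne x 1))) (icm _ h.tor.mem.mu.integrable_sq.integrableOn))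
      intro z
      nlinarith [sq_nonneg (w z - 1)]
    rw [int_cadd _ _ (integrableOn_const (vol_ball_ne x 1)) h.tor.mem.mu.integrable_sq.integrableOn,
      setIntegral_const, smul_eq_mul] at h4
    unfold Measure.real at h4
    rw [vol_ball x zero_le_one] at h4
    linarith
  have hm := mu0_pos
  simp only [pow_zero, one_pow, div_one, mul_one] at h1 ⊢
  have h5 : (av 1 w x + 11) / mu0 ≤ (24 * (4 + C1) + 11) / mu0 := by
    apply div_le_div_of_nonneg_right _ hm.le
    have := C1_pos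
    linarith
  linarith

theorem p_le (h : Crit δ α Ω w wx wy p px py) : ∀ᵐ z, p z ≤ C0 := by
  filter_upwards [h.w_le, h.le] with z h1 h2 using h2.trans h1

theorem p_sub (h : Crit δ α Ω w wx wy p px py) : SubC C0 p px py :=
  h.eig.mem.subC h.isOpen h.eig.nonneg h.eig.mem.mu h.eig.nonneg
    (by have := C0_pos; linarith) h.p_le h.eig.eq'

/-! ### deficits -/

theorem w_energy (h : Crit δ α Ω w wx wy p px py) : ∫ z, (wx z ^ 2 + wy z ^ 2) = ∫ z, w z := by
  rw [← h.tor.eq _ _ _ h.tor.mem]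
  congr 1; ext z; ring

theorem w_sq (h : Crit δ α Ω w wx wy p px py) : ∫ z, w z ^ 2 ≤ ∫ z, w z := by
  rw [← h.w_energy]
  exact h.poinc _ _ _ h.tor.mem

theorem off (h : Crit δ α Ω w wx wy p px py) : ∀ᵐ z, z ∉ Ω → w z = 0 ∧ p z = 0 := by
  filter_upwards [h.tor.mem.zero_off, h.eig.mem.zero_off] with z h1 h2 hz
  exact ⟨(h1 hz).1, (h2 hz).1⟩

theorem volpos (h : Crit δ α Ω w wx wy p px py) : 0 < vol Ω := vol_pos h.isOpen h.ne h.finite

theorem int_one (h : Crit δ α Ω w wx wy p px py) :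
    ∫ z, (Ω.indicator (fun _ => (1 : ℝ)) z) = vol Ω := by
  rw [integral_indicator h.isOpen.measurableSet, setIntegral_const, smul_eq_mul, mul_one]
  rfl

theorem one_int (h : Crit δ α Ω w wx wy p px py) :
    Integrable (fun z => Ω.indicator (fun _ => (1 : ℝ)) z) := by
  have : IntegrableOn (fun _ : P => (1 : ℝ)) Ω := integrableOn_const h.finite
  exact (integrable_indicator_iff h.isOpen.measurableSet).2 this

/-- `∫_Ω (1-w)² ≤ V - T` -/
theorem w_deficit (h : Crit δ α Ω w wx wy p px py) :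
    ∫ z, (Ω.indicator (fun _ => (1 : ℝ)) z - w z) ^ 2 ≤ vol Ω - ∫ z, w z := by
  have e : ∫ z, (Ω.indicator (fun _ => (1 : ℝ)) z - w z) ^ 2
      = (∫ z, (Ω.indicator (fun _ => (1 : ℝ)) z)) + ∫ z, ((-2) * w z + 1 * w z ^ 2) := by
    rw [← int_add h.one_int (iadd (icm _ h.w_int) (icm _ h.tor.mem.mu.integrable_sq))]
    apply integral_congr_ae
    filter_upwards [h.off] with z hz
    by_cases hz' : z ∈ Ω
    · simp only [indicator_of_mem hz']; ring
    · simp only [indicator_of_notMem hz', (hz hz').1]; ring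
  rw [e, int_cadd _ _ h.w_int h.tor.mem.mu.integrable_sq, h.int_one]
  have := h.w_sq
  linarith

theorem T_le (h : Crit δ α Ω w wx wy p px py) : ∫ z, w z ≤ vol Ω := by
  have h1 := h.w_deficit
  have h2 : 0 ≤ ∫ z, (Ω.indicator (fun _ => (1 : ℝ)) z - w z) ^ 2 :=
    integral_nonneg fun z => sq_nonneg _
  linarith

theorem p_int_eq (h : Crit δ α Ω w wx wy p px py) : ∫ z, p z = ∫ z, p z * w z := by
  have h1 := h.tor.eq _ _ _ h.eig.mem
  have h2 := h.eig.eq' _ _ _ h.tor.mem
  rw [← h1, ← h2]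
  congr 1; ext z; ring

theorem p_deficit (h : Crit δ α Ω w wx wy p px py) :
    ∫ z, (Ω.indicator (fun _ => (1 : ℝ)) z - p z) ^ 2 ≤ 2 * δ * vol Ω := by
  have e : ∫ z, (Ω.indicator (fun _ => (1 : ℝ)) z - p z) ^ 2
      = (∫ z, (Ω.indicator (fun _ => (1 : ℝ)) z)) + ∫ z, ((-2) * p z + 1 * p z ^ 2) := by
    rw [← int_add h.one_int (iadd (icm _ h.p_int) (icm _ h.eig.mem.mu.integrable_sq))]
    apply integral_congr_ae
    filter_upwards [h.off] with z hz
    by_cases hz' : z ∈ Ω
    · simp only [indicator_of_mem hz']; ring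
    · simp only [indicator_of_notMem hz', (hz hz').2]; ring
  rw [e, int_cadd _ _ h.p_int h.eig.mem.mu.integrable_sq, h.int_one]
  have h1 : ∫ z, p z ^ 2 ≤ ∫ z, p z := by
    rw [h.p_int_eq]
    apply int_mono_ae h.eig.mem.mu.integrable_sq (integrable_mul2 h.eig.mem.mu h.tor.mem.mu)
    filter_upwards [h.le, h.eig.nonneg] with z h1 h2
    nlinarith
  have h2 := h.norm
  have h3 := h.deficit
  have h4 := h.volpos
  have h5 := h.α0
  have h6 := h.α1
  have h7 := h.δ0
  have h8 := h.δ1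
  have h9 : 0 ≤ ∫ z, w z := int_nonneg_ae h.tor.nonneg
  have h10 : (1 - δ) * ((1 - δ) * vol Ω) ≤ α * ∫ z, w z :=
    mul_le_mul h5.le h3 (by nlinarith) (by linarith)
  nlinarith [mul_nonneg h4.le (sq_nonneg δ)]

end Crit

end Pool.Agent.Lib.MP_f46d6a
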