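import Pool.Agent.Lib.MP_f46d6a.Slice
import Pool.Agent.Lib.MP_dac83a.MaxP

/-!
# Averages with the kernel `mker s`
-/

set_option autoImplicit false

open MeasureTheory Set Filter Topology
open scoped ContDiff

namespace Pool.Agent.Lib.MP_f46d6a

open Pool.Agent.Lib.MP_dac83a

theorem bb_contDiff : ContDiff ℝ 1 bb := by
  have e : bb = fun t => 30 * (nn (-t)) ^ (0 + 2) * (nn (-(1 - t))) ^ (0 + 2) := by
    ext t
    simp only [bb, nn, neg_neg, max_comm _ (0 : ℝ)]
  rw [e]
  have h := contDiff_nn_pow 0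
  exact (contDiff_const.mul (h.comp contDiff_neg)).mul (h.comp (contDiff_const.sub contDiff_id).neg)

theorem mker_contDiff {s : ℝ} (hs : 0 < s) : ContDiff ℝ 1 (mker s) := by
  rw [contDiff_iff_contDiffAt]
  intro z
  by_cases hz : z = 0
  · subst hz
    have : mker s =ᶠ[𝓝 0] fun _ => 0 := by
      filter_upwards [inner_nhds hs] with w hw using mk_zero_in hs (le_of_lt hw)
    exact contDiffAt_const.congr_of_eventuallyEq this
  · have hp := r2_pos hz
    unfold mker
    apply ContDiffAt.div _ r2_contDiff.contDiffAt hp.ne'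
    apply ContDiffAt.mul contDiffAt_const
    apply bb_contDiff.contDiffAt.comp
    apply ContDiffAt.sub contDiffAt_const
    exact (r2_contDiff.contDiffAt).log hp.ne'

theorem mker_test {s : ℝ} (hs : 0 < s) : IsTest1 univ (mker s) :=
  ⟨mker_contDiff hs, mk_cpt hs, subset_univ _⟩

/-- average at scale `s` -/
noncomputable def av (s : ℝ) (u : P → ℝ) (x : P) : ℝ := ∫ z, u z * mker s (z - x)

theorem mker_symm (s : ℝ) (x z : P) : mker s (z - x) = mker s (x - z) := by
  rw [← mk_neg, neg_sub]

theorem av_eq (s : ℝ) (u : P → ℝ) :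
    av s u = convolution u (mker s) (ContinuousLinearMap.mul ℝ ℝ) volume := by
  ext x
  rw [convolution_def]
  simp only [av, mker_symm s x]
  rfl

theorem mkert_test {s : ℝ} (hs : 0 < s) (x : P) : IsTest1 univ (fun z => mker s (z - x)) :=
  ⟨(mker_contDiff hs).comp (contDiff_id.sub contDiff_const), cpt_trans (mk_cpt hs) x, subset_univ _⟩

theorem mkert_memLp {s : ℝ} (hs : 0 < s) (x : P) : MemLp (fun z => mker s (z - x)) 2 volume :=
  IsTest1.memLp (mkert_test hs x)

theorem mkert_int {s : ℝ} (hs : 0 < s) (x : P) : Integrable (fun z => mker s (z - x)) :=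
  (mkert_test hs x).smooth.continuous.integrable_of_hasCompactSupport (mkert_test hs x).cpt

theorem mkert_mass {s : ℝ} (hs : 0 < s) (x : P) : ∫ z, mker s (z - x) = mu0 := by
  rw [integral_sub_right_eq_self (fun z => mker s z) x, mk_mass hs]

theorem av_int {s : ℝ} (hs : 0 < s) {u : P → ℝ} (hu : MemLp u 2 volume) (x : P) :
    Integrable (fun z => u z * mker s (z - x)) := integrable_mul2 hu (mkert_memLp hs x)

theorem av_contDiff {s : ℝ} (hs : 0 < s) {u : P → ℝ} (hu : LocallyIntegrable u volume) :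
    ContDiff ℝ 1 (av s u) := by
  rw [av_eq]
  exact (mk_cpt hs).contDiff_convolution_right _ hu (mker_contDiff hs)

theorem dd_av {s : ℝ} (hs : 0 < s) {u : P → ℝ} (hu : LocallyIntegrable u volume) (v x : P) :
    dd v (av s u) x = ∫ t, u t * dd v (mker s) (x - t) := by
  have h := (mk_cpt hs).hasFDerivAt_convolution_right (μ := volume) (ContinuousLinearMap.mul ℝ ℝ)
    hu (mker_contDiff hs) x
  simp only [dd]
  rw [av_eq, h.fderiv]
  have hc' : HasCompactSupport (fderiv ℝ (mker s)) := (mk_cpt hs).fderiv (𝕜 := ℝ)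
  have hex := (hc'.convolutionExists_right
    (ContinuousLinearMap.precompR P (ContinuousLinearMap.mul ℝ ℝ)) (μ := volume)
    hu ((mker_contDiff hs).continuous_fderiv (by norm_num))) x
  have e : (convolution u (fderiv ℝ (mker s))
      (ContinuousLinearMap.precompR P (ContinuousLinearMap.mul ℝ ℝ)) volume x) v
      = ∫ t, ((ContinuousLinearMap.precompR P (ContinuousLinearMap.mul ℝ ℝ))
        (u t) (fderiv ℝ (mker s) (x - t))) v := by
    rw [convolution_def]
    exact ContinuousLinearMap.integral_apply hex v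
  rw [e]
  rfl

theorem H0.dd_av_x {U : Set P} {u a b : P → ℝ} (h : H0 U u a b) {s : ℝ} (hs : 0 < s) (x : P) :
    dd ex (av s u) x = av s a x := by
  rw [dd_av hs (h.mu.locallyIntegrable (by norm_num))]
  have e := h.ibp_x (mkert_test hs x)
  have e1 : ∀ z, dd ex (fun z => mker s (z - x)) z = - dd ex (mker s) (x - z) := by
    intro z
    have : (fun z => mker s (z - x)) = fun z => mker s (x - z) := by ext w; exact mker_symm s x w
    rw [this, dd_reflect ((mker_contDiff hs).differentiable (by norm_num))]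
  simp only [e1, mul_neg, integral_neg, neg_inj] at e
  exact e

theorem H0.dd_av_y {U : Set P} {u a b : P → ℝ} (h : H0 U u a b) {s : ℝ} (hs : 0 < s) (x : P) :
    dd ey (av s u) x = av s b x := by
  rw [dd_av hs (h.mu.locallyIntegrable (by norm_num))]
  have e := h.ibp_y (mkert_test hs x)
  have e1 : ∀ z, dd ey (fun z => mker s (z - x)) z = - dd ey (mker s) (x - z) := by
    intro z
    have : (fun z => mker s (z - x)) = fun z => mker s (x - z) := by ext w; exact mker_symm s x w
    rw [this, dd_reflect ((mker_contDiff hs).differentiable (by norm_num))]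
  simp only [e1, mul_neg, integral_neg, neg_inj] at e
  exact e

theorem av_integrable {s : ℝ} (hs : 0 < s) {k : P → ℝ} (hk : Integrable k) :
    Integrable (av s k) ∧ ∫ x, av s k x = mu0 * ∫ z, k z := by
  rw [av_eq]
  refine ⟨hk.integrable_convolution _ (mk_int hs), ?_⟩
  rw [integral_convolution _ hk (mk_int hs), mk_mass hs]
  simp [mul_comm]

/-- Jensen -/
theorem av_sq_le {s : ℝ} (hs : 0 < s) {u : P → ℝ} (hu : MemLp u 2 volume) (x : P) :
    (av s u x) ^ 2 ≤ mu0 * av s (fun z => u z ^ 2) x := by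
  set w : P → ℝ := fun z => √(mker s (z - x)) with hw
  have hwc : Continuous w := by
    exact ((mk_cont hs).comp (by fun_prop : Continuous fun z : P => z - x)).sqrt
  have hwb : ∀ z, |w z| ≤ √(24 / s ^ 2) := by
    intro z
    rw [abs_of_nonneg (Real.sqrt_nonneg _)]
    exact Real.sqrt_le_sqrt (mk_le hs _)
  have hw2 : ∀ z, w z * w z = mker s (z - x) := fun z => Real.mul_self_sqrt (mk_nonneg _ _)
  have m1 : MemLp w 2 volume := by
    rw [memLp_two_iff_integrable_sq hwc.aestronglyMeasurable]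
    refine (mkert_int hs x).congr ?_
    filter_upwards with z
    rw [sq, hw2]
  have m2 : MemLp (fun z => u z * w z) 2 volume := by
    refine (hu.const_mul (√(24 / s ^ 2))).of_le
      (hu.aestronglyMeasurable.mul hwc.aestronglyMeasurable) ?_
    filter_upwards with z
    rw [norm_mul, norm_mul, mul_comm]
    gcongr
    rw [Real.norm_eq_abs, Real.norm_eq_abs]
    exact (hwb z).trans (le_abs_self _)
  have cs := cauchy_schwarz m2 m1
  have e1 : |av s u x| ≤ ∫ z, |u z * w z| * |w z| := by
    unfold av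
    refine (abs_integral_le_integral_abs).trans ?_
    apply le_of_eq
    congr 1
    ext z
    rw [← hw2 z, ← abs_mul]
    ring_nf
  have e2 : ∫ z, (u z * w z) ^ 2 = av s (fun z => u z ^ 2) x := by
    unfold av
    congr 1
    ext z
    rw [← hw2 z]; ring
  have e3 : ∫ z, w z ^ 2 = mu0 := by
    rw [← mkert_mass hs x]
    congr 1
    ext z
    rw [← hw2 z]; ring
  rw [e2, e3] at cs
  have h0 : 0 ≤ av s (fun z => u z ^ 2) x :=
    integral_nonneg fun z => mul_nonneg (sq_nonneg _) (mk_nonneg _ _)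
  calc (av s u x) ^ 2 = |av s u x| ^ 2 := (sq_abs _).symm
    _ ≤ (√(av s (fun z => u z ^ 2) x) * √mu0) ^ 2 := by
        gcongr
        exact e1.trans cs
    _ = mu0 * av s (fun z => u z ^ 2) x := by
        rw [mul_pow, Real.sq_sqrt h0, Real.sq_sqrt mu0_pos.le]; ring

theorem av_memLp {s : ℝ} (hs : 0 < s) {u : P → ℝ} (hu : MemLp u 2 volume) :
    MemLp (av s u) 2 volume ∧ ∫ x, (av s u x) ^ 2 ≤ mu0 ^ 2 * ∫ z, u z ^ 2 := by
  have hc : Continuous (av s u) := (av_contDiff hs (hu.locallyIntegrable (by norm_num))).continuous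
  obtain ⟨i1, i2⟩ := av_integrable hs hu.integrable_sq
  have hi : Integrable (fun x => (av s u x) ^ 2) := by
    refine (i1.const_mul mu0).mono (hc.pow 2).aestronglyMeasurable ?_
    filter_upwards with x
    rw [Real.norm_eq_abs, Real.norm_eq_abs, abs_of_nonneg (sq_nonneg _)]
    exact (av_sq_le hs hu x).trans (le_abs_self _)
  refine ⟨(memLp_two_iff_integrable_sq hc.aestronglyMeasurable).2 hi, ?_⟩
  calc ∫ x, (av s u x) ^ 2 ≤ ∫ x, mu0 * av s (fun z => u z ^ 2) x :=
        integral_mono hi (i1.const_mul _) (fun x => av_sq_le hs hu x)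
    _ = mu0 ^ 2 * ∫ z, u z ^ 2 := by
        rw [integral_const_mul, i2]; ring

theorem av_comb {s : ℝ} (hs : 0 < s) {u v : P → ℝ} (hu : MemLp u 2 volume) (hv : MemLp v 2 volume)
    (α β : ℝ) (x : P) : av s (fun z => α * u z + β * v z) x = α * av s u x + β * av s v x := by
  unfold av
  rw [← integral_const_mul, ← integral_const_mul,
    ← integral_add ((av_int hs hu x).const_mul _) ((av_int hs hv x).const_mul _)]
  congr 1; ext z; ring

/-- approximation of the identity on continuous functions of compact support -/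
theorem av_cont_lim {φ : P → ℝ} (hφ : Continuous φ) (hc : HasCompactSupport φ) :
    Tendsto (fun n : ℕ => ∫ x, (av ((1 / 2 : ℝ) ^ n) φ x - mu0 * φ x) ^ 2) atTop (𝓝 0) := by
  have huc : UniformContinuous φ := hc.uniformContinuous_of_continuous hφ
  have hspos : ∀ n : ℕ, (0 : ℝ) < (1 / 2 : ℝ) ^ n := fun n => by positivity
  have hs1 : ∀ n : ℕ, (1 / 2 : ℝ) ^ n ≤ 1 := fun n => pow_le_one₀ (by norm_num) (by norm_num)
  have hmem : MemLp φ 2 volume := hφ.memLp_of_hasCompactSupport hc
  -- pointwise estimate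
  have pt : ∀ (s : ℝ), 0 < s → ∀ ε > 0, (∀ x y : P, dist x y ≤ s → |φ x - φ y| ≤ ε) → ∀ x,
      |av s φ x - mu0 * φ x| ≤ ε * mu0 := by
    intro s hs ε hε h x
    have e : av s φ x - mu0 * φ x = ∫ z, (φ z - φ x) * mker s (z - x) := by
      simp only [sub_mul]
      rw [integral_sub (av_int hs hmem x) ((mkert_int hs x).const_mul _), integral_const_mul,
        mkert_mass hs x]
      simp only [av]; ring
    rw [e]
    calc |∫ z, (φ z - φ x) * mker s (z - x)| ≤ ∫ z, |(φ z - φ x) * mker s (z - x)| :=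
          abs_integral_le_integral_abs
      _ ≤ ∫ z, ε * mker s (z - x) := by
          apply integral_mono_of_nonneg (Eventually.of_forall fun z => abs_nonneg _)
            ((mkert_int hs x).const_mul _)
          filter_upwards with z
          rw [abs_mul, abs_of_nonneg (mk_nonneg _ _)]
          by_cases hz : mker s (z - x) = 0
          · simp [hz]
          · have : z - x ∈ Metric.closedBall (0 : P) s := mk_support hs hz
            rw [Metric.mem_closedBall, dist_zero_right] at this
            apply mul_le_mul_of_nonneg_right _ (mk_nonneg _ _)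
            exact h z x (by rwa [dist_eq_norm])
      _ = ε * mu0 := by rw [integral_const_mul, mkert_mass hs x]
  set K : Set P := Metric.cthickening 1 (tsupport φ) with hK
  have hKc : IsCompact K := hc.isCompact.cthickening
  have hoff : ∀ n : ℕ, ∀ x, x ∉ K → av ((1 / 2 : ℝ) ^ n) φ x - mu0 * φ x = 0 := by
    intro n x hx
    have h1 : φ x = 0 := by
      by_contra h
      exact hx (Metric.self_subset_cthickening _ (subset_tsupport φ h))
    have h2 : av ((1 / 2 : ℝ) ^ n) φ x = 0 := by
      unfold av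
      have : (fun z => φ z * mker ((1 / 2 : ℝ) ^ n) (z - x)) = fun _ => 0 := by
        ext z
        by_contra h
        have hz1 : φ z ≠ 0 := fun h' => h (by rw [h', zero_mul])
        have hz2 : mker ((1 / 2 : ℝ) ^ n) (z - x) ≠ 0 := fun h' => h (by rw [h', mul_zero])
        have hz3 : z - x ∈ Metric.closedBall (0 : P) ((1 / 2 : ℝ) ^ n) := mk_support (hspos n) hz2
        rw [Metric.mem_closedBall, dist_zero_right] at hz3
        apply hx
        refine Metric.mem_cthickening_of_dist_le x z _ _ (subset_tsupport φ hz1) ?_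
        rw [dist_comm, dist_eq_norm]
        exact hz3.trans (hs1 n)
      rw [this]; simp
    rw [h1, h2]; ring
  rw [Metric.tendsto_atTop]
  intro ε hε
  set V := (volume K).toReal with hV
  have hV0 : 0 ≤ V := ENNReal.toReal_nonneg
  set δ := √(ε / 2 / (V + 1)) / mu0 with hδ
  have hmu := mu0_pos
  have hδp : 0 < δ := by positivity
  obtain ⟨r, hr, hu⟩ := Metric.uniformContinuous_iff.1 huc δ hδp
  obtain ⟨N, hN⟩ := exists_pow_lt_of_lt_one hr (show (1 / 2 : ℝ) < 1 by norm_num)
  refine ⟨N, fun n hn => ?_⟩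
  have hsn : (1 / 2 : ℝ) ^ n < r := lt_of_le_of_lt
    (pow_le_pow_of_le_one (by norm_num) (by norm_num) hn) hN
  have hb := pt _ (hspos n) δ hδp (fun x y hxy => by
    have := hu (lt_of_le_of_lt hxy hsn)
    rw [Real.dist_eq] at this
    exact this.le)
  rw [Real.dist_eq, sub_zero, abs_of_nonneg (integral_nonneg fun x => sq_nonneg _)]
  have e : ∫ x, (av ((1 / 2 : ℝ) ^ n) φ x - mu0 * φ x) ^ 2
      = ∫ x in K, (av ((1 / 2 : ℝ) ^ n) φ x - mu0 * φ x) ^ 2 := by
    rw [setIntegral_eq_integral_of_forall_compl_eq_zero]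
    intro x hx
    rw [hoff n x hx]; ring
  rw [e]
  have hcont : Continuous fun x => (av ((1 / 2 : ℝ) ^ n) φ x - mu0 * φ x) ^ 2 :=
    (((av_contDiff (hspos n) hφ.locallyIntegrable).continuous).sub
      (continuous_const.mul hφ)).pow 2
  calc ∫ x in K, (av ((1 / 2 : ℝ) ^ n) φ x - mu0 * φ x) ^ 2 ≤ ∫ x in K, (δ * mu0) ^ 2 := by
        apply setIntegral_mono_on (hcont.continuousOn.integrableOn_compact hKc)
          (integrableOn_const hKc.measure_ne_top) hKc.measurableSet
        intro x _
        rw [← sq_abs]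
        exact pow_le_pow_left₀ (abs_nonneg _) (hb x) 2
    _ = V * (ε / 2 / (V + 1)) := by
        rw [setIntegral_const, smul_eq_mul]
        simp only [hδ]
        rw [div_mul_cancel₀ _ hmu.ne', Real.sq_sqrt (by positivity)]
        rfl
    _ < ε := by
        rw [mul_div_assoc', div_lt_iff₀ (by positivity)]
        nlinarith

theorem sq3 (a b c : ℝ) : (-a + b + c) ^ 2 ≤ (3 * a ^ 2 + 3 * b ^ 2) + 3 * c ^ 2 := by
  nlinarith [sq_nonneg (a + b), sq_nonneg (a + c), sq_nonneg (b - c)]

theorem int3' {f g h : P → ℝ} (hf : Integrable f) (hg : Integrable g) (hh : Integrable h) :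
    ∫ x, ((3 * f x + 3 * g x) + 3 * h x) = 3 * (∫ x, f x) + 3 * (∫ x, g x) + 3 * ∫ x, h x := by
  rw [integral_add (f := fun x => 3 * f x + 3 * g x) (g := fun x => 3 * h x)
      ((hf.const_mul 3).add (hg.const_mul 3)) (hh.const_mul 3),
    integral_add (f := fun x => 3 * f x) (g := fun x => 3 * g x) (hf.const_mul 3) (hg.const_mul 3),
    integral_const_mul, integral_const_mul, integral_const_mul]

/-- approximation of the identity in `L²` for limits of continuous compactly supported functions -/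
theorem av_lim {u : P → ℝ} {φ : ℕ → P → ℝ} (h : Conv2 volume φ u) (hφ : ∀ n, Continuous (φ n))
    (hc : ∀ n, HasCompactSupport (φ n)) :
    Conv2 volume (fun n => av ((1 / 2 : ℝ) ^ n) u) (fun x => mu0 * u x) := by
  have hspos : ∀ n : ℕ, (0 : ℝ) < (1 / 2 : ℝ) ^ n := fun n => by positivity
  have hmu := mu0_pos
  refine ⟨fun n => (av_memLp (hspos n) h.mem).1, h.mem.const_mul _, ?_⟩
  rw [Metric.tendsto_atTop]
  intro ε hε
  -- choose an approximation
  have hlim := h.lim
  rw [Metric.tendsto_atTop] at hlim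
  obtain ⟨m, hm⟩ := hlim (ε / (12 * mu0 ^ 2)) (by positivity)
  have hm := hm m le_rfl
  rw [Real.dist_eq, sub_zero, abs_of_nonneg (integral_nonneg fun x => sq_nonneg _)] at hm
  obtain ⟨N, hN⟩ := Metric.tendsto_atTop.1 (av_cont_lim (hφ m) (hc m)) (ε / 6) (by positivity)
  refine ⟨N, fun n hn => ?_⟩
  have hN := hN n hn
  rw [Real.dist_eq, sub_zero, abs_of_nonneg (integral_nonneg fun x => sq_nonneg _)] at hN ⊢
  set s : ℝ := (1 / 2 : ℝ) ^ n with hs
  have hsp : 0 < s := hspos n
  have md : MemLp (fun z => φ m z - u z) 2 volume := h.sub_mem m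
  have hav := av_memLp hsp md
  have eav : ∀ x, av s (fun z => φ m z - u z) x = av s (φ m) x - av s u x := by
    intro x
    have := av_comb hsp (h.memn m) h.mem 1 (-1) x
    simp only [one_mul, neg_one_mul] at this
    simpa [sub_eq_add_neg] using this
  have i1 : Integrable fun x => (av s (fun z => φ m z - u z) x) ^ 2 := hav.1.integrable_sq
  have m2 : MemLp (fun x => av s (φ m) x - mu0 * φ m x) 2 volume :=
    (av_memLp hsp (h.memn m)).1.sub ((h.memn m).const_mul _)
  have i2 := m2.integrable_sq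
  have i3 : Integrable fun x => (mu0 * (φ m x - u x)) ^ 2 := (md.const_mul mu0).integrable_sq
  calc ∫ x, (av s u x - mu0 * u x) ^ 2
      ≤ ∫ x, ((3 * (av s (fun z => φ m z - u z) x) ^ 2 + 3 * (av s (φ m) x - mu0 * φ m x) ^ 2)
        + 3 * (mu0 * (φ m x - u x)) ^ 2) := by
        refine integral_mono
          (((av_memLp hsp h.mem).1.sub (h.mem.const_mul mu0)).integrable_sq)
          (((i1.const_mul 3).add (i2.const_mul 3)).add (i3.const_mul 3)) ?_
        intro x
        show (av s u x - mu0 * u x) ^ 2 ≤ (3 * (av s (fun z => φ m z - u z) x) ^ 2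
          + 3 * (av s (φ m) x - mu0 * φ m x) ^ 2) + 3 * (mu0 * (φ m x - u x)) ^ 2
        have e5 : av s u x - mu0 * u x = -(av s (fun z => φ m z - u z) x)
          + (av s (φ m) x - mu0 * φ m x) + mu0 * (φ m x - u x) := by
          rw [eav x]; ring
        rw [e5]
        exact sq3 _ _ _
    _ = 3 * (∫ x, (av s (fun z => φ m z - u z) x) ^ 2) + 3 * (∫ x, (av s (φ m) x - mu0 * φ m x) ^ 2)
        + 3 * ∫ x, (mu0 * (φ m x - u x)) ^ 2 := int3' i1 i2 i3
    _ ≤ 3 * (mu0 ^ 2 * ∫ z, (φ m z - u z) ^ 2) + 3 * (ε / 6)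
        + 3 * (mu0 ^ 2 * ∫ z, (φ m z - u z) ^ 2) := by
        have e3 : ∫ x, (mu0 * (φ m x - u x)) ^ 2 = mu0 ^ 2 * ∫ z, (φ m z - u z) ^ 2 := by
          rw [← integral_const_mul]; congr 1; ext z; ring
        rw [e3]
        have := hav.2
        linarith
    _ < ε := by
        have : mu0 ^ 2 * ∫ z, (φ m z - u z) ^ 2 < mu0 ^ 2 * (ε / (12 * mu0 ^ 2)) := by gcongr
        have e4 : mu0 ^ 2 * (ε / (12 * mu0 ^ 2)) = ε / 12 := by field_simp
        linarith

theorem H0.av_lim {U : Set P} {u a b : P → ℝ} (h : H0 U u a b) :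
    Conv2 volume (fun n => av ((1 / 2 : ℝ) ^ n) u) (fun x => mu0 * u x) ∧
    Conv2 volume (fun n => av ((1 / 2 : ℝ) ^ n) a) (fun x => mu0 * a x) ∧
    Conv2 volume (fun n => av ((1 / 2 : ℝ) ^ n) b) (fun x => mu0 * b x) := by
  obtain ⟨φ, ht, c1, c2, c3⟩ := h.app
  exact ⟨Pool.Agent.Lib.MP_f46d6a.av_lim c1 (fun n => (ht n).smooth.continuous) (fun n => (ht n).cpt),
    Pool.Agent.Lib.MP_f46d6a.av_lim c2 (fun n => ((ht n).dd ex).smooth.continuous)
      (fun n => ((ht n).dd ex).cpt),
    Pool.Agent.Lib.MP_f46d6a.av_lim c3 (fun n => ((ht n).dd ey).smooth.continuous)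
      (fun n => ((ht n).dd ey).cpt)⟩

end Pool.Agent.Lib.MP_f46d6a
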