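import Pool.Agent.Lib.MP_f46d6a.Kernel2

/-!
# Gagliardo's inequality
-/

set_option autoImplicit false

open MeasureTheory Set Filter Topology
open scoped ContDiff

namespace Pool.Agent.Lib.MP_f46d6a

open Pool.Agent.Lib.MP_dac83a

theorem abs_le_integral_deriv {h : ℝ → ℝ} (hs : ContDiff ℝ 1 h) (hc : HasCompactSupport h) (x : ℝ) :
    |h x| ≤ ∫ t, |deriv h t| := by
  have hd : Continuous (deriv h) := hs.continuous_deriv (by norm_num)
  have hi : Integrable (deriv h) := hd.integrable_of_hasCompactSupport hc.deriv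
  rw [← hc.integral_Iic_deriv_eq hs x]
  calc |∫ t in Iic x, deriv h t| ≤ ∫ t in Iic x, |deriv h t| := by
        simpa [Real.norm_eq_abs] using norm_integral_le_integral_norm (μ := volume.restrict (Iic x))
          (deriv h)
    _ ≤ ∫ t, |deriv h t| := setIntegral_le_integral hi.abs (by
        filter_upwards with t using abs_nonneg _)

/-- restriction of a `C¹` function to horizontal and vertical lines -/
theorem slice_h {φ : P → ℝ} (h : ContDiff ℝ 1 φ) (y : ℝ) :
    ContDiff ℝ 1 (fun x => φ (x, y)) ∧ ∀ x, deriv (fun x => φ (x, y)) x = dd ex φ (x, y) := by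
  refine ⟨h.comp (by fun_prop), fun x => ?_⟩
  have h1 : HasDerivAt (fun x : ℝ => ((x, y) : P)) (1, 0) x :=
    (hasDerivAt_id x).prodMk (hasDerivAt_const x y)
  have h2 := (h.differentiable (by norm_num) (x, y)).hasFDerivAt.comp_hasDerivAt x h1
  exact h2.deriv

theorem slice_v {φ : P → ℝ} (h : ContDiff ℝ 1 φ) (x : ℝ) :
    ContDiff ℝ 1 (fun y => φ (x, y)) ∧ ∀ y, deriv (fun y => φ (x, y)) y = dd ey φ (x, y) := by
  refine ⟨h.comp (by fun_prop), fun y => ?_⟩
  have h1 : HasDerivAt (fun y : ℝ => ((x, y) : P)) (0, 1) y :=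
    (hasDerivAt_const y x).prodMk (hasDerivAt_id y)
  have h2 := (h.differentiable (by norm_num) (x, y)).hasFDerivAt.comp_hasDerivAt y h1
  exact h2.deriv

theorem slice_h_cpt {φ : P → ℝ} (hc : HasCompactSupport φ) (y : ℝ) :
    HasCompactSupport (fun x => φ (x, y)) := by
  apply HasCompactSupport.intro (hc.isCompact.image continuous_fst)
  intro x hx
  by_contra h
  exact hx ⟨(x, y), subset_tsupport φ h, rfl⟩

theorem slice_v_cpt {φ : P → ℝ} (hc : HasCompactSupport φ) (x : ℝ) :
    HasCompactSupport (fun y => φ (x, y)) := by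
  apply HasCompactSupport.intro (hc.isCompact.image continuous_snd)
  intro y hy
  by_contra h
  exact hy ⟨(x, y), subset_tsupport φ h, rfl⟩

theorem abs_le_line_h {φ : P → ℝ} (h : ContDiff ℝ 1 φ) (hc : HasCompactSupport φ) (x y : ℝ) :
    |φ (x, y)| ≤ ∫ s, |dd ex φ (s, y)| := by
  have h1 := abs_le_integral_deriv (slice_h h y).1 (slice_h_cpt hc y) x
  simpa only [(slice_h h y).2] using h1

theorem abs_le_line_v {φ : P → ℝ} (h : ContDiff ℝ 1 φ) (hc : HasCompactSupport φ) (x y : ℝ) :
    |φ (x, y)| ≤ ∫ t, |dd ey φ (x, t)| := by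
  have h1 := abs_le_integral_deriv (slice_v h x).1 (slice_v_cpt hc x) y
  simpa only [(slice_v h x).2] using h1

/-- Gagliardo's inequality for smooth functions -/
theorem gagliardo_C1 {U : Set P} {φ : P → ℝ} (h : IsTest1 U φ) :
    ∫ z, φ z ^ 2 ≤ (∫ z, |dd ex φ z|) * ∫ z, |dd ey φ z| := by
  have hd : ∀ v, Continuous (dd v φ) := fun v =>
    (dd_contDiff (m := 0) h.smooth (by norm_num) v).continuous
  have hi : ∀ v, Integrable (dd v φ) := fun v =>
    (hd v).integrable_of_hasCompactSupport (dd_hasCompactSupport h.cpt v)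
  have ix : Integrable (fun z : ℝ × ℝ => |dd ex φ z|) (volume.prod volume) := (hi ex).abs
  have iy : Integrable (fun z : ℝ × ℝ => |dd ey φ z|) (volume.prod volume) := (hi ey).abs
  have fx : ∫ z, |dd ex φ z| = ∫ y, ∫ x, |dd ex φ (x, y)| := by
    have := integral_prod_symm (fun z : ℝ × ℝ => |dd ex φ z|) ix
    exact this
  have fy : ∫ z, |dd ey φ z| = ∫ x, ∫ y, |dd ey φ (x, y)| := by
    have := integral_prod (fun z : ℝ × ℝ => |dd ey φ z|) iy
    exact this
  have jx : Integrable (fun y : ℝ => ∫ x, |dd ex φ (x, y)|) := ix.integral_prod_right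
  have jy : Integrable (fun x : ℝ => ∫ y, |dd ey φ (x, y)|) := iy.integral_prod_left
  rw [fx, fy, mul_comm, ← integral_prod_mul (fun x : ℝ => ∫ y, |dd ey φ (x, y)|)
    (fun y : ℝ => ∫ x, |dd ex φ (x, y)|)]
  apply integral_mono (IsTest1.memLp h).integrable_sq (jy.mul_prod jx)
  rintro ⟨x, y⟩
  simp only
  rw [← sq_abs, sq]
  exact mul_le_mul (abs_le_line_v h.smooth h.cpt x y) (abs_le_line_h h.smooth h.cpt x y)
    (abs_nonneg _) (integral_nonneg fun t => abs_nonneg _)

/-- `L²` convergence implies `L¹` convergence on a set of finite measure -/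
theorem _root_.Pool.Agent.Lib.MP_dac83a.Conv2.l1 {f : ℕ → P → ℝ} {g : P → ℝ} (h : Conv2 volume f g)
    {U : Set P} (hU : MeasurableSet U) (hf : volume U ≠ ⊤) (h1 : ∀ n, ∀ᵐ z, z ∉ U → f n z = 0)
    (h2 : ∀ᵐ z, z ∉ U → g z = 0) :
    Tendsto (fun n => ∫ z, |f n z|) atTop (𝓝 (∫ z, |g z|)) ∧
    Tendsto (fun n => ∫ z, f n z) atTop (𝓝 (∫ z, g z)) := by
  have m1 : MemLp (U.indicator fun _ : P => (1 : ℝ)) 2 volume :=
    memLp_indicator_const 2 hU 1 (Or.inr hf)
  have key : ∀ k : P → ℝ, MemLp k 2 volume → (∀ᵐ z, z ∉ U → k z = 0) →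
      (∀ᵐ z, k z = U.indicator (fun _ : P => (1 : ℝ)) z * k z) := by
    intro k hk h0
    filter_upwards [h0] with z hz
    by_cases hzU : z ∈ U
    · simp [hzU]
    · simp [hzU, hz hzU]
  have hint : ∀ k : P → ℝ, MemLp k 2 volume → (∀ᵐ z, z ∉ U → k z = 0) → Integrable k := by
    intro k hk h0
    exact (integrable_mul2 m1 hk).congr (by filter_upwards [key k hk h0] with z hz using hz.symm)
  have hdiff : Tendsto (fun n => ∫ z, |f n z - g z|) atTop (𝓝 0) := by
    have t := tendsto_mul_zero (h := fun n z => f n z - g z)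
      (k := fun _ => U.indicator fun _ : P => (1 : ℝ)) h.sub_mem (fun _ => m1) h.lim
      (C := ∫ z, (U.indicator (fun _ : P => (1 : ℝ)) z) ^ 2) (fun _ => le_rfl)
    refine t.congr fun n => ?_
    apply integral_congr_ae
    filter_upwards [h1 n, h2] with z z1 z2
    by_cases hzU : z ∈ U
    · simp [hzU]
    · simp [hzU, z1 hzU, z2 hzU]
  have if_ : ∀ n, Integrable (f n) := fun n => hint _ (h.memn n) (h1 n)
  have ig : Integrable g := hint _ h.mem h2
  constructor
  · rw [tendsto_iff_norm_sub_tendsto_zero]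
    refine squeeze_zero (fun n => norm_nonneg _) (fun n => ?_) hdiff
    rw [← integral_sub (if_ n).abs ig.abs]
    refine (norm_integral_le_integral_norm _).trans ?_
    apply integral_mono ((if_ n).abs.sub ig.abs).norm ((if_ n).sub ig).abs
    intro z
    exact abs_abs_sub_abs_le (f n z) (g z)
  · rw [tendsto_iff_norm_sub_tendsto_zero]
    refine squeeze_zero (fun n => norm_nonneg _) (fun n => ?_) hdiff
    rw [← integral_sub (if_ n) ig]
    exact norm_integral_le_integral_norm _

theorem l1_integrable {U : Set P} (hU : MeasurableSet U) (hf : volume U ≠ ⊤) {k : P → ℝ}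
    (hk : MemLp k 2 volume) (h0 : ∀ᵐ z, z ∉ U → k z = 0) : Integrable k := by
  have m1 : MemLp (U.indicator fun _ : P => (1 : ℝ)) 2 volume :=
    memLp_indicator_const 2 hU 1 (Or.inr hf)
  refine (integrable_mul2 m1 hk).congr ?_
  filter_upwards [h0] with z hz
  by_cases hzU : z ∈ U
  · simp [hzU]
  · simp [hzU, hz hzU]

theorem off_of_test {U : Set P} {φ : P → ℝ} (h : IsTest U φ) :
    (∀ᵐ z, z ∉ U → φ z = 0) ∧ ∀ v, ∀ᵐ z, z ∉ U → dd v φ z = 0 := by
  constructor
  · filter_upwards with z hz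
    exact image_eq_zero_of_notMem_tsupport fun h' => hz (h.sub h')
  · intro v
    filter_upwards with z hz
    exact dd_zero_of_notMem_tsupport (fun h' => hz (h.sub h')) v

namespace H0

variable {U V : Set P} {u a b v c d : P → ℝ}

theorem integrable_all (h : H0 U u a b) (hU : IsOpen U) (hf : volume U ≠ ⊤) :
    Integrable u ∧ Integrable a ∧ Integrable b := by
  have h0 := h.zero_off
  exact ⟨l1_integrable hU.measurableSet hf h.mu (by filter_upwards [h0] with z hz h' using (hz h').1),
    l1_integrable hU.measurableSet hf h.ma (by filter_upwards [h0] with z hz h' using (hz h').2.1),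
    l1_integrable hU.measurableSet hf h.mb (by filter_upwards [h0] with z hz h' using (hz h').2.2)⟩

/-- Gagliardo's inequality in `H¹₀(U)` -/
theorem gagliardo (h : H0 U u a b) (hU : IsOpen U) (hf : volume U ≠ ⊤) :
    ∫ z, u z ^ 2 ≤ (∫ z, |a z|) * ∫ z, |b z| := by
  obtain ⟨φ, ht, c1, c2, c3⟩ := h.app
  have h0 := h.zero_off
  have t1 := c1.integral_sq
  have t2 := (c2.l1 hU.measurableSet hf (fun n => (off_of_test (ht n)).2 ex)
    (by filter_upwards [h0] with z hz h' using (hz h').2.1)).1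
  have t3 := (c3.l1 hU.measurableSet hf (fun n => (off_of_test (ht n)).2 ey)
    (by filter_upwards [h0] with z hz h' using (hz h').2.2)).1
  exact le_of_tendsto_of_tendsto t1 (t2.mul t3)
    (Eventually.of_forall fun n => gagliardo_C1 (ht n).isTest1)

/-- the `L¹` norm of an element supported in a set of finite measure -/
theorem l1_le {U : Set P} (hU : MeasurableSet U) (hf : volume U ≠ ⊤) {k : P → ℝ}
    (hk : MemLp k 2 volume) (h0 : ∀ᵐ z, z ∉ U → k z = 0) :
    ∫ z, |k z| ≤ √(volume U).toReal * √(∫ z, k z ^ 2) := by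
  have m1 : MemLp (U.indicator fun _ : P => (1 : ℝ)) 2 volume :=
    memLp_indicator_const 2 hU 1 (Or.inr hf)
  have cs := cauchy_schwarz m1 hk
  have e1 : ∫ z, |k z| = ∫ z, |U.indicator (fun _ : P => (1 : ℝ)) z| * |k z| := by
    apply integral_congr_ae
    filter_upwards [h0] with z hz
    by_cases hzU : z ∈ U
    · simp [hzU]
    · simp [hzU, hz hzU]
  have e2 : ∫ z, (U.indicator (fun _ : P => (1 : ℝ)) z) ^ 2 = (volume U).toReal := by
    have : (fun z => (U.indicator (fun _ : P => (1 : ℝ)) z) ^ 2) = U.indicator fun _ => (1 : ℝ) := by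
      ext z
      by_cases hzU : z ∈ U <;> simp [hzU]
    rw [this, integral_indicator_const _ hU]
    simp [Measure.real]
  rw [e1, ← e2]
  exact cs

end H0

end Pool.Agent.Lib.MP_f46d6a
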