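import Pool.Agent.Lib.MP_f46d6a.Slice

/-!
# Slicing: if `u = 1` on a connected open set `W` then `diam W ≤ ∫ |∇u|`
-/

set_option autoImplicit false

open MeasureTheory Set Filter Topology
open scoped ContDiff

namespace Pool.Agent.Lib.MP_f46d6a

open Pool.Agent.Lib.MP_dac83a

/-- `L¹` convergence to zero implies a.e. convergence along a subsequence -/
theorem exists_ae_l1 {H : ℕ → ℝ → ℝ} (hi : ∀ n, Integrable (H n)) (h0 : ∀ n x, 0 ≤ H n x)
    (hl : Tendsto (fun n => ∫ x, H n x) atTop (𝓝 0)) :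
    ∃ k : ℕ → ℕ, StrictMono k ∧ ∀ᵐ x, Tendsto (fun n => H (k n) x) atTop (𝓝 0) := by
  have hl' : Tendsto (fun n => eLpNorm (H n - (fun _ => (0:ℝ))) 1 volume) atTop (𝓝 0) := by
    have e : ∀ n, eLpNorm (H n - (fun _ => (0:ℝ))) 1 volume = ENNReal.ofReal (∫ x, H n x) := by
      intro n
      rw [eLpNorm_one_eq_lintegral_enorm, ofReal_integral_eq_lintegral_ofReal (hi n)
        (Eventually.of_forall (h0 n))]
      congr 1
      ext x
      simp only [Pi.sub_apply, sub_zero]
      rw [Real.enorm_eq_ofReal (h0 n x)]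
    simp only [e]
    have := (ENNReal.continuous_ofReal.tendsto 0).comp hl
    rwa [ENNReal.ofReal_zero] at this
  have := (tendstoInMeasure_of_tendsto_eLpNorm (p := 1) (by norm_num)
    (fun n => (hi n).aestronglyMeasurable) aestronglyMeasurable_const hl')
  exact this.exists_seq_tendsto_ae

theorem int_tri {f g : ℝ → ℝ} (hf : Integrable f) (hg : Integrable g) :
    ∫ t, |f t| ≤ (∫ t, |f t - g t|) + ∫ t, |g t| := by
  rw [← integral_add (f := fun t => |f t - g t|) (hf.sub hg).abs hg.abs]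
  apply integral_mono hf.abs ((hf.sub hg).abs.add hg.abs)
  intro t
  simp only [Pi.add_apply, Pi.sub_apply]
  have := abs_sub_abs_le_abs_sub (f t) (g t)
  linarith

variable {U : Set P} {u a b : P → ℝ}

theorem tendsto_l1_sub {f : ℕ → P → ℝ} {g : P → ℝ} (h : Conv2 volume f g)
    (hU : MeasurableSet U) (hf : volume U ≠ ⊤) (h1 : ∀ n, ∀ᵐ z, z ∉ U → f n z = 0)
    (h2 : ∀ᵐ z, z ∉ U → g z = 0) :
    (∀ n, Integrable fun z => |f n z - g z|) ∧ Tendsto (fun n => ∫ z, |f n z - g z|) atTop (𝓝 0) := by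
  have h0 : ∀ n, ∀ᵐ z, z ∉ U → f n z - g z = 0 := by
    intro n
    filter_upwards [h1 n, h2] with z z1 z2 hz
    rw [z1 hz, z2 hz, sub_zero]
  refine ⟨fun n => (l1_integrable hU hf (h.sub_mem n) (h0 n)).abs, ?_⟩
  have := (h.sub_lim.l1 hU hf h0 (by filter_upwards with z _; rfl)).1
  simpa using this

namespace H0

/-- on almost every vertical line, `|u|` is bounded by the integral of `|b|` -/
theorem line_v (h : H0 U u a b) (hU : IsOpen U) (hf : volume U ≠ ⊤) :
    ∀ᵐ z : P, |u z| ≤ ∫ t, |b (z.1, t)| := by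
  obtain ⟨φ, ht, c1, c2, c3⟩ := h.app
  have hz := h.zero_off
  obtain ⟨i1, i2⟩ := tendsto_l1_sub c3 hU.measurableSet hf (fun n => (off_of_test (ht n)).2 ey)
    (by filter_upwards [hz] with z hz h' using (hz h').2.2)
  obtain ⟨k, hk, hl⟩ := c1.exists_ae
  set H : ℕ → ℝ → ℝ := fun n x => ∫ t, |dd ey (φ (k n)) (x, t) - b (x, t)| with hH
  have iH : ∀ n, Integrable (H n) := fun n => (i1 (k n)).integral_prod_left
  have eH : ∀ n, ∫ x, H n x = ∫ z, |dd ey (φ (k n)) z - b z| := by
    intro n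
    rw [Measure.volume_eq_prod, integral_prod _ (by rw [← Measure.volume_eq_prod]; exact i1 (k n))]
  obtain ⟨m, hm, hlm⟩ := exists_ae_l1 iH (fun n x => integral_nonneg fun t => abs_nonneg _) (by
    simp only [eH]
    exact i2.comp hk.tendsto_atTop)
  have hlm' : ∀ᵐ z : P, Tendsto (fun n => H (m n) z.1) atTop (𝓝 0) := by
    rw [Measure.volume_eq_prod]
    exact Measure.quasiMeasurePreserving_fst.ae hlm
  have hb : Integrable b := (h.integrable_all hU hf).2.2
  have hbs : ∀ᵐ z : P, Integrable (fun t => b (z.1, t)) := by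
    rw [Measure.volume_eq_prod]
    have := Measure.quasiMeasurePreserving_fst (μ := (volume : Measure ℝ))
      (ν := (volume : Measure ℝ)) |>.ae (p := fun x => Integrable fun t => b (x, t))
      (by
        rw [Measure.volume_eq_prod] at hb
        exact hb.prod_right_ae)
    exact this
  filter_upwards [hl, hlm', hbs] with z hz1 hz2 hz3
  have t1 : Tendsto (fun n => |φ (k (m n)) z|) atTop (𝓝 |u z|) :=
    (hz1.comp hm.tendsto_atTop).abs
  have t2 : Tendsto (fun n => H (m n) z.1 + ∫ t, |b (z.1, t)|) atTop (𝓝 (0 + ∫ t, |b (z.1, t)|)) :=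
    hz2.add_const _
  rw [zero_add] at t2
  refine le_of_tendsto_of_tendsto' t1 t2 (fun n => ?_)
  have s1 := abs_le_line_v (ht (k (m n))).isTest1.smooth (ht (k (m n))).cpt z.1 z.2
  have ic : Integrable fun t => dd ey (φ (k (m n))) (z.1, t) := by
    have hc := (slice_v_cpt ((ht (k (m n))).dd ey).cpt z.1)
    exact (((ht (k (m n))).dd ey).smooth.continuous.comp (by fun_prop :
      Continuous fun t : ℝ => ((z.1, t) : P))).integrable_of_hasCompactSupport hc
  exact s1.trans (int_tri ic hz3)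

/-- on almost every horizontal line, `|u|` is bounded by the integral of `|a|` -/
theorem line_h (h : H0 U u a b) (hU : IsOpen U) (hf : volume U ≠ ⊤) :
    ∀ᵐ z : P, |u z| ≤ ∫ s, |a (s, z.2)| := by
  obtain ⟨φ, ht, c1, c2, c3⟩ := h.app
  have hz := h.zero_off
  obtain ⟨i1, i2⟩ := tendsto_l1_sub c2 hU.measurableSet hf (fun n => (off_of_test (ht n)).2 ex)
    (by filter_upwards [hz] with z hz h' using (hz h').2.1)
  obtain ⟨k, hk, hl⟩ := c1.exists_ae
  set H : ℕ → ℝ → ℝ := fun n y => ∫ s, |dd ex (φ (k n)) (s, y) - a (s, y)| with hH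
  have iH : ∀ n, Integrable (H n) := fun n => (i1 (k n)).integral_prod_right
  have eH : ∀ n, ∫ x, H n x = ∫ z, |dd ex (φ (k n)) z - a z| := by
    intro n
    rw [Measure.volume_eq_prod, integral_prod_symm _
      (by rw [← Measure.volume_eq_prod]; exact i1 (k n))]
  obtain ⟨m, hm, hlm⟩ := exists_ae_l1 iH (fun n x => integral_nonneg fun t => abs_nonneg _) (by
    simp only [eH]
    exact i2.comp hk.tendsto_atTop)
  have hlm' : ∀ᵐ z : P, Tendsto (fun n => H (m n) z.2) atTop (𝓝 0) := by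
    rw [Measure.volume_eq_prod]
    exact Measure.quasiMeasurePreserving_snd.ae hlm
  have ha : Integrable a := (h.integrable_all hU hf).2.1
  have has : ∀ᵐ z : P, Integrable (fun s => a (s, z.2)) := by
    rw [Measure.volume_eq_prod]
    have := Measure.quasiMeasurePreserving_snd (μ := (volume : Measure ℝ))
      (ν := (volume : Measure ℝ)) |>.ae (p := fun y => Integrable fun s => a (s, y))
      (by
        rw [Measure.volume_eq_prod] at ha
        exact ha.prod_left_ae)
    exact this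
  filter_upwards [hl, hlm', has] with z hz1 hz2 hz3
  have t1 : Tendsto (fun n => |φ (k (m n)) z|) atTop (𝓝 |u z|) :=
    (hz1.comp hm.tendsto_atTop).abs
  have t2 : Tendsto (fun n => H (m n) z.2 + ∫ s, |a (s, z.2)|) atTop (𝓝 (0 + ∫ s, |a (s, z.2)|)) :=
    hz2.add_const _
  rw [zero_add] at t2
  refine le_of_tendsto_of_tendsto' t1 t2 (fun n => ?_)
  have s1 := abs_le_line_h (ht (k (m n))).isTest1.smooth (ht (k (m n))).cpt z.1 z.2
  have ic : Integrable fun s => dd ex (φ (k (m n))) (s, z.2) := by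
    have hc := (slice_h_cpt ((ht (k (m n))).dd ex).cpt z.2)
    exact (((ht (k (m n))).dd ex).smooth.continuous.comp (by fun_prop :
      Continuous fun s : ℝ => ((s, z.2) : P))).integrable_of_hasCompactSupport hc
  exact s1.trans (int_tri ic hz3)

/-- width of a connected open set where `u = 1` -/
theorem width_x (h : H0 U u a b) (hU : IsOpen U) (hf : volume U ≠ ⊤) {W : Set P} (hW : IsOpen W)
    (hc : IsPreconnected W) (h1 : ∀ᵐ z, z ∈ W → 1 ≤ u z) {x y : P} (hx : x ∈ W) (hy : y ∈ W) :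
    |x.1 - y.1| ≤ ∫ z, |b z| := by
  have hb : Integrable b := (h.integrable_all hU hf).2.2
  set G : ℝ → ℝ := fun x => ∫ t, |b (x, t)| with hG
  have iG : Integrable G := hb.abs.integral_prod_left
  have eG : ∫ x, G x = ∫ z, |b z| := by
    rw [Measure.volume_eq_prod, integral_prod _ (by rw [← Measure.volume_eq_prod]; exact hb.abs)]
  have key : ∀ᵐ z : P, z ∈ W → 1 ≤ G z.1 := by
    filter_upwards [h.line_v hU hf, h1] with z hz1 hz2 hz
    exact (hz2 hz).trans ((le_abs_self _).trans hz1)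
  have key2 : ∀ᵐ ξ : ℝ, ξ ∈ Prod.fst '' W → 1 ≤ G ξ := by
    rw [Measure.volume_eq_prod] at key
    filter_upwards [Measure.ae_ae_of_ae_prod key] with ξ hξ
    rintro ⟨z, hz, rfl⟩
    have hop : IsOpen {t : ℝ | ((z.1, t) : P) ∈ W} :=
      hW.preimage (by fun_prop : Continuous fun t : ℝ => ((z.1, t) : P))
    have hne : {t : ℝ | ((z.1, t) : P) ∈ W}.Nonempty := ⟨z.2, hz⟩
    by_contra hlt
    have : volume {t : ℝ | ((z.1, t) : P) ∈ W} = 0 := by
      refine measure_mono_null ?_ hξ
      intro t ht h'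
      exact hlt (h' ht)
    exact (hop.measure_pos volume hne).ne' this
  have hpc : IsPreconnected (Prod.fst '' W) := hc.image _ continuous_fst.continuousOn
  have hsub : uIcc x.1 y.1 ⊆ Prod.fst '' W :=
    hpc.ordConnected.uIcc_subset ⟨x, hx, rfl⟩ ⟨y, hy, rfl⟩
  have hvol : (volume (uIcc x.1 y.1)).toReal = |x.1 - y.1| := by
    rw [Real.volume_interval, ENNReal.toReal_ofReal (abs_nonneg _), abs_sub_comm]
  calc |x.1 - y.1| = ∫ ξ in uIcc x.1 y.1, (1 : ℝ) := by
        rw [setIntegral_const, smul_eq_mul, mul_one]; exact hvol.symm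
    _ ≤ ∫ ξ in uIcc x.1 y.1, G ξ := by
        apply setIntegral_mono_ae_restrict (integrableOn_const isCompact_uIcc.measure_ne_top)
          iG.integrableOn
        rw [EventuallyLE, ae_restrict_iff' measurableSet_uIcc]
        filter_upwards [key2] with ξ hξ hm using hξ (hsub hm)
    _ ≤ ∫ ξ, G ξ := setIntegral_le_integral iG
        (Eventually.of_forall fun ξ => integral_nonneg fun t => abs_nonneg _)
    _ = ∫ z, |b z| := eG

theorem width_y (h : H0 U u a b) (hU : IsOpen U) (hf : volume U ≠ ⊤) {W : Set P} (hW : IsOpen W)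
    (hc : IsPreconnected W) (h1 : ∀ᵐ z, z ∈ W → 1 ≤ u z) {x y : P} (hx : x ∈ W) (hy : y ∈ W) :
    |x.2 - y.2| ≤ ∫ z, |a z| := by
  have ha : Integrable a := (h.integrable_all hU hf).2.1
  set G : ℝ → ℝ := fun y => ∫ s, |a (s, y)| with hG
  have iG : Integrable G := ha.abs.integral_prod_right
  have eG : ∫ x, G x = ∫ z, |a z| := by
    rw [Measure.volume_eq_prod, integral_prod_symm _
      (by rw [← Measure.volume_eq_prod]; exact ha.abs)]
  have key : ∀ᵐ z : P, z ∈ W → 1 ≤ G z.2 := by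
    filter_upwards [h.line_h hU hf, h1] with z hz1 hz2 hz
    exact (hz2 hz).trans ((le_abs_self _).trans hz1)
  have key2 : ∀ᵐ ξ : ℝ, ξ ∈ Prod.snd '' W → 1 ≤ G ξ := by
    have keys : ∀ᵐ z : P, z.swap ∈ W → 1 ≤ G z.1 := by
      have mp : MeasurePreserving (Prod.swap : P → P) volume volume := by
        rw [Measure.volume_eq_prod]
        exact Measure.measurePreserving_swap
      exact mp.quasiMeasurePreserving.ae key
    rw [Measure.volume_eq_prod] at keys
    filter_upwards [Measure.ae_ae_of_ae_prod keys] with ξ hξ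
    rintro ⟨z, hz, rfl⟩
    have hop : IsOpen {t : ℝ | ((t, z.2) : P) ∈ W} :=
      hW.preimage (by fun_prop : Continuous fun t : ℝ => ((t, z.2) : P))
    have hne : {t : ℝ | ((t, z.2) : P) ∈ W}.Nonempty := ⟨z.1, hz⟩
    by_contra hlt
    have : volume {t : ℝ | ((t, z.2) : P) ∈ W} = 0 := by
      refine measure_mono_null ?_ hξ
      intro t ht h'
      exact hlt (h' ht)
    exact (hop.measure_pos volume hne).ne' this
  have hpc : IsPreconnected (Prod.snd '' W) := hc.image _ continuous_snd.continuousOn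
  have hsub : uIcc x.2 y.2 ⊆ Prod.snd '' W :=
    hpc.ordConnected.uIcc_subset ⟨x, hx, rfl⟩ ⟨y, hy, rfl⟩
  have hvol : (volume (uIcc x.2 y.2)).toReal = |x.2 - y.2| := by
    rw [Real.volume_interval, ENNReal.toReal_ofReal (abs_nonneg _), abs_sub_comm]
  calc |x.2 - y.2| = ∫ ξ in uIcc x.2 y.2, (1 : ℝ) := by
        rw [setIntegral_const, smul_eq_mul, mul_one]; exact hvol.symm
    _ ≤ ∫ ξ in uIcc x.2 y.2, G ξ := by
        apply setIntegral_mono_ae_restrict (integrableOn_const isCompact_uIcc.measure_ne_top)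
          iG.integrableOn
        rw [EventuallyLE, ae_restrict_iff' measurableSet_uIcc]
        filter_upwards [key2] with ξ hξ hm using hξ (hsub hm)
    _ ≤ ∫ ξ, G ξ := setIntegral_le_integral iG
        (Eventually.of_forall fun ξ => integral_nonneg fun t => abs_nonneg _)
    _ = ∫ z, |a z| := eG

/-- slicing inequality -/
theorem slicing (h : H0 U u a b) (hU : IsOpen U) (hf : volume U ≠ ⊤) {W : Set P} (hW : IsOpen W)
    (hc : IsPreconnected W) (h1 : ∀ᵐ z, z ∈ W → 1 ≤ u z) {x y : P} (hx : x ∈ W) (hy : y ∈ W) :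
    dist x y ≤ (∫ z, |a z|) + ∫ z, |b z| := by
  have hx' := h.width_x hU hf hW hc h1 hx hy
  have hy' := h.width_y hU hf hW hc h1 hx hy
  have na : 0 ≤ ∫ z, |a z| := integral_nonneg fun z => abs_nonneg _
  have nb : 0 ≤ ∫ z, |b z| := integral_nonneg fun z => abs_nonneg _
  rw [Prod.dist_eq, Real.dist_eq, Real.dist_eq]
  apply max_le <;> linarith

end H0

end Pool.Agent.Lib.MP_f46d6a
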