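import Pool.Agent.Lib.MP_f46d6a.Theta
import Pool.Agent.Lib.MP_f46d6a.Final

/-!
# Small components near a good point
-/

set_option autoImplicit false

open MeasureTheory Set Filter Topology
open scoped ContDiff

namespace Pool.Agent.Lib.MP_f46d6a

open Pool.Agent.Lib.MP_dac83a

/-- `L¹` bound of `q` on a subset of a square -/
theorem l1_sub {q : P → ℝ} (hq : MemLp q 2 volume) {B : Set P} (hB : MeasurableSet B) {κ E : ℝ}
    (hf : volume B ≠ ⊤) (hκ : vol B ≤ κ) (hE : ∫ z in B, q z ^ 2 ≤ E) (hκ0 : 0 ≤ κ) :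
    ∫ z, |B.indicator q z| ≤ √(κ * E) := by
  have h := cs_set hq hB hf
  have h0 : 0 ≤ ∫ z in B, q z ^ 2 := integral_nonneg fun z => sq_nonneg _
  have h1 : (∫ z, |B.indicator q z|) ^ 2 ≤ κ * E := by
    refine h.trans ?_
    exact mul_le_mul hκ hE h0 hκ0
  exact (le_abs_self _).trans (Real.abs_le_sqrt h1)

namespace Crit'

variable {δ α : ℝ} {Ω : Set P} {w wx wy p px py : P → ℝ}

theorem local_px (h : Crit' δ α Ω w wx wy p px py) (x : P) {B : Set P}
    (hB : B ⊆ Metric.closedBall x 6) :
    ∫ z in B, px z ^ 2 ≤ C1 ∧ ∫ z in B, py z ^ 2 ≤ C1 := by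
  have h1 := h.local_p x (r := 6) le_rfl
  rw [h.band_split] at h1
  have n1 : 0 ≤ ∫ z in Metric.closedBall x 6, px z ^ 2 := integral_nonneg fun z => sq_nonneg _
  have n2 : 0 ≤ ∫ z in Metric.closedBall x 6, py z ^ 2 := integral_nonneg fun z => sq_nonneg _
  have m1 : ∫ z in B, px z ^ 2 ≤ ∫ z in Metric.closedBall x 6, px z ^ 2 :=
    setIntegral_mono_set h.eig.mem.ma.integrable_sq.integrableOn
      (Eventually.of_forall fun z => sq_nonneg _) hB.eventuallyLE
  have m2 : ∫ z in B, py z ^ 2 ≤ ∫ z in Metric.closedBall x 6, py z ^ 2 :=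
    setIntegral_mono_set h.eig.mem.mb.integrable_sq.integrableOn
      (Eventually.of_forall fun z => sq_nonneg _) hB.eventuallyLE
  constructor <;> linarith

/-- the difference of two truncations of `p` -/
theorem clamp (h : Crit' δ α Ω w wx wy p px py) {s t : ℝ} (hs : 0 ≤ s) (hst : s < t) :
    H0 Ω (fun z => (1 / (t - s)) * (min (p z) t - min (p z) s))
      (fun z => (1 / (t - s)) * (({z | s < p z ∧ p z ≤ t} : Set P).indicator px z))
      (fun z => (1 / (t - s)) * (({z | s < p z ∧ p z ≤ t} : Set P).indicator py z)) := by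
  classical
  have k1 := (H0.minLevel h.isOpen h.eig.mem (hs.trans hst.le)).sub
    (H0.minLevel h.isOpen h.eig.mem hs)
  have key : ∀ (q : P → ℝ) (z : P), (if p z ≤ t then q z else 0) - (if p z ≤ s then q z else 0)
      = ({z | s < p z ∧ p z ≤ t} : Set P).indicator q z := by
    intro q z
    by_cases h1 : p z ≤ t
    · by_cases h2 : p z ≤ s
      · have : z ∉ ({z | s < p z ∧ p z ≤ t} : Set P) := fun h' => not_lt.2 h2 h'.1
        rw [indicator_of_notMem this, if_pos h1, if_pos h2, sub_self]
      · have : z ∈ ({z | s < p z ∧ p z ≤ t} : Set P) := ⟨not_le.1 h2, h1⟩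
        rw [indicator_of_mem this, if_pos h1, if_neg h2, sub_zero]
    · have h2 : ¬ p z ≤ s := fun h' => h1 (by linarith)
      have : z ∉ ({z | s < p z ∧ p z ≤ t} : Set P) := fun h' => h1 h'.2
      rw [indicator_of_notMem this, if_neg h1, if_neg h2, sub_self]
  refine (k1.smul (1 / (t - s))).congr EventuallyEq.rfl ?_ ?_
  · filter_upwards with z
    rw [key px z]
  · filter_upwards with z
    rw [key py z]

theorem clamp_nonneg {s t : ℝ} (hst : s < t) (z : P) :
    0 ≤ (1 / (t - s)) * (min (p z) t - min (p z) s) := by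
  apply mul_nonneg (by apply div_nonneg zero_le_one; linarith)
  have := min_le_min_left (p z) hst.le
  linarith

theorem clamp_le {s t : ℝ} (hst : s < t) (z : P) :
    (1 / (t - s)) * (min (p z) t - min (p z) s) ≤ 1 := by
  have h1 : 0 < t - s := by linarith
  rw [one_div, inv_mul_le_iff₀ h1, mul_one]
  rcases le_total (p z) s with h | h
  · rw [min_eq_left h, min_eq_left (by linarith)]; linarith
  · rw [min_eq_right h]
    have := min_le_right (p z) t
    linarith

theorem clamp_zero {s t : ℝ} (hst : s < t) {z : P} (hz : p z ≤ s) :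
    (1 / (t - s)) * (min (p z) t - min (p z) s) = 0 := by
  rw [min_eq_left hz, min_eq_left (by linarith)]; simp

theorem clamp_one {s t : ℝ} (hst : s < t) {z : P} (hz : t ≤ p z) :
    (1 / (t - s)) * (min (p z) t - min (p z) s) = 1 := by
  have h1 : 0 < t - s := by linarith
  rw [min_eq_right hz, min_eq_right (by linarith)]
  field_simp

/-- (G3) components of `{p < 1/8}` through points of `closedBall x 1` are small -/
theorem small_comp (h : Crit' δ α Ω w wx wy p px py) {x q : P} (hq : q ∈ Metric.closedBall x 1)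
    (hpq : p q < 1 / 8) {κ ε : ℝ}
    (hκ : vol (Metric.closedBall x 6 ∩ {z | p z ≤ 1 / 4}) ≤ κ)
    (hκε : 8 * κ + 16 * √(κ * C1) ≤ ε) (hε : ε ≤ 1 / 2) :
    Bornology.IsBounded (Kc p q (1 / 8)) ∧ Metric.diam (Kc p q (1 / 8)) ≤ ε := by
  have hκ0 : 0 ≤ κ := le_trans ENNReal.toReal_nonneg hκ
  set G : Set P := Metric.closedBall x 6 ∩ {z | p z ≤ 1 / 4} with hG
  have mG : MeasurableSet G := measurableSet_closedBall.inter (measurableSet_le h.meas measurable_const)
  have fG : volume G ≠ ⊤ :=
    ((measure_mono inter_subset_left).trans_lt (lt_top_iff_ne_top.2 (vol_ball_ne x 6))).ne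
  -- the test function
  have hct := c2f_test (r := 2) (R := 4) x (by norm_num)
  have k0 := H0.of_C1 Metric.isOpen_ball hct
  have kc := h.clamp (s := 1 / 8) (t := 1 / 4) (by norm_num) (by norm_num)
  have kp := (kc.mul h.isOpen Metric.isOpen_ball k0 (M := 1) (M' := 1)
    (Eventually.of_forall fun z => by
      rw [abs_of_nonneg (clamp_nonneg (by norm_num) z)]; exact clamp_le (by norm_num) z)
    (Eventually.of_forall fun z => by
      rw [abs_of_nonneg (c2f_nonneg _ _ _)]; exact c2f_le _ _ _)).mono inter_subset_right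
  have ku := k0.sub kp
  have fball : volume (Metric.ball x (4 : ℝ)) ≠ ⊤ :=
    ((measure_mono Metric.ball_subset_closedBall).trans_lt
      (lt_top_iff_ne_top.2 (vol_ball_ne x 4))).ne
  -- gradient bound
  have grad : ∀ (d q : P → ℝ) (z : P), (|d z| ≤ 4) → (z ∉ Metric.closedBall x 3 → d z = 0) →
      |d z - ((1 / (1 / 4 - 1 / 8 : ℝ)) * (({z | 1 / 8 < p z ∧ p z ≤ 1 / 4} : Set P).indicator q z)
        * c2f 2 x z + (1 / (1 / 4 - 1 / 8 : ℝ)) * (min (p z) (1 / 4) - min (p z) (1 / 8)) * d z)|
      ≤ 4 * G.indicator (fun _ => (1 : ℝ)) z + 8 * |G.indicator q z| := by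
    intro d q z hd1 hd2
    by_cases hz : z ∈ G
    · rw [indicator_of_mem hz, indicator_of_mem hz]
      set v := (1 / (1 / 4 - 1 / 8 : ℝ)) * (min (p z) (1 / 4) - min (p z) (1 / 8)) with hv
      have v0 : 0 ≤ v := clamp_nonneg (by norm_num) z
      have v1 : v ≤ 1 := clamp_le (by norm_num) z
      have e1 : d z - ((1 / (1 / 4 - 1 / 8 : ℝ))
          * (({z | 1 / 8 < p z ∧ p z ≤ 1 / 4} : Set P).indicator q z) * c2f 2 x z + v * d z)
          = d z * (1 - v) - 8 * ((({z | 1 / 8 < p z ∧ p z ≤ 1 / 4} : Set P).indicator q z) * c2f 2 x z) := by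
        norm_num; ring
      rw [e1]
      have a1 : |d z * (1 - v)| ≤ 4 := by
        rw [abs_mul, abs_of_nonneg (show 0 ≤ 1 - v by linarith)]
        nlinarith [abs_nonneg (d z)]
      have a2 : |(({z | 1 / 8 < p z ∧ p z ≤ 1 / 4} : Set P).indicator q z) * c2f 2 x z| ≤ |q z| := by
        rw [abs_mul, abs_of_nonneg (c2f_nonneg 2 x z)]
        have b1 : |({z | 1 / 8 < p z ∧ p z ≤ 1 / 4} : Set P).indicator q z| ≤ |q z| := by
          by_cases hh : z ∈ ({z | 1 / 8 < p z ∧ p z ≤ 1 / 4} : Set P)
          · rw [indicator_of_mem hh]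
          · rw [indicator_of_notMem hh]; simp
        have b2 := c2f_le 2 x z
        have b3 := c2f_nonneg 2 x z
        calc _ ≤ |q z| * 1 := mul_le_mul b1 b2 b3 (abs_nonneg _)
          _ = _ := mul_one _
      calc _ ≤ |d z * (1 - v)| + |8 * ((({z | 1 / 8 < p z ∧ p z ≤ 1 / 4} : Set P).indicator q z)
            * c2f 2 x z)| := abs_sub _ _
        _ ≤ 4 * 1 + 8 * |q z| := by
            rw [abs_mul 8, abs_of_pos (by norm_num : (0:ℝ) < 8)]
            linarith
    · rw [indicator_of_notMem hz, indicator_of_notMem hz]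
      by_cases h3 : z ∈ Metric.closedBall x 3
      · have h6 : z ∈ Metric.closedBall x 6 := Metric.closedBall_subset_closedBall (by norm_num) h3
        have hp4 : 1 / 4 < p z := by
          by_contra h'
          exact hz ⟨h6, not_lt.1 h'⟩
        have n1 : z ∉ ({z | 1 / 8 < p z ∧ p z ≤ 1 / 4} : Set P) := fun h' => not_lt.2 h'.2 hp4
        rw [indicator_of_notMem n1, clamp_one (by norm_num) hp4.le]
        simp
      · have n1 : c2f 2 x z = 0 := c2f_zero (fun h' => h3 (by
          have := Metric.ball_subset_closedBall h'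
          norm_num at this
          exact this))
        rw [n1, hd2 h3]
        simp
  have i1 : Integrable (fun z => G.indicator (fun _ => (1 : ℝ)) z) :=
    (integrable_indicator_iff mG).2 (integrableOn_const fG)
  have eG : ∫ z, G.indicator (fun _ => (1 : ℝ)) z = vol G := by
    rw [integral_indicator mG, setIntegral_const, smul_eq_mul, mul_one]; rfl
  have iq : ∀ q : P → ℝ, MemLp q 2 volume → Integrable (fun z => |G.indicator q z|) := by
    intro q hq
    have := l1_integrable mG fG (hq.indicator mG) (by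
      filter_upwards with z hz
      rw [indicator_of_notMem hz])
    exact this.abs
  obtain ⟨lx, ly⟩ := h.local_px x (B := G) inter_subset_left
  have bx := l1_sub h.eig.mem.ma mG fG hκ lx hκ0
  have by' := l1_sub h.eig.mem.mb mG fG hκ ly hκ0
  obtain ⟨-, ia, ib⟩ := ku.integrable_all Metric.isOpen_ball fball
  have tot : ∀ d q : P → ℝ, MemLp q 2 volume → (∀ z, |d z| ≤ 4) →
      (∀ z, z ∉ Metric.closedBall x 3 → d z = 0) → ∫ z, |G.indicator q z| ≤ √(κ * C1) →
      Integrable (fun z => d z - ((1 / (1 / 4 - 1 / 8 : ℝ)) *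
        (({z | 1 / 8 < p z ∧ p z ≤ 1 / 4} : Set P).indicator q z)
        * c2f 2 x z + (1 / (1 / 4 - 1 / 8 : ℝ)) * (min (p z) (1 / 4) - min (p z) (1 / 8)) * d z)) →
      ∫ z, |d z - ((1 / (1 / 4 - 1 / 8 : ℝ)) * (({z | 1 / 8 < p z ∧ p z ≤ 1 / 4} : Set P).indicator q z)
        * c2f 2 x z + (1 / (1 / 4 - 1 / 8 : ℝ)) * (min (p z) (1 / 4) - min (p z) (1 / 8)) * d z)|
      ≤ 4 * κ + 8 * √(κ * C1) := by
    intro d q hq hd1 hd2 hb hi
    have : ∫ z, |d z - ((1 / (1 / 4 - 1 / 8 : ℝ)) * (({z | 1 / 8 < p z ∧ p z ≤ 1 / 4} : Set P).indicator q z)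
        * c2f 2 x z + (1 / (1 / 4 - 1 / 8 : ℝ)) * (min (p z) (1 / 4) - min (p z) (1 / 8)) * d z)|
        ≤ ∫ z, (4 * G.indicator (fun _ => (1 : ℝ)) z + 8 * |G.indicator q z|) :=
      int_mono hi.abs (iadd (icm _ i1) (icm _ (iq q hq))) (fun z => grad d q z (hd1 z) (hd2 z))
    rw [int_cadd _ _ i1 (iq q hq), eG] at this
    linarith
  have t1 := tot (dd ex (c2f 2 x)) px h.eig.mem.ma (fun z => (c2f_dd_le 2 x z).1)
    (fun z hz => c2f_dd_off (by rw [show (2:ℝ) + 1 = 3 by norm_num]; exact hz) ex) bx ia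
  have t2 := tot (dd ey (c2f 2 x)) py h.eig.mem.mb (fun z => (c2f_dd_le 2 x z).2)
    (fun z hz => c2f_dd_off (by rw [show (2:ℝ) + 1 = 3 by norm_num]; exact hz) ey) by' ib
  -- the component in the ball
  set O : Set P := {z | p z < 1 / 8} ∩ Metric.ball x 2 with hO
  have oO : IsOpen O := (h.open_lt _).inter Metric.isOpen_ball
  have hqO : q ∈ O := ⟨hpq, Metric.closedBall_subset_ball (by norm_num) hq⟩
  set W : Set P := connectedComponentIn O q with hW
  have oW : IsOpen W := oO.connectedComponentIn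
  have pW : IsPreconnected W := isPreconnected_connectedComponentIn
  have hqW : q ∈ W := mem_connectedComponentIn hqO
  have sW : W ⊆ O := connectedComponentIn_subset _ _
  have slic : ∀ y ∈ W, ∀ z ∈ W, dist y z ≤ ε := by
    intro y hy z hz
    have := ku.slicing Metric.isOpen_ball fball oW pW (by
      filter_upwards with z hz
      have hz' := sW hz
      rw [c2f_one (Metric.ball_subset_closedBall hz'.2), clamp_zero (by norm_num) (le_of_lt hz'.1)]
      norm_num) hy hz
    linarith
  have sub : Kc p q (1 / 8) ⊆ W := by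
    apply (Kc_pre q (1 / 8)).subset_of_closure_inter_subset oW ⟨q, Kc_mem hpq, hqW⟩
    rintro z ⟨hz1, hz2⟩
    have hzd : z ∈ Metric.closedBall q ε := by
      have : W ⊆ Metric.closedBall q ε := fun y hy => by
        rw [Metric.mem_closedBall]; exact slic y hy q hqW
      exact closure_minimal this Metric.isClosed_closedBall hz1
    have hzb : z ∈ Metric.ball x 2 := by
      rw [Metric.mem_closedBall] at hzd hq
      rw [Metric.mem_ball]
      have := dist_triangle z q x
      linarith
    have h1 : IsPreconnected (insert z W) :=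
      pW.subset_closure (subset_insert _ _) (insert_subset hz1 subset_closure)
    have h2 : insert z W ⊆ W := by
      apply h1.subset_connectedComponentIn (mem_insert_of_mem _ hqW)
      exact insert_subset ⟨Kc_sub q _ hz2, hzb⟩ sW
    exact h2 (mem_insert _ _)
  have hε0 : 0 ≤ ε := by
    have := slic q hqW q hqW
    rwa [dist_self] at this
  constructor
  · exact (Metric.isBounded_closedBall (x := q) (r := ε)).subset fun y hy => by
      rw [Metric.mem_closedBall]; exact slic y (sub hy) q hqW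
  · exact Metric.diam_le_of_forall_dist_le hε0 fun y hy z hz => slic y (sub hy) z (sub hz)

end Crit'

end Pool.Agent.Lib.MP_f46d6a
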