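import Pool.Agent.Lib.MP_f46d6a.Base2

/-!
# The profile `Lm`: convex `C²`, zero for `t ≤ 0`, slope one for `t ≥ 1`
-/

set_option autoImplicit false

open MeasureTheory Set Filter Topology
open scoped ContDiff

namespace Pool.Agent.Lib.MP_f46d6a

/-- `30 t² (1-t)²` on `[0,1]`, zero elsewhere -/
noncomputable def bb (t : ℝ) : ℝ := 30 * (max 0 t) ^ 2 * (max 0 (1 - t)) ^ 2

noncomputable def Lm' (t : ℝ) : ℝ := ∫ s in (0 : ℝ)..t, bb s
noncomputable def Lm (t : ℝ) : ℝ := ∫ s in (0 : ℝ)..t, Lm' s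

theorem bb_cont : Continuous bb := by unfold bb; fun_prop
theorem bb_nonneg (t : ℝ) : 0 ≤ bb t := by unfold bb; positivity
theorem bb_of_nonpos {t : ℝ} (ht : t ≤ 0) : bb t = 0 := by
  simp [bb, max_eq_left ht]
theorem bb_of_one_le {t : ℝ} (ht : 1 ≤ t) : bb t = 0 := by
  simp [bb, max_eq_left (show 1 - t ≤ 0 by linarith)]
theorem bb_eq {t : ℝ} (h0 : 0 ≤ t) (h1 : t ≤ 1) : bb t = 30 * t ^ 2 * (1 - t) ^ 2 := by
  simp [bb, max_eq_right h0, max_eq_right (show 0 ≤ 1 - t by linarith)]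
theorem bb_le (t : ℝ) : bb t ≤ 2 := by
  rcases le_total t 0 with h | h
  · rw [bb_of_nonpos h]; norm_num
  rcases le_total 1 t with h1 | h1
  · rw [bb_of_one_le h1]; norm_num
  rw [bb_eq h h1]
  have : 0 ≤ t * (1 - t) := mul_nonneg h (by linarith)
  have h2 : t * (1 - t) ≤ 1 / 4 := by nlinarith [sq_nonneg (t - 1 / 2)]
  nlinarith

theorem Lm'_hasDeriv (t : ℝ) : HasDerivAt Lm' (bb t) t :=
  intervalIntegral.integral_hasDerivAt_right (bb_cont.intervalIntegrable _ _)
    (bb_cont.stronglyMeasurableAtFilter _ _) bb_cont.continuousAt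

theorem Lm'_cont : Continuous Lm' :=
  continuous_iff_continuousAt.2 fun t => (Lm'_hasDeriv t).continuousAt

theorem Lm_hasDeriv (t : ℝ) : HasDerivAt Lm (Lm' t) t :=
  intervalIntegral.integral_hasDerivAt_right (Lm'_cont.intervalIntegrable _ _)
    (Lm'_cont.stronglyMeasurableAtFilter _ _) Lm'_cont.continuousAt

theorem Lm_cont : Continuous Lm :=
  continuous_iff_continuousAt.2 fun t => (Lm_hasDeriv t).continuousAt

theorem deriv_Lm : deriv Lm = Lm' := by ext t; exact (Lm_hasDeriv t).deriv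
theorem deriv_Lm' : deriv Lm' = bb := by ext t; exact (Lm'_hasDeriv t).deriv

theorem Lm'_contDiff : ContDiff ℝ 1 Lm' := by
  rw [contDiff_one_iff_deriv]
  exact ⟨fun t => (Lm'_hasDeriv t).differentiableAt, by rw [deriv_Lm']; exact bb_cont⟩

theorem Lm_contDiff : ContDiff ℝ 2 Lm := by
  rw [show (2 : WithTop ℕ∞) = 1 + 1 by norm_num, contDiff_succ_iff_deriv]
  refine ⟨fun t => (Lm_hasDeriv t).differentiableAt, by simp, ?_⟩
  rw [deriv_Lm]; exact Lm'_contDiff

theorem Lm_contDiff1 : ContDiff ℝ 1 Lm := Lm_contDiff.of_le (by norm_num)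

theorem Lm'_of_nonpos {t : ℝ} (ht : t ≤ 0) : Lm' t = 0 := by
  unfold Lm'
  rw [intervalIntegral.integral_symm, neg_eq_zero]
  have : ∫ s in t..(0 : ℝ), bb s = ∫ s in t..(0 : ℝ), (0 : ℝ) := by
    apply intervalIntegral.integral_congr
    intro s hs
    rw [uIcc_of_le ht] at hs
    exact bb_of_nonpos hs.2
  rw [this]; simp

theorem Lm'_poly {t : ℝ} (h0 : 0 ≤ t) (h1 : t ≤ 1) : Lm' t = 10 * t ^ 3 - 15 * t ^ 4 + 6 * t ^ 5 := by
  unfold Lm'
  have e : ∫ s in (0 : ℝ)..t, bb s = ∫ s in (0 : ℝ)..t, 30 * s ^ 2 * (1 - s) ^ 2 := by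
    apply intervalIntegral.integral_congr
    intro s hs
    rw [uIcc_of_le h0] at hs
    exact bb_eq hs.1 (hs.2.trans h1)
  rw [e]
  have := intervalIntegral.integral_eq_sub_of_hasDerivAt (a := 0) (b := t)
    (f := fun s : ℝ => 10 * s ^ 3 - 15 * s ^ 4 + 6 * s ^ 5) (f' := fun s => 30 * s ^ 2 * (1 - s) ^ 2)
    (fun s _ => by
      have h := (((hasDerivAt_pow 3 s).const_mul 10).sub ((hasDerivAt_pow 4 s).const_mul 15)).add
        ((hasDerivAt_pow 5 s).const_mul 6)
      refine h.congr_deriv ?_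
      push_cast
      ring)
    ((by fun_prop : Continuous fun s : ℝ => 30 * s ^ 2 * (1 - s) ^ 2).intervalIntegrable _ _)
  rw [this]; ring

theorem Lm'_of_one_le {t : ℝ} (ht : 1 ≤ t) : Lm' t = 1 := by
  have h : Lm' t = Lm' 1 := by
    unfold Lm'
    rw [← intervalIntegral.integral_add_adjacent_intervals (a := 0) (b := 1) (c := t)
      (bb_cont.intervalIntegrable _ _) (bb_cont.intervalIntegrable _ _)]
    have : ∫ s in (1 : ℝ)..t, bb s = ∫ s in (1 : ℝ)..t, (0 : ℝ) := by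
      apply intervalIntegral.integral_congr
      intro s hs
      rw [uIcc_of_le ht] at hs
      exact bb_of_one_le hs.1
    rw [this]; simp
  rw [h, Lm'_poly (by norm_num) le_rfl]; norm_num

theorem Lm'_mono : Monotone Lm' := by
  apply monotone_of_deriv_nonneg (fun t => (Lm'_hasDeriv t).differentiableAt)
  intro t; rw [deriv_Lm']; exact bb_nonneg t

theorem Lm'_nonneg (t : ℝ) : 0 ≤ Lm' t := by
  rcases le_total t 0 with h | h
  · rw [Lm'_of_nonpos h]
  · have := Lm'_mono h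
    rwa [Lm'_of_nonpos le_rfl] at this

theorem Lm'_le_one (t : ℝ) : Lm' t ≤ 1 := by
  rcases le_total 1 t with h | h
  · rw [Lm'_of_one_le h]
  · have := Lm'_mono h
    rwa [Lm'_of_one_le le_rfl] at this

theorem Lm'_abs_le (t : ℝ) : |Lm' t| ≤ 1 := by
  rw [abs_of_nonneg (Lm'_nonneg t)]; exact Lm'_le_one t

theorem Lm_zero : Lm 0 = 0 := by simp [Lm]

theorem Lm_of_nonpos {t : ℝ} (ht : t ≤ 0) : Lm t = 0 := by
  unfold Lm
  rw [intervalIntegral.integral_symm, neg_eq_zero]
  have : ∫ s in t..(0 : ℝ), Lm' s = ∫ s in t..(0 : ℝ), (0 : ℝ) := by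
    apply intervalIntegral.integral_congr
    intro s hs
    rw [uIcc_of_le ht] at hs
    exact Lm'_of_nonpos hs.2
  rw [this]; simp

theorem Lm_mono : Monotone Lm := by
  apply monotone_of_deriv_nonneg (fun t => (Lm_hasDeriv t).differentiableAt)
  intro t; rw [deriv_Lm]; exact Lm'_nonneg t

theorem Lm_nonneg (t : ℝ) : 0 ≤ Lm t := by
  rcases le_total t 0 with h | h
  · rw [Lm_of_nonpos h]
  · have := Lm_mono h
    rwa [Lm_zero] at this

theorem Lm_lip (s t : ℝ) : |Lm s - Lm t| ≤ |s - t| := by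
  have := lipschitz_of_deriv_bound Lm_contDiff1 (C := 1)
    (fun s => by rw [deriv_Lm]; exact Lm'_abs_le s) s t
  simpa using this

/-- slope between `0` and `1` -/
theorem Lm_sub_le {s t : ℝ} (h : s ≤ t) : Lm t - Lm s ≤ t - s := by
  have := Lm_lip t s
  rw [abs_of_nonneg (show 0 ≤ t - s by linarith)] at this
  exact (le_abs_self _).trans this

theorem Lm_le {t : ℝ} (h : 0 ≤ t) : Lm t ≤ t := by
  have := Lm_sub_le h
  rw [Lm_zero] at this; linarith

theorem Lm_ge (t : ℝ) : t - 1 ≤ Lm t := by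
  rcases le_total t 1 with h | h
  · have := Lm_nonneg t; linarith
  · have e : Lm t = Lm 1 + (t - 1) := by
      unfold Lm
      rw [← intervalIntegral.integral_add_adjacent_intervals (a := 0) (b := 1) (c := t)
        (Lm'_cont.intervalIntegrable _ _) (Lm'_cont.intervalIntegrable _ _)]
      have : ∫ s in (1 : ℝ)..t, Lm' s = ∫ s in (1 : ℝ)..t, (1 : ℝ) := by
        apply intervalIntegral.integral_congr
        intro s hs
        rw [uIcc_of_le h] at hs
        exact Lm'_of_one_le hs.1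
      rw [this]; simp
    rw [e]
    have := Lm_nonneg 1; linarith

theorem Lm_eq_of_one_le {s t : ℝ} (hs : 1 ≤ s) (ht : 1 ≤ t) : Lm s - Lm t = s - t := by
  have key : ∀ t, 1 ≤ t → Lm t = Lm 1 + (t - 1) := by
    intro t h
    unfold Lm
    rw [← intervalIntegral.integral_add_adjacent_intervals (a := 0) (b := 1) (c := t)
      (Lm'_cont.intervalIntegrable _ _) (Lm'_cont.intervalIntegrable _ _)]
    have : ∫ s in (1 : ℝ)..t, Lm' s = ∫ s in (1 : ℝ)..t, (1 : ℝ) := by
      apply intervalIntegral.integral_congr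
      intro s hs
      rw [uIcc_of_le h] at hs
      exact Lm'_of_one_le hs.1
    rw [this]; simp
  rw [key s hs, key t ht]; ring

/-- `|Lm(x) - max 0 x| ≤ 1` -/
theorem Lm_approx (t : ℝ) : |Lm t - max 0 t| ≤ 1 := by
  rcases le_total t 0 with h | h
  · rw [Lm_of_nonpos h, max_eq_left h]; simp
  · rw [max_eq_right h, abs_le]
    have := Lm_le h
    have := Lm_ge t
    constructor <;> linarith

end Pool.Agent.Lib.MP_f46d6a
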