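import Pool.Agent.Lib.MP_f46d6a.Comp3

/-!
# Bounds for the source of the stress identity; cutoff functions
-/

set_option autoImplicit false

open MeasureTheory Set Filter Topology
open scoped ContDiff

namespace Pool.Agent.Lib.MP_f46d6a

open Pool.Agent.Lib.MP_dac83a

/-- sup bound of the source -/
noncomputable def MT : ℝ := 2 * C0 + C0 ^ 2 + 2

/-- constant in the `L²` bound of the source -/
noncomputable def KT : ℝ := 3 * (5 + 2 * (C0 + 1) ^ 2)

theorem MT_pos : 0 < MT := by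
  have := C0_pos
  unfold MT; positivity

theorem KT_pos : 0 < KT := by
  have := C0_pos
  unfold KT; positivity

/-- source of the stress identity -/
noncomputable def sT (α : ℝ) (Ω : Set P) (w p : P → ℝ) (z : P) : ℝ :=
  2 * w z - p z ^ 2 - Ω.indicator (fun _ => (2 - α) * (∫ z, w z) / vol Ω) z

namespace Crit

variable {δ α : ℝ} {Ω : Set P} {w wx wy p px py : P → ℝ}

theorem cbounds (h : Crit δ α Ω w wx wy p px py) :
    0 ≤ (2 - α) * (∫ z, w z) / vol Ω ∧ (2 - α) * (∫ z, w z) / vol Ω ≤ 2 ∧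
    (1 - (2 - α) * (∫ z, w z) / vol Ω) ^ 2 ≤ δ ^ 2 := by
  have hV := h.volpos
  have hT := h.T_le
  have hT0 : 0 ≤ ∫ z, w z := int_nonneg_ae h.tor.nonneg
  have h0 := h.α0
  have h1 := h.α1
  have h2 := h.δ0
  have h3 := h.δ1
  have h4 := h.deficit
  have q0 : 0 ≤ (∫ z, w z) / vol Ω := div_nonneg hT0 hV.le
  have q1 : (∫ z, w z) / vol Ω ≤ 1 := by rw [div_le_one hV]; exact hT
  have q2 : 1 - δ ≤ (∫ z, w z) / vol Ω := by rw [le_div_iff₀ hV]; exact h4
  set q := (∫ z, w z) / vol Ω with hq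
  have e : (2 - α) * (∫ z, w z) / vol Ω = (2 - α) * q := by rw [hq]; ring
  rw [e]
  refine ⟨mul_nonneg (by linarith) q0, by nlinarith, ?_⟩
  have a1 : 1 - δ ≤ (2 - α) * q := by nlinarith
  have a2 : (2 - α) * q ≤ 1 + δ := by nlinarith
  rw [← sq_abs]
  apply pow_le_pow_left₀ (abs_nonneg _)
  rw [abs_le]; constructor <;> linarith

theorem sT_bdd (h : Crit δ α Ω w wx wy p px py) : ∀ᵐ z, |sT α Ω w p z| ≤ MT := by
  obtain ⟨c0, c1, -⟩ := h.cbounds
  filter_upwards [h.w_le, h.tor.nonneg, h.eig.nonneg, h.p_le] with z h1 h2 h3 h4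
  have hi : 0 ≤ Ω.indicator (fun _ => (2 - α) * (∫ z, w z) / vol Ω) z :=
    indicator_nonneg (fun _ _ => c0) z
  have hi2 : Ω.indicator (fun _ => (2 - α) * (∫ z, w z) / vol Ω) z ≤ 2 := by
    by_cases hz : z ∈ Ω
    · rw [indicator_of_mem hz]; exact c1
    · rw [indicator_of_notMem hz]; norm_num
  have hp2 : p z ^ 2 ≤ C0 ^ 2 := pow_le_pow_left₀ h3 h4 2
  have hp0 := sq_nonneg (p z)
  have hC := C0_pos
  unfold sT MT
  rw [abs_le]
  constructor <;> nlinarith

theorem sT_memLp (h : Crit δ α Ω w wx wy p px py) : MemLp (sT α Ω w p) 2 volume := by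
  have m1 := mcm 2 h.tor.mem.mu
  have m2 : MemLp (fun z => p z ^ 2) 2 volume := by
    have := mbmul (c := p) (C := C0) h.eig.mem.mu.aestronglyMeasurable (by
      filter_upwards [h.eig.nonneg, h.p_le] with z h3 h4
      rw [abs_of_nonneg h3]; exact h4) h.eig.mem.mu
    refine this.ae_eq ?_
    filter_upwards with z; ring
  have m3 : MemLp (Ω.indicator (fun _ : P => (2 - α) * (∫ z, w z) / vol Ω)) 2 volume :=
    memLp_indicator_const 2 h.isOpen.measurableSet _ (Or.inr h.finite)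
  exact msub (msub m1 m2) m3

theorem sT_sq (h : Crit δ α Ω w wx wy p px py) : ∫ z, sT α Ω w p z ^ 2 ≤ KT * δ * vol Ω := by
  obtain ⟨c0, c1, c2⟩ := h.cbounds
  have i1 : Integrable (fun z => (Ω.indicator (fun _ => (1 : ℝ)) z - w z) ^ 2) :=
    (msub h.one_memLp h.tor.mem.mu).integrable_sq
  have i2 : Integrable (fun z => (Ω.indicator (fun _ => (1 : ℝ)) z - p z) ^ 2) :=
    (msub h.one_memLp h.eig.mem.mu).integrable_sq
  have i3 := h.one_int
  have hb : ∫ z, sT α Ω w p z ^ 2 ≤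
      ∫ z, ((12 * (Ω.indicator (fun _ => (1 : ℝ)) z - w z) ^ 2
        + 3 * (C0 + 1) ^ 2 * (Ω.indicator (fun _ => (1 : ℝ)) z - p z) ^ 2)
        + 3 * δ ^ 2 * Ω.indicator (fun _ => (1 : ℝ)) z) := by
    apply int_mono_ae h.sT_memLp.integrable_sq (iadd (iadd (icm _ i1) (icm _ i2)) (icm _ i3))
    filter_upwards [h.off, h.eig.nonneg, h.p_le] with z hoff h3 h4
    unfold sT
    by_cases hz : z ∈ Ω
    · simp only [indicator_of_mem hz]
      set c := (2 - α) * (∫ z, w z) / vol Ω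
      have e1 : 2 * w z - p z ^ 2 - c = (-2 * (1 - w z)) + ((1 - p z) * (1 + p z)) + (1 - c) := by ring
      have e2 : (1 + p z) ^ 2 ≤ (C0 + 1) ^ 2 := pow_le_pow_left₀ (by linarith) (by linarith) 2
      have e3 : ((1 - p z) * (1 + p z)) ^ 2 ≤ (C0 + 1) ^ 2 * (1 - p z) ^ 2 := by
        rw [mul_pow, mul_comm]
        exact mul_le_mul_of_nonneg_right e2 (sq_nonneg _)
      rw [e1]
      have e4 : ∀ a b c : ℝ, (a + b + c) ^ 2 ≤ 3 * a ^ 2 + 3 * b ^ 2 + 3 * c ^ 2 := by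
        intro a b c
        nlinarith [sq_nonneg (a - b), sq_nonneg (a - c), sq_nonneg (b - c)]
      have e5 := e4 (-2 * (1 - w z)) ((1 - p z) * (1 + p z)) (1 - c)
      have e6 : 3 * (-2 * (1 - w z)) ^ 2 = 12 * (1 - w z) ^ 2 := by ring
      linarith
    · obtain ⟨o1, o2⟩ := hoff hz
      simp only [indicator_of_notMem hz, o1, o2]
      norm_num
  refine hb.trans ?_
  rw [int_add (iadd (icm _ i1) (icm _ i2)) (icm _ i3), int_add (icm _ i1) (icm _ i2), int_cm, int_cm,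
    int_cm, h.int_one]
  have d1 := h.w_deficit
  have d2 := h.p_deficit
  have d3 := h.deficit
  have hV := h.volpos
  have h2 := h.δ0
  have h3 := h.δ1
  have d4 : vol Ω - (∫ z, w z) ≤ δ * vol Ω := by linarith
  have hC := C0_pos
  have d5 : 3 * (C0 + 1) ^ 2 * (∫ z, (Ω.indicator (fun _ => (1 : ℝ)) z - p z) ^ 2)
      ≤ 3 * (C0 + 1) ^ 2 * (2 * δ * vol Ω) := mul_le_mul_of_nonneg_left d2 (by positivity)
  have d6 : δ ^ 2 * vol Ω ≤ δ * vol Ω := by
    apply mul_le_mul_of_nonneg_right _ hV.le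
    nlinarith
  unfold KT
  nlinarith

theorem sA_int (h : Crit δ α Ω w wx wy p px py) : Integrable (sA wx wy px py) := by
  unfold sA
  exact isub (isub h.tor.mem.ma.integrable_sq h.tor.mem.mb.integrable_sq)
    (isub h.eig.mem.ma.integrable_sq h.eig.mem.mb.integrable_sq)

theorem sB_int (h : Crit δ α Ω w wx wy p px py) : Integrable (sB wx wy px py) := by
  unfold sB
  exact icm 2 (isub (integrable_mul2 h.tor.mem.ma h.tor.mem.mb)
    (integrable_mul2 h.eig.mem.ma h.eig.mem.mb))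

theorem stress' (h : Crit δ α Ω w wx wy p px py) :
    StressId (sA wx wy px py) (sB wx wy px py) (sT α Ω w p) := h.stress

end Crit

/-! ### cutoff functions -/

/-- one-dimensional cutoff -/
noncomputable def c1f (r t : ℝ) : ℝ := Lm' (r + 1 - t) * Lm' (r + 1 + t)

theorem c1f_contDiff (r : ℝ) : ContDiff ℝ 1 (c1f r) := by
  unfold c1f
  exact (Lm'_contDiff.comp (by fun_prop)).mul (Lm'_contDiff.comp (by fun_prop))

theorem c1f_nonneg (r t : ℝ) : 0 ≤ c1f r t := mul_nonneg (Lm'_nonneg _) (Lm'_nonneg _)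

theorem c1f_le (r t : ℝ) : c1f r t ≤ 1 :=
  mul_le_one₀ (Lm'_le_one _) (Lm'_nonneg _) (Lm'_le_one _)

theorem c1f_one {r t : ℝ} (h : |t| ≤ r) : c1f r t = 1 := by
  rw [abs_le] at h
  unfold c1f
  rw [Lm'_of_one_le (by linarith), Lm'_of_one_le (by linarith), one_mul]

theorem c1f_zero {r t : ℝ} (h : r + 1 ≤ |t|) : c1f r t = 0 := by
  unfold c1f
  rcases le_total 0 t with h0 | h0
  · rw [abs_of_nonneg h0] at h
    rw [Lm'_of_nonpos (by linarith), zero_mul]
  · rw [abs_of_nonpos h0] at h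
    rw [Lm'_of_nonpos (show r + 1 + t ≤ 0 by linarith), mul_zero]

theorem c1f_hasDeriv (r t : ℝ) :
    HasDerivAt (c1f r) (-bb (r + 1 - t) * Lm' (r + 1 + t) + Lm' (r + 1 - t) * bb (r + 1 + t)) t := by
  have h1 : HasDerivAt (fun t : ℝ => Lm' (r + 1 - t)) (-bb (r + 1 - t)) t := by
    have := (Lm'_hasDeriv (r + 1 - t)).comp t ((hasDerivAt_id t).const_sub (r + 1))
    exact this.congr_deriv (by simp)
  have h2 : HasDerivAt (fun t : ℝ => Lm' (r + 1 + t)) (bb (r + 1 + t)) t := by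
    have := (Lm'_hasDeriv (r + 1 + t)).comp t ((hasDerivAt_id t).const_add (r + 1))
    exact this.congr_deriv (by simp)
  exact h1.mul h2

theorem c1f_deriv_le (r t : ℝ) : |deriv (c1f r) t| ≤ 4 := by
  rw [(c1f_hasDeriv r t).deriv, abs_le]
  have a1 := bb_le (r + 1 - t)
  have a2 := bb_le (r + 1 + t)
  have a3 := bb_nonneg (r + 1 - t)
  have a4 := bb_nonneg (r + 1 + t)
  have a5 := Lm'_nonneg (r + 1 - t)
  have a6 := Lm'_nonneg (r + 1 + t)
  have a7 := Lm'_le_one (r + 1 - t)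
  have a8 := Lm'_le_one (r + 1 + t)
  have b1 : bb (r + 1 - t) * Lm' (r + 1 + t) ≤ 2 := by nlinarith
  have b2 : Lm' (r + 1 - t) * bb (r + 1 + t) ≤ 2 := by nlinarith
  have b3 : 0 ≤ bb (r + 1 - t) * Lm' (r + 1 + t) := mul_nonneg a3 a6
  have b4 : 0 ≤ Lm' (r + 1 - t) * bb (r + 1 + t) := mul_nonneg a5 a4
  constructor <;> nlinarith

/-- cutoff function: `1` on `closedBall x r`, `0` off `closedBall x (r+1)` -/
noncomputable def c2f (r : ℝ) (x z : P) : ℝ := c1f r (z.1 - x.1) * c1f r (z.2 - x.2)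

theorem c2f_contDiff (r : ℝ) (x : P) : ContDiff ℝ 1 (c2f r x) := by
  unfold c2f
  exact ((c1f_contDiff r).comp (contDiff_fst.sub contDiff_const)).mul
    ((c1f_contDiff r).comp (contDiff_snd.sub contDiff_const))

theorem c2f_nonneg (r : ℝ) (x z : P) : 0 ≤ c2f r x z := mul_nonneg (c1f_nonneg _ _) (c1f_nonneg _ _)

theorem c2f_le (r : ℝ) (x z : P) : c2f r x z ≤ 1 :=
  mul_le_one₀ (c1f_le _ _) (c1f_nonneg _ _) (c1f_le _ _)

theorem c2f_one {r : ℝ} {x z : P} (h : z ∈ Metric.closedBall x r) : c2f r x z = 1 := by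
  rw [Metric.mem_closedBall, dist_eq_norm, Prod.norm_def, max_le_iff] at h
  have h1 : |z.1 - x.1| ≤ r := h.1
  have h2 : |z.2 - x.2| ≤ r := h.2
  unfold c2f
  rw [c1f_one h1, c1f_one h2, one_mul]

theorem c2f_zero {r : ℝ} {x z : P} (h : z ∉ Metric.ball x (r + 1)) : c2f r x z = 0 := by
  rw [Metric.mem_ball, not_lt, dist_eq_norm, Prod.norm_def, le_max_iff] at h
  unfold c2f
  rcases h with h | h
  · have h1 : r + 1 ≤ |z.1 - x.1| := h
    rw [c1f_zero h1, zero_mul]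
  · have h1 : r + 1 ≤ |z.2 - x.2| := h
    rw [c1f_zero h1, mul_zero]

theorem c2f_dd_ex (r : ℝ) (x z : P) :
    dd ex (c2f r x) z = deriv (c1f r) (z.1 - x.1) * c1f r (z.2 - x.2) := by
  have h1 : HasDerivAt (c1f r) (deriv (c1f r) (z.1 - x.1)) (z.1 - x.1) :=
    ((c1f_contDiff r).differentiable (by norm_num) _).hasDerivAt
  have h2 : HasDerivAt (c1f r) (deriv (c1f r) (z.2 - x.2)) (z.2 - x.2) :=
    ((c1f_contDiff r).differentiable (by norm_num) _).hasDerivAt
  have f1 : HasFDerivAt (fun z : P => z.1 - x.1) (ContinuousLinearMap.fst ℝ ℝ ℝ) z :=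
    hasFDerivAt_fst.sub_const _
  have f2 : HasFDerivAt (fun z : P => z.2 - x.2) (ContinuousLinearMap.snd ℝ ℝ ℝ) z :=
    hasFDerivAt_snd.sub_const _
  have g1 := h1.comp_hasFDerivAt z f1
  have g2 := h2.comp_hasFDerivAt z f2
  have g := g1.mul g2
  have e : dd ex (c2f r x) z = (fderiv ℝ (c2f r x) z) ex := rfl
  rw [e]
  have : fderiv ℝ (c2f r x) z = _ := g.fderiv
  rw [this]
  simp [ex]
  ring

theorem c2f_dd_ey (r : ℝ) (x z : P) :
    dd ey (c2f r x) z = c1f r (z.1 - x.1) * deriv (c1f r) (z.2 - x.2) := by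
  have h1 : HasDerivAt (c1f r) (deriv (c1f r) (z.1 - x.1)) (z.1 - x.1) :=
    ((c1f_contDiff r).differentiable (by norm_num) _).hasDerivAt
  have h2 : HasDerivAt (c1f r) (deriv (c1f r) (z.2 - x.2)) (z.2 - x.2) :=
    ((c1f_contDiff r).differentiable (by norm_num) _).hasDerivAt
  have f1 : HasFDerivAt (fun z : P => z.1 - x.1) (ContinuousLinearMap.fst ℝ ℝ ℝ) z :=
    hasFDerivAt_fst.sub_const _
  have f2 : HasFDerivAt (fun z : P => z.2 - x.2) (ContinuousLinearMap.snd ℝ ℝ ℝ) z :=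
    hasFDerivAt_snd.sub_const _
  have g1 := h1.comp_hasFDerivAt z f1
  have g2 := h2.comp_hasFDerivAt z f2
  have g := g1.mul g2
  have e : dd ey (c2f r x) z = (fderiv ℝ (c2f r x) z) ey := rfl
  rw [e]
  have : fderiv ℝ (c2f r x) z = _ := g.fderiv
  rw [this]
  simp [ey]

theorem c2f_dd_le (r : ℝ) (x z : P) : |dd ex (c2f r x) z| ≤ 4 ∧ |dd ey (c2f r x) z| ≤ 4 := by
  rw [c2f_dd_ex, c2f_dd_ey, abs_mul, abs_mul]
  have h1 := c1f_deriv_le r (z.1 - x.1)
  have h2 := c1f_deriv_le r (z.2 - x.2)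
  have h3 : |c1f r (z.1 - x.1)| ≤ 1 := by
    rw [abs_of_nonneg (c1f_nonneg _ _)]; exact c1f_le _ _
  have h4 : |c1f r (z.2 - x.2)| ≤ 1 := by
    rw [abs_of_nonneg (c1f_nonneg _ _)]; exact c1f_le _ _
  constructor
  · nlinarith [abs_nonneg (deriv (c1f r) (z.1 - x.1)), abs_nonneg (c1f r (z.2 - x.2))]
  · nlinarith [abs_nonneg (deriv (c1f r) (z.2 - x.2)), abs_nonneg (c1f r (z.1 - x.1))]

theorem c2f_tsupport {r : ℝ} (x : P) : tsupport (c2f r x) ⊆ Metric.closedBall x (r + 1) := by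
  apply closure_minimal _ Metric.isClosed_closedBall
  intro z hz
  by_contra h
  exact hz (c2f_zero (fun h' => h (Metric.ball_subset_closedBall h')))

theorem c2f_test {r R : ℝ} (x : P) (hR : r + 1 < R) : IsTest1 (Metric.ball x R) (c2f r x) := by
  refine ⟨c2f_contDiff r x, ?_, ?_⟩
  · exact (isCompact_closedBall x (r + 1)).of_isClosed_subset (isClosed_tsupport _) (c2f_tsupport x)
  · exact (c2f_tsupport x).trans (Metric.closedBall_subset_ball hR)

theorem c2f_dd_off {r : ℝ} {x z : P} (h : z ∉ Metric.closedBall x (r + 1)) (v : P) :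
    dd v (c2f r x) z = 0 :=
  dd_zero_of_notMem_tsupport (fun h' => h (c2f_tsupport x h')) v

end Pool.Agent.Lib.MP_f46d6a
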