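import Pool.Agent.Lib.MP_f46d6a.Cut
import Pool.Agent.Lib.MP_f46d6a.Slicing

/-!
# Small utilities on integrals
-/

set_option autoImplicit false

open MeasureTheory Set Filter Topology
open scoped ContDiff

namespace Pool.Agent.Lib.MP_f46d6a

open Pool.Agent.Lib.MP_dac83a

section

variable {α : Type} [MeasurableSpace α] {ν : Measure α} {f g h : α → ℝ}

theorem iadd (hf : Integrable f ν) (hg : Integrable g ν) : Integrable (fun z => f z + g z) ν :=
  hf.add hg

theorem isub (hf : Integrable f ν) (hg : Integrable g ν) : Integrable (fun z => f z - g z) ν :=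
  hf.sub hg

theorem icm (c : ℝ) (hf : Integrable f ν) : Integrable (fun z => c * f z) ν := hf.const_mul c

theorem ineg (hf : Integrable f ν) : Integrable (fun z => - f z) ν := hf.neg

theorem madd (hf : MemLp f 2 ν) (hg : MemLp g 2 ν) : MemLp (fun z => f z + g z) 2 ν := hf.add hg

theorem msub (hf : MemLp f 2 ν) (hg : MemLp g 2 ν) : MemLp (fun z => f z - g z) 2 ν := hf.sub hg

theorem mcm (c : ℝ) (hf : MemLp f 2 ν) : MemLp (fun z => c * f z) 2 ν := hf.const_mul c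

theorem int_mono (hf : Integrable f ν) (hg : Integrable g ν) (h : ∀ z, f z ≤ g z) :
    ∫ z, f z ∂ν ≤ ∫ z, g z ∂ν := integral_mono hf hg h

theorem int_mono_ae (hf : Integrable f ν) (hg : Integrable g ν) (h : ∀ᵐ z ∂ν, f z ≤ g z) :
    ∫ z, f z ∂ν ≤ ∫ z, g z ∂ν := integral_mono_ae hf hg h

theorem int_nonneg_ae (h : ∀ᵐ z ∂ν, 0 ≤ f z) : 0 ≤ ∫ z, f z ∂ν := integral_nonneg_of_ae h

theorem int_add (hf : Integrable f ν) (hg : Integrable g ν) :
    ∫ z, (f z + g z) ∂ν = (∫ z, f z ∂ν) + ∫ z, g z ∂ν := integral_add hf hg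

theorem int_sub (hf : Integrable f ν) (hg : Integrable g ν) :
    ∫ z, (f z - g z) ∂ν = (∫ z, f z ∂ν) - ∫ z, g z ∂ν := integral_sub hf hg

theorem int_cm (c : ℝ) (f : α → ℝ) : ∫ z, c * f z ∂ν = c * ∫ z, f z ∂ν := integral_const_mul c f

theorem int_cadd (a b : ℝ) (hf : Integrable f ν) (hg : Integrable g ν) :
    ∫ z, (a * f z + b * g z) ∂ν = a * (∫ z, f z ∂ν) + b * ∫ z, g z ∂ν := by
  rw [int_add (icm a hf) (icm b hg), int_cm, int_cm]

/-- bounded measurable multiple of an integrable function -/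
theorem ibmul {c : α → ℝ} {C : ℝ} (hc : AEStronglyMeasurable c ν) (hb : ∀ᵐ z ∂ν, |c z| ≤ C)
    (hf : Integrable f ν) : Integrable (fun z => c z * f z) ν := by
  refine (hf.norm.const_mul C).mono' (hc.mul hf.aestronglyMeasurable) ?_
  filter_upwards [hb] with z hz
  rw [norm_mul]
  exact mul_le_mul_of_nonneg_right hz (norm_nonneg _)

/-- bounded measurable multiple of an `L²` function -/
theorem mbmul {c : α → ℝ} {C : ℝ} (hc : AEStronglyMeasurable c ν) (hb : ∀ᵐ z ∂ν, |c z| ≤ C)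
    (hf : MemLp f 2 ν) : MemLp (fun z => c z * f z) 2 ν := by
  refine (hf.const_mul C).of_le (hc.mul hf.aestronglyMeasurable) ?_
  filter_upwards [hb] with z hz
  rw [norm_mul, norm_mul]
  exact mul_le_mul_of_nonneg_right (hz.trans (le_abs_self C)) (norm_nonneg _)

/-- restriction to a measurable set -/
theorem mind {S : Set α} (hS : MeasurableSet S) (hf : MemLp f 2 ν) :
    MemLp (fun z => S.indicator f z) 2 ν := hf.indicator hS

theorem iind {S : Set α} (hS : MeasurableSet S) (hf : Integrable f ν) :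
    Integrable (fun z => S.indicator f z) ν := hf.indicator hS

/-- Cauchy-Schwarz, squared form -/
theorem cs_sq (hf : MemLp f 2 ν) (hg : MemLp g 2 ν) :
    (∫ z, |f z * g z| ∂ν) ^ 2 ≤ (∫ z, f z ^ 2 ∂ν) * ∫ z, g z ^ 2 ∂ν := by
  have h1 := cauchy_schwarz hf hg
  have e : ∫ z, |f z * g z| ∂ν = ∫ z, |f z| * |g z| ∂ν := by
    congr 1; ext z; rw [abs_mul]
  rw [e]
  have n1 : 0 ≤ ∫ z, f z ^ 2 ∂ν := integral_nonneg fun z => sq_nonneg _
  have n2 : 0 ≤ ∫ z, g z ^ 2 ∂ν := integral_nonneg fun z => sq_nonneg _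
  have n3 : 0 ≤ ∫ z, |f z| * |g z| ∂ν := integral_nonneg fun z => by positivity
  calc (∫ z, |f z| * |g z| ∂ν) ^ 2 ≤ (√(∫ z, f z ^ 2 ∂ν) * √(∫ z, g z ^ 2 ∂ν)) ^ 2 := by gcongr
    _ = _ := by rw [mul_pow, Real.sq_sqrt n1, Real.sq_sqrt n2]

end

end Pool.Agent.Lib.MP_f46d6a
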